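import Pool.Agent.Y883.T6.Low6

set_option autoImplicit false

/-! The main term of a linear equation in three unknowns is large: the parameters. -/

namespace Pool.Agent.Y883.T6

open Finset
open Pool.Agent.H373R2.T7
open Pool.Agent.Y883.T3
open Pool.Agent.Y883.T5

lemma natdiv_ge (a b : ℕ) (hb : 1 ≤ b) : (a : ℝ) / b - 1 ≤ ((a / b : ℕ) : ℝ) := by
  have hb0 : (0 : ℝ) < b := by exact_mod_cast hb
  have h := Nat.lt_mul_div_succ a (by omega : 0 < b)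
  have h2 : (a : ℝ) < b * (((a / b : ℕ) : ℝ) + 1) := by exact_mod_cast h
  rw [sub_le_iff_le_add, div_le_iff₀ hb0, mul_comm]
  exact h2.le

/-- the numerical conditions for the window -/
lemma win_num {N w a3 M r0 R' n K3 : ℕ} {d : ℤ} (hd1 : 0 ≤ d + w) (hd2 : 3 * (d + w) ≤ N) (hw : 3 * w ≤ N)
    (hr0 : w + N / 20 < a3 * r0) (hr0' : a3 * r0 ≤ w + N / 20 + a3) (hR1 : r0 ≤ R') (hR2 : R' < r0 + M)
    (hK3 : K3 * (17 * (a3 * M)) ≤ N) (hn : n ≤ K3) (h1000 : 1000 * (a3 + a3 * M) ≤ N) :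
    2 * (a3 * (R' + M * n)) < N ∧ (N : ℤ) / 20 + 1 ≤ d + a3 * ((R' + M * n : ℕ) : ℤ) ∧
      2 * (d + a3 * ((R' + M * n : ℕ) : ℤ)) < N := by
  have e1 : a3 * (R' + M * n) ≤ a3 * r0 + a3 * M + a3 * M * n := by
    calc a3 * (R' + M * n) ≤ a3 * (r0 + M + M * n) := Nat.mul_le_mul_left _ (by omega)
      _ = _ := by ring
  have e2 : 17 * (a3 * M * n) ≤ N := by
    calc 17 * (a3 * M * n) ≤ 17 * (a3 * M * K3) := by gcongr
      _ = K3 * (17 * (a3 * M)) := by ring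
      _ ≤ N := hK3
  have e3 : a3 * r0 ≤ a3 * (R' + M * n) := Nat.mul_le_mul_left _ (by omega)
  obtain ⟨x, hx⟩ : ∃ x, x = a3 * (R' + M * n) := ⟨_, rfl⟩
  obtain ⟨y, hy⟩ : ∃ y, y = a3 * r0 := ⟨_, rfl⟩
  obtain ⟨u, hu⟩ : ∃ u, u = a3 * M * n := ⟨_, rfl⟩
  obtain ⟨v, hv⟩ : ∃ v, v = a3 * M := ⟨_, rfl⟩
  have hx' : (a3 : ℤ) * ((R' + M * n : ℕ) : ℤ) = (x : ℤ) := by rw [hx]; push_cast; ring
  rw [hx', ← hx]
  rw [← hx, ← hy] at e3
  rw [← hx, ← hy, ← hu, ← hv] at e1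
  rw [← hu] at e2
  rw [← hy] at hr0 hr0'
  rw [← hv] at h1000
  refine ⟨by omega, by omega, by omega⟩

theorem low (T E : ℕ) (σ : ℝ) (hσ : 0 < σ) : ∃ N₀ : ℕ, ∀ N : ℕ, N₀ ≤ N → ∀ z : ℕ, Real.log N ^ 5 ≤ (z : ℝ) → (z : ℝ) ≤ Real.log N ^ E →
    ∀ a1 a2 a3 : ℕ, 1 ≤ a1 → 1 ≤ a2 → 1 ≤ a3 → ((a1 * a2 : ℕ) : ℝ) ≤ (N : ℝ) ^ (1 - 2 * σ) →
    (a3 : ℝ) ≤ (N : ℝ) ^ (1 - 2 * σ) → ((Nat.gcd a1 a2 : ℕ) : ℝ) ≤ Real.log N ^ T →
    ∀ d : ℤ, 3 * |d| ≤ N → Adm a1 a2 a3 d → ∀ P1 P2 P3 : ℕ, N < 2 * (a1 * P1) → N < 2 * (a2 * P2) →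
    N < 2 * (a3 * P3) → ∀ m1 m2 m3 : ℕ → ℝ, (∀ n, 0 ≤ m1 n) → (∀ n, 0 ≤ m2 n) → (∀ n, 0 ≤ m3 n) →
    (∀ n, (∀ p ∈ pz z, ¬ p ∣ n) → 1 ≤ m1 n) → (∀ n, (∀ p ∈ pz z, ¬ p ∣ n) → 1 ≤ m2 n) →
    (∀ n, (∀ p ∈ pz z, ¬ p ∣ n) → 1 ≤ m3 n) →
    (N : ℝ) ^ 2 / (a1 * a2 * a3 * Real.log N ^ (6 * T + 9)) ≤ S3 a1 a2 (-(a3 : ℤ)) d P1 P2 P3 m1 m2 m3 := by
  classical
  obtain ⟨N₁, h1⟩ := good_count E σ hσ
  obtain ⟨N₂, h2⟩ := main_low (E + 1)
  obtain ⟨N₃, h3⟩ := Vz_inv_small E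
  obtain ⟨C₀, hC₀⟩ := exists_nat_ge (1 / σ)
  have hC0 : (0 : ℝ) < C₀ := lt_of_lt_of_le (by positivity) hC₀
  have hCσ : 1 / (C₀ : ℝ) ≤ σ := by
    rw [div_le_iff₀ hC0]
    rw [div_le_iff₀ hσ] at hC₀
    linarith
  obtain ⟨N₄, h4⟩ := ev_L' (100 + C₀ * C₀ ^ E)
  obtain ⟨N₅, h5⟩ := ev_log_rpow (6 * T) 60000 σ hσ
  obtain ⟨N₆, h6⟩ := tendsto_pow_log (N₂ + 2 : ℝ) σ hσ
  refine ⟨N₁ + N₃ + N₄ + N₅ + N₆ + 100, fun N hN z hz1 hz2 a1 a2 a3 ha1 ha2 ha3 h12 h3' hgT d hd hadm P1 P2 P3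
    hP1 hP2 hP3 m1 m2 m3 p1 p2 p3 q1 q2 q3 => ?_⟩
  have c1 := h1 N (by omega) z hz1 hz2
  have hL := h4 N (by omega)
  have c5 := h5 N (by omega)
  have c6 := h6 N (by omega)
  have hN100 : 100 ≤ N := by omega
  have hN0 : (0 : ℝ) < N := by exact_mod_cast (by omega : 0 < N)
  have hN1r : (1 : ℝ) ≤ N := by exact_mod_cast (by omega : 1 ≤ N)
  obtain ⟨L, hLd⟩ : ∃ L, L = Real.log (N : ℝ) := ⟨_, rfl⟩
  rw [← hLd] at hL c1 c5 hz1 hz2 hgT ⊢
  have h4E : (0 : ℝ) ≤ C₀ * C₀ ^ E := by positivity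
  have hL100 : 100 ≤ L := by linarith
  have hL0 : 0 < L := by linarith
  have hL1 : 1 ≤ L := by linarith
  have hz1' : (1 : ℝ) ≤ z := (one_le_pow₀ hL1).trans hz1
  have hz1n : 1 ≤ z := by exact_mod_cast hz1'
  have c3 := h3 N (by omega) z hz1n (by rw [← hLd]; exact hz2)
  rw [← hLd] at c3
  -- the coefficients
  obtain ⟨g, hg⟩ : ∃ g, g = Nat.gcd a1 a2 := ⟨_, rfl⟩
  have hg1 : 1 ≤ g := by rw [hg]; exact Nat.gcd_pos_of_pos_left _ ha1
  obtain ⟨α1, α2, hcop, e1, e2⟩ := Nat.exists_coprime a1 a2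
  rw [← hg, mul_comm] at e1 e2
  rw [← hg] at hgT
  have hα1 : 1 ≤ α1 := by
    rcases Nat.eq_zero_or_pos α1 with h0 | h0
    · rw [h0, mul_zero] at e1; omega
    · exact h0
  have hα2 : 1 ≤ α2 := by
    rcases Nat.eq_zero_or_pos α2 with h0 | h0
    · rw [h0, mul_zero] at e2; omega
    · exact h0
  have hadm' : Adm (g * α1 : ℕ) (g * α2 : ℕ) a3 d := by rw [← e1, ← e2]; exact hadm
  obtain ⟨M, R, hM1, hM2, hRM, hMp, hloc⟩ := class6 g α1 α2 hg1 hcop a3 d hadm'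
  have hg0 : (0 : ℤ) < g := by exact_mod_cast hg1
  have hMr : (M : ℝ) ≤ 32 * L ^ (6 * T) := by
    calc (M : ℝ) ≤ ((32 * g ^ 6 : ℕ) : ℝ) := by exact_mod_cast hM2
      _ = 32 * (g : ℝ) ^ 6 := by push_cast; ring
      _ ≤ 32 * (L ^ T) ^ 6 := by gcongr
      _ = 32 * L ^ (6 * T) := by rw [← pow_mul, mul_comm T 6]
  -- numerical facts
  have hLT1 : 1 ≤ L ^ (6 * T) := one_le_pow₀ hL1
  have hpw : (N : ℝ) ^ (1 - 2 * σ) * (N : ℝ) ^ σ * (N : ℝ) ^ σ = N := by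
    rw [← Real.rpow_add hN0, ← Real.rpow_add hN0]
    have e : 1 - 2 * σ + σ + σ = 1 := by ring
    rw [e, Real.rpow_one]
  have hq1 : 1 ≤ (N : ℝ) ^ σ := Real.one_le_rpow hN1r hσ.le
  have h23 : 0 < (N : ℝ) ^ (1 - 2 * σ) := by positivity
  have h112 : 0 < (N : ℝ) ^ σ := by positivity
  have ha3M : (a3 : ℝ) * M * 1800 * (N : ℝ) ^ σ ≤ N := by
    have e3 : (a3 : ℝ) * M * 1800 ≤ (N : ℝ) ^ (1 - 2 * σ) * (N : ℝ) ^ σ := by
      calc (a3 : ℝ) * M * 1800 = a3 * (M * 1800) := by ring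
        _ ≤ (N : ℝ) ^ (1 - 2 * σ) * (60000 * L ^ (6 * T)) := by
            apply mul_le_mul h3' (by linarith) (by positivity) h23.le
        _ ≤ _ := mul_le_mul_of_nonneg_left c5 h23.le
    calc (a3 : ℝ) * M * 1800 * (N : ℝ) ^ σ ≤ (N : ℝ) ^ (1 - 2 * σ) * (N : ℝ) ^ σ * (N : ℝ) ^ σ :=
          mul_le_mul_of_nonneg_right e3 (by positivity)
      _ = N := hpw
  have ha12 : ((a1 * a2 : ℕ) : ℝ) * 60000 * (N : ℝ) ^ σ ≤ N := by
    have e3 : ((a1 * a2 : ℕ) : ℝ) * 60000 ≤ (N : ℝ) ^ (1 - 2 * σ) * (N : ℝ) ^ σ := by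
      refine mul_le_mul h12 ?_ (by norm_num) h23.le
      refine le_trans ?_ c5
      linarith
    calc ((a1 * a2 : ℕ) : ℝ) * 60000 * (N : ℝ) ^ σ ≤ (N : ℝ) ^ (1 - 2 * σ) * (N : ℝ) ^ σ * (N : ℝ) ^ σ :=
          mul_le_mul_of_nonneg_right e3 (by positivity)
      _ = N := hpw
  have hM0 : (0 : ℝ) < M := by exact_mod_cast hM1
  have ha30 : (0 : ℝ) < a3 := by exact_mod_cast ha3
  have ha20 : (0 : ℝ) < a2 := by exact_mod_cast ha2
  have ha10 : (0 : ℝ) < a1 := by exact_mod_cast ha1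
  have hα10 : (0 : ℝ) < α1 := by exact_mod_cast hα1
  have h1000 : 1000 * (a3 + a3 * M) ≤ N := by
    have e3 : (a3 : ℝ) * M * 1800 ≤ a3 * M * 1800 * (N : ℝ) ^ σ := le_mul_of_one_le_right (by positivity) hq1
    have e4 : (4 : ℝ) ≤ (N : ℝ) ^ σ := by
      have e5 : (60000 : ℝ) ≤ (N : ℝ) ^ σ := le_trans (by linarith) c5
      linarith
    have e5 : (a3 : ℝ) * M * 1800 * 4 ≤ N := by
      refine le_trans ?_ ha3M
      exact mul_le_mul_of_nonneg_left e4 (by positivity)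
    have e6 : (a3 : ℝ) ≤ a3 * M := le_mul_of_one_le_right ha30.le (by exact_mod_cast hM1)
    have e7 : ((1000 * (a3 + a3 * M) : ℕ) : ℝ) ≤ N := by
      push_cast
      nlinarith
    exact_mod_cast e7
  -- the window
  obtain ⟨w, hw⟩ : ∃ w : ℕ, (w : ℤ) = max 0 (-d) := ⟨(max 0 (-d)).toNat, Int.toNat_of_nonneg (le_max_left _ _)⟩
  have hw1 : 0 ≤ d + w := by
    have := le_max_right 0 (-d)
    omega
  have hw2 : 3 * (d + w) ≤ N := by
    rcases max_cases 0 (-d) with h | h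
    · have := le_abs_self d
      omega
    · omega
  have hw3 : 3 * w ≤ N := by
    rcases max_cases 0 (-d) with h | h
    · omega
    · have := neg_le_abs d
      omega
  obtain ⟨r0, hr0⟩ : ∃ r0, r0 = (w + N / 20) / a3 + 1 := ⟨_, rfl⟩
  have hr0a : w + N / 20 < a3 * r0 := by rw [hr0]; exact Nat.lt_mul_div_succ _ (by omega)
  have hr0b : a3 * r0 ≤ w + N / 20 + a3 := by
    rw [hr0, mul_add, mul_one]
    have := Nat.mul_div_le (w + N / 20) a3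
    omega
  obtain ⟨R', hR1, hR2, hR3⟩ := class_ge M R r0 hM1
  obtain ⟨K3, hK3⟩ : ∃ K3, K3 = N / (17 * (a3 * M)) := ⟨_, rfl⟩
  have hK3a : K3 * (17 * (a3 * M)) ≤ N := by rw [hK3]; exact Nat.div_mul_le_self _ _
  have hK3r : N / (18 * (a3 * M)) ≤ (K3 : ℝ) := by
    have e3 := natdiv_ge N (17 * (a3 * M)) (Nat.mul_pos (by norm_num) (Nat.mul_pos ha3 hM1))
    rw [← hK3] at e3
    push_cast at e3
    refine le_trans ?_ e3
    have e4 : (1 : ℝ) ≤ N / (306 * (a3 * M)) := by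
      rw [le_div_iff₀ (by positivity), one_mul]
      have : (a3 : ℝ) * M * 1800 ≤ a3 * M * 1800 * (N : ℝ) ^ σ := le_mul_of_one_le_right (by positivity) hq1
      have h0 : 0 < (a3 : ℝ) * M := by positivity
      linarith
    have e5 : (N : ℝ) / (17 * (a3 * M)) - N / (18 * (a3 * M)) = N / (306 * (a3 * M)) := by field_simp; norm_num
    linarith
  have hK3q : (N : ℝ) ^ σ ≤ K3 := by
    refine le_trans ?_ hK3r
    rw [le_div_iff₀ (by positivity)]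
    refine le_trans ?_ ha3M
    have h0 : 0 < (a3 : ℝ) * M := by positivity
    nlinarith
  have hR'M : R'.Coprime M := by
    unfold Nat.Coprime
    rw [hR3.gcd_eq]
    exact hRM
  -- the primes
  obtain ⟨B, hB⟩ : ∃ B, B = ((α1 * α2).primeFactors).filter (fun p => ¬ p ∣ 2 * g) := ⟨_, rfl⟩
  have hBmem : ∀ p, p ∈ B ↔ (p.Prime ∧ p ∣ α1 * α2) ∧ ¬ p ∣ 2 * g := by
    intro p
    rw [hB, mem_filter, Nat.mem_primeFactors]
    constructor
    · rintro ⟨⟨h1, h2, _⟩, h3⟩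
      exact ⟨⟨h1, h2⟩, h3⟩
    · rintro ⟨⟨h1, h2⟩, h3⟩
      exact ⟨⟨h1, h2, (Nat.mul_pos hα1 hα2).ne'⟩, h3⟩
  have hBp : ∀ p ∈ B, p.Prime ∧ p ≠ 2 ∧ ¬ p ∣ M ∧ ¬ ((p : ℤ) ∣ d ∧ (p : ℤ) ∣ (a3 : ℤ)) := by
    intro p hp
    rw [hBmem] at hp
    obtain ⟨⟨hpp, hpα⟩, hpg⟩ := hp
    refine ⟨hpp, ?_, fun h => hpg (hMp p hpp h), ?_⟩
    · intro h
      apply hpg
      rw [h]
      exact dvd_mul_right _ _
    · rintro ⟨d1, d2⟩
      rcases (Nat.Prime.dvd_mul hpp).1 hpα with h | h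
      · exact hadm'.h3 p hpp ⟨d1, int_dvd.2 (h.mul_left _), d2⟩
      · exact hadm'.h4 p hpp ⟨d1, int_dvd.2 (h.mul_left _), d2⟩
  have hαle : α1 * α2 ≤ a1 * a2 := by
    rw [e1, e2]
    exact Nat.mul_le_mul (Nat.le_mul_of_pos_left _ hg1) (Nat.le_mul_of_pos_left _ hg1)
  have h12N : a1 * a2 ≤ N := by
    have e3 : ((a1 * a2 : ℕ) : ℝ) ≤ N := by
      refine h12.trans ?_
      calc (N : ℝ) ^ (1 - 2 * σ) ≤ (N : ℝ) ^ (1 : ℝ) := Real.rpow_le_rpow_of_exponent_le hN1r (by linarith)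
        _ = N := Real.rpow_one _
    exact_mod_cast e3
  have hBc : (B.card : ℝ) ≤ 2 * L := by
    have e3 : (B.card : ℝ) ≤ ((α1 * α2).primeFactors.card : ℝ) := by
      rw [hB]
      exact_mod_cast card_filter_le _ _
    refine e3.trans ((card_primes _ (Nat.mul_pos hα1 hα2)).trans ?_)
    apply mul_le_mul_of_nonneg_left _ (by norm_num)
    rw [hLd]
    apply Real.log_le_log (by exact_mod_cast Nat.mul_pos hα1 hα2)
    exact_mod_cast hαle.trans h12N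
  have cg := c1 K3 hK3q M R' hR'M a3 d B hBp hBc
  obtain ⟨Gd, hGd⟩ : ∃ Gd, Gd = (Icc 1 K3).filter (fun n : ℕ => (∀ p ∈ pz z, ¬ p ∣ R' + M * n) ∧
      ∀ p ∈ B, ¬ (p : ℤ) ∣ d + a3 * ((R' + M * n : ℕ) : ℤ)) := ⟨_, rfl⟩
  -- the sum over the other two unknowns
  obtain ⟨Y, hY⟩ : ∃ Y, Y = N / (25 * a2) := ⟨_, rfl⟩
  have hYa : Y * (25 * a2) ≤ N := by rw [hY]; exact Nat.div_mul_le_self _ _
  obtain ⟨K, hK⟩ : ∃ K, K = Y / α1 - 1 := ⟨_, rfl⟩
  have haα : (a2 : ℝ) * α1 * 60000 * (N : ℝ) ^ σ ≤ N := by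
    refine le_trans ?_ ha12
    have e3 : (a2 : ℝ) * α1 ≤ ((a1 * a2 : ℕ) : ℝ) := by
      have : a2 * α1 ≤ a1 * a2 := by
        rw [mul_comm a1]
        apply Nat.mul_le_mul_left
        rw [e1]
        exact Nat.le_mul_of_pos_left _ hg1
      exact_mod_cast this
    have : (a2 : ℝ) * α1 * 60000 ≤ ((a1 * a2 : ℕ) : ℝ) * 60000 := by linarith
    exact mul_le_mul_of_nonneg_right this (by positivity)
  have haα' : (a2 : ℝ) * α1 * 60000 ≤ N := by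
    refine le_trans ?_ haα
    exact le_mul_of_one_le_right (by positivity) hq1
  have hYα : (N : ℝ) / (26 * (a2 * α1)) + 1 ≤ ((Y / α1 : ℕ) : ℝ) := by
    have e3 := natdiv_ge N (25 * a2) (Nat.mul_pos (by norm_num) ha2)
    rw [← hY] at e3
    push_cast at e3
    have e4 := natdiv_ge Y α1 hα1
    refine le_trans ?_ e4
    have e5 : ((N : ℝ) / (25 * a2) - 1) / α1 ≤ (Y : ℝ) / α1 := div_le_div_of_nonneg_right e3 hα10.le
    have e6 : ((N : ℝ) / (25 * a2) - 1) / α1 = N / (25 * (a2 * α1)) - 1 / α1 := by field_simp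
    have e7 : (1 : ℝ) / α1 ≤ 1 := by
      rw [div_le_one hα10]
      exact_mod_cast hα1
    have e8 : (3 : ℝ) ≤ N / (650 * (a2 * α1)) := by
      rw [le_div_iff₀ (by positivity)]
      have h0 : 0 < (a2 : ℝ) * α1 := by positivity
      linarith
    have e9 : (N : ℝ) / (25 * (a2 * α1)) - N / (26 * (a2 * α1)) = N / (650 * (a2 * α1)) := by field_simp; norm_num
    linarith
  have hKr : (N : ℝ) / (26 * (a2 * α1)) ≤ K := by
    have e3 : 1 ≤ Y / α1 := by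
      have : (1 : ℝ) ≤ ((Y / α1 : ℕ) : ℝ) := by
        have : 0 < (N : ℝ) / (26 * (a2 * α1)) := by positivity
        linarith
      exact_mod_cast this
    rw [hK, Nat.cast_sub e3]
    push_cast
    linarith
  have hKα : α1 * (K + 1) ≤ Y := by
    have e3 : 1 ≤ Y / α1 := by
      have : (1 : ℝ) ≤ ((Y / α1 : ℕ) : ℝ) := by
        have : 0 < (N : ℝ) / (26 * (a2 * α1)) := by positivity
        linarith
      exact_mod_cast this
    have e4 : K + 1 = Y / α1 := by omega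
    rw [e4]
    exact Nat.mul_div_le _ _
  have hKq : (N : ℝ) ^ σ ≤ K := by
    refine le_trans ?_ hKr
    rw [le_div_iff₀ (by positivity)]
    refine le_trans ?_ haα
    have h0 : 0 < (a2 : ℝ) * α1 := by positivity
    nlinarith
  have hN20 : (0 : ℝ) ≤ N₂ := Nat.cast_nonneg _
  have hKN2 : N₂ ≤ K := by
    have : (N₂ : ℝ) ≤ K := by linarith
    exact_mod_cast this
  have hK2 : (2 : ℝ) ≤ K := by linarith
  have hK0 : (0 : ℝ) < K := by linarith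
  have hKN : K ≤ N := by
    have : Y ≤ N := by rw [hY]; exact Nat.div_le_self _ _
    have e4 : Y / α1 ≤ Y := Nat.div_le_self _ _
    omega
  have hlK : L / C₀ ≤ Real.log K := by
    have e : Real.log ((N : ℝ) ^ σ) = σ * L := by rw [Real.log_rpow hN0, ← hLd]
    calc L / C₀ = (1 / C₀) * L := by ring
      _ ≤ σ * L := mul_le_mul_of_nonneg_right hCσ hL0.le
      _ = Real.log ((N : ℝ) ^ σ) := e.symm
      _ ≤ Real.log K := Real.log_le_log (by positivity) hKq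
  have hlK'' : L ≤ C₀ * Real.log K := by
    rw [div_le_iff₀ hC0] at hlK
    linarith
  have hlKE : (C₀ : ℝ) ^ E ≤ Real.log K := by
    refine le_trans ?_ hlK
    rw [le_div_iff₀ hC0]
    linarith
  have hlK' : Real.log K ≤ L := by rw [hLd]; exact Real.log_le_log hK0 (by exact_mod_cast hKN)
  have hlK0 : 0 < Real.log K := by
    have : 0 < L / C₀ := by positivity
    linarith
  have hzK : (z : ℝ) ≤ Real.log K ^ (E + 1) := by
    calc (z : ℝ) ≤ L ^ E := hz2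
      _ ≤ (C₀ * Real.log K) ^ E := pow_le_pow_left₀ hL0.le hlK'' _
      _ = C₀ ^ E * Real.log K ^ E := mul_pow _ _ _
      _ ≤ Real.log K * Real.log K ^ E := mul_le_mul_of_nonneg_right hlKE (pow_nonneg hlK0.le _)
      _ = Real.log K ^ (E + 1) := by ring
  have ha1000 : 1000 * a1 ≤ N := by
    have e3 : ((a1 : ℕ) : ℝ) ≤ ((a1 * a2 : ℕ) : ℝ) := by exact_mod_cast Nat.le_mul_of_pos_right _ ha2
    have e4 : ((a1 * a2 : ℕ) : ℝ) * 60000 ≤ ((a1 * a2 : ℕ) : ℝ) * 60000 * (N : ℝ) ^ σ := le_mul_of_one_le_right (by positivity) hq1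
    have e5 : ((1000 * a1 : ℕ) : ℝ) ≤ N := by
      push_cast
      linarith
    exact_mod_cast e5
  obtain ⟨X, hX⟩ : ∃ X : ℝ, X = N / (52 * (a2 * α1) * L ^ 3) := ⟨_, rfl⟩
  have hX0 : 0 ≤ X := by rw [hX]; positivity
  have hYP : Y ≤ P2 := by
    have e3 : 25 * (a2 * Y) ≤ N := by
      calc 25 * (a2 * Y) = Y * (25 * a2) := by ring
        _ ≤ N := hYa
    have e4 : a2 * Y ≤ a2 * P2 := by omega
    exact Nat.le_of_mul_le_mul_left e4 ha2
  have hfin := low_sum (a1 := a1) (a2 := a2) (a3 := a3) (d := d) (P1 := P1) (P2 := P2) (P3 := P3) p1 p2 p3 hM1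
    (R := R') Gd X (by
      intro n hn
      rw [hGd, mem_filter, mem_Icc] at hn
      obtain ⟨⟨hn1, hn2⟩, hrough, hBn⟩ := hn
      obtain ⟨w1, w2, w3⟩ := win_num hw1 hw2 hw3 hr0a hr0b hR1 hR2 hK3a hn2 h1000
      have hMn : 1 ≤ M * n := Nat.mul_pos hM1 hn1
      refine ⟨by omega, ?_, q3 _ hrough, ?_⟩
      · have e3 : a3 * (R' + M * n) ≤ a3 * P3 := by omega
        exact Nat.le_of_mul_le_mul_left e3 ha3
      · have hr : R' + M * n ≡ R [MOD M] := by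
          have : R' + M * n ≡ R' [MOD M] := by
            have := (Nat.modEq_iff_dvd' (by omega : R' ≤ R' + M * n)).2 (⟨n, by omega⟩ : M ∣ (R' + M * n) - R')
            exact this.symm
          exact this.trans hR3
        obtain ⟨h, hh, hh1, hh2⟩ := hloc _ hr
        have hcop1 : ∀ p : ℕ, p.Prime → p ∣ α1 * α2 → ¬ (p : ℤ) ∣ h := by
          intro p hp hpα hph
          by_cases hpg : p ∣ 2 * g
          · exact hh1 p hp hpg hpα hph
          · apply hBn p ((hBmem p).2 ⟨⟨hp, hpα⟩, hpg⟩)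
            rw [hh]
            exact hph.mul_left _
        have hcα1 : IsCoprime h (α1 : ℤ) := by
          rw [Int.isCoprime_iff_gcd_eq_one]
          apply Nat.coprime_of_dvd
          intro p hp hd1 hd2
          rw [Int.natAbs_natCast] at hd2
          exact hcop1 p hp (hd2.mul_right _) (Int.natCast_dvd.2 hd1)
        have hcα2 : IsCoprime h (-(α2 : ℤ)) := by
          rw [IsCoprime.neg_right_iff, Int.isCoprime_iff_gcd_eq_one]
          apply Nat.coprime_of_dvd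
          intro p hp hd1 hd2
          rw [Int.natAbs_natCast] at hd2
          exact hcop1 p hp (hd2.mul_left _) (Int.natCast_dvd.2 hd1)
        have hcαα : IsCoprime (α1 : ℤ) (-(α2 : ℤ)) := by
          rw [IsCoprime.neg_right_iff, Nat.isCoprime_iff_coprime]
          exact hcop
        have hpar : ¬ (2 : ℤ) ∣ α1 * -(α2 : ℤ) → (2 : ℤ) ∣ h := by
          intro h7
          apply hh2
          intro h8
          apply h7
          rw [mul_neg, dvd_neg]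
          exact_mod_cast h8
        have hrange : ∀ n' : ℕ, 1 ≤ n' → n' ≤ Y → (α1 : ℤ) ≤ h + -(α2 : ℤ) * (n' : ℕ) := by
          intro n' _ hn'
          have e3 : 25 * (a2 * n') ≤ N := by
            calc 25 * (a2 * n') ≤ 25 * (a2 * Y) := by gcongr
              _ = Y * (25 * a2) := by ring
              _ ≤ N := hYa
          have e4 : (g : ℤ) * α1 ≤ g * (h + -(α2 : ℤ) * (n' : ℕ)) := by
            have e5 : (g : ℤ) * (h + -(α2 : ℤ) * (n' : ℕ)) = (d + a3 * ((R' + M * n : ℕ) : ℤ)) - ((a2 * n' : ℕ) : ℤ) := by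
              rw [hh, e2]
              push_cast
              ring
            have e6 : (g : ℤ) * α1 = (a1 : ℤ) := by rw [e1]; push_cast; ring
            rw [e5, e6]
            omega
          exact le_of_mul_le_mul_left e4 hg0
        have hml := h2 K hKN2 z hz1n hzK α1 hα1 (-(α2 : ℤ)) hcαα h hcα1 hcα2 hpar Y hrange K (by
          rw [Real.sqrt_le_left hK0.le]
          nlinarith) le_rfl hKα
        have hPS := PS_le (g := g) (α1 := α1) (α2 := α2) (Y := Y) (P1 := P1) (P2 := P2) (h := h) hL0.le c3 hg1 hα1 hYP p1 p2 q1 q2 (by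
          rw [← hh, ← e1]
          have e3 : ((N : ℕ) : ℤ) < ((2 * (a1 * P1) : ℕ) : ℤ) := by exact_mod_cast hP1
          push_cast at e3 ⊢
          push_cast at w3
          linarith)
        have h7 := hml.trans hPS
        rw [← e1, ← e2, ← hh] at h7
        have h8 : L ^ 2 * X ≤ K / (2 * Real.log K) := by
          calc L ^ 2 * X = (N / (26 * (a2 * α1))) / (2 * L) := by rw [hX]; field_simp; norm_num
            _ ≤ K / (2 * L) := div_le_div_of_nonneg_right hKr (by positivity)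
            _ ≤ K / (2 * Real.log K) := div_le_div_of_nonneg_left hK0.le (by positivity) (by linarith)
        exact le_of_mul_le_mul_left (h8.trans h7) (by positivity))
  refine le_trans ?_ hfin
  have cg' : K3 / (2 * L ^ 3) ≤ (Gd.card : ℝ) := by
    rw [hGd]
    convert cg
  have e3 : (N : ℝ) / (576 * a3 * L ^ (6 * T)) ≤ K3 := by
    refine le_trans ?_ hK3r
    apply div_le_div_of_nonneg_left hN0.le (by positivity)
    calc 18 * ((a3 : ℝ) * M) ≤ 18 * (a3 * (32 * L ^ (6 * T))) := by gcongr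
      _ = _ := by ring
  have e4 : ((N : ℝ) / (576 * a3 * L ^ (6 * T))) / (2 * L ^ 3) * X ≤ (Gd.card : ℝ) * X := by
    apply mul_le_mul_of_nonneg_right _ hX0
    exact (div_le_div_of_nonneg_right e3 (by positivity)).trans cg'
  refine le_trans ?_ e4
  have e5 : ((N : ℝ) / (576 * a3 * L ^ (6 * T))) / (2 * L ^ 3) * X = N ^ 2 / (α1 * a2 * a3 * (59904 * L ^ (6 * T + 6))) := by
    rw [hX, pow_add]
    field_simp
    norm_num
  rw [e5]
  apply div_le_div_of_nonneg_left (by positivity) (by positivity)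
  have e6 : (α1 : ℝ) ≤ a1 := by
    rw [e1]
    exact_mod_cast Nat.le_mul_of_pos_left _ hg1
  have e7 : 59904 * L ^ (6 * T + 6) ≤ L ^ (6 * T + 9) := by
    have : (59904 : ℝ) ≤ L ^ 3 := by
      calc (59904 : ℝ) ≤ 100 ^ 3 := by norm_num
        _ ≤ L ^ 3 := pow_le_pow_left₀ (by norm_num) hL100 _
    calc 59904 * L ^ (6 * T + 6) ≤ L ^ 3 * L ^ (6 * T + 6) := mul_le_mul_of_nonneg_right this (by positivity)
      _ = L ^ (6 * T + 9) := by ring
  gcongr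

end Pool.Agent.Y883.T6
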