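import Pool.Agent.Y883.T6.Main6
import Pool.Agent.Y883.T6.LowMain
import Pool.Agent.Y883.T3.Mod

set_option autoImplicit false

/-! The errors of the replacement of the von Mangoldt function by its model. -/

namespace Pool.Agent.Y883.T6

open Finset
open Pool.Agent.H373R2.T7
open Pool.Agent.Y883.T3
open Pool.Agent.Y883.T4
open Pool.Agent.Y883.T5

/-- the parameter of the model -/
noncomputable def zP (B P : ℕ) : ℕ := ⌈Real.log P ^ B⌉₊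

/-- the properties of one scale -/
def SD (A A' B P : ℕ) (G : ℕ → Prop) : Prop := ∃ f : ℕ → ℝ, (∀ x, Fh f P x ≤ P) ∧
  (∑ n ∈ Icc 1 P, |(ArithmeticFunction.vonMangoldt n - lamz (zP B P) n) - f n| ≤ P / Real.log P ^ A') ∧
  ∀ q : ℕ, 1 ≤ q → G q → ¬ BadC f P A q

/-- the conditions on the sizes -/
structure Par6 (σ : ℝ) (N T : ℕ) (c1 c2 c3 d : ℤ) (P1 P2 P3 : ℕ) : Prop where
  n1 : c1 ≠ 0
  n2 : c2 ≠ 0
  n3 : c3 ≠ 0
  u1 : c1.natAbs * P1 ≤ N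
  u2 : c2.natAbs * P2 ≤ N
  u3 : c3.natAbs * P3 ≤ N
  v1 : N < 2 * (c1.natAbs * P1)
  v2 : N < 2 * (c2.natAbs * P2)
  v3 : N < 2 * (c3.natAbs * P3)
  hd : 3 * |d| ≤ N
  q12 : ((c1.natAbs * c2.natAbs : ℕ) : ℝ) ≤ (N : ℝ) ^ (1 - 2 * σ)
  q13 : ((c1.natAbs * c3.natAbs : ℕ) : ℝ) ≤ (N : ℝ) ^ (1 - 2 * σ)
  q23 : ((c2.natAbs * c3.natAbs : ℕ) : ℝ) ≤ (N : ℝ) ^ (1 - 2 * σ)
  g12 : ((Nat.gcd c1.natAbs c2.natAbs : ℕ) : ℝ) ≤ Real.log N ^ T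
  g13 : ((Nat.gcd c1.natAbs c3.natAbs : ℕ) : ℝ) ≤ Real.log N ^ T
  g23 : ((Nat.gcd c2.natAbs c3.natAbs : ℕ) : ℝ) ≤ Real.log N ^ T

lemma Par6.swap {σ : ℝ} {N T : ℕ} {c1 c2 c3 d : ℤ} {P1 P2 P3 : ℕ} (h : Par6 σ N T c1 c2 c3 d P1 P2 P3) :
    Par6 σ N T c2 c1 c3 d P2 P1 P3 :=
  ⟨h.n2, h.n1, h.n3, h.u2, h.u1, h.u3, h.v2, h.v1, h.v3, h.hd, by rw [mul_comm]; exact h.q12, h.q23, h.q13,
    by rw [Nat.gcd_comm]; exact h.g12, h.g23, h.g13⟩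

lemma Par6.rot {σ : ℝ} {N T : ℕ} {c1 c2 c3 d : ℤ} {P1 P2 P3 : ℕ} (h : Par6 σ N T c1 c2 c3 d P1 P2 P3) :
    Par6 σ N T c2 c3 c1 d P2 P3 P1 :=
  ⟨h.n2, h.n3, h.n1, h.u2, h.u3, h.u1, h.v2, h.v3, h.v1, h.hd, h.q23, by rw [mul_comm]; exact h.q12,
    by rw [mul_comm]; exact h.q13, h.g23, by rw [Nat.gcd_comm]; exact h.g12, by rw [Nat.gcd_comm]; exact h.g13⟩

/-- the size of one scale -/
theorem scale_size (σ : ℝ) (hσ : 0 < σ) : ∃ N₀ : ℕ, ∀ N : ℕ, N₀ ≤ N → ∀ {T : ℕ} {c1 c2 c3 d : ℤ} {P1 P2 P3 : ℕ},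
    Par6 σ N T c1 c2 c3 d P1 P2 P3 → (N : ℝ) ^ σ ≤ P1 ∧ 1 ≤ P1 ∧ P1 ≤ N ∧ σ * Real.log N ≤ Real.log P1 ∧
      Real.log P1 ≤ Real.log N := by
  obtain ⟨N₁, h1⟩ := tendsto_pow_log 2 σ hσ
  refine ⟨N₁ + 2, fun N hN T c1 c2 c3 d P1 P2 P3 h => ?_⟩
  have c1' := h1 N (by omega)
  have hN0 : (0 : ℝ) < N := by exact_mod_cast (by omega : 0 < N)
  have hN1r : (1 : ℝ) ≤ N := by exact_mod_cast (by omega : 1 ≤ N)
  have ha1 : 1 ≤ c1.natAbs := Int.natAbs_pos.2 h.n1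
  have ha2 : 1 ≤ c2.natAbs := Int.natAbs_pos.2 h.n2
  have h2 : ((c1.natAbs : ℕ) : ℝ) ≤ (N : ℝ) ^ (1 - 2 * σ) := by
    refine le_trans ?_ h.q12
    exact_mod_cast Nat.le_mul_of_pos_right _ ha2
  have h3 : (N : ℝ) < 2 * ((c1.natAbs : ℕ) * P1) := by exact_mod_cast h.v1
  have hP0 : (0 : ℝ) ≤ P1 := Nat.cast_nonneg _
  have h4 : (N : ℝ) ^ σ ≤ P1 := by
    have e1 : (N : ℝ) ^ σ * ((N : ℝ) ^ (1 - 2 * σ) * 2) ≤ P1 * ((N : ℝ) ^ (1 - 2 * σ) * 2) := by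
      calc (N : ℝ) ^ σ * ((N : ℝ) ^ (1 - 2 * σ) * 2) ≤
            (N : ℝ) ^ σ * ((N : ℝ) ^ (1 - 2 * σ) * (N : ℝ) ^ σ) := by gcongr
        _ = N := by
            rw [← Real.rpow_add hN0, ← Real.rpow_add hN0]
            have e : σ + (1 - 2 * σ + σ) = 1 := by ring
            rw [e, Real.rpow_one]
        _ ≤ 2 * ((c1.natAbs : ℕ) * P1) := h3.le
        _ ≤ 2 * ((N : ℝ) ^ (1 - 2 * σ) * P1) := by gcongr
        _ = _ := by ring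
    exact le_of_mul_le_mul_right e1 (by positivity)
  have h5 : (1 : ℝ) ≤ P1 := (Real.one_le_rpow hN1r hσ.le).trans h4
  have h6 : P1 ≤ N := by
    have := h.u1
    exact (Nat.le_mul_of_pos_left _ ha1).trans this
  refine ⟨h4, by exact_mod_cast h5, h6, ?_, ?_⟩
  · have e : Real.log ((N : ℝ) ^ σ) = σ * Real.log N := by rw [Real.log_rpow hN0]
    rw [← e]
    exact Real.log_le_log (by positivity) h4
  · exact Real.log_le_log (by linarith) (by exact_mod_cast h6)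

/-- the trivial bound with the sizes -/
lemma triv6 {σ : ℝ} (hσ : 0 < σ) {N T : ℕ} {c1 c2 c3 d : ℤ} {P1 P2 P3 : ℕ} (h : Par6 σ N T c1 c2 c3 d P1 P2 P3) {L : ℝ}
    (hL : L = Real.log N) (hL1 : 1 ≤ L) (hN1 : 1 ≤ N) {e g2 g3 : ℕ → ℝ} {E : ℝ} (hE0 : 0 ≤ E)
    (h2 : ∀ n ∈ Icc 1 P2, |g2 n| ≤ L) (h3 : ∀ n ∈ Icc 1 P3, |g3 n| ≤ L) (hE : ∑ n ∈ Icc 1 P1, |e n| ≤ E) :
    |S3 c1 c2 c3 d P1 P2 P3 e g2 g3| ≤ E * (2 * L ^ (T + 2) * (N / (c2.natAbs * c3.natAbs))) := by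
  have hN0 : (0 : ℝ) < N := by exact_mod_cast hN1
  have hN1r : (1 : ℝ) ≤ N := by exact_mod_cast hN1
  have hL0 : 0 < L := by linarith
  have ha2 : (0 : ℝ) < c2.natAbs := by exact_mod_cast Int.natAbs_pos.2 h.n2
  have ha3 : (0 : ℝ) < c3.natAbs := by exact_mod_cast Int.natAbs_pos.2 h.n3
  refine (triv h.n3 hL0.le h2 h3 hE).trans ?_
  apply mul_le_mul_of_nonneg_left _ hE0
  have hg := h.g23
  rw [← hL] at hg
  have hP2 : (P2 : ℝ) ≤ N / c2.natAbs := by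
    rw [le_div_iff₀ ha2, mul_comm]
    exact_mod_cast h.u2
  have hLT : 1 ≤ L ^ T := one_le_pow₀ hL1
  have e1 : (P2 : ℝ) * (Nat.gcd c2.natAbs c3.natAbs : ℕ) / c3.natAbs ≤ L ^ T * (N / (c2.natAbs * c3.natAbs)) := by
    calc (P2 : ℝ) * (Nat.gcd c2.natAbs c3.natAbs : ℕ) / c3.natAbs ≤ (N / c2.natAbs) * L ^ T / c3.natAbs := by gcongr
      _ = _ := by field_simp
  have e2 : (1 : ℝ) ≤ L ^ T * (N / (c2.natAbs * c3.natAbs)) := by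
    have e3 : (1 : ℝ) ≤ N / (c2.natAbs * c3.natAbs) := by
      rw [le_div_iff₀ (by positivity), one_mul]
      have e4 := h.q23
      push_cast at e4
      refine e4.trans ?_
      calc (N : ℝ) ^ (1 - 2 * σ) ≤ (N : ℝ) ^ (1 : ℝ) := Real.rpow_le_rpow_of_exponent_le hN1r (by linarith)
        _ = N := Real.rpow_one _
    exact one_le_mul_of_one_le_of_one_le hLT e3
  calc L ^ 2 * ((P2 : ℝ) * (Nat.gcd c2.natAbs c3.natAbs : ℕ) / c3.natAbs + 1) ≤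
        L ^ 2 * (L ^ T * (N / (c2.natAbs * c3.natAbs)) + L ^ T * (N / (c2.natAbs * c3.natAbs))) := by
        apply mul_le_mul_of_nonneg_left _ (by positivity)
        linarith
    _ = _ := by ring

/-- the replacement of the von Mangoldt function by its model -/
theorem err_model (T A A' B : ℕ) (σ : ℝ) (hσ : 0 < σ) (hA : 8 * T + 14 ≤ 2 * A + 6) (hA' : 7 * T + 13 ≤ A') :
    ∃ N₀ : ℕ, ∀ N : ℕ, N₀ ≤ N → ∀ {c1 c2 c3 d : ℤ} {P1 P2 P3 : ℕ} {G : ℕ → Prop},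
    Par6 σ N T c1 c2 c3 d P1 P2 P3 → SD A A' B P1 G → G (c2.natAbs * c3.natAbs) → ∀ {g2 g3 : ℕ → ℝ},
    (∀ n ∈ Icc 1 P2, |g2 n| ≤ Real.log N) → (∀ n ∈ Icc 1 P3, |g3 n| ≤ Real.log N) →
    |S3 c1 c2 c3 d P1 P2 P3 (fun n => ArithmeticFunction.vonMangoldt n - lamz (zP B P1) n) g2 g3| ≤
      (N : ℝ) ^ 2 / (c1.natAbs * c2.natAbs * c3.natAbs) / Real.log N ^ (6 * T + 10) := by
  obtain ⟨N₁, h1⟩ := scale_size σ hσ
  obtain ⟨C₀, hC₀⟩ := exists_nat_ge (1 / σ)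
  have hC0 : (0 : ℝ) < C₀ := lt_of_lt_of_le (by positivity) hC₀
  have hCσ : 1 / (C₀ : ℝ) ≤ σ := by
    rw [div_le_iff₀ hC0]
    rw [div_le_iff₀ hσ] at hC₀
    linarith
  obtain ⟨N₂, h2⟩ := ev_L' (24 * C₀ ^ (2 * A + 6) + 8 * C₀ ^ A' + 100)
  obtain ⟨N₃, h3⟩ := ev_log_rpow (6 * T + 12) 8 σ hσ
  refine ⟨N₁ + N₂ + N₃ + 2, fun N hN c1 c2 c3 d P1 P2 P3 G hp hSD hGq g2 g3 hg2 hg3 => ?_⟩
  obtain ⟨b1, b2, b3, b4, b5⟩ := h1 N (by omega) hp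
  have hL := h2 N (by omega)
  have c3' := h3 N (by omega)
  have hN1 : 1 ≤ N := by omega
  have hN0 : (0 : ℝ) < N := by exact_mod_cast hN1
  have hN1r : (1 : ℝ) ≤ N := by exact_mod_cast hN1
  obtain ⟨L, hLd⟩ : ∃ L, L = Real.log (N : ℝ) := ⟨_, rfl⟩
  have g12 := hp.g12
  have g13 := hp.g13
  have g23 := hp.g23
  rw [← hLd] at hL c3' b4 b5 hg2 hg3 g12 g13 g23 ⊢
  have hp4 : (0 : ℝ) < 24 * C₀ ^ (2 * A + 6) := by positivity
  have hp4' : (0 : ℝ) < 8 * C₀ ^ A' := by positivity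
  have hL100 : 100 ≤ L := by linarith
  have hL0 : 0 < L := by linarith
  have hL1 : 1 ≤ L := by linarith
  obtain ⟨L1, hL1d⟩ : ∃ L1, L1 = Real.log (P1 : ℝ) := ⟨_, rfl⟩
  rw [← hL1d] at b4 b5
  have hσL : 0 < σ * L := by positivity
  have hL10 : 0 < L1 := by linarith
  have hLC : L ≤ C₀ * L1 := by
    have e1 : (1 / (C₀ : ℝ)) * L ≤ L1 := (mul_le_mul_of_nonneg_right hCσ hL0.le).trans b4
    rw [one_div_mul_eq_div, div_le_iff₀ hC0] at e1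
    linarith
  obtain ⟨f, hf1, hf2, hf3⟩ := hSD
  obtain ⟨a1, ha1⟩ : ∃ a1 : ℕ, a1 = c1.natAbs := ⟨_, rfl⟩
  obtain ⟨a2, ha2⟩ : ∃ a2 : ℕ, a2 = c2.natAbs := ⟨_, rfl⟩
  obtain ⟨a3, ha3⟩ : ∃ a3 : ℕ, a3 = c3.natAbs := ⟨_, rfl⟩
  have ha11 : 1 ≤ a1 := by rw [ha1]; exact Int.natAbs_pos.2 hp.n1
  have ha21 : 1 ≤ a2 := by rw [ha2]; exact Int.natAbs_pos.2 hp.n2
  have ha31 : 1 ≤ a3 := by rw [ha3]; exact Int.natAbs_pos.2 hp.n3
  have ha10 : (0 : ℝ) < a1 := by exact_mod_cast ha11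
  have ha20 : (0 : ℝ) < a2 := by exact_mod_cast ha21
  have ha30 : (0 : ℝ) < a3 := by exact_mod_cast ha31
  obtain ⟨μ, hμ⟩ : ∃ μ : ℝ, μ = (N : ℝ) ^ 2 / (a1 * a2 * a3) := ⟨_, rfl⟩
  have hμ0 : 0 < μ := by rw [hμ]; positivity
  have hbad := hf3 (c2.natAbs * c3.natAbs) (by rw [← ha2, ← ha3]; exact Nat.mul_pos ha21 ha31) hGq
  have hPr : ∀ (a P : ℕ), 1 ≤ a → a * P ≤ N → (P : ℝ) ≤ N / a := by
    intro a P ha h
    have ha0 : (0 : ℝ) < a := by exact_mod_cast ha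
    rw [le_div_iff₀ ha0, mul_comm]
    exact_mod_cast h
  have hP1 : (P1 : ℝ) ≤ N / a1 := hPr a1 P1 ha11 (by rw [ha1]; exact hp.u1)
  have hP2 : (P2 : ℝ) ≤ N / a2 := hPr a2 P2 ha21 (by rw [ha2]; exact hp.u2)
  have hP3 : (P3 : ℝ) ≤ N / a3 := hPr a3 P3 ha31 (by rw [ha3]; exact hp.u3)
  have hl2 : ∀ (g : ℕ → ℝ) (P : ℕ), (∀ n ∈ Icc 1 P, |g n| ≤ L) → ∑ n ∈ Icc 1 P, g n ^ 2 ≤ P * L ^ 2 := by
    intro g P hg
    calc ∑ n ∈ Icc 1 P, g n ^ 2 ≤ ∑ _n ∈ Icc 1 P, L ^ 2 := by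
          apply sum_le_sum
          intro n hn
          rw [← sq_abs]
          exact pow_le_pow_left₀ (abs_nonneg _) (hg n hn) 2
      _ = P * L ^ 2 := by rw [sum_const, Nat.card_Icc, nsmul_eq_mul]; simp
  -- the part with small exponential sums
  have ht := tern (N := N) b2 c1 c2 c3 d hp.n2 hp.n3 hp.u1 hp.u2 hp.u3 (by
    have := hp.hd
    rw [Int.abs_eq_natAbs] at this
    omega) hf1 hbad (P2 * L ^ 2) (P3 * L ^ 2) (hl2 g2 P2 hg2) (hl2 g3 P3 hg3) (by rw [← hL1d]; exact hL10)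
  rw [← hL1d, ← ha1, ← ha2, ← ha3] at ht
  obtain ⟨mult, hmult⟩ : ∃ mult : ℕ, mult = Nat.gcd a3 (a1 * a2) * Nat.gcd a2 (a1 * a3) := ⟨_, rfl⟩
  rw [← hmult] at ht
  have hmultL : (mult : ℝ) ≤ L ^ (4 * T) := by
    have e1 : ((Nat.gcd a3 (a1 * a2) : ℕ) : ℝ) ≤ L ^ T * L ^ T := by
      have e2 : Nat.gcd a3 (a1 * a2) ≤ Nat.gcd a3 a1 * Nat.gcd a3 a2 :=
        Nat.le_of_dvd (Nat.mul_pos (Nat.gcd_pos_of_pos_left _ ha31) (Nat.gcd_pos_of_pos_left _ ha31))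
          (Nat.gcd_mul_right_dvd_mul_gcd a3 a1 a2)
      have e3 : ((Nat.gcd a3 (a1 * a2) : ℕ) : ℝ) ≤ (Nat.gcd a3 a1 : ℕ) * (Nat.gcd a3 a2 : ℕ) := by exact_mod_cast e2
      refine e3.trans (mul_le_mul ?_ ?_ (Nat.cast_nonneg _) (by positivity))
      · rw [Nat.gcd_comm, ha1, ha3]; exact g13
      · rw [Nat.gcd_comm, ha2, ha3]; exact g23
    have e2 : ((Nat.gcd a2 (a1 * a3) : ℕ) : ℝ) ≤ L ^ T * L ^ T := by
      have e2 : Nat.gcd a2 (a1 * a3) ≤ Nat.gcd a2 a1 * Nat.gcd a2 a3 :=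
        Nat.le_of_dvd (Nat.mul_pos (Nat.gcd_pos_of_pos_left _ ha21) (Nat.gcd_pos_of_pos_left _ ha21))
          (Nat.gcd_mul_right_dvd_mul_gcd a2 a1 a3)
      have e3 : ((Nat.gcd a2 (a1 * a3) : ℕ) : ℝ) ≤ (Nat.gcd a2 a1 : ℕ) * (Nat.gcd a2 a3 : ℕ) := by exact_mod_cast e2
      refine e3.trans (mul_le_mul ?_ ?_ (Nat.cast_nonneg _) (by positivity))
      · rw [Nat.gcd_comm, ha1, ha2]; exact g12
      · rw [ha2, ha3]; exact g23
    rw [hmult]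
    push_cast
    calc ((Nat.gcd a3 (a1 * a2) : ℕ) : ℝ) * (Nat.gcd a2 (a1 * a3) : ℕ) ≤ (L ^ T * L ^ T) * (L ^ T * L ^ T) :=
          mul_le_mul e1 e2 (Nat.cast_nonneg _) (by positivity)
      _ = L ^ (4 * T) := by rw [← pow_add, ← pow_add]; ring_nf
  have hlog2 : (Nat.log 2 P1 : ℝ) + 1 ≤ 3 * L := by
    have e1 : (Nat.log 2 P1 : ℝ) ≤ Real.logb 2 P1 := by
      have := Real.natLog_le_logb P1 2
      exact_mod_cast this
    have e2 : Real.logb 2 P1 ≤ 2 * L := by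
      rw [Real.logb, ← hL1d, div_le_iff₀ (Real.log_pos (by norm_num))]
      have h2 : (1 : ℝ) ≤ 2 * Real.log 2 := by linarith [Real.log_two_gt_d9]
      calc L1 ≤ L := b5
        _ = L * 1 := (mul_one L).symm
        _ ≤ L * (2 * Real.log 2) := mul_le_mul_of_nonneg_left h2 hL0.le
        _ = 2 * L * Real.log 2 := by ring
    linarith
  -- first term
  have t1 : 2 * √((P2 * L ^ 2) * (P3 * L ^ 2)) ≤ μ / (4 * L ^ (6 * T + 10)) := by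
    have e1 : √(((P2 : ℝ) * L ^ 2) * (P3 * L ^ 2)) ≤ μ / (8 * L ^ (6 * T + 10)) := by
      rw [Real.sqrt_le_left (by positivity)]
      have e2 : ((P2 : ℝ) * L ^ 2) * (P3 * L ^ 2) ≤ (N / a2 * L ^ 2) * (N / a3 * L ^ 2) := by gcongr
      refine e2.trans ?_
      rw [hμ, div_div, div_pow, le_div_iff₀ (by positivity)]
      have hq12 := hp.q12
      have hq13 := hp.q13
      rw [← ha1, ← ha2] at hq12
      rw [← ha1, ← ha3] at hq13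
      push_cast at hq12 hq13
      have e3 : ((a1 : ℝ) * a2) * (a1 * a3) * (8 * L ^ (6 * T + 12)) ^ 2 ≤ N ^ 2 := by
        calc ((a1 : ℝ) * a2) * (a1 * a3) * (8 * L ^ (6 * T + 12)) ^ 2 ≤
              ((N : ℝ) ^ (1 - 2 * σ) * (N : ℝ) ^ (1 - 2 * σ)) * ((N : ℝ) ^ σ) ^ 2 := by gcongr
          _ = (N : ℝ) ^ (2 - 2 * σ) := by
              rw [← Real.rpow_natCast ((N : ℝ) ^ σ), ← Real.rpow_mul hN0.le, ← Real.rpow_add hN0,
                ← Real.rpow_add hN0]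
              congr 1
              push_cast
              ring
          _ ≤ (N : ℝ) ^ (2 : ℝ) := Real.rpow_le_rpow_of_exponent_le hN1r (by linarith)
          _ = (N : ℝ) ^ 2 := by norm_cast
      calc (N : ℝ) / a2 * L ^ 2 * (N / a3 * L ^ 2) * (a1 * a2 * a3 * (8 * L ^ (6 * T + 10))) ^ 2 =
            (N : ℝ) ^ 2 * (((a1 : ℝ) * a2) * (a1 * a3) * (8 * L ^ (6 * T + 12)) ^ 2) := by
              rw [show 6 * T + 12 = 6 * T + 10 + 2 by ring, pow_add L (6 * T + 10) 2]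
              field_simp
        _ ≤ (N : ℝ) ^ 2 * (N : ℝ) ^ 2 := mul_le_mul_of_nonneg_left e3 (by positivity)
        _ = ((N : ℝ) ^ 2) ^ 2 := by ring
    have e2 : μ / (4 * L ^ (6 * T + 10)) = 2 * (μ / (8 * L ^ (6 * T + 10))) := by field_simp; norm_num
    linarith
  -- second term
  have t2 : ((Nat.log 2 P1 : ℝ) + 1) * (2 * P1 * √((mult : ℕ) * ((P2 * L ^ 2) * (P3 * L ^ 2)) / (a2 * a3 : ℕ)) /
      L1 ^ (2 * A + 6)) ≤ μ / (4 * L ^ (6 * T + 10)) := by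
    have e1 : √((mult : ℝ) * ((P2 * L ^ 2) * (P3 * L ^ 2)) / (a2 * a3 : ℕ)) ≤ L ^ (2 * T + 2) * (N / (a2 * a3)) := by
      rw [Real.sqrt_le_left (by positivity), div_le_iff₀ (by push_cast; positivity)]
      calc (mult : ℝ) * ((P2 * L ^ 2) * (P3 * L ^ 2)) ≤ L ^ (4 * T) * ((N / a2 * L ^ 2) * (N / a3 * L ^ 2)) := by gcongr
        _ = (L ^ (2 * T + 2) * (N / (a2 * a3))) ^ 2 * ((a2 * a3 : ℕ) : ℝ) := by
            rw [mul_pow, ← pow_mul, show (2 * T + 2) * 2 = 4 * T + 4 by ring, pow_add]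
            push_cast
            field_simp
    have e2 : 1 / L1 ^ (2 * A + 6) ≤ C₀ ^ (2 * A + 6) / L ^ (2 * A + 6) := by
      rw [div_le_div_iff₀ (by positivity) (by positivity), one_mul, ← mul_pow]
      exact pow_le_pow_left₀ hL0.le hLC _
    have e3 : ((Nat.log 2 P1 : ℝ) + 1) * (2 * P1 * √((mult : ℕ) * ((P2 * L ^ 2) * (P3 * L ^ 2)) / (a2 * a3 : ℕ)) /
        L1 ^ (2 * A + 6)) ≤ (3 * L) * (2 * (N / a1) * (L ^ (2 * T + 2) * (N / (a2 * a3))) * (C₀ ^ (2 * A + 6) / L ^ (2 * A + 6))) := by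
      rw [div_eq_mul_one_div (2 * (P1 : ℝ) * _)]
      gcongr
    refine e3.trans ?_
    have e4 : (3 * L) * (2 * (N / a1) * (L ^ (2 * T + 2) * (N / (a2 * a3))) * (C₀ ^ (2 * A + 6) / L ^ (2 * A + 6))) =
        μ * (6 * C₀ ^ (2 * A + 6) * L ^ (2 * T + 3) / L ^ (2 * A + 6)) := by
      rw [hμ, pow_succ L (2 * T + 2)]
      field_simp
      norm_num
    rw [e4, div_eq_mul_one_div μ]
    apply mul_le_mul_of_nonneg_left _ hμ0.le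
    rw [div_le_div_iff₀ (by positivity) (by positivity), one_mul]
    calc 6 * C₀ ^ (2 * A + 6) * L ^ (2 * T + 3) * (4 * L ^ (6 * T + 10)) = (24 * C₀ ^ (2 * A + 6)) * L ^ (8 * T + 13) := by
          rw [show 8 * T + 13 = (2 * T + 3) + (6 * T + 10) by ring, pow_add]; ring
      _ ≤ L * L ^ (8 * T + 13) := mul_le_mul_of_nonneg_right (by linarith) (by positivity)
      _ = L ^ (8 * T + 14) := by ring
      _ ≤ L ^ (2 * A + 6) := pow_le_pow_right₀ hL1 hA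
  -- the small error
  have t3 : |S3 c1 c2 c3 d P1 P2 P3 (fun n => (ArithmeticFunction.vonMangoldt n - lamz (zP B P1) n) - f n) g2 g3| ≤
      μ / (4 * L ^ (6 * T + 10)) := by
    have hE : ∑ n ∈ Icc 1 P1, |(ArithmeticFunction.vonMangoldt n - lamz (zP B P1) n) - f n| ≤ N / a1 * (C₀ ^ A' / L ^ A') := by
      refine hf2.trans ?_
      rw [← hL1d, div_eq_mul_one_div]
      apply mul_le_mul hP1 _ (by positivity) (by positivity)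
      rw [div_le_div_iff₀ (by positivity) (by positivity), one_mul, ← mul_pow]
      exact pow_le_pow_left₀ hL0.le hLC _
    have e1 := triv6 hσ hp hLd hL1 hN1 (e := fun n => (ArithmeticFunction.vonMangoldt n - lamz (zP B P1) n) - f n)
      (by positivity) hg2 hg3 hE
    refine e1.trans ?_
    rw [← ha2, ← ha3]
    have e4 : (N : ℝ) / a1 * (C₀ ^ A' / L ^ A') * (2 * L ^ (T + 2) * (N / (a2 * a3))) = μ * (2 * C₀ ^ A' * L ^ (T + 2) / L ^ A') := by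
      rw [hμ]
      field_simp
    rw [e4, div_eq_mul_one_div μ]
    apply mul_le_mul_of_nonneg_left _ hμ0.le
    rw [div_le_div_iff₀ (by positivity) (by positivity), one_mul]
    calc 2 * C₀ ^ A' * L ^ (T + 2) * (4 * L ^ (6 * T + 10)) = (8 * C₀ ^ A') * L ^ (7 * T + 12) := by
          rw [show 7 * T + 12 = (T + 2) + (6 * T + 10) by ring, pow_add]; ring
      _ ≤ L * L ^ (7 * T + 12) := mul_le_mul_of_nonneg_right (by linarith) (by positivity)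
      _ = L ^ (7 * T + 13) := by ring
      _ ≤ L ^ A' := pow_le_pow_right₀ hL1 hA'
  have hsplit : S3 c1 c2 c3 d P1 P2 P3 (fun n => ArithmeticFunction.vonMangoldt n - lamz (zP B P1) n) g2 g3 =
      S3 c1 c2 c3 d P1 P2 P3 f g2 g3 +
      S3 c1 c2 c3 d P1 P2 P3 (fun n => (ArithmeticFunction.vonMangoldt n - lamz (zP B P1) n) - f n) g2 g3 := by
    rw [S3_sub1 c1 c2 c3 d P1 P2 P3 (fun n => ArithmeticFunction.vonMangoldt n - lamz (zP B P1) n) f]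
    ring
  rw [hsplit]
  refine (abs_add_le _ _).trans ?_
  rw [← ha1, ← ha2, ← ha3, ← hμ]
  have e5 : μ / L ^ (6 * T + 10) = 4 * (μ / (4 * L ^ (6 * T + 10))) := by field_simp
  have e6 : 0 < μ / (4 * L ^ (6 * T + 10)) := by positivity
  rw [e5]
  linarith

end Pool.Agent.Y883.T6
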