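import Pool.Agent.Helper112.Arith
import Pool.Agent.Y883.T3.Vin

set_option autoImplicit false

/-! Linear equations in three primes: the number of exceptional pairs and triples of coefficients. -/

namespace Pool.Agent.Y883.T6

open Finset

open Classical in
/-- triples from pairs -/
lemma triple_cnt (X : ℕ) (P : ℕ → ℕ → Prop) (f : ℕ × ℕ × ℕ → (ℕ × ℕ) × ℕ) (hf : Function.Injective f)
    (hm : ∀ t ∈ Icc 1 X ×ˢ Icc 1 X ×ˢ Icc 1 X, f t ∈ (Icc 1 X ×ˢ Icc 1 X) ×ˢ Icc 1 X) :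
    ((Icc 1 X ×ˢ Icc 1 X ×ˢ Icc 1 X).filter (fun t => P (f t).1.1 (f t).1.2)).card ≤
      ((Icc 1 X ×ˢ Icc 1 X).filter (fun s : ℕ × ℕ => P s.1 s.2)).card * X := by
  have h1 : ((Icc 1 X ×ˢ Icc 1 X ×ˢ Icc 1 X).filter (fun t => P (f t).1.1 (f t).1.2)).card ≤
      (((Icc 1 X ×ˢ Icc 1 X).filter (fun s : ℕ × ℕ => P s.1 s.2)) ×ˢ Icc 1 X).card := by
    apply card_le_card_of_injOn f
    · intro t ht
      rw [mem_coe, mem_filter] at ht
      have h2 := hm t ht.1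
      rw [mem_product] at h2
      rw [mem_coe, mem_product, mem_filter]
      exact ⟨⟨h2.1, ht.2⟩, h2.2⟩
    · exact fun _ _ _ _ h => hf h
  rwa [card_product, Nat.card_Icc, Nat.add_sub_cancel] at h1

lemma multc_card (X g : ℕ) : (((Icc 1 X).filter (fun c => g ∣ c)).card : ℝ) ≤ X / g := by
  have h1 : Icc 1 X = Ioc 0 X := by
    ext x
    rw [mem_Icc, mem_Ioc]
    omega
  rw [h1, Nat.Ioc_filter_dvd_card_eq_div]
  exact Nat.cast_div_le

/-- few pairs have a large common divisor -/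
lemma pair_gcd (X : ℕ) (G : ℝ) (hG : 0 < G) :
    (((Icc 1 X ×ˢ Icc 1 X).filter (fun s : ℕ × ℕ => G < (Nat.gcd s.1 s.2 : ℕ))).card : ℝ) ≤ 2 * ((X : ℝ) ^ 2 / G) := by
  have hsub : (Icc 1 X ×ˢ Icc 1 X).filter (fun s : ℕ × ℕ => G < (Nat.gcd s.1 s.2 : ℕ)) ⊆
      (Ioo ⌊G⌋₊ (X + 1)).biUnion (fun g => (Icc 1 X).filter (fun c => g ∣ c) ×ˢ (Icc 1 X).filter (fun c => g ∣ c)) := by
    rintro ⟨u, v⟩ h
    rw [mem_filter, mem_product, mem_Icc, mem_Icc] at h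
    obtain ⟨⟨⟨h1, h2⟩, h3, h4⟩, h5⟩ := h
    rw [mem_biUnion]
    refine ⟨Nat.gcd u v, ?_, ?_⟩
    · rw [mem_Ioo]
      constructor
      · have := Nat.floor_le hG.le
        have h6 : ((⌊G⌋₊ : ℕ) : ℝ) < (Nat.gcd u v : ℕ) := lt_of_le_of_lt this h5
        exact_mod_cast h6
      · have := Nat.gcd_le_left v (by omega : 0 < u)
        omega
    · rw [mem_product, mem_filter, mem_filter, mem_Icc, mem_Icc]
      exact ⟨⟨⟨h1, h2⟩, Nat.gcd_dvd_left _ _⟩, ⟨h3, h4⟩, Nat.gcd_dvd_right _ _⟩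
  have h1 := (card_le_card hsub).trans card_biUnion_le
  have h2 : (((Icc 1 X ×ˢ Icc 1 X).filter (fun s : ℕ × ℕ => G < (Nat.gcd s.1 s.2 : ℕ))).card : ℝ) ≤
      ∑ g ∈ Ioo ⌊G⌋₊ (X + 1),
        (((Icc 1 X).filter (fun c => g ∣ c) ×ˢ (Icc 1 X).filter (fun c => g ∣ c)).card : ℝ) := by
    exact_mod_cast h1
  refine h2.trans ?_
  calc _ ≤ ∑ g ∈ Ioo ⌊G⌋₊ (X + 1), (X : ℝ) ^ 2 * ((g : ℝ) ^ 2)⁻¹ := by
        apply sum_le_sum
        intro g _
        rw [card_product]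
        push_cast
        have h3 := multc_card X g
        calc _ ≤ ((X : ℝ) / g) * (X / g) := mul_le_mul h3 h3 (Nat.cast_nonneg _) (by positivity)
          _ = (X : ℝ) ^ 2 * ((g : ℝ) ^ 2)⁻¹ := by rw [← sq, div_pow, div_eq_mul_inv]
    _ = (X : ℝ) ^ 2 * ∑ g ∈ Ioo ⌊G⌋₊ (X + 1), ((g : ℝ) ^ 2)⁻¹ := by rw [mul_sum]
    _ ≤ (X : ℝ) ^ 2 * (2 / (⌊G⌋₊ + 1)) :=
        mul_le_mul_of_nonneg_left (sum_Ioo_inv_sq_le _ _) (by positivity)
    _ ≤ (X : ℝ) ^ 2 * (2 / G) := by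
        apply mul_le_mul_of_nonneg_left _ (by positivity)
        apply div_le_div_of_nonneg_left (by norm_num) hG
        exact (Nat.lt_floor_add_one G).le
    _ = 2 * ((X : ℝ) ^ 2 / G) := by ring

/-- the number of the pairs with product divisible by a given integer -/
lemma pair_div (X e : ℕ) (he : 1 ≤ e) :
    (((Icc 1 X ×ˢ Icc 1 X).filter (fun s : ℕ × ℕ => e ∣ s.1 * s.2)).card : ℝ) ≤ e.divisors.card * ((X : ℝ) ^ 2 / e) := by
  have hsub : (Icc 1 X ×ˢ Icc 1 X).filter (fun s : ℕ × ℕ => e ∣ s.1 * s.2) ⊆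
      e.divisors.biUnion (fun g => (Icc 1 X).filter (fun c => g ∣ c) ×ˢ (Icc 1 X).filter (fun c => e / g ∣ c)) := by
    rintro ⟨u, v⟩ h
    rw [mem_filter, mem_product, mem_Icc, mem_Icc] at h
    obtain ⟨⟨⟨h1, h2⟩, h3, h4⟩, h5⟩ := h
    obtain ⟨k1, k2, g1, g2, g3⟩ := (Nat.dvd_mul).1 h5
    have hk1 : 0 < k1 := Nat.pos_of_dvd_of_pos g1 h1
    rw [mem_biUnion]
    refine ⟨k1, ?_, ?_⟩
    · rw [Nat.mem_divisors]
      exact ⟨⟨k2, g3.symm⟩, by omega⟩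
    · rw [mem_product, mem_filter, mem_filter, mem_Icc, mem_Icc, ← g3, Nat.mul_div_cancel_left _ hk1]
      exact ⟨⟨⟨h1, h2⟩, g1⟩, ⟨h3, h4⟩, g2⟩
  have h1 := (card_le_card hsub).trans card_biUnion_le
  have h2 : (((Icc 1 X ×ˢ Icc 1 X).filter (fun s : ℕ × ℕ => e ∣ s.1 * s.2)).card : ℝ) ≤
      ∑ g ∈ e.divisors,
        (((Icc 1 X).filter (fun c => g ∣ c) ×ˢ (Icc 1 X).filter (fun c => e / g ∣ c)).card : ℝ) := by
    exact_mod_cast h1
  refine h2.trans ?_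
  calc _ ≤ ∑ g ∈ e.divisors, (X : ℝ) ^ 2 / e := by
        apply sum_le_sum
        intro g hg
        have hge : g ∣ e := Nat.dvd_of_mem_divisors hg
        obtain ⟨k, hk⟩ := hge
        have hg0 : 0 < g := Nat.pos_of_mem_divisors hg
        have hek : e / g = k := by rw [hk]; exact Nat.mul_div_cancel_left _ hg0
        rw [card_product, hek]
        push_cast
        have h3 := multc_card X g
        have h4 := multc_card X k
        calc _ ≤ ((X : ℝ) / g) * (X / k) := mul_le_mul h3 h4 (Nat.cast_nonneg _) (by positivity)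
          _ = (X : ℝ) ^ 2 / e := by
              rw [hk]
              push_cast
              rw [div_mul_div_comm, sq]
    _ = e.divisors.card * ((X : ℝ) ^ 2 / e) := by rw [sum_const, nsmul_eq_mul]

open Classical in
/-- a sum over a sparse set -/
lemma sum_sparse {D : Set ℕ} (hc : ∀ X : ℕ, 1 ≤ X → (((Icc 1 X).filter (fun e => e ∈ D)).card : ℝ) ≤ (X : ℝ) ^ (1 / 4 : ℝ))
    (S : Finset ℕ) (hS : ∀ e ∈ S, e ∈ D ∧ 1 ≤ e) : ∑ e ∈ S, (e : ℝ) ^ (-(1 / 2) : ℝ) ≤ 13 := by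
  obtain ⟨K, hK⟩ : ∃ K, K = S.sup (fun e => Nat.log 2 e) + 1 := ⟨_, rfl⟩
  have hmaps : ∀ e ∈ S, Nat.log 2 e ∈ range K := by
    intro e he
    rw [mem_range, hK]
    have h0 : Nat.log 2 e ≤ S.sup (fun e => Nat.log 2 e) := le_sup (f := fun e => Nat.log 2 e) he
    omega
  rw [← sum_fiberwise_of_maps_to hmaps]
  have h1 : ∀ k ∈ range K, ∑ e ∈ S.filter (fun e => Nat.log 2 e = k), (e : ℝ) ^ (-(1 / 2) : ℝ) ≤ 5 / 4 * (9 / 10) ^ k := by
    intro k _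
    have h2 : ∀ e ∈ S.filter (fun e => Nat.log 2 e = k), (e : ℝ) ^ (-(1 / 2) : ℝ) ≤ ((2 : ℝ) ^ k) ^ (-(1 / 2) : ℝ) := by
      intro e he
      rw [mem_filter] at he
      apply Real.rpow_le_rpow_of_nonpos (by positivity) _ (by norm_num)
      have h3 : 2 ^ (Nat.log 2 e) ≤ e := Nat.pow_log_le_self 2 (by have := (hS e he.1).2; omega)
      rw [he.2] at h3
      exact_mod_cast h3
    refine (sum_le_sum h2).trans ?_
    rw [sum_const, nsmul_eq_mul]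
    have h3 : ((S.filter (fun e => Nat.log 2 e = k)).card : ℝ) ≤ ((2 : ℝ) ^ (k + 1)) ^ (1 / 4 : ℝ) := by
      have h4 := hc (2 ^ (k + 1)) Nat.one_le_two_pow
      push_cast at h4
      refine le_trans ?_ h4
      exact_mod_cast card_le_card (by
        intro e he
        rw [mem_filter] at he
        rw [mem_filter, mem_Icc]
        have h5 : e < 2 ^ (Nat.log 2 e + 1) := Nat.lt_pow_succ_log_self (by norm_num) e
        rw [he.2] at h5
        exact ⟨⟨(hS e he.1).2, h5.le⟩, (hS e he.1).1⟩)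
    have e1 : ((2 : ℝ) ^ (k + 1)) ^ (1 / 4 : ℝ) = (2 : ℝ) ^ (1 / 4 : ℝ) * ((2 : ℝ) ^ (1 / 4 : ℝ)) ^ k := by
      rw [← Real.rpow_natCast, ← Real.rpow_natCast, ← Real.rpow_mul (by norm_num), ← Real.rpow_mul (by norm_num),
        ← Real.rpow_add (by norm_num)]
      congr 1
      push_cast
      ring
    have e2 : ((2 : ℝ) ^ k) ^ (-(1 / 2) : ℝ) = ((2 : ℝ) ^ (-(1 / 2) : ℝ)) ^ k := by
      rw [← Real.rpow_natCast, ← Real.rpow_natCast, ← Real.rpow_mul (by norm_num), ← Real.rpow_mul (by norm_num)]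
      congr 1
      ring
    have e3 : (2 : ℝ) ^ (1 / 4 : ℝ) ≤ 5 / 4 := by
      calc (2 : ℝ) ^ (1 / 4 : ℝ) ≤ ((5 / 4 : ℝ) ^ 4) ^ (1 / 4 : ℝ) :=
            Real.rpow_le_rpow (by norm_num) (by norm_num) (by norm_num)
        _ = 5 / 4 := by
            rw [← Real.rpow_natCast, ← Real.rpow_mul (by norm_num)]
            norm_num
    have e4 : (2 : ℝ) ^ (1 / 4 : ℝ) * (2 : ℝ) ^ (-(1 / 2) : ℝ) ≤ 9 / 10 := by
      rw [← Real.rpow_add (by norm_num)]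
      calc (2 : ℝ) ^ ((1 / 4 : ℝ) + (-(1 / 2) : ℝ)) = ((2 : ℝ)⁻¹) ^ (1 / 4 : ℝ) := by
            rw [Real.inv_rpow (by norm_num), ← Real.rpow_neg (by norm_num)]
            norm_num
        _ ≤ ((9 / 10 : ℝ) ^ 4) ^ (1 / 4 : ℝ) := Real.rpow_le_rpow (by norm_num) (by norm_num) (by norm_num)
        _ = 9 / 10 := by
            rw [← Real.rpow_natCast, ← Real.rpow_mul (by norm_num)]
            norm_num
    calc _ ≤ ((2 : ℝ) ^ (k + 1)) ^ (1 / 4 : ℝ) * ((2 : ℝ) ^ k) ^ (-(1 / 2) : ℝ) :=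
          mul_le_mul_of_nonneg_right h3 (by positivity)
      _ = (2 : ℝ) ^ (1 / 4 : ℝ) * ((2 : ℝ) ^ (1 / 4 : ℝ) * (2 : ℝ) ^ (-(1 / 2) : ℝ)) ^ k := by
          rw [e1, e2, mul_pow]
          ring
      _ ≤ 5 / 4 * (9 / 10) ^ k := by
          apply mul_le_mul e3 _ (by positivity) (by norm_num)
          exact pow_le_pow_left₀ (by positivity) e4 _
  refine (sum_le_sum h1).trans ?_
  rw [← mul_sum]
  have h5 := geom_sum_Ico_le_of_lt_one (x := (9 / 10 : ℝ)) (m := 0) (n := K) (by norm_num) (by norm_num)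
  rw [← range_eq_Ico] at h5
  norm_num at h5
  linarith

open Classical in
/-- the number of the pairs with product divisible by a large member of a sparse set -/
lemma pair_sparse {D : Set ℕ} (hc : ∀ X : ℕ, 1 ≤ X → (((Icc 1 X).filter (fun e => e ∈ D)).card : ℝ) ≤ (X : ℝ) ^ (1 / 4 : ℝ)) :
    ∃ C : ℝ, 0 < C ∧ ∀ (X : ℕ) (G : ℝ), 0 < G →
      (((Icc 1 X ×ˢ Icc 1 X).filter (fun s : ℕ × ℕ => ∃ e ∈ D, G < (e : ℝ) ∧ e ∣ s.1 * s.2)).card : ℝ) ≤
        C * ((X : ℝ) ^ 2 / G ^ (1 / 4 : ℝ)) := by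
  obtain ⟨C, hC0, hC⟩ := Pool.Agent.Helper112.divisor_bound (1 / 4) (by norm_num)
  refine ⟨C * 13, by positivity, fun X G hG => ?_⟩
  obtain ⟨S, hS⟩ : ∃ S, S = (Icc 1 (X * X)).filter (fun e => e ∈ D ∧ G < (e : ℝ)) := ⟨_, rfl⟩
  have hsub : (Icc 1 X ×ˢ Icc 1 X).filter (fun s : ℕ × ℕ => ∃ e ∈ D, G < (e : ℝ) ∧ e ∣ s.1 * s.2) ⊆
      S.biUnion (fun e => (Icc 1 X ×ˢ Icc 1 X).filter (fun s : ℕ × ℕ => e ∣ s.1 * s.2)) := by
    rintro ⟨u, v⟩ h
    rw [mem_filter, mem_product, mem_Icc, mem_Icc] at h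
    obtain ⟨⟨⟨h1, h2⟩, h3, h4⟩, e, h5, h6, h7⟩ := h
    simp only at h1 h2 h3 h4 h7
    rw [mem_biUnion]
    have huv : 0 < u * v := Nat.mul_pos h1 h3
    refine ⟨e, ?_, ?_⟩
    · rw [hS, mem_filter, mem_Icc]
      exact ⟨⟨Nat.pos_of_dvd_of_pos h7 huv, (Nat.le_of_dvd huv h7).trans (Nat.mul_le_mul h2 h4)⟩, h5, h6⟩
    · rw [mem_filter, mem_product, mem_Icc, mem_Icc]
      exact ⟨⟨⟨h1, h2⟩, h3, h4⟩, h7⟩
  have h1 := (card_le_card hsub).trans card_biUnion_le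
  have h2 : (((Icc 1 X ×ˢ Icc 1 X).filter (fun s : ℕ × ℕ => ∃ e ∈ D, G < (e : ℝ) ∧ e ∣ s.1 * s.2)).card : ℝ) ≤
      ∑ e ∈ S, (((Icc 1 X ×ˢ Icc 1 X).filter (fun s : ℕ × ℕ => e ∣ s.1 * s.2)).card : ℝ) := by
    exact_mod_cast h1
  have hS' : ∀ e ∈ S, e ∈ D ∧ 1 ≤ e := by
    intro e he
    rw [hS, mem_filter, mem_Icc] at he
    exact ⟨he.2.1, he.1.1⟩
  refine h2.trans ?_
  calc _ ≤ ∑ e ∈ S, (C * ((X : ℝ) ^ 2 / G ^ (1 / 4 : ℝ))) * (e : ℝ) ^ (-(1 / 2) : ℝ) := by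
        apply sum_le_sum
        intro e he
        have he1 := (hS' e he).2
        have he0 : (0 : ℝ) < e := by exact_mod_cast he1
        have heG : G < (e : ℝ) := by
          rw [hS, mem_filter] at he
          exact he.2.2
        have h3 := pair_div X e he1
        have h4 := hC e he1
        have h5 : G ^ (1 / 4 : ℝ) ≤ (e : ℝ) ^ (1 / 4 : ℝ) := Real.rpow_le_rpow hG.le heG.le (by norm_num)
        have hGp : (0 : ℝ) < G ^ (1 / 4 : ℝ) := Real.rpow_pos_of_pos hG _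
        have h6 : (e : ℝ) = (e : ℝ) ^ (1 / 4 : ℝ) * ((e : ℝ) ^ (1 / 4 : ℝ) * (e : ℝ) ^ (1 / 2 : ℝ)) := by
          rw [← Real.rpow_add he0, ← Real.rpow_add he0]
          norm_num
        have h7 : (0 : ℝ) < (e : ℝ) ^ (1 / 4 : ℝ) := Real.rpow_pos_of_pos he0 _
        have h8 : (0 : ℝ) < (e : ℝ) ^ (1 / 2 : ℝ) := Real.rpow_pos_of_pos he0 _
        calc _ ≤ (e.divisors.card : ℝ) * ((X : ℝ) ^ 2 / e) := h3
          _ ≤ (C * (e : ℝ) ^ (1 / 4 : ℝ)) * ((X : ℝ) ^ 2 / e) := mul_le_mul_of_nonneg_right h4 (by positivity)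
          _ = C * ((X : ℝ) ^ 2 / ((e : ℝ) ^ (1 / 4 : ℝ))) * (e : ℝ) ^ (-(1 / 2) : ℝ) := by
              rw [Real.rpow_neg he0.le]
              nth_rewrite 2 [h6]
              field_simp
          _ ≤ (C * ((X : ℝ) ^ 2 / G ^ (1 / 4 : ℝ))) * (e : ℝ) ^ (-(1 / 2) : ℝ) := by
              apply mul_le_mul_of_nonneg_right _ (by positivity)
              apply mul_le_mul_of_nonneg_left _ hC0.le
              exact div_le_div_of_nonneg_left (by positivity) hGp h5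
    _ = (C * ((X : ℝ) ^ 2 / G ^ (1 / 4 : ℝ))) * ∑ e ∈ S, (e : ℝ) ^ (-(1 / 2) : ℝ) := by rw [mul_sum]
    _ ≤ (C * ((X : ℝ) ^ 2 / G ^ (1 / 4 : ℝ))) * 13 := by
        apply mul_le_mul_of_nonneg_left (sum_sparse hc S hS')
        have : (0 : ℝ) < G ^ (1 / 4 : ℝ) := Real.rpow_pos_of_pos hG _
        positivity
    _ = C * 13 * ((X : ℝ) ^ 2 / G ^ (1 / 4 : ℝ)) := by ring

open Classical in
/-- the number of the pairs with product in a set -/
lemma pair_mem (ε : ℝ) (hε : 0 < ε) : ∃ C : ℝ, 0 < C ∧ ∀ (X : ℕ) (F : Set ℕ),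
    (((Icc 1 X ×ˢ Icc 1 X).filter (fun s : ℕ × ℕ => s.1 * s.2 ∈ F)).card : ℝ) ≤
      C * (X : ℝ) ^ ε * (((Icc 1 (X * X)).filter (fun q => q ∈ F)).card : ℝ) := by
  obtain ⟨C, hC0, hC⟩ := Pool.Agent.Helper112.divisor_bound (ε / 2) (by positivity)
  refine ⟨C, hC0, fun X F => ?_⟩
  have hsub : (Icc 1 X ×ˢ Icc 1 X).filter (fun s : ℕ × ℕ => s.1 * s.2 ∈ F) ⊆
      ((Icc 1 (X * X)).filter (fun q => q ∈ F)).biUnion (fun q => q.divisors.image (fun u => (u, q / u))) := by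
    rintro ⟨u, v⟩ h
    rw [mem_filter, mem_product, mem_Icc, mem_Icc] at h
    obtain ⟨⟨⟨h1, h2⟩, h3, h4⟩, h5⟩ := h
    simp only at h1 h2 h3 h4 h5
    rw [mem_biUnion]
    have huv : 0 < u * v := Nat.mul_pos h1 h3
    refine ⟨u * v, ?_, ?_⟩
    · rw [mem_filter, mem_Icc]
      exact ⟨⟨huv, Nat.mul_le_mul h2 h4⟩, h5⟩
    · rw [mem_image]
      refine ⟨u, ?_, ?_⟩
      · rw [Nat.mem_divisors]
        exact ⟨⟨v, rfl⟩, by omega⟩
      · rw [Nat.mul_div_cancel_left _ (by omega : 0 < u)]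
  have h1 := (card_le_card hsub).trans card_biUnion_le
  have h2 : (((Icc 1 X ×ˢ Icc 1 X).filter (fun s : ℕ × ℕ => s.1 * s.2 ∈ F)).card : ℝ) ≤
      ∑ q ∈ (Icc 1 (X * X)).filter (fun q => q ∈ F), ((q.divisors.image (fun u => (u, q / u))).card : ℝ) := by
    exact_mod_cast h1
  refine h2.trans ?_
  calc _ ≤ ∑ q ∈ (Icc 1 (X * X)).filter (fun q => q ∈ F), C * (X : ℝ) ^ ε := by
        apply sum_le_sum
        intro q hq
        rw [mem_filter, mem_Icc] at hq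
        obtain ⟨⟨g1, g2⟩, g3⟩ := hq
        have g4 : ((q.divisors.image (fun u => (u, q / u))).card : ℝ) ≤ q.divisors.card := by
          exact_mod_cast card_image_le
        refine g4.trans ((hC q g1).trans ?_)
        apply mul_le_mul_of_nonneg_left _ hC0.le
        have g5 : (q : ℝ) ≤ (X : ℝ) ^ (2 : ℝ) := by
          have : (q : ℝ) ≤ X * X := by exact_mod_cast g2
          rw [Real.rpow_two, sq]
          exact this
        calc (q : ℝ) ^ (ε / 2) ≤ ((X : ℝ) ^ (2 : ℝ)) ^ (ε / 2) := Real.rpow_le_rpow (by positivity) g5 (by positivity)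
          _ = (X : ℝ) ^ ε := by
              rw [← Real.rpow_mul (Nat.cast_nonneg _)]
              congr 1
              ring
    _ = C * (X : ℝ) ^ ε * (((Icc 1 (X * X)).filter (fun q => q ∈ F)).card : ℝ) := by
        rw [sum_const, nsmul_eq_mul]
        ring

end Pool.Agent.Y883.T6
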