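import Pool.Agent.Y883.T6.Diag6
import Pool.Agent.Y883.T6.Cnt6

set_option autoImplicit false

/-! Linear equations in three primes with three large coefficients: coefficients of arbitrary sign, and the number
of the exceptional triples. -/

namespace Pool.Agent.Y883.T6

open Finset
open Pool.Agent.Y883.T3 (ev_log_rpow)
open Pool.Agent.Y883.T5 (Admissible Adm no_common)

lemma adm_rot {a b c d : ℤ} (h : Admissible a b c d) : Admissible b c a d := by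
  refine ⟨h.b_ne, h.c_ne, h.a_ne, fun h' => h.not_pos ⟨h'.2.2, h'.1, h'.2.1⟩,
    fun h' => h.not_neg ⟨h'.2.2, h'.1, h'.2.1⟩, ?_, ?_, h.gcd_dbc, ?_, ?_⟩
  · have := h.even
    have e : b + c + a - d = a + b + c - d := by ring
    rwa [e]
  · rw [Int.gcd_comm, ← Int.gcd_assoc]
    exact h.gcd_abc
  · rw [Int.gcd_assoc, Int.gcd_comm b a, ← Int.gcd_assoc]
    exact h.gcd_dab
  · rw [Int.gcd_assoc, Int.gcd_comm c a, ← Int.gcd_assoc]
    exact h.gcd_dac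

/-- a prime solution with small terms -/
def Sol6 (θ : ℝ) (Δ : ℕ) (a b c d : ℤ) : Prop :=
  ∃ p q r : ℕ, p.Prime ∧ q.Prime ∧ r.Prime ∧ a * p + b * q + c * r = d ∧
    ((max (a.natAbs * p) (max (b.natAbs * q) (c.natAbs * r)) : ℕ) : ℝ) ≤
      3 * |(d : ℝ)| + (min a.natAbs (min b.natAbs c.natAbs) : ℕ) * (Δ : ℝ) ^ θ

lemma Sol6.rot {θ : ℝ} {Δ : ℕ} {a b c d : ℤ} (h : Sol6 θ Δ b c a d) : Sol6 θ Δ a b c d := by
  obtain ⟨p, q, r, h1, h2, h3, h4, h5⟩ := h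
  refine ⟨r, p, q, h3, h1, h2, by linarith, ?_⟩
  have e1 : max (a.natAbs * r) (max (b.natAbs * p) (c.natAbs * q)) =
      max (b.natAbs * p) (max (c.natAbs * q) (a.natAbs * r)) := by
    rw [max_comm (a.natAbs * r), max_assoc]
  have e2 : min a.natAbs (min b.natAbs c.natAbs) = min b.natAbs (min c.natAbs a.natAbs) := by
    rw [min_comm a.natAbs, min_assoc]
  rw [e1, e2]
  exact h5

lemma Cnd2.rot {T : ℕ} {D F : Set ℕ} {Δ a1 a2 a3 : ℕ} (h : Cnd2 T D F Δ a1 a2 a3) : Cnd2 T D F Δ a2 a3 a1 :=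
  ⟨h.p2, h.p3, h.p1, h.u23, h.u31, h.u12, by have := h.w; tauto, h.g23, h.g31, h.g12, h.d23, h.d31, h.d12,
    h.f23, h.f31, h.f12⟩

lemma sol_core6 {T : ℕ} {D F : Set ℕ} {Δ : ℕ} {θ : ℝ}
    (H : ∀ a1 a2 a3 : ℕ, Cnd2 T D F Δ a1 a2 a3 → ∀ d : ℤ, Adm a1 a2 a3 d →
      ∃ x y z : ℕ, x.Prime ∧ y.Prime ∧ z.Prime ∧ (a1 : ℤ) * x + a2 * y = d + a3 * z ∧
        ((max (a1 * x) (max (a2 * y) (a3 * z)) : ℕ) : ℝ) ≤
          3 * |(d : ℝ)| + (min a1 (min a2 a3) : ℕ) * (Δ : ℝ) ^ θ)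
    {a b c d : ℤ} (h : Admissible a b c d) (hC : Cnd2 T D F Δ a.natAbs b.natAbs c.natAbs)
    (hs : (0 < a ∧ 0 < b ∧ c < 0) ∨ (a < 0 ∧ b < 0 ∧ 0 < c)) : Sol6 θ Δ a b c d := by
  have heven : (2 : ℤ) ∣ a + b + c - d := h.even.two_dvd
  rcases hs with ⟨ha, hb, hc⟩ | ⟨ha, hb, hc⟩
  · have ea : ((a.natAbs : ℕ) : ℤ) = a := Int.natAbs_of_nonneg ha.le
    have eb : ((b.natAbs : ℕ) : ℤ) = b := Int.natAbs_of_nonneg hb.le
    have ec : ((c.natAbs : ℕ) : ℤ) = -c := Int.ofNat_natAbs_of_nonpos hc.le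
    have hadm : Adm (a.natAbs : ℤ) (b.natAbs : ℤ) (c.natAbs : ℤ) d := by
      rw [ea, eb, ec]
      refine ⟨fun p hp h1 => no_common h.gcd_abc p hp ⟨h1.1, h1.2.1, (dvd_neg).1 h1.2.2⟩,
        fun p hp h1 => no_common h.gcd_dab p hp h1,
        fun p hp h1 => no_common h.gcd_dac p hp ⟨h1.1, h1.2.1, (dvd_neg).1 h1.2.2⟩,
        fun p hp h1 => no_common h.gcd_dbc p hp ⟨h1.1, h1.2.1, (dvd_neg).1 h1.2.2⟩, ?_⟩
      rw [sub_neg_eq_add]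
      exact heven
    obtain ⟨x, y, z, h1, h2, h3, h4, h5⟩ := H _ _ _ hC d hadm
    rw [ea, eb, ec] at h4
    exact ⟨x, y, z, h1, h2, h3, by linarith, h5⟩
  · have ea : ((a.natAbs : ℕ) : ℤ) = -a := Int.ofNat_natAbs_of_nonpos ha.le
    have eb : ((b.natAbs : ℕ) : ℤ) = -b := Int.ofNat_natAbs_of_nonpos hb.le
    have ec : ((c.natAbs : ℕ) : ℤ) = c := Int.natAbs_of_nonneg hc.le
    have hadm : Adm (a.natAbs : ℤ) (b.natAbs : ℤ) (c.natAbs : ℤ) (-d) := by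
      rw [ea, eb, ec]
      refine ⟨fun p hp h1 => no_common h.gcd_abc p hp ⟨(dvd_neg).1 h1.1, (dvd_neg).1 h1.2.1, h1.2.2⟩,
        fun p hp h1 => no_common h.gcd_dab p hp ⟨(dvd_neg).1 h1.1, (dvd_neg).1 h1.2.1, (dvd_neg).1 h1.2.2⟩,
        fun p hp h1 => no_common h.gcd_dac p hp ⟨(dvd_neg).1 h1.1, (dvd_neg).1 h1.2.1, h1.2.2⟩,
        fun p hp h1 => no_common h.gcd_dbc p hp ⟨(dvd_neg).1 h1.1, (dvd_neg).1 h1.2.1, h1.2.2⟩, ?_⟩
      have e : -a + -b - c - -d = -(a + b + c - d) := by ring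
      rw [e]
      exact (dvd_neg).2 heven
    obtain ⟨x, y, z, h1, h2, h3, h4, h5⟩ := H _ _ _ hC (-d) hadm
    rw [ea, eb, ec] at h4
    refine ⟨x, y, z, h1, h2, h3, by linarith, ?_⟩
    push_cast at h5 ⊢
    rwa [abs_neg] at h5

lemma sol_all6 {T : ℕ} {D F : Set ℕ} {Δ : ℕ} {θ : ℝ}
    (H : ∀ a1 a2 a3 : ℕ, Cnd2 T D F Δ a1 a2 a3 → ∀ d : ℤ, Adm a1 a2 a3 d →
      ∃ x y z : ℕ, x.Prime ∧ y.Prime ∧ z.Prime ∧ (a1 : ℤ) * x + a2 * y = d + a3 * z ∧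
        ((max (a1 * x) (max (a2 * y) (a3 * z)) : ℕ) : ℝ) ≤
          3 * |(d : ℝ)| + (min a1 (min a2 a3) : ℕ) * (Δ : ℝ) ^ θ)
    {a b c d : ℤ} (h : Admissible a b c d) (hC : Cnd2 T D F Δ a.natAbs b.natAbs c.natAbs) : Sol6 θ Δ a b c d := by
  have h0 := h.not_pos
  have h0' := h.not_neg
  rcases lt_or_gt_of_ne h.a_ne with ha | ha <;> rcases lt_or_gt_of_ne h.b_ne with hb | hb <;>
    rcases lt_or_gt_of_ne h.c_ne with hc | hc
  · exact absurd ⟨ha, hb, hc⟩ h0'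
  · exact sol_core6 H h hC (Or.inr ⟨ha, hb, hc⟩)
  · exact (sol_core6 H (adm_rot (adm_rot h)) hC.rot.rot (Or.inr ⟨hc, ha, hb⟩)).rot.rot
  · exact (sol_core6 H (adm_rot h) hC.rot (Or.inl ⟨hb, hc, ha⟩)).rot
  · exact (sol_core6 H (adm_rot h) hC.rot (Or.inr ⟨hb, hc, ha⟩)).rot
  · exact (sol_core6 H (adm_rot (adm_rot h)) hC.rot.rot (Or.inl ⟨hc, ha, hb⟩)).rot.rot
  · exact sol_core6 H h hC (Or.inl ⟨ha, hb, hc⟩)
  · exact absurd ⟨ha, hb, hc⟩ h0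

/-- the conditions on a pair `u`, `v` of coefficients: the greatest common divisor is at most `log ^ T Δ`, no member
of `D` larger than `log ^ T Δ` divides `u v`, and `|u v|` is at most `log ^ T Δ` or not in `F` -/
structure GoodPair (T : ℕ) (D F : Set ℕ) (Δ : ℕ) (u v : ℤ) : Prop where
  gcd_le : (Int.gcd u v : ℝ) ≤ Real.log Δ ^ T
  sparse : ∀ e ∈ D, Real.log Δ ^ T < (e : ℝ) → ¬ (e : ℤ) ∣ u * v
  not_mem : Real.log Δ ^ T < ((u * v).natAbs : ℝ) → (u * v).natAbs ∉ F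

open Classical in
theorem main6 : ∃ D : Set ℕ,
    (∀ X : ℕ, 1 ≤ X → (((Icc 1 X).filter (fun e => e ∈ D)).card : ℝ) ≤ (X : ℝ) ^ (1 / 4 : ℝ)) ∧
    (∀ ε : ℝ, 0 < ε → ∃ X₀ : ℕ, ∀ X : ℕ, X₀ ≤ X → (((Icc 1 X).filter (fun e => e ∈ D)).card : ℝ) ≤ (X : ℝ) ^ ε) ∧
    ∀ θ : ℝ, 1 < θ → ∀ η : ℝ, 0 < η → ∀ T : ℕ, ∃ (Δ₀ : ℕ) (F : Set ℕ),
      (∀ X : ℕ, Δ₀ ≤ X → (((Icc 1 X).filter (fun q => q ∈ F)).card : ℝ) ≤ (X : ℝ) ^ (2 - θ + η)) ∧
      (3 / 2 < θ → F = ∅) ∧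
      ∀ a b c d : ℤ, Admissible a b c d → ∀ Δ : ℕ, Δ = max (a * b).natAbs (max (b * c).natAbs (c * a).natAbs) →
        Δ₀ ≤ Δ → GoodPair T D F Δ a b → GoodPair T D F Δ b c → GoodPair T D F Δ c a → Sol6 θ Δ a b c d := by
  obtain ⟨D, -, h2, h3, h4⟩ := diag6 1
  refine ⟨D, h2, h3, fun θ hθ η hη T => ?_⟩
  obtain ⟨Δ₀, F, g1, g2, g3⟩ := h4 θ hθ η hη T
  refine ⟨Δ₀, F, g1, g2, ?_⟩
  intro a b c d hadm Δ hΔ hΔ₀ hab hbc hca
  apply sol_all6 (fun a1 a2 a3 hC d hd => g3 Δ a1 a2 a3 hΔ₀ hC d hd) hadm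
  have hD : ∀ u v : ℤ, GoodPair T D F Δ u v → ∀ e ∈ D, Real.log Δ ^ T < (e : ℝ) → ¬ e ∣ u.natAbs * v.natAbs := by
    intro u v h e he h5 h6
    apply h.sparse e he h5
    rw [Int.natCast_dvd, Int.natAbs_mul]
    exact h6
  have hF : ∀ u v : ℤ, GoodPair T D F Δ u v → Real.log Δ ^ T < ((u.natAbs * v.natAbs : ℕ) : ℝ) →
      u.natAbs * v.natAbs ∉ F := by
    intro u v h
    rw [← Int.natAbs_mul]
    exact h.not_mem
  rw [Int.natAbs_mul, Int.natAbs_mul, Int.natAbs_mul] at hΔ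
  refine ⟨Int.natAbs_pos.2 hadm.a_ne, Int.natAbs_pos.2 hadm.b_ne, Int.natAbs_pos.2 hadm.c_ne, by omega, by omega,
    by omega, by omega, hab.gcd_le, hbc.gcd_le, hca.gcd_le, hD _ _ hab, hD _ _ hbc, hD _ _ hca, hF _ _ hab, hF _ _ hbc,
    hF _ _ hca⟩

/-- the inequality of the problem: the equation has a solution in primes with `max(p, q, r) ≤ 3 |d| + m ^ μ`,
`m = max(3, |a|, |b|, |c|)` -/
def SmallSolution (μ : ℝ) (a b c d : ℤ) : Prop :=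
  ∃ p q r : ℕ, p.Prime ∧ q.Prime ∧ r.Prime ∧ a * p + b * q + c * r = d ∧
    ((max p (max q r) : ℕ) : ℝ) ≤ 3 * |(d : ℝ)| + ((max 3 (max |a| (max |b| |c|)) : ℤ) : ℝ) ^ μ

lemma Sol6.bound {θ B : ℝ} {Δ : ℕ} {a b c d : ℤ} (h : Sol6 θ Δ a b c d) (ha : a ≠ 0) (hb : b ≠ 0) (hc : c ≠ 0)
    (hΔ : (Δ : ℝ) ^ θ ≤ B) : ∃ p q r : ℕ, p.Prime ∧ q.Prime ∧ r.Prime ∧ a * p + b * q + c * r = d ∧
      ((max p (max q r) : ℕ) : ℝ) ≤ 3 * |(d : ℝ)| + B := by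
  obtain ⟨p, q, r, h1, h2, h3, h4, h5⟩ := h
  refine ⟨p, q, r, h1, h2, h3, h4, le_trans ?_ (add_le_add_right hΔ _)⟩
  have hkey : ∀ u x : ℕ, 1 ≤ u → min a.natAbs (min b.natAbs c.natAbs) ≤ u →
      u * x ≤ max (a.natAbs * p) (max (b.natAbs * q) (c.natAbs * r)) → (x : ℝ) ≤ 3 * |(d : ℝ)| + (Δ : ℝ) ^ θ := by
    intro u x hu hmu hux
    have hu1 : (1 : ℝ) ≤ u := by exact_mod_cast hu
    have hΔ0 : 0 ≤ (Δ : ℝ) ^ θ := by positivity
    have e1 : (u : ℝ) * x ≤ 3 * |(d : ℝ)| + (min a.natAbs (min b.natAbs c.natAbs) : ℕ) * (Δ : ℝ) ^ θ := by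
      refine le_trans ?_ h5
      exact_mod_cast hux
    have e2 : ((min a.natAbs (min b.natAbs c.natAbs) : ℕ) : ℝ) * (Δ : ℝ) ^ θ ≤ u * (Δ : ℝ) ^ θ :=
      mul_le_mul_of_nonneg_right (by exact_mod_cast hmu) hΔ0
    have e3 : 3 * |(d : ℝ)| ≤ u * (3 * |(d : ℝ)|) := le_mul_of_one_le_left (by positivity) hu1
    have e4 : (u : ℝ) * x ≤ u * (3 * |(d : ℝ)| + (Δ : ℝ) ^ θ) := by
      rw [mul_add]
      linarith
    exact le_of_mul_le_mul_left e4 (by linarith)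
  have f1 := hkey a.natAbs p (Int.natAbs_pos.2 ha) (min_le_left _ _) (le_max_left _ _)
  have f2 := hkey b.natAbs q (Int.natAbs_pos.2 hb) ((min_le_right _ _).trans (min_le_left _ _))
    ((le_max_left _ _).trans (le_max_right _ _))
  have f3 := hkey c.natAbs r (Int.natAbs_pos.2 hc) ((min_le_right _ _).trans (min_le_right _ _))
    ((le_max_right _ _).trans (le_max_right _ _))
  rw [Nat.cast_max, Nat.cast_max]
  exact max_le f1 (max_le f2 f3)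

lemma Sol6.small {θ μ : ℝ} {Δ : ℕ} {a b c d : ℤ} (h : Sol6 θ Δ a b c d) (ha : a ≠ 0) (hb : b ≠ 0) (hc : c ≠ 0)
    (hΔ : (Δ : ℝ) ^ θ ≤ ((max 3 (max |a| (max |b| |c|)) : ℤ) : ℝ) ^ μ) : SmallSolution μ a b c d :=
  h.bound ha hb hc hΔ

open Classical in
theorem dens6 {D : Set ℕ}
    (hD : ∀ X : ℕ, 1 ≤ X → (((Icc 1 X).filter (fun e => e ∈ D)).card : ℝ) ≤ (X : ℝ) ^ (1 / 4 : ℝ))
    (hmain : ∀ θ : ℝ, 1 < θ → ∀ η : ℝ, 0 < η → ∀ T : ℕ, ∃ (Δ₀ : ℕ) (F : Set ℕ),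
      (∀ X : ℕ, Δ₀ ≤ X → (((Icc 1 X).filter (fun q => q ∈ F)).card : ℝ) ≤ (X : ℝ) ^ (2 - θ + η)) ∧
      (3 / 2 < θ → F = ∅) ∧
      ∀ a b c d : ℤ, Admissible a b c d → ∀ Δ : ℕ, Δ = max (a * b).natAbs (max (b * c).natAbs (c * a).natAbs) →
        Δ₀ ≤ Δ → GoodPair T D F Δ a b → GoodPair T D F Δ b c → GoodPair T D F Δ c a → Sol6 θ Δ a b c d)
    (ε : ℝ) (hε : 0 < ε) (A : ℕ) : ∃ X₀ : ℕ, ∀ X : ℕ, X₀ ≤ X →
      (((Icc 1 X ×ˢ Icc 1 X ×ˢ Icc 1 X).filter (fun t : ℕ × ℕ × ℕ => ¬ ∀ a b c d : ℤ, Admissible a b c d →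
        a.natAbs = t.1 → b.natAbs = t.2.1 → c.natAbs = t.2.2 → SmallSolution (2 + ε) a b c d)).card : ℝ) ≤
        (X : ℝ) ^ 3 / Real.log X ^ A := by
  obtain ⟨C₁, hC₁, hp1⟩ := pair_sparse hD
  obtain ⟨C₂, hC₂, hp2⟩ := pair_mem (ε / 4) (by positivity)
  obtain ⟨Δ₀, F, hF1, -, hF3⟩ := hmain (1 + ε / 2) (by linarith) (ε / 4) (by positivity) (4 * (A + 2))
  obtain ⟨N₁, h1⟩ := ev_log_rpow (2 * A + 2) 1 1 (by norm_num)
  obtain ⟨N₂, h2⟩ := ev_log_rpow (A + 1) C₂ (ε / 4) (by positivity)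
  obtain ⟨N₃, h3⟩ := exists_nat_ge (Real.exp (C₁ + 12))
  refine ⟨Δ₀ + N₁ + N₂ + N₃ + 3, fun X hX => ?_⟩
  have hX1n : 1 ≤ X := by omega
  have hX0 : (0 : ℝ) < X := by exact_mod_cast hX1n
  have hX1 : (1 : ℝ) ≤ X := by exact_mod_cast hX1n
  obtain ⟨L, hL⟩ : ∃ L, L = Real.log X := ⟨_, rfl⟩
  have hLC : C₁ + 12 ≤ L := by
    rw [hL, Real.le_log_iff_exp_le hX0]
    exact h3.trans (by exact_mod_cast (by omega : N₃ ≤ X))
  have hL0 : 0 < L := by linarith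
  have hL1 : 1 ≤ L := by linarith
  have hL2 : L ^ (2 * A + 2) ≤ X := by
    have := h1 X (by omega)
    rwa [one_mul, Real.rpow_one, ← hL] at this
  have hL3 : C₂ * L ^ (A + 1) ≤ (X : ℝ) ^ (ε / 4) := by
    have := h2 X (by omega)
    rwa [← hL] at this
  rw [← hL]
  obtain ⟨P, hP⟩ : ∃ P : ℕ → ℕ → Prop, P = fun (u v : ℕ) => (u : ℝ) * L ^ (A + 1) < X ∨ L ^ (4 * (A + 2)) < (Nat.gcd u v : ℕ) ∨
    (∃ e ∈ D, L ^ (4 * (A + 2)) < (e : ℝ) ∧ e ∣ u * v) ∨ u * v ∈ F := ⟨_, rfl⟩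
  -- the number of the exceptional pairs
  obtain ⟨Z, hZ⟩ : ∃ Z : ℝ, Z = (X : ℝ) ^ 2 / L ^ (A + 1) := ⟨_, rfl⟩
  have hpairs : (((Icc 1 X ×ˢ Icc 1 X).filter (fun s : ℕ × ℕ => P s.1 s.2)).card : ℝ) ≤ 4 * Z := by
    obtain ⟨P1, hP1⟩ : ∃ P1, P1 = (Icc 1 X ×ˢ Icc 1 X).filter (fun s : ℕ × ℕ => (s.1 : ℝ) * L ^ (A + 1) < X) := ⟨_, rfl⟩
    obtain ⟨P2, hP2⟩ : ∃ P2, P2 = (Icc 1 X ×ˢ Icc 1 X).filter
      (fun s : ℕ × ℕ => L ^ (4 * (A + 2)) < (Nat.gcd s.1 s.2 : ℕ)) := ⟨_, rfl⟩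
    obtain ⟨P3, hP3⟩ : ∃ P3, P3 = (Icc 1 X ×ˢ Icc 1 X).filter
      (fun s : ℕ × ℕ => ∃ e ∈ D, L ^ (4 * (A + 2)) < (e : ℝ) ∧ e ∣ s.1 * s.2) := ⟨_, rfl⟩
    obtain ⟨P4, hP4⟩ : ∃ P4, P4 = (Icc 1 X ×ˢ Icc 1 X).filter (fun s : ℕ × ℕ => s.1 * s.2 ∈ F) := ⟨_, rfl⟩
    have hsub : (Icc 1 X ×ˢ Icc 1 X).filter (fun s : ℕ × ℕ => P s.1 s.2) ⊆ P1 ∪ (P2 ∪ (P3 ∪ P4)) := by
      intro s hs
      rw [mem_filter, hP] at hs
      rw [mem_union, mem_union, mem_union, hP1, hP2, hP3, hP4, mem_filter, mem_filter, mem_filter, mem_filter]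
      obtain ⟨g0, g | g | g | g⟩ := hs
      · exact Or.inl ⟨g0, g⟩
      · exact Or.inr (Or.inl ⟨g0, g⟩)
      · exact Or.inr (Or.inr (Or.inl ⟨g0, g⟩))
      · exact Or.inr (Or.inr (Or.inr ⟨g0, g⟩))
    have hc : ((Icc 1 X ×ˢ Icc 1 X).filter (fun s : ℕ × ℕ => P s.1 s.2)).card ≤
        P1.card + (P2.card + (P3.card + P4.card)) :=
      (card_le_card hsub).trans ((card_union_le _ _).trans (Nat.add_le_add_left
        ((card_union_le _ _).trans (Nat.add_le_add_left (card_union_le _ _) _)) _))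
    have hcr : (((Icc 1 X ×ˢ Icc 1 X).filter (fun s : ℕ × ℕ => P s.1 s.2)).card : ℝ) ≤
        P1.card + (P2.card + (P3.card + P4.card)) := by exact_mod_cast hc
    have hLp : 0 < L ^ (A + 1) := by positivity
    have b1 : (P1.card : ℝ) ≤ Z := by
      have hsub1 : P1 ⊆ Icc 1 ⌊(X : ℝ) / L ^ (A + 1)⌋₊ ×ˢ Icc 1 X := by
        intro s hs
        rw [hP1, mem_filter, mem_product, mem_Icc, mem_Icc] at hs
        rw [mem_product, mem_Icc, mem_Icc]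
        refine ⟨⟨hs.1.1.1, Nat.le_floor ?_⟩, hs.1.2⟩
        rw [le_div_iff₀ hLp]
        exact hs.2.le
      have e1 := card_le_card hsub1
      rw [card_product, Nat.card_Icc, Nat.card_Icc, Nat.add_sub_cancel, Nat.add_sub_cancel] at e1
      have e2 : (P1.card : ℝ) ≤ (⌊(X : ℝ) / L ^ (A + 1)⌋₊ : ℕ) * X := by exact_mod_cast e1
      refine e2.trans ?_
      calc ((⌊(X : ℝ) / L ^ (A + 1)⌋₊ : ℕ) : ℝ) * X ≤ ((X : ℝ) / L ^ (A + 1)) * X :=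
            mul_le_mul_of_nonneg_right (Nat.floor_le (by positivity)) hX0.le
        _ = Z := by rw [hZ]; ring
    have hLL : ∀ K : ℝ, K ≤ L → K * ((X : ℝ) ^ 2 / L ^ (A + 2)) ≤ Z := by
      intro K hK
      rw [hZ]
      calc K * ((X : ℝ) ^ 2 / L ^ (A + 2)) ≤ L * ((X : ℝ) ^ 2 / L ^ (A + 2)) :=
            mul_le_mul_of_nonneg_right hK (by positivity)
        _ = (X : ℝ) ^ 2 / L ^ (A + 1) := by
            rw [pow_succ L (A + 1)]
            field_simp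
    have b2 : (P2.card : ℝ) ≤ Z := by
      have e1 := pair_gcd X (L ^ (4 * (A + 2))) (by positivity)
      rw [← hP2] at e1
      refine e1.trans ((mul_le_mul_of_nonneg_left ?_ (by norm_num)).trans (hLL 2 (by linarith)))
      apply div_le_div_of_nonneg_left (by positivity) (by positivity)
      exact pow_le_pow_right₀ hL1 (by omega)
    have b3 : (P3.card : ℝ) ≤ Z := by
      have e1 := hp1 X (L ^ (4 * (A + 2))) (by positivity)
      rw [← hP3] at e1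
      have e2 : (L ^ (4 * (A + 2))) ^ (1 / 4 : ℝ) = L ^ (A + 2) := by
        rw [← Real.rpow_natCast, ← Real.rpow_natCast, ← Real.rpow_mul hL0.le]
        congr 1
        push_cast
        ring
      rw [e2] at e1
      exact e1.trans (hLL C₁ (by linarith))
    have b4 : (P4.card : ℝ) ≤ Z := by
      have e1 := hp2 X F
      rw [← hP4] at e1
      have e2 : X ≤ X * X := Nat.le_mul_of_pos_left X hX1n
      have e3 := hF1 (X * X) (by omega)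
      refine e1.trans ?_
      have e4 : (((X * X : ℕ) : ℝ)) ^ (2 - (1 + ε / 2) + ε / 4) = (X : ℝ) ^ (2 - ε / 2) := by
        have : ((X * X : ℕ) : ℝ) = (X : ℝ) ^ (2 : ℝ) := by
          push_cast
          rw [Real.rpow_two, sq]
        rw [this, ← Real.rpow_mul hX0.le]
        congr 1
        ring
      rw [e4] at e3
      calc C₂ * (X : ℝ) ^ (ε / 4) * (((Icc 1 (X * X)).filter (fun q => q ∈ F)).card : ℝ)
          ≤ C₂ * (X : ℝ) ^ (ε / 4) * (X : ℝ) ^ (2 - ε / 2) := mul_le_mul_of_nonneg_left e3 (by positivity)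
        _ = C₂ * (X : ℝ) ^ (2 - ε / 4) := by
            rw [mul_assoc, ← Real.rpow_add hX0]
            ring_nf
        _ ≤ Z := by
            rw [hZ, le_div_iff₀ hLp]
            calc C₂ * (X : ℝ) ^ (2 - ε / 4) * L ^ (A + 1) = (C₂ * L ^ (A + 1)) * (X : ℝ) ^ (2 - ε / 4) := by ring
              _ ≤ (X : ℝ) ^ (ε / 4) * (X : ℝ) ^ (2 - ε / 4) := mul_le_mul_of_nonneg_right hL3 (by positivity)
              _ = (X : ℝ) ^ 2 := by
                  rw [← Real.rpow_add hX0, ← Real.rpow_natCast]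
                  congr 1
                  push_cast
                  ring
    linarith
  -- a triple without exceptional pairs
  have hgood : ∀ u v w : ℕ, 1 ≤ u → 1 ≤ v → 1 ≤ w → ¬ P u v → ¬ P v w → ¬ P w u → ∀ a b c d : ℤ, Admissible a b c d →
      a.natAbs = u → b.natAbs = v → c.natAbs = w → SmallSolution (2 + ε) a b c d := by
    intro u v w hu hv hw huv hvw hwu a b c d hadm ea eb ec
    obtain ⟨Δ, hΔ⟩ : ∃ Δ, Δ = max (a * b).natAbs (max (b * c).natAbs (c * a).natAbs) := ⟨_, rfl⟩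
    have hΔ' : Δ = max (u * v) (max (v * w) (w * u)) := by
      rw [hΔ, Int.natAbs_mul, Int.natAbs_mul, Int.natAbs_mul, ea, eb, ec]
    have hu' : (X : ℝ) ≤ u * L ^ (A + 1) := by
      rw [hP] at huv
      push Not at huv
      exact huv.1
    have hv' : (X : ℝ) ≤ v * L ^ (A + 1) := by
      rw [hP] at hvw
      push Not at hvw
      exact hvw.1
    have hXΔ : X ≤ Δ := by
      have e1 : (X : ℝ) * X ≤ (u * L ^ (A + 1)) * (v * L ^ (A + 1)) := mul_le_mul hu' hv' hX0.le (by positivity)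
      have e2 : (u * L ^ (A + 1)) * (v * L ^ (A + 1)) = ((u * v : ℕ) : ℝ) * L ^ (2 * A + 2) := by
        have : L ^ (2 * A + 2) = L ^ (A + 1) * L ^ (A + 1) := by rw [← pow_add]; congr 1; ring
        rw [this]
        push_cast
        ring
      have e3 : ((u * v : ℕ) : ℝ) * L ^ (2 * A + 2) ≤ ((u * v : ℕ) : ℝ) * X :=
        mul_le_mul_of_nonneg_left hL2 (Nat.cast_nonneg _)
      have e4 : (X : ℝ) * X ≤ ((u * v : ℕ) : ℝ) * X := by linarith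
      have e5 : (X : ℝ) ≤ ((u * v : ℕ) : ℝ) := le_of_mul_le_mul_right e4 hX0
      have e6 : X ≤ u * v := by exact_mod_cast e5
      rw [hΔ']
      exact e6.trans (le_max_left _ _)
    have hΔ0 : (0 : ℝ) < Δ := by exact_mod_cast (by omega : 0 < Δ)
    have hLΔ : L ^ (4 * (A + 2)) ≤ Real.log Δ ^ (4 * (A + 2)) := by
      apply pow_le_pow_left₀ hL0.le
      rw [hL]
      exact Real.log_le_log hX0 (by exact_mod_cast hXΔ)
    have hpair : ∀ s t : ℤ, ¬ P s.natAbs t.natAbs → GoodPair (4 * (A + 2)) D F Δ s t := by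
      intro s t hst
      rw [hP] at hst
      push Not at hst
      obtain ⟨-, g1, g2, g3⟩ := hst
      refine ⟨?_, ?_, ?_⟩
      · exact g1.trans hLΔ
      · intro e he g4 g5
        rw [Int.natCast_dvd, Int.natAbs_mul] at g5
        exact g2 e he (hLΔ.trans_lt g4) g5
      · intro _
        rw [Int.natAbs_mul]
        exact g3
    have hsol := hF3 a b c d hadm Δ hΔ (by omega) (hpair a b (by rw [ea, eb]; exact huv))
      (hpair b c (by rw [eb, ec]; exact hvw)) (hpair c a (by rw [ec, ea]; exact hwu))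
    apply hsol.small hadm.a_ne hadm.b_ne hadm.c_ne
    obtain ⟨m, hm⟩ : ∃ m : ℤ, m = max 3 (max |a| (max |b| |c|)) := ⟨_, rfl⟩
    rw [← hm]
    have hma : |a| ≤ m := by rw [hm]; exact (le_max_left _ _).trans (le_max_right _ _)
    have hmb : |b| ≤ m := by
      rw [hm]; exact ((le_max_left _ _).trans (le_max_right _ _)).trans (le_max_right _ _)
    have hmc : |c| ≤ m := by
      rw [hm]; exact ((le_max_right _ _).trans (le_max_right _ _)).trans (le_max_right _ _)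
    have hm0 : 0 ≤ m := (abs_nonneg a).trans hma
    have hΔm : (Δ : ℤ) ≤ m * m := by
      have e1 : |a * b| ≤ m * m := by rw [abs_mul]; exact mul_le_mul hma hmb (abs_nonneg _) hm0
      have e2 : |b * c| ≤ m * m := by rw [abs_mul]; exact mul_le_mul hmb hmc (abs_nonneg _) hm0
      have e3 : |c * a| ≤ m * m := by rw [abs_mul]; exact mul_le_mul hmc hma (abs_nonneg _) hm0
      rw [hΔ, Nat.cast_max, Nat.cast_max, Int.natCast_natAbs, Int.natCast_natAbs, Int.natCast_natAbs]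
      exact max_le e1 (max_le e2 e3)
    have hmr0 : (0 : ℝ) ≤ m := by exact_mod_cast hm0
    have hΔmr : (Δ : ℝ) ≤ (m : ℝ) ^ (2 : ℝ) := by
      rw [Real.rpow_two, sq]
      exact_mod_cast hΔm
    calc (Δ : ℝ) ^ (1 + ε / 2) ≤ ((m : ℝ) ^ (2 : ℝ)) ^ (1 + ε / 2) :=
          Real.rpow_le_rpow (Nat.cast_nonneg _) hΔmr (by linarith)
      _ = (m : ℝ) ^ (2 + ε) := by
          rw [← Real.rpow_mul hmr0]
          congr 1
          ring
  -- the number of the exceptional triples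
  obtain ⟨B, hB⟩ : ∃ B, B = Icc 1 X ×ˢ Icc 1 X ×ˢ Icc 1 X := ⟨_, rfl⟩
  obtain ⟨c₁, hc₁⟩ : ∃ c₁ : Finset (ℕ × ℕ × ℕ), c₁ = B.filter (fun t => P t.1 t.2.1) := ⟨_, rfl⟩
  obtain ⟨c₂, hc₂⟩ : ∃ c₂ : Finset (ℕ × ℕ × ℕ), c₂ = B.filter (fun t => P t.2.1 t.2.2) := ⟨_, rfl⟩
  obtain ⟨c₃, hc₃⟩ : ∃ c₃ : Finset (ℕ × ℕ × ℕ), c₃ = B.filter (fun t => P t.2.2 t.1) := ⟨_, rfl⟩
  have hsub : (B.filter (fun t : ℕ × ℕ × ℕ => ¬ ∀ a b c d : ℤ, Admissible a b c d →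
        a.natAbs = t.1 → b.natAbs = t.2.1 → c.natAbs = t.2.2 → SmallSolution (2 + ε) a b c d)) ⊆ c₁ ∪ (c₂ ∪ c₃) := by
    rintro ⟨u, v, w⟩ ht
    rw [mem_filter] at ht
    obtain ⟨ht1, ht2⟩ := ht
    rw [mem_union, mem_union, hc₁, hc₂, hc₃, mem_filter, mem_filter, mem_filter]
    by_contra hcon
    push Not at hcon
    apply ht2
    have ht1' := ht1
    rw [hB, mem_product, mem_product, mem_Icc, mem_Icc, mem_Icc] at ht1'
    exact hgood u v w ht1'.1.1 ht1'.2.1.1 ht1'.2.2.1 (hcon.1 ht1) (hcon.2.1 ht1) (hcon.2.2 ht1)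
  have hc : (B.filter (fun t : ℕ × ℕ × ℕ => ¬ ∀ a b c d : ℤ, Admissible a b c d →
        a.natAbs = t.1 → b.natAbs = t.2.1 → c.natAbs = t.2.2 → SmallSolution (2 + ε) a b c d)).card ≤
      c₁.card + (c₂.card + c₃.card) :=
    (card_le_card hsub).trans ((card_union_le _ _).trans (Nat.add_le_add_left (card_union_le _ _) _))
  have hcr : ((B.filter (fun t : ℕ × ℕ × ℕ => ¬ ∀ a b c d : ℤ, Admissible a b c d →
        a.natAbs = t.1 → b.natAbs = t.2.1 → c.natAbs = t.2.2 → SmallSolution (2 + ε) a b c d)).card : ℝ) ≤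
      c₁.card + (c₂.card + c₃.card) := by exact_mod_cast hc
  have hmem : ∀ t : ℕ × ℕ × ℕ, t ∈ Icc 1 X ×ˢ Icc 1 X ×ˢ Icc 1 X → t.1 ∈ Icc 1 X ∧ t.2.1 ∈ Icc 1 X ∧ t.2.2 ∈ Icc 1 X := by
    intro t ht
    rw [mem_product, mem_product] at ht
    exact ht
  have t1 := triple_cnt X P (fun t => ((t.1, t.2.1), t.2.2)) (by
      rintro ⟨u, v, w⟩ ⟨u', v', w'⟩ h
      simp only [Prod.mk.injEq] at h
      obtain ⟨⟨h1, h2⟩, h3⟩ := h
      rw [h1, h2, h3]) (by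
      intro t ht
      obtain ⟨g1, g2, g3⟩ := hmem t ht
      rw [mem_product, mem_product]
      exact ⟨⟨g1, g2⟩, g3⟩)
  have t2 := triple_cnt X P (fun t => ((t.2.1, t.2.2), t.1)) (by
      rintro ⟨u, v, w⟩ ⟨u', v', w'⟩ h
      simp only [Prod.mk.injEq] at h
      obtain ⟨⟨h1, h2⟩, h3⟩ := h
      rw [h1, h2, h3]) (by
      intro t ht
      obtain ⟨g1, g2, g3⟩ := hmem t ht
      rw [mem_product, mem_product]
      exact ⟨⟨g2, g3⟩, g1⟩)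
  have t3 := triple_cnt X P (fun t => ((t.2.2, t.1), t.2.1)) (by
      rintro ⟨u, v, w⟩ ⟨u', v', w'⟩ h
      simp only [Prod.mk.injEq] at h
      obtain ⟨⟨h1, h2⟩, h3⟩ := h
      rw [h1, h2, h3]) (by
      intro t ht
      obtain ⟨g1, g2, g3⟩ := hmem t ht
      rw [mem_product, mem_product]
      exact ⟨⟨g3, g1⟩, g2⟩)
  simp only at t1 t2 t3
  rw [← hB, ← hc₁] at t1
  rw [← hB, ← hc₂] at t2
  rw [← hB, ← hc₃] at t3
  have hn : ∀ c : Finset (ℕ × ℕ × ℕ), c.card ≤ ((Icc 1 X ×ˢ Icc 1 X).filter (fun s : ℕ × ℕ => P s.1 s.2)).card * X →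
      (c.card : ℝ) ≤ 4 * Z * X := by
    intro c hc
    have e1 : (c.card : ℝ) ≤ (((Icc 1 X ×ˢ Icc 1 X).filter (fun s : ℕ × ℕ => P s.1 s.2)).card : ℝ) * X := by
      exact_mod_cast hc
    exact e1.trans (mul_le_mul_of_nonneg_right hpairs hX0.le)
  have n1 := hn c₁ t1
  have n2 := hn c₂ t2
  have n3 := hn c₃ t3
  rw [← hB]
  refine hcr.trans ?_
  have hfin : 12 * (Z * X) ≤ (X : ℝ) ^ 3 / L ^ A := by
    have e1 : (X : ℝ) ^ 3 / L ^ A = L * (Z * X) := by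
      rw [hZ, pow_succ L A]
      field_simp
    rw [e1]
    have : 0 ≤ Z * X := by
      rw [hZ]
      positivity
    exact mul_le_mul_of_nonneg_right (by linarith) this
  linarith

end Pool.Agent.Y883.T6
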