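import Pool.Agent.Y883.T6.Err6

set_option autoImplicit false

/-! Linear equations in three primes with three large coefficients: one scale. -/

namespace Pool.Agent.Y883.T6

open Finset
open Pool.Agent.H373R2.T7
open Pool.Agent.Y883.T3
open Pool.Agent.Y883.T4
open Pool.Agent.Y883.T5

open Classical in
/-- the von Mangoldt function at the primes -/
noncomputable def lamQ (n : ℕ) : ℝ := if n.Prime then ArithmeticFunction.vonMangoldt n else 0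

lemma lamQ_zero {n : ℕ} (h : ¬ n.Prime) : lamQ n = 0 := by
  unfold lamQ
  rw [if_neg h]

lemma lamQ_sum (N : ℕ) (hN : 1 ≤ N) :
    ∑ n ∈ Icc 1 N, |ArithmeticFunction.vonMangoldt n - lamQ n| ≤ 2 * √(N : ℝ) * Real.log N := by
  classical
  refine le_trans (le_of_eq ?_) (lamP_sum N hN)
  apply sum_congr rfl
  intro k hk
  rw [mem_Icc] at hk
  unfold lamQ Pool.Agent.Y883.T5.lamP lamI
  simp only
  rw [if_pos (by omega : (1 : ℤ) ≤ (k : ℤ)), Int.toNat_natCast]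

/-- the replacement of the von Mangoldt function by its values at the primes -/
theorem err_prime (T : ℕ) (σ : ℝ) (hσ : 0 < σ) :
    ∃ N₀ : ℕ, ∀ N : ℕ, N₀ ≤ N → ∀ {c1 c2 c3 d : ℤ} {P1 P2 P3 : ℕ},
    Par6 σ N T c1 c2 c3 d P1 P2 P3 → ∀ {g2 g3 : ℕ → ℝ},
    (∀ n ∈ Icc 1 P2, |g2 n| ≤ Real.log N) → (∀ n ∈ Icc 1 P3, |g3 n| ≤ Real.log N) →
    |S3 c1 c2 c3 d P1 P2 P3 (fun n => ArithmeticFunction.vonMangoldt n - lamQ n) g2 g3| ≤
      (N : ℝ) ^ 2 / (c1.natAbs * c2.natAbs * c3.natAbs) / Real.log N ^ (6 * T + 10) := by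
  obtain ⟨N₁, h1⟩ := scale_size σ hσ
  obtain ⟨N₂, h2⟩ := ev_L' 100
  obtain ⟨N₃, h3⟩ := ev_log_rpow (7 * T + 13) 4 (σ / 2) (by positivity)
  refine ⟨N₁ + N₂ + N₃ + 2, fun N hN c1 c2 c3 d P1 P2 P3 hp g2 g3 hg2 hg3 => ?_⟩
  obtain ⟨b1, b2, b3, b4, b5⟩ := h1 N (by omega) hp
  have hL := h2 N (by omega)
  have c3' := h3 N (by omega)
  have hN1 : 1 ≤ N := by omega
  have hN0 : (0 : ℝ) < N := by exact_mod_cast hN1
  have hN1r : (1 : ℝ) ≤ N := by exact_mod_cast hN1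
  obtain ⟨L, hLd⟩ : ∃ L, L = Real.log (N : ℝ) := ⟨_, rfl⟩
  rw [← hLd] at hL c3' b4 b5 hg2 hg3 ⊢
  have hL0 : 0 < L := by linarith
  have hL1 : 1 ≤ L := by linarith
  have ha10 : (0 : ℝ) < c1.natAbs := by exact_mod_cast Int.natAbs_pos.2 hp.n1
  have ha20 : (0 : ℝ) < c2.natAbs := by exact_mod_cast Int.natAbs_pos.2 hp.n2
  have ha30 : (0 : ℝ) < c3.natAbs := by exact_mod_cast Int.natAbs_pos.2 hp.n3
  have hP10 : (0 : ℝ) < P1 := by exact_mod_cast b2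
  have hP1 : (P1 : ℝ) ≤ N / c1.natAbs := by
    rw [le_div_iff₀ ha10, mul_comm]
    exact_mod_cast hp.u1
  have hsq : (N : ℝ) ^ (σ / 2) ≤ √(P1 : ℝ) := by
    apply Real.le_sqrt_of_sq_le
    calc ((N : ℝ) ^ (σ / 2)) ^ 2 = (N : ℝ) ^ σ := by
          rw [← Real.rpow_natCast, ← Real.rpow_mul hN0.le]
          congr 1
          push_cast
          ring
      _ ≤ P1 := b1
  have hsq0 : 0 < √(P1 : ℝ) := Real.sqrt_pos.2 hP10
  have hsq2 : √(P1 : ℝ) ≤ N / c1.natAbs / (4 * L ^ (7 * T + 13)) := by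
    rw [le_div_iff₀ (by positivity)]
    calc √(P1 : ℝ) * (4 * L ^ (7 * T + 13)) ≤ √(P1 : ℝ) * √(P1 : ℝ) := by
          apply mul_le_mul_of_nonneg_left _ hsq0.le
          exact c3'.trans hsq
      _ = P1 := Real.mul_self_sqrt hP10.le
      _ ≤ _ := hP1
  have hE : ∑ n ∈ Icc 1 P1, |(fun n => ArithmeticFunction.vonMangoldt n - lamQ n) n| ≤
      2 * (N / c1.natAbs / (4 * L ^ (7 * T + 13))) * L := by
    refine (lamQ_sum P1 b2).trans ?_
    have hσL : 0 < σ * L := by positivity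
    have : 0 ≤ Real.log P1 := by linarith
    gcongr
  have e1 := triv6 hσ hp hLd hL1 hN1 (e := fun n => ArithmeticFunction.vonMangoldt n - lamQ n)
    (by positivity) hg2 hg3 hE
  refine e1.trans (le_of_eq ?_)
  rw [show 7 * T + 13 = (6 * T + 10) + (T + 3) by ring, pow_add, pow_succ L (T + 2)]
  field_simp
  norm_num

/-- the replacement of all three functions -/
lemma rep3 {c1 c2 c3 d : ℤ} {P1 P2 P3 : ℕ} (u1 u2 u3 v1 v2 v3 : ℕ → ℝ) {ε : ℝ}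
    (h1 : |S3 c1 c2 c3 d P1 P2 P3 (fun n => u1 n - v1 n) u2 u3| ≤ ε)
    (h2 : |S3 c2 c1 c3 d P2 P1 P3 (fun n => u2 n - v2 n) v1 u3| ≤ ε)
    (h3 : |S3 c3 c1 c2 d P3 P1 P2 (fun n => u3 n - v3 n) v1 v2| ≤ ε) :
    |S3 c1 c2 c3 d P1 P2 P3 u1 u2 u3 - S3 c1 c2 c3 d P1 P2 P3 v1 v2 v3| ≤ 3 * ε := by
  rw [S3_sub1] at h1 h2 h3
  rw [← S3_swap c1 c2 c3 d P1 P2 P3 v1 u2 u3, ← S3_swap c1 c2 c3 d P1 P2 P3 v1 v2 u3] at h2
  rw [S3_rot c3 c1 c2, S3_rot c3 c1 c2] at h3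
  have e1 := abs_le.1 h1
  have e2 := abs_le.1 h2
  have e3 := abs_le.1 h3
  rw [abs_le]
  constructor <;> linarith [e1.1, e1.2, e2.1, e2.2, e3.1, e3.2]

lemma lam_bound {P : ℕ} {L : ℝ} (hL : Real.log P ≤ L) : ∀ n ∈ Icc 1 P, |(ArithmeticFunction.vonMangoldt n : ℝ)| ≤ L := by
  intro n hn
  rw [mem_Icc] at hn
  rw [abs_of_nonneg ArithmeticFunction.vonMangoldt_nonneg]
  refine ArithmeticFunction.vonMangoldt_le_log.trans (le_trans ?_ hL)
  exact Real.log_le_log (by exact_mod_cast hn.1) (by exact_mod_cast hn.2)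

lemma lamQ_bound {P : ℕ} {L : ℝ} (hL : Real.log P ≤ L) (hL0 : 0 ≤ L) : ∀ n ∈ Icc 1 P, |lamQ n| ≤ L := by
  intro n hn
  unfold lamQ
  split_ifs
  · exact lam_bound hL n hn
  · rw [abs_zero]; exact hL0

lemma lamz_bound {z : ℕ} {L : ℝ} (hV : (Vz z)⁻¹ ≤ L) (n : ℕ) : |lamz z n| ≤ L := by
  have h1 := inv_pos.2 (Vz_pos z)
  unfold lamz
  split_ifs
  · rw [abs_of_pos h1]; exact hV
  · rw [abs_zero]; linarith

lemma lamz_nonneg' (z n : ℕ) : 0 ≤ lamz z n := by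
  have h1 := inv_pos.2 (Vz_pos z)
  unfold lamz
  split_ifs
  · exact h1.le
  · exact le_rfl

lemma Vz_le_one (z : ℕ) : Vz z ≤ 1 := by
  unfold Vz
  apply prod_le_one
  · intro p hp
    have : (2 : ℝ) ≤ p := by exact_mod_cast (mem_pz.1 hp).2.two_le
    have : 1 / (p : ℝ) ≤ 1 := by rw [div_le_one (by linarith)]; linarith
    linarith
  · intro p hp
    have : 0 ≤ 1 / (p : ℝ) := by positivity
    linarith

lemma lamz_rough {z z' n : ℕ} (hz : z ≤ z') (h : ∀ p ∈ pz z', ¬ p ∣ n) : 1 ≤ lamz z n := by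
  unfold lamz
  rw [if_pos (fun p hp => h p (by rw [mem_pz] at hp ⊢; exact ⟨hp.1.trans hz, hp.2⟩))]
  exact (one_le_inv₀ (Vz_pos z)).2 (Vz_le_one z)

theorem solve6 (T A A' B : ℕ) (σ : ℝ) (hσ : 0 < σ) (hA : 8 * T + 14 ≤ 2 * A + 6) (hA' : 7 * T + 13 ≤ A') (hB : 6 ≤ B) :
    ∃ N₀ : ℕ, ∀ N : ℕ, N₀ ≤ N → ∀ {c1 c2 c3 d : ℤ} {P1 P2 P3 : ℕ} {G1 G2 G3 : ℕ → Prop},
    Par6 σ N T c1 c2 c3 d P1 P2 P3 → SD A A' B P1 G1 → SD A A' B P2 G2 → SD A A' B P3 G3 →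
    G1 (c2.natAbs * c3.natAbs) → G2 (c1.natAbs * c3.natAbs) → G3 (c1.natAbs * c2.natAbs) → 0 < c1 → 0 < c2 → c3 < 0 → Adm c1 c2 (-c3) d →
    ∃ x y z : ℕ, x.Prime ∧ y.Prime ∧ z.Prime ∧ c1 * x + c2 * y + c3 * z = d ∧ x ≤ P1 ∧ y ≤ P2 ∧ z ≤ P3 := by
  classical
  obtain ⟨N₁, h1⟩ := scale_size σ hσ
  obtain ⟨N₂, h2⟩ := err_model T A A' B σ hσ hA hA'
  obtain ⟨N₃, h3⟩ := err_prime T σ hσ
  obtain ⟨N₄, h4⟩ := low T (B + 1) σ hσ
  obtain ⟨N₅, h5⟩ := Vz_inv_small (B + 1)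
  obtain ⟨C₀, hC₀⟩ := exists_nat_ge (1 / σ)
  have hC0 : (0 : ℝ) < C₀ := lt_of_lt_of_le (by positivity) hC₀
  have hCσ : 1 / (C₀ : ℝ) ≤ σ := by
    rw [div_le_iff₀ hC0]
    rw [div_le_iff₀ hσ] at hC₀
    linarith
  obtain ⟨N₆, h6⟩ := ev_L' (C₀ ^ B + 25 * C₀ + 100)
  obtain ⟨N₇, h7⟩ := tendsto_pow_log (N₅ + 2 : ℝ) σ hσ
  refine ⟨N₁ + N₂ + N₃ + N₄ + N₆ + N₇ + 2, fun N hN c1 c2 c3 d P1 P2 P3 G1 G2 G3 hp s1 s2 s3 d1 d2 d3
    hc1 hc2 hc3 hadm => ?_⟩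
  obtain ⟨b11, b12, b13, b14, b15⟩ := h1 N (by omega) hp
  obtain ⟨b21, b22, b23, b24, b25⟩ := h1 N (by omega) hp.swap
  obtain ⟨b31, b32, b33, b34, b35⟩ := h1 N (by omega) hp.rot.rot
  have hL := h6 N (by omega)
  have c7 := h7 N (by omega)
  have hN1 : 1 ≤ N := by omega
  have hN0 : (0 : ℝ) < N := by exact_mod_cast hN1
  obtain ⟨L, hLd⟩ : ∃ L, L = Real.log (N : ℝ) := ⟨_, rfl⟩
  rw [← hLd] at hL b14 b15 b24 b25 b34 b35
  have hB4 : (0 : ℝ) < C₀ ^ B := by positivity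
  have hL100 : 100 ≤ L := by linarith
  have hL0 : 0 < L := by linarith
  have hL1 : 1 ≤ L := by linarith
  -- the parameters of the models
  have hz : ∀ P : ℕ, (N : ℝ) ^ σ ≤ P → σ * L ≤ Real.log P → Real.log P ≤ L →
      L ^ 5 ≤ (zP B P : ℝ) ∧ (zP B P : ℝ) ≤ L ^ (B + 1) ∧ (Vz (zP B P))⁻¹ ≤ L := by
    intro P hP hl1' hl2
    have hl1 : L / C₀ ≤ Real.log P := by
      refine le_trans ?_ hl1'
      rw [div_eq_mul_one_div, mul_comm]
      exact mul_le_mul_of_nonneg_right hCσ hL0.le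
    have hlP : 25 ≤ Real.log P := by
      refine le_trans ?_ hl1
      rw [le_div_iff₀ hC0]
      linarith
    have hlP0 : 0 < Real.log P := by linarith
    have e1 : Real.log P ^ B ≤ (zP B P : ℝ) := Nat.le_ceil _
    have e2 : (zP B P : ℝ) < Real.log P ^ B + 1 := Nat.ceil_lt_add_one (by positivity)
    have e3 : 1 ≤ Real.log P ^ B := one_le_pow₀ (by linarith)
    have e4 : (zP B P : ℝ) ≤ Real.log P ^ (B + 1) := by
      calc (zP B P : ℝ) ≤ Real.log P ^ B + 1 := e2.le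
        _ ≤ 2 * Real.log P ^ B := by linarith
        _ ≤ Real.log P * Real.log P ^ B := mul_le_mul_of_nonneg_right (by linarith) (by positivity)
        _ = Real.log P ^ (B + 1) := by ring
    refine ⟨?_, ?_, ?_⟩
    · refine le_trans ?_ e1
      calc L ^ 5 ≤ L ^ (B - 1) := pow_le_pow_right₀ hL1 (by omega)
        _ ≤ (L / C₀) ^ B := by
            rw [div_pow, le_div_iff₀ hB4]
            calc L ^ (B - 1) * C₀ ^ B ≤ L ^ (B - 1) * L := mul_le_mul_of_nonneg_left (by linarith) (by positivity)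
              _ = L ^ B := by rw [← pow_succ]; congr 1; omega
        _ ≤ Real.log P ^ B := pow_le_pow_left₀ (by positivity) hl1 _
    · exact e4.trans (pow_le_pow_left₀ hlP0.le hl2 _)
    · have hN5 : N₅ ≤ P := by
        have : (N₅ : ℝ) ≤ P := by linarith
        exact_mod_cast this
      have hz1 : 1 ≤ zP B P := by
        have : (1 : ℝ) ≤ zP B P := e3.trans e1
        exact_mod_cast this
      exact (h5 P hN5 (zP B P) hz1 e4).trans hl2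
  obtain ⟨z11, z12, z13⟩ := hz P1 b11 b14 b15
  obtain ⟨z21, z22, z23⟩ := hz P2 b21 b24 b25
  obtain ⟨z31, z32, z33⟩ := hz P3 b31 b34 b35
  obtain ⟨z, hzd⟩ : ∃ z, z = max (zP B P1) (max (zP B P2) (zP B P3)) := ⟨_, rfl⟩
  have hz1 : zP B P1 ≤ z := by rw [hzd]; exact le_max_left _ _
  have hz2 : zP B P2 ≤ z := by rw [hzd]; exact (le_max_left _ _).trans (le_max_right _ _)
  have hz3 : zP B P3 ≤ z := by rw [hzd]; exact (le_max_right _ _).trans (le_max_right _ _)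
  have hzlo : L ^ 5 ≤ (z : ℝ) := z11.trans (by exact_mod_cast hz1)
  have hzhi : (z : ℝ) ≤ L ^ (B + 1) := by
    rw [hzd]
    push_cast
    exact max_le z12 (max_le z22 z32)
  -- the coefficients
  obtain ⟨a1, ha1⟩ : ∃ a1 : ℕ, a1 = c1.natAbs := ⟨_, rfl⟩
  obtain ⟨a2, ha2⟩ : ∃ a2 : ℕ, a2 = c2.natAbs := ⟨_, rfl⟩
  obtain ⟨a3, ha3⟩ : ∃ a3 : ℕ, a3 = c3.natAbs := ⟨_, rfl⟩
  have ha11 : 1 ≤ a1 := by rw [ha1]; exact Int.natAbs_pos.2 hp.n1
  have ha21 : 1 ≤ a2 := by rw [ha2]; exact Int.natAbs_pos.2 hp.n2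
  have ha31 : 1 ≤ a3 := by rw [ha3]; exact Int.natAbs_pos.2 hp.n3
  have hc1' : c1 = (a1 : ℤ) := by rw [ha1]; omega
  have hc2' : c2 = (a2 : ℤ) := by rw [ha2]; omega
  have hc3' : c3 = -(a3 : ℤ) := by rw [ha3]; omega
  obtain ⟨μ, hμ⟩ : ∃ μ : ℝ, μ = (N : ℝ) ^ 2 / (a1 * a2 * a3) := ⟨_, rfl⟩
  have ha10 : (0 : ℝ) < a1 := by exact_mod_cast ha11
  have ha20 : (0 : ℝ) < a2 := by exact_mod_cast ha21
  have ha30 : (0 : ℝ) < a3 := by exact_mod_cast ha31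
  have hμ0 : 0 < μ := by rw [hμ]; positivity
  obtain ⟨ε, hε⟩ : ∃ ε : ℝ, ε = μ / L ^ (6 * T + 10) := ⟨_, rfl⟩
  have hε0 : 0 < ε := by rw [hε]; positivity
  have hε1 : (N : ℝ) ^ 2 / (c1.natAbs * c2.natAbs * c3.natAbs) / Real.log N ^ (6 * T + 10) = ε := by
    rw [hε, hμ, ← hLd, ← ha1, ← ha2, ← ha3]
  have hε2 : (N : ℝ) ^ 2 / (c2.natAbs * c1.natAbs * c3.natAbs) / Real.log N ^ (6 * T + 10) = ε := by
    rw [← hε1, mul_comm (c2.natAbs : ℝ)]
  have hε3 : (N : ℝ) ^ 2 / (c3.natAbs * c1.natAbs * c2.natAbs) / Real.log N ^ (6 * T + 10) = ε := by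
    rw [← hε1]
    congr 2
    ring
  -- the functions
  have f1 := lam_bound b15
  have f2 := lam_bound b25
  have f3 := lam_bound b35
  have k1 := lamQ_bound b15 hL0.le
  have k2 := lamQ_bound b25 hL0.le
  have m1 : ∀ n ∈ Icc 1 P1, |lamz (zP B P1) n| ≤ L := fun n _ => lamz_bound z13 n
  have m2 : ∀ n ∈ Icc 1 P2, |lamz (zP B P2) n| ≤ L := fun n _ => lamz_bound z23 n
  rw [hLd] at f1 f2 f3 k1 k2 m1 m2
  have r1 := rep3 (c1 := c1) (c2 := c2) (c3 := c3) (d := d) (P1 := P1) (P2 := P2) (P3 := P3)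
    (fun n => (ArithmeticFunction.vonMangoldt n : ℝ)) (fun n => (ArithmeticFunction.vonMangoldt n : ℝ))
    (fun n => (ArithmeticFunction.vonMangoldt n : ℝ)) (fun n => lamz (zP B P1) n) (fun n => lamz (zP B P2) n)
    (fun n => lamz (zP B P3) n) (ε := ε)
    (by rw [← hε1]; exact h2 N (by omega) hp s1 d1 f2 f3)
    (by rw [← hε2]; exact h2 N (by omega) hp.swap s2 d2 m1 f3)
    (by rw [← hε3]; exact h2 N (by omega) hp.rot.rot s3 d3 m1 m2)
  have r2 := rep3 (c1 := c1) (c2 := c2) (c3 := c3) (d := d) (P1 := P1) (P2 := P2) (P3 := P3)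
    (fun n => (ArithmeticFunction.vonMangoldt n : ℝ)) (fun n => (ArithmeticFunction.vonMangoldt n : ℝ))
    (fun n => (ArithmeticFunction.vonMangoldt n : ℝ)) (fun n => lamQ n) (fun n => lamQ n)
    (fun n => lamQ n) (ε := ε)
    (by rw [← hε1]; exact h3 N (by omega) hp f2 f3)
    (by rw [← hε2]; exact h3 N (by omega) hp.swap k1 f3)
    (by rw [← hε3]; exact h3 N (by omega) hp.rot.rot k1 k2)
  have hlow := h4 N (by omega) z (by rw [← hLd]; exact hzlo) (by rw [← hLd]; exact hzhi) a1 a2 a3 ha11 ha21 ha31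
    (by rw [ha1, ha2]; exact hp.q12) (by
      refine le_trans ?_ hp.q13
      rw [← ha3]
      exact_mod_cast Nat.le_mul_of_pos_left _ (by rw [← ha1]; exact ha11)) (by rw [ha1, ha2]; exact hp.g12) d hp.hd
    (by
      rw [hc1', hc2', hc3', neg_neg] at hadm
      exact hadm) P1 P2 P3 (by rw [ha1]; exact hp.v1) (by rw [ha2]; exact hp.v2) (by rw [ha3]; exact hp.v3)
    (fun n => lamz (zP B P1) n) (fun n => lamz (zP B P2) n) (fun n => lamz (zP B P3) n)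
    (fun n => lamz_nonneg' _ n) (fun n => lamz_nonneg' _ n) (fun n => lamz_nonneg' _ n)
    (fun n h => lamz_rough hz1 h) (fun n h => lamz_rough hz2 h) (fun n h => lamz_rough hz3 h)
  rw [← hc1', ← hc2', ← hc3', ← hLd] at hlow
  have hlow2 : (N : ℝ) ^ 2 / (a1 * a2 * a3 * L ^ (6 * T + 9)) = L * ε := by
    rw [hε, hμ, show 6 * T + 10 = (6 * T + 9) + 1 by ring, pow_succ L (6 * T + 9)]
    field_simp
  rw [hlow2] at hlow
  have hpos : 0 < S3 c1 c2 c3 d P1 P2 P3 (fun n => lamQ n) (fun n => lamQ n) (fun n => lamQ n) := by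
    have e1 := (abs_le.1 r1).1
    have e2 := (abs_le.1 r2).2
    have e3 : 100 * ε ≤ L * ε := mul_le_mul_of_nonneg_right hL100 hε0.le
    linarith
  by_contra hcon
  push Not at hcon
  have hzero : S3 c1 c2 c3 d P1 P2 P3 (fun n => lamQ n) (fun n => lamQ n) (fun n => lamQ n) = 0 := by
    unfold S3
    apply sum_eq_zero
    intro x hx
    apply sum_eq_zero
    intro y hy
    apply sum_eq_zero
    intro w hw
    rw [mem_Icc] at hx hy hw
    split_ifs with heq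
    · by_cases px : x.Prime
      · by_cases py : y.Prime
        · by_cases pw : w.Prime
          · exact absurd hw.2 (not_le.2 (hcon x y w px py pw heq hx.2 hy.2))
          · change lamQ x * lamQ y * lamQ w = 0
            rw [lamQ_zero pw, mul_zero]
        · change lamQ x * lamQ y * lamQ w = 0
          rw [lamQ_zero py, mul_zero, zero_mul]
      · change lamQ x * lamQ y * lamQ w = 0
        rw [lamQ_zero px, zero_mul, zero_mul]
    · rfl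
  rw [hzero] at hpos
  exact lt_irrefl _ hpos

end Pool.Agent.Y883.T6
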