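import Pool.Agent.Y883.T6.Scale6
import Pool.Agent.Y883.T5.Baker

set_option autoImplicit false

/-! Linear equations in three primes with three large coefficients: all scales. -/

namespace Pool.Agent.Y883.T6

open Finset
open Pool.Agent.H373R2.T7
open Pool.Agent.Y883.T3
open Pool.Agent.Y883.T5

/-- the conditions on the absolute values of the coefficients -/
structure Cnd (j : ℕ) (D : Set ℕ) (F : ℕ → Set ℕ) (θ : ℝ) (Δ a1 a2 a3 : ℕ) : Prop where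
  p1 : 1 ≤ a1
  p2 : 1 ≤ a2
  p3 : 1 ≤ a3
  u12 : a1 * a2 ≤ Δ
  u23 : a2 * a3 ≤ Δ
  u31 : a3 * a1 ≤ Δ
  w : Δ = a1 * a2 ∨ Δ = a2 * a3 ∨ Δ = a3 * a1
  g12 : ((Nat.gcd a1 a2 : ℕ) : ℝ) ≤ Real.log Δ ^ j
  g23 : ((Nat.gcd a2 a3 : ℕ) : ℝ) ≤ Real.log Δ ^ j
  g31 : ((Nat.gcd a3 a1 : ℕ) : ℝ) ≤ Real.log Δ ^ j
  d12 : ∀ e ∈ D, Real.log Δ ^ j < e → ¬ e ∣ a1 * a2
  d23 : ∀ e ∈ D, Real.log Δ ^ j < e → ¬ e ∣ a2 * a3
  d31 : ∀ e ∈ D, Real.log Δ ^ j < e → ¬ e ∣ a3 * a1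
  f12 : Real.log Δ ^ j < ((a1 * a2 : ℕ) : ℝ) → ∀ k : ℕ, a1 * a2 ∈ F k → (2 : ℝ) ^ k < ((a1 * a2 : ℕ) : ℝ) ^ θ
  f23 : Real.log Δ ^ j < ((a2 * a3 : ℕ) : ℝ) → ∀ k : ℕ, a2 * a3 ∈ F k → (2 : ℝ) ^ k < ((a2 * a3 : ℕ) : ℝ) ^ θ
  f31 : Real.log Δ ^ j < ((a3 * a1 : ℕ) : ℝ) → ∀ k : ℕ, a3 * a1 ∈ F k → (2 : ℝ) ^ k < ((a3 * a1 : ℕ) : ℝ) ^ θ

lemma Cnd.rot {j : ℕ} {D : Set ℕ} {F : ℕ → Set ℕ} {θ : ℝ} {Δ a1 a2 a3 : ℕ} (h : Cnd j D F θ Δ a1 a2 a3) :
    Cnd j D F θ Δ a2 a3 a1 :=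
  ⟨h.p2, h.p3, h.p1, h.u23, h.u31, h.u12, by have := h.w; tauto, h.g23, h.g31, h.g12, h.d23, h.d31, h.d12,
    h.f23, h.f31, h.f12⟩

lemma Cnd.swap {j : ℕ} {D : Set ℕ} {F : ℕ → Set ℕ} {θ : ℝ} {Δ a1 a2 a3 : ℕ} (h : Cnd j D F θ Δ a1 a2 a3) :
    Cnd j D F θ Δ a2 a1 a3 := by
  obtain ⟨p1, p2, p3, u12, u23, u31, w, g12, g23, g31, d12, d23, d31, f12, f23, f31⟩ := h
  rw [mul_comm a1 a2] at u12 w d12 f12
  rw [mul_comm a2 a3] at u23 w d23 f23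
  rw [mul_comm a3 a1] at u31 w d31 f31
  rw [Nat.gcd_comm a1 a2] at g12
  rw [Nat.gcd_comm a2 a3] at g23
  rw [Nat.gcd_comm a3 a1] at g31
  exact ⟨p2, p1, p3, u12, u31, u23, by tauto, g12, g31, g23, d12, d31, d23, f12, f31, f23⟩

/-- the product of the coefficients -/
lemma Cnd.prod {j : ℕ} {D : Set ℕ} {F : ℕ → Set ℕ} {θ : ℝ} {Δ a1 a2 a3 : ℕ} (h : Cnd j D F θ Δ a1 a2 a3) :
    a1 * (a2 * a3) ≤ min a1 (min a2 a3) * Δ := by
  obtain ⟨p1, p2, p3, u12, u23, u31, w, g12, g23, g31, d12, d23, d31, f12, f23, f31⟩ := h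
  rcases w with w | w | w
  · have e1 : a3 ≤ a1 := by
      rw [w, mul_comm a1 a2] at u23
      exact Nat.le_of_mul_le_mul_left u23 p2
    have e2 : a3 ≤ a2 := by
      rw [w, mul_comm a3 a1] at u31
      exact Nat.le_of_mul_le_mul_left u31 p1
    have e3 : min a1 (min a2 a3) = a3 := by omega
    rw [e3, w]
    exact le_of_eq (by ring)
  · have e1 : a1 ≤ a3 := by
      rw [w, mul_comm a1 a2] at u12
      exact Nat.le_of_mul_le_mul_left u12 p2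
    have e2 : a1 ≤ a2 := by
      rw [w, mul_comm a2 a3] at u31
      exact Nat.le_of_mul_le_mul_left u31 p3
    have e3 : min a1 (min a2 a3) = a1 := by omega
    rw [e3, w]
  · have e1 : a2 ≤ a3 := by
      rw [w, mul_comm a3 a1] at u12
      exact Nat.le_of_mul_le_mul_left u12 p1
    have e2 : a2 ≤ a1 := by
      rw [w, mul_comm a2 a3] at u23
      exact Nat.le_of_mul_le_mul_left u23 p3
    have e3 : min a1 (min a2 a3) = a2 := by omega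
    rw [e3, w]
    exact le_of_eq (by ring)

/-- the length of the range of one unknown -/
lemma len_spec {N a : ℕ} (ha : 1 ≤ a) (haN : a ≤ N) : a * 2 ^ Nat.log 2 (N / a) ≤ N ∧ N < 2 * (a * 2 ^ Nat.log 2 (N / a)) := by
  have h1 : N / a ≠ 0 := (Nat.div_pos haN ha).ne'
  have h2 := Nat.pow_log_le_self 2 h1
  have h3 := Nat.lt_pow_succ_log_self (b := 2) (by norm_num) (N / a)
  constructor
  · calc a * 2 ^ Nat.log 2 (N / a) ≤ a * (N / a) := Nat.mul_le_mul_left _ h2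
      _ ≤ N := Nat.mul_div_le N a
  · calc N < a * (N / a + 1) := Nat.lt_mul_div_succ N ha
      _ ≤ a * 2 ^ (Nat.log 2 (N / a) + 1) := Nat.mul_le_mul_left _ h3
      _ = 2 * (a * 2 ^ Nat.log 2 (N / a)) := by rw [pow_succ]; ring

/-- the length is at least the power of the product of the other coefficients -/
lemma len_pow {N μ Δ a b P : ℕ} {θ : ℝ} (hθ : 1 ≤ θ) (ha : 1 ≤ a) (hb : 1 ≤ b) (hbΔ : b ≤ Δ) (hab : a * b ≤ μ * Δ)
    (hN : 3 * (μ * (Δ : ℝ) ^ θ) ≤ N) (hNP : N < 2 * (a * P)) : (b : ℝ) ^ θ ≤ P := by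
  have ha0 : (0 : ℝ) < a := by exact_mod_cast ha
  have hb0 : (0 : ℝ) < b := by exact_mod_cast hb
  have hΔ0 : (0 : ℝ) < Δ := by exact_mod_cast (lt_of_lt_of_le hb hbΔ)
  have hab' : (a : ℝ) * b ≤ μ * Δ := by exact_mod_cast hab
  have e1 : (a : ℝ) * (b : ℝ) ^ θ ≤ μ * (Δ : ℝ) ^ θ := by
    have h1 : (b : ℝ) ^ θ = b * (b : ℝ) ^ (θ - 1) := by
      rw [← Real.rpow_one_add' hb0.le (by linarith)]
      congr 1
      ring
    have h2 : (Δ : ℝ) ^ θ = Δ * (Δ : ℝ) ^ (θ - 1) := by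
      rw [← Real.rpow_one_add' hΔ0.le (by linarith)]
      congr 1
      ring
    have h3 : (b : ℝ) ^ (θ - 1) ≤ (Δ : ℝ) ^ (θ - 1) :=
      Real.rpow_le_rpow hb0.le (by exact_mod_cast hbΔ) (by linarith)
    calc (a : ℝ) * (b : ℝ) ^ θ = (a * b) * (b : ℝ) ^ (θ - 1) := by rw [h1]; ring
      _ ≤ (μ * Δ) * (Δ : ℝ) ^ (θ - 1) := mul_le_mul hab' h3 (by positivity) (by positivity)
      _ = μ * (Δ : ℝ) ^ θ := by rw [h2]; ring
  have e2 : (N : ℝ) < 2 * (a * P) := by exact_mod_cast hNP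
  have e5 : 0 ≤ (μ : ℝ) * (Δ : ℝ) ^ θ := by positivity
  have e6 : (a : ℝ) * (b : ℝ) ^ θ ≤ a * P := by linarith
  exact le_of_mul_le_mul_left e6 ha0

open Classical in
theorem fixed6 (j κ : ℕ) : ∃ (D : Set ℕ) (F : ℕ → Set ℕ) (c₀ : ℕ),
    (∀ e ∈ D, κ < e) ∧
    (∀ X : ℕ, 1 ≤ X → (((Icc 1 X).filter (fun e => e ∈ D)).card : ℝ) ≤ (X : ℝ) ^ (1 / ((j : ℝ) + 8))) ∧
    (∀ k : ℕ, ∀ q ∈ F k, κ < q ∧ (2 : ℝ) ^ ((k : ℝ) * (2 / 3 - 1 / ((j : ℝ) + 8))) < q) ∧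
    (∀ k X : ℕ, (((Icc 1 X).filter (fun q => q ∈ F k)).card : ℝ) ≤
      (X : ℝ) ^ 2 / (2 : ℝ) ^ ((k : ℝ) * (1 - 1 / ((j : ℝ) + 8)))) ∧
    ∀ θ : ℝ, 1 + 1 / ((j : ℝ) + 8) ≤ θ → ∀ Δ a1 a2 a3 : ℕ, c₀ ≤ Δ →
      Cnd j D F (θ - 1 / ((j : ℝ) + 8) / 2) Δ a1 a2 a3 → ∀ d : ℤ, Adm a1 a2 a3 d →
      ∃ x y z : ℕ, x.Prime ∧ y.Prime ∧ z.Prime ∧ (a1 : ℤ) * x + a2 * y = d + a3 * z ∧
        ((max (a1 * x) (max (a2 * y) (a3 * z)) : ℕ) : ℝ) ≤ 3 * |(d : ℝ)| + (min a1 (min a2 a3) : ℕ) * (Δ : ℝ) ^ θ := by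
  obtain ⟨δ, hδ⟩ : ∃ δ : ℝ, δ = 1 / ((j : ℝ) + 8) := ⟨_, rfl⟩
  rw [← hδ]
  have hj0 : (0 : ℝ) ≤ j := Nat.cast_nonneg _
  have hδ0 : 0 < δ := by rw [hδ]; positivity
  have hδ8 : δ ≤ 1 / 8 := by
    rw [hδ]
    apply one_div_le_one_div_of_le (by norm_num)
    linarith
  obtain ⟨A, hA⟩ : ∃ A, A = 4 * (j + 8) := ⟨_, rfl⟩
  have hA0 : (0 : ℝ) < A := by rw [hA]; push_cast; positivity
  have hAinv : 1 / (A : ℝ) ≤ δ / 4 := by
    rw [hA, hδ]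
    push_cast
    apply le_of_eq
    field_simp
  obtain ⟨B, c, N₁, hB6, h1⟩ := scale6 A (7 * j + 13) 6 (δ / 8) (by positivity)
  choose! Df Ff hDf using h1
  obtain ⟨N₂, h2⟩ := solve6 j A (7 * j + 13) B (δ / 8) (by positivity) (by omega) le_rfl hB6
  obtain ⟨N₃, h3⟩ := scale_size (δ / 8) (by positivity)
  obtain ⟨N₄, h4⟩ := ev_log_rpow c 1 (δ / 2) (by positivity)
  obtain ⟨N₅, h5N⟩ := ev_log_rpow j 1 (δ / 8 * (2 / 3 - δ / 8)) (mul_pos (by positivity) (by linarith))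
  obtain ⟨κ', hκ'⟩ := exists_nat_ge ((2 : ℝ) ^ (4 / δ))
  obtain ⟨i₀, hi₀⟩ : ∃ i₀ : ℕ, i₀ = N₁ + N₄ + 2 * (κ + κ' + 2) := ⟨_, rfl⟩
  have hlog2 : (1 / 2 : ℝ) < Real.log 2 := by have := Real.log_two_gt_d9; linarith
  have hlogi : ∀ i : ℕ, Real.log ((2 ^ i : ℕ) : ℝ) = i * Real.log 2 := by
    intro i
    push_cast
    rw [Real.log_pow]
  have hNi : ∀ i : ℕ, i₀ ≤ i → N₁ ≤ 2 ^ i ∧ N₄ ≤ 2 ^ i := by
    intro i hi
    have : i < 2 ^ i := Nat.lt_two_pow_self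
    omega
  have hbig : ∀ i : ℕ, i₀ ≤ i → ∀ e ∈ Df (2 ^ i), ((i : ℝ) * Real.log 2) ^ A < e := by
    intro i hi e he
    have := (hDf (2 ^ i) (hNi i hi).1).1 e he
    rwa [hlogi] at this
  have hi₀r : ∀ i : ℕ, i₀ ≤ i → ((κ : ℝ) + κ' + 2) ≤ (i : ℝ) * Real.log 2 := by
    intro i hi
    have h1 : ((2 * (κ + κ' + 2) : ℕ) : ℝ) ≤ i := by exact_mod_cast (by omega : 2 * (κ + κ' + 2) ≤ i)
    push_cast at h1
    have h2 : (0 : ℝ) ≤ i := Nat.cast_nonneg _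
    calc (κ : ℝ) + κ' + 2 ≤ i * (1 / 2) := by linarith
      _ ≤ i * Real.log 2 := mul_le_mul_of_nonneg_left hlog2.le h2
  have hbig2 : ∀ i : ℕ, i₀ ≤ i → ∀ e ∈ Df (2 ^ i), (κ : ℝ) + κ' + 2 < e := by
    intro i hi e he
    refine lt_of_le_of_lt ?_ (hbig i hi e he)
    have h1 := hi₀r i hi
    have h2 : (1 : ℝ) ≤ (i : ℝ) * Real.log 2 := by
      have : (0 : ℝ) ≤ (κ : ℝ) + κ' := by positivity
      linarith
    exact h1.trans (le_self_pow₀ h2 (by omega))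
  obtain ⟨D, hD⟩ : ∃ D : Set ℕ, D = {e | ∃ i : ℕ, i₀ ≤ i ∧ e ∈ Df (2 ^ i)} := ⟨_, rfl⟩
  obtain ⟨F, hF⟩ : ∃ F : ℕ → Set ℕ, F = fun k => {q | i₀ ≤ k ∧ q ∈ Ff (2 ^ k)} := ⟨_, rfl⟩
  have hFmem : ∀ k q : ℕ, q ∈ F k ↔ i₀ ≤ k ∧ q ∈ Ff (2 ^ k) := by
    intro k q
    rw [hF]
    rfl
  have h2k : ∀ (k : ℕ) (x : ℝ), (((2 ^ k : ℕ) : ℝ)) ^ x = (2 : ℝ) ^ ((k : ℝ) * x) := by
    intro k x
    push_cast
    rw [← Real.rpow_natCast, ← Real.rpow_mul (by norm_num)]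
  obtain ⟨c₀, hc₀⟩ := exists_nat_ge (max (max (((2 : ℝ) ^ i₀) ^ (8 / δ)) ((6 : ℝ) ^ (2 / δ))) (Real.exp ((8 / δ) ^ A)))
  refine ⟨D, F, c₀ + N₂ + N₃ + N₅ + 2, ?_, ?_, ?_, ?_, ?_⟩
  · intro e he
    rw [hD] at he
    obtain ⟨i, hi, he'⟩ := he
    have h1 := hbig2 i hi e he'
    have h2 : (κ : ℝ) < e := by
      have : (0 : ℝ) ≤ κ' := Nat.cast_nonneg _
      linarith
    exact_mod_cast h2
  · intro X hX
    rcases ((Icc 1 X).filter (fun e => e ∈ D)).eq_empty_or_nonempty with h0 | ⟨e, he⟩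
    · rw [h0, card_empty, Nat.cast_zero]
      positivity
    have hX0 : (0 : ℝ) < X := by exact_mod_cast hX
    have hX1 : (1 : ℝ) ≤ X := by exact_mod_cast hX
    have hXκ : (2 : ℝ) ^ (4 / δ) ≤ X := by
      rw [mem_filter, mem_Icc, hD] at he
      obtain ⟨⟨_, h1⟩, i, hi, he'⟩ := he
      have h2 := hbig2 i hi e he'
      have h3 : (e : ℝ) ≤ X := by exact_mod_cast h1
      have : (0 : ℝ) ≤ κ := Nat.cast_nonneg _
      linarith
    have h2X : (2 : ℝ) ≤ (X : ℝ) ^ (δ / 4) := by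
      calc (2 : ℝ) = ((2 : ℝ) ^ (4 / δ)) ^ (δ / 4) := by
            rw [← Real.rpow_mul (by norm_num)]
            have : 4 / δ * (δ / 4) = 1 := by field_simp
            rw [this, Real.rpow_one]
        _ ≤ (X : ℝ) ^ (δ / 4) := Real.rpow_le_rpow (by positivity) hXκ (by positivity)
    -- the scales
    obtain ⟨I, hI⟩ : ∃ I : ℕ, I = ⌊2 * (X : ℝ) ^ (1 / (A : ℝ))⌋₊ := ⟨_, rfl⟩
    have hIr : (I : ℝ) ≤ 2 * (X : ℝ) ^ (1 / (A : ℝ)) := by rw [hI]; exact Nat.floor_le (by positivity)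
    have hsub : (Icc 1 X).filter (fun e => e ∈ D) ⊆ ((Icc 1 I).filter (fun i => i₀ ≤ i)).biUnion
        (fun i => (Df (2 ^ i)).filter (fun e : ℕ => (e : ℝ) ≤ X)) := by
      intro e he
      rw [mem_filter, mem_Icc, hD] at he
      obtain ⟨⟨_, h1⟩, i, hi, he'⟩ := he
      rw [mem_biUnion]
      have h2 := hbig i hi e he'
      have h3 : (e : ℝ) ≤ X := by exact_mod_cast h1
      have h4 : 0 ≤ (i : ℝ) * Real.log 2 := by positivity
      have h5 : (i : ℝ) * Real.log 2 ≤ (X : ℝ) ^ (1 / (A : ℝ)) := by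
        have h6 : ((i : ℝ) * Real.log 2) ^ A ≤ X := (h2.trans_le h3).le
        calc (i : ℝ) * Real.log 2 = (((i : ℝ) * Real.log 2) ^ A) ^ (1 / (A : ℝ)) := by
              rw [← Real.rpow_natCast, ← Real.rpow_mul h4]
              have : (A : ℝ) * (1 / (A : ℝ)) = 1 := by field_simp
              rw [this, Real.rpow_one]
          _ ≤ (X : ℝ) ^ (1 / (A : ℝ)) := Real.rpow_le_rpow (by positivity) h6 (by positivity)
      refine ⟨i, ?_, ?_⟩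
      · rw [mem_filter, mem_Icc]
        refine ⟨⟨by omega, ?_⟩, hi⟩
        rw [hI]
        apply Nat.le_floor
        have h7 : (0 : ℝ) ≤ i := Nat.cast_nonneg _
        have h8 : (i : ℝ) * (1 / 2) ≤ i * Real.log 2 := mul_le_mul_of_nonneg_left hlog2.le h7
        linarith
      · rw [mem_filter]
        exact ⟨he', h3⟩
    have hcard : (((Icc 1 X).filter (fun e => e ∈ D)).card : ℝ) ≤ I * (X : ℝ) ^ (δ / 8) := by
      have h1 := (card_le_card hsub).trans card_biUnion_le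
      have h2 : (((Icc 1 X).filter (fun e => e ∈ D)).card : ℝ) ≤
          ∑ i ∈ (Icc 1 I).filter (fun i => i₀ ≤ i), (((Df (2 ^ i)).filter (fun e : ℕ => (e : ℝ) ≤ X)).card : ℝ) := by
        exact_mod_cast h1
      refine h2.trans ?_
      calc _ ≤ ∑ _i ∈ (Icc 1 I).filter (fun i => i₀ ≤ i), (X : ℝ) ^ (δ / 8) := by
            apply sum_le_sum
            intro i hi
            rw [mem_filter] at hi
            exact (hDf (2 ^ i) (hNi i hi.2).1).2.1 X hX1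
        _ = (((Icc 1 I).filter (fun i => i₀ ≤ i)).card : ℝ) * (X : ℝ) ^ (δ / 8) := by
            rw [sum_const, nsmul_eq_mul]
        _ ≤ I * (X : ℝ) ^ (δ / 8) := by
            apply mul_le_mul_of_nonneg_right _ (by positivity)
            have := card_filter_le (Icc 1 I) (fun i => i₀ ≤ i)
            rw [Nat.card_Icc, Nat.add_sub_cancel] at this
            exact_mod_cast this
    refine hcard.trans ?_
    calc (I : ℝ) * (X : ℝ) ^ (δ / 8) ≤ (2 * (X : ℝ) ^ (1 / (A : ℝ))) * (X : ℝ) ^ (δ / 8) :=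
          mul_le_mul_of_nonneg_right hIr (by positivity)
      _ ≤ ((X : ℝ) ^ (δ / 4) * (X : ℝ) ^ (δ / 4)) * (X : ℝ) ^ (δ / 8) := by
          apply mul_le_mul_of_nonneg_right _ (by positivity)
          apply mul_le_mul h2X _ (by positivity) (by positivity)
          exact Real.rpow_le_rpow_of_exponent_le hX1 hAinv
      _ = (X : ℝ) ^ (δ / 4 + δ / 4 + δ / 8) := by rw [Real.rpow_add hX0, Real.rpow_add hX0]
      _ ≤ (X : ℝ) ^ δ := Real.rpow_le_rpow_of_exponent_le hX1 (by linarith)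
  · -- the size of the members of `F`
    intro k q hq
    rw [hFmem] at hq
    have h5 := ((hDf (2 ^ k) (hNi k hq.1).1).2.2.1 q hq.2).1
    rw [h2k] at h5
    have hk0 : (0 : ℝ) ≤ k := Nat.cast_nonneg _
    have h6 : (2 : ℝ) ^ ((k : ℝ) * (2 / 3 - δ)) ≤ (2 : ℝ) ^ ((k : ℝ) * (2 / 3 - δ / 8)) := by
      apply Real.rpow_le_rpow_of_exponent_le (by norm_num)
      apply mul_le_mul_of_nonneg_left _ hk0
      linarith
    refine ⟨?_, lt_of_le_of_lt h6 h5⟩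
    have h7 : (2 : ℝ) ^ (κ : ℝ) ≤ (2 : ℝ) ^ ((k : ℝ) * (2 / 3 - δ / 8)) := by
      apply Real.rpow_le_rpow_of_exponent_le (by norm_num)
      have h8 : ((2 * κ : ℕ) : ℝ) ≤ k := by exact_mod_cast (by omega : 2 * κ ≤ k)
      push_cast at h8
      nlinarith
    have h8 : (κ : ℝ) < (2 : ℝ) ^ (κ : ℝ) := by
      rw [Real.rpow_natCast]
      exact_mod_cast (Nat.lt_two_pow_self : κ < 2 ^ κ)
    have h9 : (κ : ℝ) < q := by linarith
    exact_mod_cast h9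
  · -- the number of the members of `F`
    intro k X
    by_cases hk : i₀ ≤ k
    · obtain ⟨P, hP⟩ : ∃ P : ℕ, P = 2 ^ k := ⟨_, rfl⟩
      have hP1 : 1 ≤ P := by rw [hP]; exact Nat.one_le_two_pow
      have hP0 : (0 : ℝ) < P := by exact_mod_cast hP1
      obtain ⟨-, -, g1, g2, -⟩ := hDf (2 ^ k) (hNi k hk).1
      rw [← hP] at g1 g2
      have hlogP := h4 P (by rw [hP]; exact (hNi k hk).2)
      rw [one_mul] at hlogP
      have hPd : (P : ℝ) ^ (δ / 2) ≤ (P : ℝ) ^ δ :=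
        Real.rpow_le_rpow_of_exponent_le (by exact_mod_cast hP1) (by linarith)
      have hPe : (2 : ℝ) ^ ((k : ℝ) * (1 - δ)) = P / (P : ℝ) ^ δ := by
        rw [← h2k, ← hP, Real.rpow_sub hP0, Real.rpow_one]
      have hle : ∀ Y : ℕ, Y ≤ P → (((Ff P).filter (fun q => q ≤ Y)).card : ℝ) ≤ (Y : ℝ) ^ 2 / (P / (P : ℝ) ^ δ) := by
        intro Y hY
        rw [le_div_iff₀ (by positivity)]
        have h5 := g2 Y hY
        calc (((Ff P).filter (fun q => q ≤ Y)).card : ℝ) * (P / (P : ℝ) ^ δ) =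
              ((((Ff P).filter (fun q => q ≤ Y)).card : ℝ) * P) / (P : ℝ) ^ δ := by ring
          _ ≤ ((Y : ℝ) ^ 2 * Real.log P ^ c) / (P : ℝ) ^ δ := div_le_div_of_nonneg_right h5 (by positivity)
          _ ≤ ((Y : ℝ) ^ 2 * (P : ℝ) ^ δ) / (P : ℝ) ^ δ := by
              apply div_le_div_of_nonneg_right _ (by positivity)
              exact mul_le_mul_of_nonneg_left (hlogP.trans hPd) (by positivity)
          _ = (Y : ℝ) ^ 2 := by field_simp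
      rw [hPe]
      rcases le_or_gt X P with hX | hX
      · refine le_trans ?_ (hle X hX)
        exact_mod_cast card_le_card (by
          intro q hq
          rw [mem_filter, mem_Icc, hFmem, ← hP] at hq
          rw [mem_filter]
          exact ⟨hq.2.2, hq.1.2⟩)
      · have h5 := hle P le_rfl
        have h6 : (P : ℝ) ^ 2 / (P / (P : ℝ) ^ δ) ≤ (X : ℝ) ^ 2 / (P / (P : ℝ) ^ δ) := by
          apply div_le_div_of_nonneg_right _ (by positivity)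
          exact pow_le_pow_left₀ hP0.le (by exact_mod_cast hX.le) 2
        refine le_trans ?_ (h5.trans h6)
        exact_mod_cast card_le_card (by
          intro q hq
          rw [mem_filter, mem_Icc, hFmem, ← hP] at hq
          rw [mem_filter]
          exact ⟨hq.2.2, (g1 q hq.2.2).2⟩)
    · have h0 : (Icc 1 X).filter (fun q => q ∈ F k) = ∅ := by
        rw [filter_eq_empty_iff]
        intro q _ hq
        rw [hFmem] at hq
        exact hk hq.1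
      rw [h0, card_empty, Nat.cast_zero]
      positivity
  · -- the equations
    intro θ hθ Δ a1 a2 a3 hΔ hC d hadm
    obtain ⟨θ₁, hθ₁⟩ : ∃ θ₁, θ₁ = θ - δ / 2 := ⟨_, rfl⟩
    rw [← hθ₁] at hC
    have hθ1 : 1 + δ / 2 ≤ θ₁ := by rw [hθ₁]; linarith
    have hθ1' : 1 ≤ θ₁ := by linarith
    have hΔ1 : 1 ≤ Δ := by omega
    have hΔ0 : (0 : ℝ) < Δ := by exact_mod_cast hΔ1
    have hΔ1r : (1 : ℝ) ≤ Δ := by exact_mod_cast hΔ1
    have hcΔ : (c₀ : ℝ) ≤ Δ := by exact_mod_cast (by omega : c₀ ≤ Δ)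
    have hΔ2 : ((2 : ℝ) ^ i₀) ^ (8 / δ) ≤ Δ := ((le_max_left _ _).trans (le_max_left _ _)).trans (hc₀.trans hcΔ)
    have hΔ6 : (6 : ℝ) ^ (2 / δ) ≤ Δ := ((le_max_right _ _).trans (le_max_left _ _)).trans (hc₀.trans hcΔ)
    have hΔe : Real.exp ((8 / δ) ^ A) ≤ Δ := (le_max_right _ _).trans (hc₀.trans hcΔ)
    have hΔl : (8 / δ) ^ A ≤ Real.log Δ := (Real.le_log_iff_exp_le hΔ0).2 hΔe
    have hp1 := hC.p1
    have hp2 := hC.p2
    have hp3 := hC.p3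
    obtain ⟨Yc, hYc⟩ : ∃ Yc : ℕ, Yc = ⌈(Δ : ℝ) ^ θ₁⌉₊ := ⟨_, rfl⟩
    have hYc1 : (Δ : ℝ) ^ θ₁ ≤ Yc := by rw [hYc]; exact Nat.le_ceil _
    have hYc2 : (Yc : ℝ) < (Δ : ℝ) ^ θ₁ + 1 := by rw [hYc]; exact Nat.ceil_lt_add_one (by positivity)
    have hΔΔ : (Δ : ℝ) ≤ (Δ : ℝ) ^ θ₁ := by
      calc (Δ : ℝ) = (Δ : ℝ) ^ (1 : ℝ) := (Real.rpow_one _).symm
        _ ≤ _ := Real.rpow_le_rpow_of_exponent_le hΔ1r hθ1'
    have hΔYc : Δ ≤ Yc := by exact_mod_cast hΔΔ.trans hYc1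
    obtain ⟨μ, hμ⟩ : ∃ μ, μ = min a1 (min a2 a3) := ⟨_, rfl⟩
    have hμ1 : 1 ≤ μ := by omega
    have hμr : (1 : ℝ) ≤ μ := by exact_mod_cast hμ1
    obtain ⟨N, hN⟩ : ∃ N, N = 3 * max d.natAbs (μ * Yc) := ⟨_, rfl⟩
    have hdN : 3 * |d| ≤ N := by
      rw [← Int.natCast_natAbs, hN]
      have := le_max_left d.natAbs (μ * Yc)
      exact_mod_cast Nat.mul_le_mul_left 3 this
    have hYN : 3 * (μ * Yc) ≤ N := by
      rw [hN]
      exact Nat.mul_le_mul_left 3 (le_max_right _ _)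
    have hYμ : Yc ≤ μ * Yc := Nat.le_mul_of_pos_left _ hμ1
    have hΔN : Δ ≤ N := by omega
    have hN1 : 1 ≤ N := by omega
    have hN0 : (0 : ℝ) < N := by exact_mod_cast hN1
    have hYNr : 3 * ((μ : ℝ) * Yc) ≤ N := by exact_mod_cast hYN
    have hμN : 3 * ((μ : ℝ) * (Δ : ℝ) ^ θ₁) ≤ N := by
      refine le_trans ?_ hYNr
      have : (μ : ℝ) * (Δ : ℝ) ^ θ₁ ≤ μ * Yc := mul_le_mul_of_nonneg_left hYc1 (by positivity)
      linarith
    have hΔθN : (Δ : ℝ) ^ θ₁ ≤ N := by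
      refine hYc1.trans ?_
      exact_mod_cast (by omega : Yc ≤ N)
    have ha1Δ : a1 ≤ Δ := (Nat.le_mul_of_pos_right _ hp2).trans hC.u12
    have ha2Δ : a2 ≤ Δ := (Nat.le_mul_of_pos_right _ hp3).trans hC.u23
    have ha3Δ : a3 ≤ Δ := (Nat.le_mul_of_pos_right _ hp1).trans hC.u31
    obtain ⟨k1, hk1⟩ : ∃ k1, k1 = Nat.log 2 (N / a1) := ⟨_, rfl⟩
    obtain ⟨k2, hk2⟩ : ∃ k2, k2 = Nat.log 2 (N / a2) := ⟨_, rfl⟩
    obtain ⟨k3, hk3⟩ : ∃ k3, k3 = Nat.log 2 (N / a3) := ⟨_, rfl⟩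
    obtain ⟨u1, v1⟩ := len_spec hp1 (by omega : a1 ≤ N)
    obtain ⟨u2, v2⟩ := len_spec hp2 (by omega : a2 ≤ N)
    obtain ⟨u3, v3⟩ := len_spec hp3 (by omega : a3 ≤ N)
    rw [← hk1] at u1 v1
    rw [← hk2] at u2 v2
    rw [← hk3] at u3 v3
    have hΔNσ : (Δ : ℝ) ≤ (N : ℝ) ^ (1 - 2 * (δ / 8)) := by
      have hex : (1 : ℝ) ≤ θ₁ * (1 - 2 * (δ / 8)) := by
        have : (1 + δ / 2) * (1 - 2 * (δ / 8)) = 1 + δ * (1 / 4 - δ / 8) := by ring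
        have h5 : 0 ≤ δ * (1 / 4 - δ / 8) := mul_nonneg hδ0.le (by linarith)
        have h6 : (1 + δ / 2) * (1 - 2 * (δ / 8)) ≤ θ₁ * (1 - 2 * (δ / 8)) :=
          mul_le_mul_of_nonneg_right hθ1 (by linarith)
        linarith
      calc (Δ : ℝ) = (Δ : ℝ) ^ (1 : ℝ) := (Real.rpow_one _).symm
        _ ≤ (Δ : ℝ) ^ (θ₁ * (1 - 2 * (δ / 8))) := Real.rpow_le_rpow_of_exponent_le hΔ1r hex
        _ = ((Δ : ℝ) ^ θ₁) ^ (1 - 2 * (δ / 8)) := Real.rpow_mul hΔ0.le _ _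
        _ ≤ (N : ℝ) ^ (1 - 2 * (δ / 8)) := Real.rpow_le_rpow (by positivity) hΔθN (by linarith)
    have hlogΔ : Real.log Δ ≤ Real.log N := Real.log_le_log hΔ0 (by exact_mod_cast hΔN)
    have hlogΔ0 : 0 ≤ Real.log Δ := Real.log_nonneg hΔ1r
    have hlogA : Real.log Δ ^ j ≤ (δ / 8 * Real.log Δ) ^ A := by
      have hδ81 : 1 ≤ 8 / δ := by
        rw [le_div_iff₀ hδ0]
        linarith
      have h5 : (1 : ℝ) ≤ Real.log Δ := (one_le_pow₀ hδ81).trans hΔl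
      have h6 : Real.log Δ ^ (j + 1) ≤ Real.log Δ ^ A := pow_le_pow_right₀ h5 (by omega)
      have h7 : (8 / δ) ^ A * (δ / 8) ^ A = 1 := by
        rw [← mul_pow]
        have : 8 / δ * (δ / 8) = 1 := by field_simp
        rw [this, one_pow]
      have h8 : 0 < (δ / 8) ^ A := by positivity
      have h9 : (1 : ℝ) ≤ (δ / 8) ^ A * Real.log Δ := by
        rw [← h7, mul_comm ((8 / δ) ^ A)]
        exact mul_le_mul_of_nonneg_left hΔl h8.le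
      calc Real.log Δ ^ j ≤ ((δ / 8) ^ A * Real.log Δ) * Real.log Δ ^ j :=
            le_mul_of_one_le_left (by positivity) h9
        _ = (δ / 8) ^ A * Real.log Δ ^ (j + 1) := by rw [pow_succ]; ring
        _ ≤ (δ / 8) ^ A * Real.log Δ ^ A := mul_le_mul_of_nonneg_left h6 h8.le
        _ = (δ / 8 * Real.log Δ) ^ A := by rw [mul_pow]
    have hpow : Real.log Δ ^ j ≤ Real.log N ^ j := pow_le_pow_left₀ hlogΔ0 hlogΔ _
    have hna1 : ((a1 : ℤ)).natAbs = a1 := Int.natAbs_natCast _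
    have hna2 : ((a2 : ℤ)).natAbs = a2 := Int.natAbs_natCast _
    have hna3 : (-(a3 : ℤ)).natAbs = a3 := by rw [Int.natAbs_neg, Int.natAbs_natCast]
    have hpar : Par6 (δ / 8) N j (a1 : ℤ) (a2 : ℤ) (-(a3 : ℤ)) d (2 ^ k1) (2 ^ k2) (2 ^ k3) := by
      refine ⟨by omega, by omega, by omega, by rw [hna1]; exact u1, by rw [hna2]; exact u2, by rw [hna3]; exact u3,
        by rw [hna1]; exact v1, by rw [hna2]; exact v2, by rw [hna3]; exact v3, ?_, ?_, ?_, ?_, ?_, ?_, ?_⟩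
      · exact hdN
      · rw [hna1, hna2]
        refine le_trans ?_ hΔNσ
        exact_mod_cast hC.u12
      · rw [hna1, hna3, mul_comm]
        refine le_trans ?_ hΔNσ
        exact_mod_cast hC.u31
      · rw [hna2, hna3]
        refine le_trans ?_ hΔNσ
        exact_mod_cast hC.u23
      · rw [hna1, hna2]; exact hC.g12.trans hpow
      · rw [hna1, hna3, Nat.gcd_comm]; exact hC.g31.trans hpow
      · rw [hna2, hna3]; exact hC.g23.trans hpow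
    -- the scales are large
    have hNbig : (2 : ℝ) ^ i₀ ≤ (N : ℝ) ^ (δ / 8) := by
      calc (2 : ℝ) ^ i₀ = (((2 : ℝ) ^ i₀) ^ (8 / δ)) ^ (δ / 8) := by
            rw [← Real.rpow_mul (by positivity)]
            have : 8 / δ * (δ / 8) = 1 := by field_simp
            rw [this, Real.rpow_one]
        _ ≤ (N : ℝ) ^ (δ / 8) := by
            apply Real.rpow_le_rpow (by positivity) _ (by positivity)
            refine hΔ2.trans ?_
            exact_mod_cast hΔN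
    have hki : ∀ k : ℕ, (N : ℝ) ^ (δ / 8) ≤ ((2 ^ k : ℕ) : ℝ) → i₀ ≤ k := by
      intro k hk
      have h5 : (2 : ℝ) ^ i₀ ≤ ((2 ^ k : ℕ) : ℝ) := hNbig.trans hk
      have h6 : 2 ^ i₀ ≤ 2 ^ k := by exact_mod_cast h5
      exact (Nat.pow_le_pow_iff_right (by norm_num)).1 h6
    have hs1 := (h3 N (by omega) hpar).1
    have hs2 := (h3 N (by omega) hpar.swap).1
    have hs3 := (h3 N (by omega) hpar.rot.rot).1
    have hi1 : i₀ ≤ k1 := hki k1 hs1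
    have hi2 : i₀ ≤ k2 := hki k2 hs2
    have hi3 : i₀ ≤ k3 := hki k3 hs3
    obtain ⟨-, -, -, -, s1⟩ := hDf (2 ^ k1) (hNi k1 hi1).1
    obtain ⟨-, -, -, -, s2⟩ := hDf (2 ^ k2) (hNi k2 hi2).1
    obtain ⟨-, -, -, -, s3⟩ := hDf (2 ^ k3) (hNi k3 hi3).1
    -- the conditions on the moduli
    have hprod := hC.prod
    rw [← hμ] at hprod
    have hG : ∀ a b k : ℕ, 1 ≤ a → 1 ≤ b → b ≤ Δ → a * b ≤ μ * Δ → N < 2 * (a * 2 ^ k) → i₀ ≤ k →
        (N : ℝ) ^ (δ / 8) ≤ ((2 ^ k : ℕ) : ℝ) →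
        (∀ e ∈ D, Real.log Δ ^ j < e → ¬ e ∣ b) →
        (Real.log Δ ^ j < (b : ℝ) → ∀ k : ℕ, b ∈ F k → (2 : ℝ) ^ k < (b : ℝ) ^ θ₁) →
        b ≤ 2 ^ k ∧ (∀ e ∈ Df (2 ^ k), ¬ e ∣ b) ∧ b ∉ Ff (2 ^ k) := by
      intro a b k ha hb hbΔ hab hNa hik hNk hbD hbF
      have h5 := len_pow hθ1' ha hb hbΔ hab hμN hNa
      have hb1r : (1 : ℝ) ≤ b := by exact_mod_cast hb
      refine ⟨?_, ?_, ?_⟩
      · have h6 : (b : ℝ) ≤ (b : ℝ) ^ θ₁ := by
          calc (b : ℝ) = (b : ℝ) ^ (1 : ℝ) := (Real.rpow_one _).symm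
            _ ≤ _ := Real.rpow_le_rpow_of_exponent_le hb1r hθ1'
        exact_mod_cast h6.trans h5
      · intro e he
        refine hbD e (by rw [hD]; exact ⟨k, hik, he⟩) ?_
        refine lt_of_le_of_lt ?_ (hbig k hik e he)
        refine hlogA.trans ?_
        have h6 : δ / 8 * Real.log Δ ≤ (k : ℝ) * Real.log 2 := by
          have h7 := Real.log_le_log (by positivity) hNk
          rw [Real.log_rpow hN0, hlogi] at h7
          have h8 : δ / 8 * Real.log Δ ≤ δ / 8 * Real.log N := mul_le_mul_of_nonneg_left hlogΔ (by positivity)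
          linarith
        exact pow_le_pow_left₀ (by positivity) h6 _
      · intro hb'
        have hlb : Real.log Δ ^ j < (b : ℝ) := by
          refine lt_of_le_of_lt ?_ ((hDf (2 ^ k) (hNi k hik).1).2.2.1 b hb').1
          have h8 := h5N N (by omega)
          rw [one_mul, Real.rpow_mul hN0.le] at h8
          exact hpow.trans (h8.trans (Real.rpow_le_rpow (by positivity) hNk (by linarith)))
        have h6 := hbF hlb k ((hFmem k b).2 ⟨hik, hb'⟩)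
        push_cast at h5
        linarith
    obtain ⟨x, y, z, g1, g2, g3, g4, g5, g6, g7⟩ := h2 N (by omega) hpar s1 s2 s3
      (by
        rw [hna2, hna3]
        exact hG a1 (a2 * a3) k1 hp1 (Nat.mul_pos hp2 hp3) hC.u23 hprod v1 hi1 hs1 hC.d23 hC.f23)
      (by
        rw [hna1, hna3, mul_comm]
        exact hG a2 (a3 * a1) k2 hp2 (Nat.mul_pos hp3 hp1) hC.u31 (by
          calc a2 * (a3 * a1) = a1 * (a2 * a3) := by ring
            _ ≤ _ := hprod) v2 hi2 hs2 hC.d31 hC.f31)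
      (by
        rw [hna1, hna2]
        exact hG a3 (a1 * a2) k3 hp3 (Nat.mul_pos hp1 hp2) hC.u12 (by
          calc a3 * (a1 * a2) = a1 * (a2 * a3) := by ring
            _ ≤ _ := hprod) v3 hi3 hs3 hC.d12 hC.f12)
      (by exact_mod_cast hp1) (by exact_mod_cast hp2) (by
        have : (0 : ℤ) < a3 := by exact_mod_cast hp3
        linarith) (by rw [neg_neg]; exact hadm)
    refine ⟨x, y, z, g1, g2, g3, by linarith, ?_⟩
    have hmax : max (a1 * x) (max (a2 * y) (a3 * z)) ≤ N := max_le ((Nat.mul_le_mul_left _ g5).trans u1)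
      (max_le ((Nat.mul_le_mul_left _ g6).trans u2) ((Nat.mul_le_mul_left _ g7).trans u3))
    have hmaxr : ((max (a1 * x) (max (a2 * y) (a3 * z)) : ℕ) : ℝ) ≤ N := by exact_mod_cast hmax
    refine hmaxr.trans ?_
    rw [← hμ]
    have hd0 : 0 ≤ |(d : ℝ)| := abs_nonneg _
    have hpos : 0 ≤ (μ : ℝ) * (Δ : ℝ) ^ θ := by positivity
    rcases le_total d.natAbs (μ * Yc) with h | h
    · have hNe : N = 3 * (μ * Yc) := by rw [hN, max_eq_right h]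
      have hNer : (N : ℝ) = μ * (3 * Yc) := by rw [hNe]; push_cast; ring
      rw [hNer]
      have e1 : 1 ≤ (Δ : ℝ) ^ θ₁ := hΔ1r.trans hΔΔ
      have e2 : (6 : ℝ) ≤ (Δ : ℝ) ^ (δ / 2) := by
        calc (6 : ℝ) = ((6 : ℝ) ^ (2 / δ)) ^ (δ / 2) := by
              rw [← Real.rpow_mul (by norm_num)]
              have : 2 / δ * (δ / 2) = 1 := by field_simp
              rw [this, Real.rpow_one]
          _ ≤ (Δ : ℝ) ^ (δ / 2) := Real.rpow_le_rpow (by positivity) hΔ6 (by positivity)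
      have e3 : 3 * (Yc : ℝ) ≤ (Δ : ℝ) ^ θ := by
        calc 3 * (Yc : ℝ) ≤ 6 * (Δ : ℝ) ^ θ₁ := by linarith
          _ ≤ (Δ : ℝ) ^ (δ / 2) * (Δ : ℝ) ^ θ₁ := mul_le_mul_of_nonneg_right e2 (by positivity)
          _ = (Δ : ℝ) ^ (δ / 2 + θ₁) := (Real.rpow_add hΔ0 _ _).symm
          _ = (Δ : ℝ) ^ θ := by congr 1; rw [hθ₁]; ring
      have e4 : (μ : ℝ) * (3 * Yc) ≤ μ * (Δ : ℝ) ^ θ := mul_le_mul_of_nonneg_left e3 (by positivity)
      linarith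
    · have hNe : N = 3 * d.natAbs := by rw [hN, max_eq_left h]
      rw [hNe]
      push_cast
      rw [Nat.cast_natAbs]
      push_cast
      linarith

end Pool.Agent.Y883.T6
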