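import Pool.Agent.Y883.T3.Step
import Pool.Agent.Helper112.LS

set_option autoImplicit false

/-! The cells of the circle with large values of an exponential sum. -/

namespace Pool.Agent.Y883.T6

open Finset
open Pool.Agent.H807R2.Dav

/-- the absolute value of the exponential sum -/
noncomputable def Fh (f : ℕ → ℝ) (N : ℕ) (z : ℝ) : ℝ :=
  ‖∑ n ∈ Icc 1 N, ((f n : ℝ) : ℂ) * ee ((n : ℝ) * z)‖

lemma ee_int' (k : ℤ) : ee (k : ℝ) = 1 := by
  have := Pool.Agent.Helper112.ls_ee_int k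
  unfold Pool.Agent.Helper112.ee at this
  unfold ee
  rw [← this]
  congr 1
  ring

lemma Fh_add_int (f : ℕ → ℝ) (N : ℕ) (z : ℝ) (k : ℤ) : Fh f N (z + k) = Fh f N z := by
  unfold Fh
  congr 1
  apply sum_congr rfl
  intro n _
  congr 1
  have e : (n : ℝ) * (z + k) = n * z + ((n * k : ℤ) : ℝ) := by push_cast; ring
  rw [e, ee_add, ee_int', mul_one]

lemma Fh_fract (f : ℕ → ℝ) (N : ℕ) (z : ℝ) : Fh f N (Int.fract z) = Fh f N z := by
  have e : Int.fract z = z + ((-⌊z⌋ : ℤ) : ℝ) := by rw [Int.fract]; push_cast; ring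
  rw [e, Fh_add_int]

/-- the number of the cell -/
noncomputable def cell (N : ℕ) (z : ℝ) : ℕ := ⌊((4 * N : ℕ) : ℝ) * Int.fract z⌋₊

lemma cell_fract (N : ℕ) (z : ℝ) : cell N (Int.fract z) = cell N z := by
  unfold cell
  rw [Int.fract_fract]

lemma cell_add_int (N : ℕ) (z : ℝ) (k : ℤ) : cell N (z + k) = cell N z := by
  unfold cell
  rw [Int.fract_add_intCast]

lemma cell_spec {N : ℕ} (hN : 1 ≤ N) (z : ℝ) : cell N z < 4 * N ∧ (cell N z : ℝ) / (4 * N : ℕ) ≤ Int.fract z ∧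
    Int.fract z < ((cell N z : ℝ) + 1) / (4 * N : ℕ) := by
  have hM : (0 : ℝ) < ((4 * N : ℕ) : ℝ) := by exact_mod_cast (by omega : 0 < 4 * N)
  have h0 : 0 ≤ ((4 * N : ℕ) : ℝ) * Int.fract z := mul_nonneg hM.le (Int.fract_nonneg z)
  refine ⟨?_, ?_, ?_⟩
  · unfold cell
    rw [Nat.floor_lt h0]
    calc ((4 * N : ℕ) : ℝ) * Int.fract z < ((4 * N : ℕ) : ℝ) * 1 := mul_lt_mul_of_pos_left (Int.fract_lt_one z) hM
      _ = _ := mul_one _
  · rw [div_le_iff₀ hM, mul_comm (Int.fract z)]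
    exact Nat.floor_le h0
  · rw [lt_div_iff₀ hM, mul_comm (Int.fract z)]
    exact Nat.lt_floor_add_one _

open Classical in
/-- the cells with large values -/
noncomputable def Zc (f : ℕ → ℝ) (N j : ℕ) : Finset ℕ := (range (4 * N)).filter (fun t : ℕ =>
  ∃ z : ℝ, (t : ℝ) / (4 * N : ℕ) ≤ z ∧ z < ((t : ℝ) + 1) / (4 * N : ℕ) ∧ (N : ℝ) / 2 ^ j < Fh f N z)

lemma mem_Zc {f : ℕ → ℝ} {N j t : ℕ} : t ∈ Zc f N j ↔ t < 4 * N ∧
    ∃ z : ℝ, (t : ℝ) / (4 * N : ℕ) ≤ z ∧ z < ((t : ℝ) + 1) / (4 * N : ℕ) ∧ (N : ℝ) / 2 ^ j < Fh f N z := by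
  classical
  unfold Zc
  simp only [mem_filter, mem_range]

lemma cell_mem_Zc {f : ℕ → ℝ} {N j : ℕ} (hN : 1 ≤ N) {z : ℝ} (h : (N : ℝ) / 2 ^ j < Fh f N z) :
    cell N z ∈ Zc f N j := by
  obtain ⟨h1, h2, h3⟩ := cell_spec hN z
  rw [mem_Zc]
  exact ⟨h1, Int.fract z, h2, h3, by rw [Fh_fract]; exact h⟩

open Classical in
/-- the decomposition into levels -/
lemma Fh_le {f : ℕ → ℝ} {N : ℕ} (hN : 1 ≤ N) (z : ℝ) (hs : Fh f N z ≤ N) :
    Fh f N z ≤ 2 + ∑ j ∈ range (Nat.log 2 N + 1), 2 * (N : ℝ) / 2 ^ j * (if cell N z ∈ Zc f N j then 1 else 0) := by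
  have hN0 : (0 : ℝ) < N := by exact_mod_cast hN
  have hsum : 0 ≤ ∑ j ∈ range (Nat.log 2 N + 1), 2 * (N : ℝ) / 2 ^ j * (if cell N z ∈ Zc f N j then 1 else 0) :=
    sum_nonneg fun j _ => by split_ifs <;> positivity
  by_cases hex : ∃ j, j < Nat.log 2 N + 1 ∧ (N : ℝ) / 2 ^ j < Fh f N z
  · obtain ⟨j, hj⟩ : ∃ j, j = Nat.find hex := ⟨_, rfl⟩
    have h1 := Nat.find_spec hex
    rw [← hj] at h1
    have h2 : Fh f N z ≤ 2 * (N : ℝ) / 2 ^ j := by
      rcases Nat.eq_zero_or_pos j with h0 | h0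
      · rw [h0, pow_zero, div_one]
        linarith
      · have h3 := Nat.find_min hex (m := j - 1) (by omega)
        push Not at h3
        have h4 := h3 (by omega)
        refine h4.trans (le_of_eq ?_)
        obtain ⟨i, rfl⟩ : ∃ i, j = i + 1 := ⟨j - 1, by omega⟩
        rw [Nat.add_sub_cancel, pow_succ]
        field_simp
    have h5 := single_le_sum (f := fun j => 2 * (N : ℝ) / 2 ^ j * (if cell N z ∈ Zc f N j then 1 else 0))
      (s := range (Nat.log 2 N + 1)) (fun j _ => by split_ifs <;> positivity) (mem_range.2 h1.1)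
    rw [if_pos (cell_mem_Zc hN h1.2), mul_one] at h5
    linarith
  · push Not at hex
    have h1 := hex (Nat.log 2 N) (by omega)
    have h2 : (N : ℝ) / 2 ^ Nat.log 2 N ≤ 2 := by
      rw [div_le_iff₀ (by positivity)]
      have := Nat.lt_pow_succ_log_self (b := 2) (by norm_num) N
      rw [pow_succ] at this
      have h3 : (N : ℝ) ≤ ((2 ^ Nat.log 2 N * 2 : ℕ) : ℝ) := by exact_mod_cast this.le
      push_cast at h3
      linarith
    linarith

lemma sep_aux {N t t' : ℕ} (hN : 1 ≤ N) (h : t + 2 ≤ t') (h2 : t' + 2 ≤ t + 4 * N)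
    {z z' : ℝ} (h3 : (t : ℝ) / (4 * N : ℕ) ≤ z) (h4 : z < ((t : ℝ) + 1) / (4 * N : ℕ))
    (h5 : (t' : ℝ) / (4 * N : ℕ) ≤ z') (h6 : z' < ((t' : ℝ) + 1) / (4 * N : ℕ)) :
    Pool.Agent.Helper112.lsSep (4 * N) (z' - z) := by
  have hM : (0 : ℝ) < ((4 * N : ℕ) : ℝ) := by exact_mod_cast (by omega : 0 < 4 * N)
  have h7 : 1 / ((4 * N : ℕ) : ℝ) ≤ z' - z := by
    have e1 : ((t : ℝ) + 1) / (4 * N : ℕ) + 1 / ((4 * N : ℕ) : ℝ) ≤ (t' : ℝ) / (4 * N : ℕ) := by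
      rw [← add_div]
      apply div_le_div_of_nonneg_right _ hM.le
      have : ((t + 2 : ℕ) : ℝ) ≤ t' := by exact_mod_cast h
      push_cast at this
      linarith
    linarith
  have h8 : z' - z ≤ 1 - 1 / ((4 * N : ℕ) : ℝ) := by
    have e1 : ((t' : ℝ) + 1) / (4 * N : ℕ) + 1 / ((4 * N : ℕ) : ℝ) ≤ (t : ℝ) / (4 * N : ℕ) + 1 := by
      rw [← add_div, div_add_one hM.ne']
      apply div_le_div_of_nonneg_right _ hM.le
      have : ((t' + 2 : ℕ) : ℝ) ≤ ((t + 4 * N : ℕ) : ℝ) := by exact_mod_cast h2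
      rw [Nat.cast_add, Nat.cast_add, Nat.cast_two] at this
      linarith
    linarith
  have h9 : 0 < 1 / ((4 * N : ℕ) : ℝ) := by positivity
  have h10 : Int.fract (z' - z) = z' - z := Int.fract_eq_self.2 ⟨by linarith, by linarith⟩
  unfold Pool.Agent.Helper112.lsSep
  rw [h10]
  exact ⟨h7, h8⟩

lemma Zc_card (N : ℕ) (hN : 1 ≤ N) (f : ℕ → ℝ) (L : ℝ) (hL : 60 ≤ L)
    (hf : ∑ n ∈ Icc 1 N, f n ^ 2 ≤ N * L ^ 8) (j : ℕ) :
    ((Zc f N j).card : ℝ) ≤ L ^ 9 * 4 ^ j := by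
  classical
  have hN0 : (0 : ℝ) < N := by exact_mod_cast hN
  have hL0 : 0 < L := by linarith
  have hex : ∀ t ∈ Zc f N j, ∃ z : ℝ, (t : ℝ) / (4 * N : ℕ) ≤ z ∧ z < ((t : ℝ) + 1) / (4 * N : ℕ) ∧
      (N : ℝ) / 2 ^ j < Fh f N z := fun t ht => (mem_Zc.1 ht).2
  choose! ξ hξ using hex
  have key : ∀ e : ℕ, (((Zc f N j).filter (fun t => t % 2 = e)).card : ℝ) ≤ 30 * L ^ 8 * 4 ^ j := by
    intro e
    obtain ⟨R, hR⟩ : ∃ R, R = (Zc f N j).filter (fun t => t % 2 = e) := ⟨_, rfl⟩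
    rw [← hR]
    have hmem : ∀ t ∈ R, t ∈ Zc f N j ∧ t < 4 * N ∧ t % 2 = e := by
      intro t ht
      rw [hR, mem_filter] at ht
      exact ⟨ht.1, (mem_Zc.1 ht.1).1, ht.2⟩
    have hsep : ∀ r ∈ R, ∀ s ∈ R, r ≠ s → Pool.Agent.Helper112.lsSep (4 * N) (ξ s - ξ r) := by
      intro r hr s hs hrs
      obtain ⟨r1, r2, r3⟩ := hmem r hr
      obtain ⟨s1, s2, s3⟩ := hmem s hs
      obtain ⟨r4, r5, _⟩ := hξ r r1
      obtain ⟨s4, s5, _⟩ := hξ s s1
      rcases lt_or_gt_of_ne hrs with h | h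
      · exact sep_aux hN (by omega) (by omega) r4 r5 s4 s5
      · have h6 := sep_aux hN (by omega) (by omega) s4 s5 r4 r5
        have h7 := (Pool.Agent.Helper112.lsSep_neg (by omega) h6).1
        rwa [neg_sub] at h7
    have h1 := Pool.Agent.Helper112.ls_general R ξ (4 * N) N (by omega) hsep (fun n => ((f n : ℝ) : ℂ))
    have h2 : ∀ r : ℕ, ‖∑ n ∈ Icc 1 N, ((f n : ℝ) : ℂ) * Pool.Agent.Helper112.ee (n * ξ r)‖ = Fh f N (ξ r) := by
      intro r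
      unfold Fh
      congr 1
      apply sum_congr rfl
      intro n _
      congr 1
      unfold Pool.Agent.Helper112.ee ee
      congr 1
      push_cast
      ring
    have h3 : ∑ n ∈ Icc 1 N, ‖((f n : ℝ) : ℂ)‖ ^ 2 = ∑ n ∈ Icc 1 N, f n ^ 2 := by
      apply sum_congr rfl
      intro n _
      rw [Complex.norm_real, Real.norm_eq_abs, sq_abs]
    have h4 : (R.card : ℝ) * (N / 2 ^ j) ^ 2 ≤ 30 * N * (N * L ^ 8) := by
      calc (R.card : ℝ) * (N / 2 ^ j) ^ 2 = ∑ _r ∈ R, ((N : ℝ) / 2 ^ j) ^ 2 := by rw [sum_const, nsmul_eq_mul]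
        _ ≤ ∑ r ∈ R, ‖∑ n ∈ Icc 1 N, ((f n : ℝ) : ℂ) * Pool.Agent.Helper112.ee (n * ξ r)‖ ^ 2 := by
            apply sum_le_sum
            intro r hr
            rw [h2]
            exact pow_le_pow_left₀ (by positivity) (hξ r (hmem r hr).1).2.2.le 2
        _ ≤ _ := h1
        _ = 30 * N * ∑ n ∈ Icc 1 N, f n ^ 2 := by rw [h3]; push_cast; ring
        _ ≤ 30 * N * (N * L ^ 8) := mul_le_mul_of_nonneg_left hf (by positivity)
    have e4 : ((2 : ℝ) ^ j) ^ 2 = 4 ^ j := by rw [← pow_mul, mul_comm, pow_mul]; norm_num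
    rw [div_pow, e4] at h4
    have h5 : (R.card : ℝ) * (N ^ 2 / 4 ^ j) ≤ (30 * L ^ 8 * 4 ^ j) * (N ^ 2 / 4 ^ j) := by
      refine h4.trans (le_of_eq ?_)
      field_simp
    exact le_of_mul_le_mul_right h5 (by positivity)
  have h0 := key 0
  have h1 := key 1
  have hun : Zc f N j ⊆ (Zc f N j).filter (fun t => t % 2 = 0) ∪ (Zc f N j).filter (fun t => t % 2 = 1) := by
    intro t ht
    rw [mem_union, mem_filter, mem_filter]
    have := Nat.mod_two_eq_zero_or_one t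
    tauto
  have h2 : ((Zc f N j).card : ℝ) ≤ ((Zc f N j).filter (fun t => t % 2 = 0)).card +
      ((Zc f N j).filter (fun t => t % 2 = 1)).card := by
    exact_mod_cast (card_le_card hun).trans (card_union_le _ _)
  calc ((Zc f N j).card : ℝ) ≤ 60 * (L ^ 8 * 4 ^ j) := by linarith
    _ ≤ L * (L ^ 8 * 4 ^ j) := mul_le_mul_of_nonneg_right hL (by positivity)
    _ = _ := by ring

end Pool.Agent.Y883.T6
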