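import Mathlib

set_option autoImplicit false

/-! An inequality for a sum over a finite group with two functions periodic in different directions. -/

namespace Pool.Agent.Y883.T6

open Finset

variable {G : Type} [Fintype G] [AddCommGroup G]

lemma sum_shift (F : G → ℝ) (s : G) : ∑ t, F (t + s) = ∑ t, F t :=
  Equiv.sum_comp (Equiv.addRight s) F

lemma periodic_nsmul {F : G → ℝ} {s : G} (h : ∀ t, F (t + s) = F t) (k : ℕ) (t : G) : F (t + k • s) = F t := by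
  induction k with
  | zero => simp
  | succ k ih => rw [succ_nsmul, ← add_assoc, h, ih]

theorem key_ineq (Φ u v : G → ℝ) (s2 s3 : G) (n2 n3 : ℕ) (W : ℝ) (hn2 : 1 ≤ n2) (hn3 : 1 ≤ n3)
    (hΦ : ∀ t, Φ t = 0 ∨ Φ t = 1) (h2 : n2 • s2 = 0) (hu : ∀ t, u (t + s2) = u t) (hv : ∀ t, v (t + s3) = v t)
    (hW : ∀ t, ∑ l ∈ range n3, ∑ k ∈ range n2, Φ (t + l • s3 + k • s2) ≤ W) :
    (∑ t, Φ t * u t * v t) ^ 2 * (n2 * n3) ≤ W * (∑ t, u t ^ 2) * ∑ t, v t ^ 2 := by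
  classical
  have hn20 : (0 : ℝ) < n2 := by exact_mod_cast hn2
  have hn30 : (0 : ℝ) < n3 := by exact_mod_cast hn3
  have hΦ0 : ∀ t, 0 ≤ Φ t := fun t => by rcases hΦ t with h | h <;> rw [h] <;> norm_num
  have hΦ1 : ∀ t, Φ t ≤ 1 := fun t => by rcases hΦ t with h | h <;> rw [h] <;> norm_num
  have hΦ2 : ∀ t, Φ t ^ 2 = Φ t := fun t => by rcases hΦ t with h | h <;> rw [h] <;> norm_num
  obtain ⟨n, hn⟩ : ∃ n : G → ℝ, n = fun t => ∑ k ∈ range n2, Φ (t + k • s2) := ⟨_, rfl⟩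
  have hn0 : ∀ t, 0 ≤ n t := by
    intro t
    rw [hn]
    exact sum_nonneg fun k _ => hΦ0 _
  have hnper : ∀ t, n (t + s2) = n t := by
    intro t
    rw [hn]
    simp only
    have e1 : ∀ k ∈ range n2, Φ (t + s2 + k • s2) = Φ (t + (k + 1) • s2) := by
      intro k _
      congr 1
      rw [succ_nsmul]
      abel
    rw [sum_congr rfl e1]
    have e2 := sum_range_succ (fun k => Φ (t + k • s2)) n2
    have e3 := sum_range_succ' (fun k => Φ (t + k • s2)) n2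
    rw [h2, add_zero] at e2
    rw [zero_nsmul, add_zero] at e3
    linarith
  -- the first step
  obtain ⟨I, hI⟩ : ∃ I, I = ∑ t, Φ t * u t * v t := ⟨_, rfl⟩
  obtain ⟨Su, hSu⟩ : ∃ Su, Su = ∑ t, u t ^ 2 := ⟨_, rfl⟩
  obtain ⟨Sv, hSv⟩ : ∃ Sv, Sv = ∑ t, v t ^ 2 := ⟨_, rfl⟩
  have hSu0 : 0 ≤ Su := by rw [hSu]; exact sum_nonneg fun t _ => sq_nonneg _
  have hSv0 : 0 ≤ Sv := by rw [hSv]; exact sum_nonneg fun t _ => sq_nonneg _
  have h3 : n2 * I = ∑ t, u t * ∑ k ∈ range n2, Φ (t + k • s2) * v (t + k • s2) := by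
    have e1 : ∀ t, u t * ∑ k ∈ range n2, Φ (t + k • s2) * v (t + k • s2) =
        ∑ k ∈ range n2, Φ (t + k • s2) * u (t + k • s2) * v (t + k • s2) := by
      intro t
      rw [mul_sum]
      apply sum_congr rfl
      intro k _
      rw [periodic_nsmul hu]
      ring
    rw [Fintype.sum_congr _ _ e1, sum_comm]
    have e2 : ∀ k ∈ range n2, ∑ t, Φ (t + k • s2) * u (t + k • s2) * v (t + k • s2) = I := by
      intro k _
      rw [hI]
      exact sum_shift (fun t => Φ t * u t * v t) (k • s2)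
    rw [sum_congr rfl e2, sum_const, card_range, nsmul_eq_mul]
  have h4 : (n2 * I) ^ 2 ≤ Su * ∑ t, (∑ k ∈ range n2, Φ (t + k • s2) * v (t + k • s2)) ^ 2 := by
    rw [h3, hSu]
    exact sum_mul_sq_le_sq_mul_sq _ _ _
  have h5 : ∑ t, (∑ k ∈ range n2, Φ (t + k • s2) * v (t + k • s2)) ^ 2 ≤ n2 * ∑ t, n t * v t ^ 2 := by
    have e1 : ∀ t, (∑ k ∈ range n2, Φ (t + k • s2) * v (t + k • s2)) ^ 2 ≤
        ∑ k ∈ range n2, n (t + k • s2) * v (t + k • s2) ^ 2 := by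
      intro t
      have e2 := sum_mul_sq_le_sq_mul_sq (range n2) (fun k => Φ (t + k • s2)) (fun k => Φ (t + k • s2) * v (t + k • s2))
      have e3 : ∑ k ∈ range n2, Φ (t + k • s2) * (Φ (t + k • s2) * v (t + k • s2)) =
          ∑ k ∈ range n2, Φ (t + k • s2) * v (t + k • s2) := by
        apply sum_congr rfl
        intro k _
        rw [← mul_assoc, ← pow_two, hΦ2]
      rw [e3] at e2
      refine e2.trans ?_
      have e4 : ∑ k ∈ range n2, Φ (t + k • s2) ^ 2 = n t := by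
        rw [hn]
        exact sum_congr rfl fun k _ => hΦ2 _
      rw [e4, mul_sum]
      apply sum_le_sum
      intro k _
      rw [periodic_nsmul hnper]
      apply mul_le_mul_of_nonneg_left _ (hn0 t)
      rw [mul_pow, hΦ2]
      exact mul_le_of_le_one_left (sq_nonneg _) (hΦ1 _)
    refine (sum_le_sum fun t _ => e1 t).trans (le_of_eq ?_)
    rw [sum_comm]
    have e2 : ∀ k ∈ range n2, ∑ t, n (t + k • s2) * v (t + k • s2) ^ 2 = ∑ t, n t * v t ^ 2 :=
      fun k _ => sum_shift (fun t => n t * v t ^ 2) (k • s2)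
    rw [sum_congr rfl e2, sum_const, card_range, nsmul_eq_mul]
  have h6 : n3 * ∑ t, n t * v t ^ 2 ≤ W * Sv := by
    have e2 : ∀ l ∈ range n3, ∑ t, n (t + l • s3) * v (t + l • s3) ^ 2 = ∑ t, n t * v t ^ 2 :=
      fun l _ => sum_shift (fun t => n t * v t ^ 2) (l • s3)
    have e3 : (n3 : ℝ) * ∑ t, n t * v t ^ 2 = ∑ l ∈ range n3, ∑ t, n (t + l • s3) * v (t + l • s3) ^ 2 := by
      rw [sum_congr rfl e2, sum_const, card_range, nsmul_eq_mul]
    rw [e3, sum_comm, hSv, mul_sum]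
    apply sum_le_sum
    intro t _
    have e4 : ∑ l ∈ range n3, n (t + l • s3) * v (t + l • s3) ^ 2 = (∑ l ∈ range n3, n (t + l • s3)) * v t ^ 2 := by
      rw [sum_mul]
      apply sum_congr rfl
      intro l _
      rw [periodic_nsmul hv]
    rw [e4]
    apply mul_le_mul_of_nonneg_right _ (sq_nonneg _)
    refine le_trans (le_of_eq ?_) (hW t)
    rw [hn]
  rw [← hI, ← hSu, ← hSv]
  have h7 : (n2 * I) ^ 2 ≤ Su * (n2 * ∑ t, n t * v t ^ 2) := h4.trans (mul_le_mul_of_nonneg_left h5 hSu0)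
  have h8 : I ^ 2 * n2 ≤ Su * ∑ t, n t * v t ^ 2 := by
    have e1 : (n2 : ℝ) * (I ^ 2 * n2) ≤ n2 * (Su * ∑ t, n t * v t ^ 2) := by
      calc (n2 : ℝ) * (I ^ 2 * n2) = (n2 * I) ^ 2 := by ring
        _ ≤ _ := h7
        _ = _ := by ring
    exact le_of_mul_le_mul_left e1 hn20
  calc I ^ 2 * (n2 * n3) = (I ^ 2 * n2) * n3 := by ring
    _ ≤ (Su * ∑ t, n t * v t ^ 2) * n3 := mul_le_mul_of_nonneg_right h8 hn30.le
    _ = Su * (n3 * ∑ t, n t * v t ^ 2) := by ring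
    _ ≤ Su * (W * Sv) := mul_le_mul_of_nonneg_left h6 hSu0
    _ = W * Su * Sv := by ring

end Pool.Agent.Y883.T6
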