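import Pool.Agent.Y883.T6.Close
import Pool.Agent.Y883.T6.KI

set_option autoImplicit false

/-! The circle method for linear equations in three unknowns. -/

namespace Pool.Agent.Y883.T6

open Finset
open Pool.Agent.H807R2.Dav

/-- the sum over the solutions of `c₁ x + c₂ y + c₃ z = d` -/
noncomputable def S3 (c1 c2 c3 d : ℤ) (P1 P2 P3 : ℕ) (g1 g2 g3 : ℕ → ℝ) : ℝ :=
  ∑ x ∈ Icc 1 P1, ∑ y ∈ Icc 1 P2, ∑ z ∈ Icc 1 P3,
    if c1 * (x : ℕ) + c2 * (y : ℕ) + c3 * (z : ℕ) = d then g1 x * g2 y * g3 z else 0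

/-- the exponential sum on the residue classes -/
noncomputable def GG (M : ℕ) [NeZero M] (f : ℕ → ℝ) (P : ℕ) (c : ℤ) (t : ZMod M) : ℂ :=
  ∑ n ∈ Icc 1 P, ((f n : ℝ) : ℂ) * ZMod.stdAddChar (t * ((((n : ℕ) : ℤ) * c : ℤ) : ZMod M))

lemma std_val (M : ℕ) [NeZero M] (t : ZMod M) (k : ℤ) :
    ZMod.stdAddChar (t * (k : ZMod M)) = ee ((k : ℝ) * ((t.val : ℝ) / M)) := by
  have e : t * (k : ZMod M) = (((t.val : ℤ) * k : ℤ) : ZMod M) := by
    push_cast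
    rw [ZMod.natCast_zmod_val]
  rw [e, ZMod.stdAddChar_coe]
  unfold ee
  congr 1
  push_cast
  ring

lemma GG_norm (M : ℕ) [NeZero M] (f : ℕ → ℝ) (P : ℕ) (c : ℤ) (t : ZMod M) :
    ‖GG M f P c t‖ = Fh f P ((c : ℝ) * ((t.val : ℝ) / M)) := by
  unfold GG Fh
  congr 1
  apply sum_congr rfl
  intro n _
  rw [std_val]
  congr 2
  push_cast
  ring

lemma GG_add (M : ℕ) [NeZero M] (f : ℕ → ℝ) (P : ℕ) (c : ℤ) (t s : ZMod M) (hs : s * (c : ZMod M) = 0) :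
    GG M f P c (t + s) = GG M f P c t := by
  unfold GG
  apply sum_congr rfl
  intro n _
  congr 2
  push_cast
  rw [add_mul]
  have : s * ((n : ZMod M) * (c : ZMod M)) = 0 := by
    rw [mul_left_comm, hs, mul_zero]
  rw [this, add_zero]

lemma orth_std (M : ℕ) [NeZero M] (k : ℤ) (hk : |k| < M) :
    ∑ t : ZMod M, ZMod.stdAddChar (t * (k : ZMod M)) = if k = 0 then (M : ℂ) else 0 := by
  rw [AddChar.sum_mulShift _ (ZMod.isPrimitive_stdAddChar M), ZMod.card]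
  have h1 : ((k : ZMod M) = 0) ↔ k = 0 := by
    rw [ZMod.intCast_zmod_eq_zero_iff_dvd]
    constructor
    · intro h
      exact Int.eq_zero_of_abs_lt_dvd h hk
    · intro h
      rw [h]
      exact dvd_zero _
  by_cases h : k = 0
  · rw [if_pos h, if_pos (h1.2 h)]
  · rw [if_neg h, if_neg (fun h' => h (h1.1 h')), Nat.cast_zero]

theorem circ (M : ℕ) [NeZero M] (c1 c2 c3 d : ℤ) (P1 P2 P3 : ℕ) (g1 g2 g3 : ℕ → ℝ)
    (h : ∀ x ∈ Icc 1 P1, ∀ y ∈ Icc 1 P2, ∀ z ∈ Icc 1 P3, |c1 * (x : ℕ) + c2 * (y : ℕ) + c3 * (z : ℕ) - d| < M) :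
    (M : ℝ) * |S3 c1 c2 c3 d P1 P2 P3 g1 g2 g3| ≤
      ∑ t : ZMod M, ‖GG M g1 P1 c1 t‖ * ‖GG M g2 P2 c2 t‖ * ‖GG M g3 P3 c3 t‖ := by
  have hid : (((M : ℝ) * S3 c1 c2 c3 d P1 P2 P3 g1 g2 g3 : ℝ) : ℂ) =
      ∑ t : ZMod M, GG M g1 P1 c1 t * GG M g2 P2 c2 t * GG M g3 P3 c3 t *
        ZMod.stdAddChar (t * ((-d : ℤ) : ZMod M)) := by
    have e1 : ∀ t : ZMod M, GG M g1 P1 c1 t * GG M g2 P2 c2 t * GG M g3 P3 c3 t *
        ZMod.stdAddChar (t * ((-d : ℤ) : ZMod M)) = ∑ x ∈ Icc 1 P1, ∑ y ∈ Icc 1 P2, ∑ z ∈ Icc 1 P3,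
        ((g1 x * g2 y * g3 z : ℝ) : ℂ) *
          ZMod.stdAddChar (t * ((c1 * (x : ℕ) + c2 * (y : ℕ) + c3 * (z : ℕ) - d : ℤ) : ZMod M)) := by
      intro t
      unfold GG
      rw [sum_mul_sum, sum_mul, sum_mul]
      apply sum_congr rfl
      intro x _
      rw [sum_mul, sum_mul]
      apply sum_congr rfl
      intro y _
      rw [mul_sum, sum_mul]
      apply sum_congr rfl
      intro z _
      have e2 : t * ((c1 * (x : ℕ) + c2 * (y : ℕ) + c3 * (z : ℕ) - d : ℤ) : ZMod M) =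
          t * ((((x : ℕ) : ℤ) * c1 : ℤ) : ZMod M) + t * ((((y : ℕ) : ℤ) * c2 : ℤ) : ZMod M) +
          t * ((((z : ℕ) : ℤ) * c3 : ℤ) : ZMod M) + t * ((-d : ℤ) : ZMod M) := by
        push_cast
        ring
      rw [e2, AddChar.map_add_eq_mul, AddChar.map_add_eq_mul, AddChar.map_add_eq_mul]
      push_cast
      ring
    rw [Fintype.sum_congr _ _ e1, sum_comm]
    unfold S3
    rw [Complex.ofReal_mul, Complex.ofReal_sum, mul_sum]
    apply sum_congr rfl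
    intro x hx
    rw [Complex.ofReal_sum, mul_sum, sum_comm]
    apply sum_congr rfl
    intro y hy
    rw [Complex.ofReal_sum, mul_sum, sum_comm]
    apply sum_congr rfl
    intro z hz
    rw [← mul_sum, orth_std M _ (h x hx y hy z hz)]
    by_cases hk : c1 * (x : ℕ) + c2 * (y : ℕ) + c3 * (z : ℕ) = d
    · rw [if_pos hk, if_pos (by rw [hk, sub_self])]
      push_cast
      ring
    · rw [if_neg hk, if_neg (fun h' => hk (sub_eq_zero.1 h'))]
      simp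
  have h1 : (M : ℝ) * |S3 c1 c2 c3 d P1 P2 P3 g1 g2 g3| = ‖(((M : ℝ) * S3 c1 c2 c3 d P1 P2 P3 g1 g2 g3 : ℝ) : ℂ)‖ := by
    rw [Complex.norm_real, Real.norm_eq_abs, abs_mul, abs_of_nonneg (Nat.cast_nonneg M : (0 : ℝ) ≤ M)]
  rw [h1, hid]
  refine (norm_sum_le _ _).trans (sum_le_sum fun t _ => ?_)
  rw [norm_mul, norm_mul, norm_mul]
  have e : ‖(ZMod.stdAddChar (t * ((-d : ℤ) : ZMod M)) : ℂ)‖ = 1 := by
    rw [std_val]
    exact norm_ee _
  rw [e, mul_one]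

theorem parseval_GG (M : ℕ) [NeZero M] (f : ℕ → ℝ) (P : ℕ) (c : ℤ) (hc : c ≠ 0) (h : c.natAbs * P < M) :
    ∑ t : ZMod M, ‖GG M f P c t‖ ^ 2 = M * ∑ n ∈ Icc 1 P, f n ^ 2 := by
  have hid : ((∑ t : ZMod M, ‖GG M f P c t‖ ^ 2 : ℝ) : ℂ) = ((M * ∑ n ∈ Icc 1 P, f n ^ 2 : ℝ) : ℂ) := by
    have e1 : ∀ t : ZMod M, ((‖GG M f P c t‖ ^ 2 : ℝ) : ℂ) = ∑ n ∈ Icc 1 P, ∑ n' ∈ Icc 1 P,
        ((f n * f n' : ℝ) : ℂ) * ZMod.stdAddChar (t * ((((n : ℤ) - n') * c : ℤ) : ZMod M)) := by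
      intro t
      have e2 : ((‖GG M f P c t‖ ^ 2 : ℝ) : ℂ) = GG M f P c t * (starRingEnd ℂ) (GG M f P c t) := by
        rw [Complex.mul_conj']
        push_cast
        rfl
      rw [e2]
      unfold GG
      rw [map_sum, sum_mul_sum]
      apply sum_congr rfl
      intro n _
      apply sum_congr rfl
      intro n' _
      rw [RingHom.map_mul (starRingEnd ℂ), Complex.conj_ofReal]
      have e3 : (starRingEnd ℂ) (ZMod.stdAddChar (t * ((((n' : ℕ) : ℤ) * c : ℤ) : ZMod M))) =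
          ZMod.stdAddChar (-(t * ((((n' : ℕ) : ℤ) * c : ℤ) : ZMod M))) := by
        rw [AddChar.map_neg_eq_conj]
      rw [e3]
      have e4 : t * ((((n : ℤ) - n') * c : ℤ) : ZMod M) = t * ((((n : ℕ) : ℤ) * c : ℤ) : ZMod M) +
          -(t * ((((n' : ℕ) : ℤ) * c : ℤ) : ZMod M)) := by
        push_cast
        ring
      rw [e4, AddChar.map_add_eq_mul]
      push_cast
      ring
    rw [Complex.ofReal_sum, Fintype.sum_congr _ _ e1, sum_comm, Complex.ofReal_mul, Complex.ofReal_sum, mul_sum]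
    apply sum_congr rfl
    intro n hn
    rw [sum_comm, sum_eq_single n]
    · rw [← mul_sum, orth_std M _ (by rw [sub_self, zero_mul, abs_zero]; exact_mod_cast Nat.pos_of_ne_zero (NeZero.ne M)),
        if_pos (by rw [sub_self, zero_mul])]
      push_cast
      ring
    · intro n' hn' hne
      rw [mem_Icc] at hn hn'
      rw [← mul_sum, orth_std, if_neg, mul_zero]
      · intro h0
        rcases mul_eq_zero.1 h0 with h1 | h1
        · apply hne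
          omega
        · exact hc h1
      · rw [abs_mul]
        have h1 : |(n : ℤ) - n'| ≤ P := by rw [abs_le]; omega
        calc |(n : ℤ) - n'| * |c| ≤ P * |c| := mul_le_mul_of_nonneg_right h1 (abs_nonneg _)
          _ = ((c.natAbs * P : ℕ) : ℤ) := by rw [Int.abs_eq_natAbs, mul_comm]; push_cast; rfl
          _ < M := by exact_mod_cast h
    · intro h'
      exact absurd hn h'
  exact_mod_cast hid

end Pool.Agent.Y883.T6
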