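import Pool.Agent.Y883.T6.Cell

set_option autoImplicit false

/-! Many points of an arithmetic progression in the cells with large values give many close pairs. -/

namespace Pool.Agent.Y883.T6

open Finset
open Pool.Agent.H807R2.Dav
open Pool.Agent.Y883.T3

/-- the number of the points `θ + n / q` in the cells of one level -/
noncomputable def cnt (f : ℕ → ℝ) (N j q : ℕ) (θ : ℝ) : ℕ :=
  ((range q).filter (fun n : ℕ => cell N (θ + (n : ℝ) / q) ∈ Zc f N j)).card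

/-- some translate of the fractions with denominator `q` has too many points in the cells of one level -/
def BadC (f : ℕ → ℝ) (N A q : ℕ) : Prop := ∃ θ : ℝ, ∃ j < Nat.log 2 N + 1,
  4 ^ j / Real.log N ^ (4 * A + 12) ≤ (cnt f N j q θ : ℝ)

lemma fract_eq (x : ℝ) : ∃ k : ℤ, Int.fract x = x - k := ⟨⌊x⌋, rfl⟩

theorem close_pairs {f : ℕ → ℝ} {N Q q j : ℕ} (hN : 1 ≤ N) (hQ : 1 ≤ Q) (hQN : Q ≤ N) (hq1 : Q ≤ q) (hq2 : q < 2 * Q)
    {T : ℝ} (hT : 1 ≤ T) (θ : ℝ) :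
    ((cnt f N j q θ : ℕ) : ℝ) ^ 2 ≤ ((clp (4 * N) (N / Q) q T (Zc f N j)).card : ℝ) := by
  classical
  have hN0 : (0 : ℝ) < N := by exact_mod_cast hN
  have hQ0 : (0 : ℝ) < Q := by exact_mod_cast hQ
  have hq0 : (0 : ℝ) < q := by exact_mod_cast (by omega : 0 < q)
  have hM : (0 : ℝ) < ((4 * N : ℕ) : ℝ) := by exact_mod_cast (by omega : 0 < 4 * N)
  have hqM : (q : ℝ) < ((4 * N : ℕ) : ℝ) := by exact_mod_cast (by omega : q < 4 * N)
  have hP1 : 1 ≤ N / Q := Nat.div_pos hQN (by omega)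
  have hP0 : (0 : ℝ) < ((N / Q : ℕ) : ℝ) := by exact_mod_cast hP1
  have hPQ : ((N / Q : ℕ) : ℝ) * Q ≤ N := by exact_mod_cast Nat.div_mul_le_self N Q
  obtain ⟨I, hI⟩ : ∃ I, I = (range q).filter (fun n : ℕ => cell N (θ + (n : ℝ) / q) ∈ Zc f N j) := ⟨_, rfl⟩
  have hcnt : cnt f N j q θ = I.card := by rw [hI]; rfl
  rw [hcnt]
  obtain ⟨c, hc⟩ : ∃ c : ℕ → ℕ, c = fun n : ℕ => cell N (θ + (n : ℝ) / q) := ⟨_, rfl⟩
  have hmem : ∀ n ∈ I, n < q ∧ c n ∈ Zc f N j := by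
    intro n hn
    rw [hI, mem_filter, mem_range] at hn
    rw [hc]
    exact hn
  have hspec : ∀ n : ℕ, ∃ η : ℝ, ∃ k : ℤ, 0 ≤ η ∧ η < 1 / ((4 * N : ℕ) : ℝ) ∧
      (c n : ℝ) / (4 * N : ℕ) = θ + (n : ℝ) / q - k - η := by
    intro n
    obtain ⟨_, h2, h3⟩ := cell_spec hN (θ + (n : ℝ) / q)
    obtain ⟨k, hk⟩ := fract_eq (θ + (n : ℝ) / q)
    rw [hk] at h2 h3
    refine ⟨θ + (n : ℝ) / q - k - (c n : ℝ) / (4 * N : ℕ), k, ?_, ?_, by ring⟩
    · rw [hc]; simp only; linarith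
    · rw [hc]
      simp only
      rw [add_div] at h3
      linarith
  have hqM1 : (q : ℝ) * (1 / ((4 * N : ℕ) : ℝ)) < 1 := by
    rw [mul_one_div, div_lt_one hM]
    exact hqM
  have hclose : ∀ n n' : ℕ, ∃ m : ℤ, (∃ k : ℤ, m = (n : ℤ) - n' + q * k) ∧
      |(q : ℝ) * (((c n : ℝ) - c n') / (4 * N : ℕ)) - m| ≤ q * (1 / ((4 * N : ℕ) : ℝ)) := by
    intro n n'
    obtain ⟨η, k, h1, h2, h3⟩ := hspec n
    obtain ⟨η', k', h1', h2', h3'⟩ := hspec n'
    refine ⟨(n : ℤ) - n' + q * (k' - k), ⟨k' - k, rfl⟩, ?_⟩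
    have e1 : (q : ℝ) * (((c n : ℝ) - c n') / (4 * N : ℕ)) - (((n : ℤ) - n' + q * (k' - k) : ℤ) : ℝ) = q * (η' - η) := by
      rw [sub_div, h3, h3']
      push_cast
      field_simp
      ring
    rw [e1, abs_mul, abs_of_pos hq0]
    apply mul_le_mul_of_nonneg_left _ hq0.le
    rw [abs_le]
    constructor <;> linarith
  have hinj : Set.InjOn c (I : Set ℕ) := by
    intro n hn n' hn' h
    rw [mem_coe] at hn hn'
    obtain ⟨m, ⟨k, hk⟩, hm⟩ := hclose n n'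
    rw [h, sub_self, zero_div, mul_zero, zero_sub, abs_neg] at hm
    have h1 : |(m : ℝ)| < 1 := hm.trans_lt hqM1
    have h2 : m = 0 := by
      have : |m| < 1 := by exact_mod_cast h1
      exact Int.abs_lt_one_iff.1 this
    have h3 := (hmem n hn).1
    have h4 := (hmem n' hn').1
    have h5 : (q : ℤ) ∣ (n : ℤ) - n' := ⟨-k, by linarith⟩
    have h6 : |(n : ℤ) - n'| < q := by rw [abs_lt]; omega
    have h7 := Int.eq_zero_of_abs_lt_dvd h5 h6
    omega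
  have himg : (I ×ˢ I).image (fun p : ℕ × ℕ => (c p.1, c p.2)) ⊆ clp (4 * N) (N / Q) q T (Zc f N j) := by
    intro p hp
    rw [mem_image] at hp
    obtain ⟨⟨n, n'⟩, hn, rfl⟩ := hp
    rw [mem_product] at hn
    unfold clp
    simp only [mem_filter, mem_product]
    refine ⟨⟨(hmem n hn.1).2, (hmem n' hn.2).2⟩, ?_⟩
    unfold Cl
    obtain ⟨m, _, hm⟩ := hclose n n'
    refine (round_le _ m).trans (hm.trans ?_)
    have h1 : (q : ℝ) ≤ 2 * Q := by exact_mod_cast hq2.le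
    rw [mul_one_div, div_le_div_iff₀ hM hP0]
    push_cast
    calc (q : ℝ) * ((N / Q : ℕ) : ℝ) ≤ (2 * Q) * ((N / Q : ℕ) : ℝ) := mul_le_mul_of_nonneg_right h1 hP0.le
      _ = 2 * (((N / Q : ℕ) : ℝ) * Q) := by ring
      _ ≤ 2 * N := by linarith
      _ ≤ 1 * (4 * N) := by linarith
      _ ≤ T * (4 * N) := mul_le_mul_of_nonneg_right hT (by positivity)
  have hcard : ((I ×ˢ I).image (fun p : ℕ × ℕ => (c p.1, c p.2))).card = I.card ^ 2 := by
    rw [card_image_of_injOn, card_product, pow_two]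
    intro p hp p' hp' h
    rw [mem_coe, mem_product] at hp hp'
    have h1 := congrArg Prod.fst h
    have h2 := congrArg Prod.snd h
    exact Prod.ext (hinj hp.1 hp'.1 h1) (hinj hp.2 hp'.2 h2)
  have := card_le_card himg
  rw [hcard] at this
  exact_mod_cast this

lemma lvlC {N Q q A : ℕ} {L : ℝ} (hN : 1 ≤ N) (hQ : 1 ≤ Q) (hQN : Q ≤ N) (hq : Q ≤ q ∧ q < 2 * Q)
    (f : ℕ → ℝ) (hLd : L = Real.log N) (hL : 1 ≤ L) (hbad : BadC f N A q) :
    ∃ j < Nat.log 2 N + 1, 16 ^ j / (6 * L ^ (8 * A + 24)) ≤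
      ((clp (4 * N) (N / Q) q (L ^ (8 * A + 44)) (Zc f N j)).card : ℝ) := by
  obtain ⟨θ, j, hj, h⟩ := hbad
  rw [← hLd] at h
  refine ⟨j, hj, ?_⟩
  have hL0 : 0 < L := by linarith
  have h1 := close_pairs (f := f) (j := j) hN hQ hQN hq.1 hq.2 (one_le_pow₀ hL : 1 ≤ L ^ (8 * A + 44)) θ
  refine le_trans ?_ h1
  have h2 := pow_le_pow_left₀ (by positivity) h 2
  refine le_trans ?_ h2
  have e1 : (4 ^ j / L ^ (4 * A + 12)) ^ 2 = 16 ^ j / L ^ (8 * A + 24) := by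
    rw [div_pow, ← pow_mul, ← pow_mul, mul_comm j 2, pow_mul]
    norm_num
    congr 1
    ring
  rw [e1]
  apply div_le_div_of_nonneg_left (by positivity) (by positivity)
  have : 0 < L ^ (8 * A + 24) := by positivity
  linarith

end Pool.Agent.Y883.T6
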