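import Pool.Agent.Y883.T6.Close
import Pool.Agent.Y883.T4.Core

set_option autoImplicit false

/-! A set of moduli `q ≤ N ^ (2 / 3 - ρ)` whose fractions have too many members in the cells of one level
has many members with a common divisor. -/

namespace Pool.Agent.Y883.T6

open Finset
open Pool.Agent.H807R2.Dav
open Pool.Agent.H373R2.T7 (fz parseval_Icc ev_L' ev_log' lamz)
open Pool.Agent.Y883.T3
open Pool.Agent.Y883.T4

open Classical in
theorem level_step6 (A N Q P j U : ℕ) (L X ν ρ : ℝ) (f : ℕ → ℝ) (S : Finset ℕ)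
    (h : Hyp A N Q P j L (Zc f N j) S) (hU : 8 * A + 42 ≤ U) (hN1 : 1 ≤ N)
    (hρ0 : 0 < ρ) (hQN : (Q : ℝ) ≤ (N : ℝ) ^ (2 / 3 - ρ)) (hν : ν = (N : ℝ) ^ (1 / 40 : ℝ))
    (hX : L ^ (40 * A + 200) ≤ X) (hX4 : X ^ 4 ≤ (N : ℝ) ^ (1 / 100 : ℝ)) (hXρ : X ^ 4 ≤ (N : ℝ) ^ (2 * ρ))
    (h100 : 100 ≤ (N : ℝ) ^ (1 / 1000 : ℝ)) (h8 : 8 ≤ (N : ℝ) ^ ρ)
    (hL98 : 19 * L ^ (8 * A + 98) ≤ (N : ℝ) ^ (1 / 100 : ℝ))
    (hdiv : ∀ n : ℕ, 1 ≤ n → n ≤ 4 * N → (n.divisors.card : ℝ) ≤ X)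
    (hlog : ((Nat.log 2 N : ℕ) : ℝ) + 1 ≤ L ^ 2)
    (hsup : ∀ z, Fh f N z ≤ N / L ^ U)
    (hrat : ∀ K : ℝ, 1 ≤ K → K ≤ (N : ℝ) ^ (17 / 100 : ℝ) → ∀ z : ℝ, N / K < Fh f N z →
      ∃ x : ℚ, (x.den : ℝ) ≤ K ^ 2 * L ^ 18 ∧ |z - x| ≤ K ^ 2 * L ^ 18 / (x.den * N))
    (hne : S.Nonempty) :
    (∃ d : ℕ, L ^ (U - (8 * A + 41)) < d ∧ (S.card : ℝ) ≤ L ^ (8 * A + 43) * (S.filter (fun s => d ∣ s)).card) ∨
    (∃ d : ℕ, ν ≤ d ∧ (S.card : ℝ) ≤ X ^ 4 * (S.filter (fun s => d ∣ s)).card) := by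
  have hN0 : (0 : ℝ) < N := by exact_mod_cast hN1
  have hN1r : (1 : ℝ) ≤ N := by exact_mod_cast hN1
  have hL := h.hL
  have hL0 : 0 < L := by linarith
  have hL1 : 1 ≤ L := by linarith
  have hp := h.hp
  have hP0 : (0 : ℝ) < P := by exact_mod_cast hp.hP
  have hQ0 : (0 : ℝ) < Q := by exact_mod_cast hp.hQ
  have hX1 : 1 ≤ X := (one_le_pow₀ hL1).trans hX
  have hX0 : 0 < X := by linarith
  have hν0 : 0 < ν := by rw [hν]; positivity
  have hν1 : 1 ≤ ν := by rw [hν]; exact Real.one_le_rpow hN1r (by norm_num)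
  have hNP : (N : ℝ) ≤ 2 * P * Q := by exact_mod_cast hp.hNPQ
  -- lower bound of `P`
  have hPlow : (N : ℝ) ^ (1 / 3 : ℝ) / 2 ≤ P := by
    have h1 : (Q : ℝ) ≤ (N : ℝ) ^ (2 / 3 : ℝ) := hQN.trans (rpow_step _ _ _ hN1r (by linarith))
    have h2 : (N : ℝ) ^ (1 / 3 : ℝ) * (N : ℝ) ^ (2 / 3 : ℝ) = N := by
      rw [← Real.rpow_add hN0]
      norm_num
    have h3 : (N : ℝ) ^ (1 / 3 : ℝ) * (N : ℝ) ^ (2 / 3 : ℝ) ≤ (2 * P) * (N : ℝ) ^ (2 / 3 : ℝ) := by
      rw [h2]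
      exact hNP.trans (mul_le_mul_of_nonneg_left h1 (by positivity))
    have h4 := le_of_mul_le_mul_right h3 (by positivity)
    linarith
  -- the lower bound of the level
  have hlev : L ^ U < 2 ^ (j + 1) := by
    obtain ⟨s, hs⟩ := hne
    have h1 := h.hX1 s hs
    have h2 : (Zc f N j).Nonempty := by
      rw [nonempty_iff_ne_empty]
      intro h0
      rw [h0] at h1
      unfold clp at h1
      simp at h1
      have : 0 < (16 : ℝ) ^ j / (6 * L ^ (8 * A + 24)) := by positivity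
      linarith
    obtain ⟨t, ht⟩ := h2
    rw [mem_Zc] at ht
    obtain ⟨_, z, _, _, hz⟩ := ht
    have h3 := hz.trans_le (hsup z)
    rw [div_lt_div_iff₀ (by positivity) (by positivity)] at h3
    have h4 : L ^ U < 2 ^ j := lt_of_mul_lt_mul_left h3 hN0.le
    refine h4.trans_le ?_
    exact pow_le_pow_right₀ (by norm_num) (by omega)
  have h2j : (2 : ℝ) ^ (j + 1) * 2 ^ (j + 1) = 4 * 4 ^ j := by
    rw [← mul_pow, pow_succ]; norm_num; ring
  have h4j : ((2 : ℝ) ^ (j + 1)) ^ 2 = 4 ^ (j + 1) := by rw [← pow_mul, mul_comm, pow_mul]; norm_num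
  -- the rational approximations
  have hx : (2 : ℝ) ^ (j + 1) ≤ (N : ℝ) ^ (17 / 100 : ℝ) → ∃ x : ℕ → ℚ, ∀ t ∈ Zc f N j,
      ((x t).den : ℝ) ≤ 4 ^ (j + 1) * L ^ 18 ∧
      |(t : ℝ) / (4 * N : ℕ) - x t| ≤ 4 ^ (j + 1) * L ^ 18 / ((x t).den * N) := by
    intro hK
    have h1 : ∀ t ∈ Zc f N j, ∃ x : ℚ, (x.den : ℝ) ≤ 4 ^ (j + 1) * L ^ 18 ∧
      |(t : ℝ) / (4 * N : ℕ) - x| ≤ 4 ^ (j + 1) * L ^ 18 / (x.den * N) := by
      intro t ht
      rw [mem_Zc] at ht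
      obtain ⟨_, z, hz1, hz2, hz3⟩ := ht
      have hKj : (2 : ℝ) ^ j ≤ 2 ^ (j + 1) := pow_le_pow_right₀ (by norm_num) (by omega)
      obtain ⟨x, hx1, hx2⟩ := hrat (2 ^ j) (one_le_pow₀ (by norm_num)) (hKj.trans hK) z hz3
      have e4 : ((2 : ℝ) ^ j) ^ 2 = 4 ^ j := by rw [← pow_mul, mul_comm, pow_mul]; norm_num
      rw [e4] at hx1 hx2
      have hden : (0 : ℝ) < x.den := by exact_mod_cast x.den_pos
      have e5 : (4 : ℝ) ^ (j + 1) = 4 * 4 ^ j := by rw [pow_succ]; ring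
      have e6 : 0 < (4 : ℝ) ^ j * L ^ 18 := by positivity
      refine ⟨x, ?_, ?_⟩
      · rw [e5]; linarith
      · have e7 : |(t : ℝ) / (4 * N : ℕ) - z| ≤ 1 / ((4 * N : ℕ) : ℝ) := by
          rw [abs_le]
          rw [add_div] at hz2
          have : 0 ≤ 1 / ((4 * N : ℕ) : ℝ) := by positivity
          constructor <;> linarith
        have e8 : 1 / ((4 * N : ℕ) : ℝ) ≤ 4 ^ j * L ^ 18 / (x.den * N) := by
          rw [div_le_div_iff₀ (by push_cast; positivity) (by positivity)]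
          push_cast
          have : (x.den : ℝ) * N ≤ (4 ^ j * L ^ 18) * N := mul_le_mul_of_nonneg_right hx1 hN0.le
          nlinarith [mul_pos e6 hN0]
        have e9 : (t : ℝ) / (4 * N : ℕ) - x = ((t : ℝ) / (4 * N : ℕ) - z) + (z - x) := by ring
        rw [e9]
        refine (abs_add_le _ _).trans ?_
        have e10 : 4 ^ (j + 1) * L ^ 18 / (x.den * N) = 4 * (4 ^ j * L ^ 18 / (x.den * N)) := by rw [e5]; ring
        rw [e10]
        have e11 : 0 < 4 ^ j * L ^ 18 / (x.den * N) := by positivity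
        linarith
    choose! x hx using h1
    exact ⟨x, hx⟩
  have hL98' : L ^ (8 * A + 98) ≤ (N : ℝ) ^ (1 / 100 : ℝ) / 19 := by linarith
  have hL18 : L ^ 18 ≤ (N : ℝ) ^ (1 / 100 : ℝ) := by
    have : L ^ 18 ≤ L ^ (8 * A + 98) := pow_le_pow_right₀ hL1 (by omega)
    have h0 : 0 < (N : ℝ) ^ (1 / 100 : ℝ) := by positivity
    linarith
  have h1000 : (N : ℝ) ^ (1 / 1000 : ℝ) ≤ (N : ℝ) ^ (1 / 100 : ℝ) := rpow_step _ _ _ hN1r (by norm_num)
  -- bound of `X`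
  have hX4ν : 16 * X ^ 4 ≤ ν := by
    have h1 : (N : ℝ) ^ (1 / 100 : ℝ) * (N : ℝ) ^ (1 / 1000 : ℝ) ≤ ν := by
      rw [hν, ← Real.rpow_add hN0]
      exact rpow_step _ _ _ hN1r (by norm_num)
    have h2 : X ^ 4 * 100 ≤ (N : ℝ) ^ (1 / 100 : ℝ) * (N : ℝ) ^ (1 / 1000 : ℝ) :=
      mul_le_mul hX4 h100 (by norm_num) (by positivity)
    have : 0 < X ^ 4 := by positivity
    linarith
  have hXle : X ≤ X ^ 4 := by
    calc X = X ^ 1 := (pow_one X).symm
      _ ≤ X ^ 4 := pow_le_pow_right₀ hX1 (by norm_num)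
  have hX3le : X ^ 3 ≤ X ^ 4 := pow_le_pow_right₀ hX1 (by norm_num)
  rcases le_or_gt ((2 : ℝ) ^ (j + 1)) ν with hsmall | hbig
  · -- the small case
    left
    obtain ⟨x, hx⟩ := hx (hsmall.trans (by rw [hν]; exact rpow_step _ _ _ hN1r (by norm_num)))
    refine small_step A N Q P j U L _ S h x hx ?_ hlev hU
    have h1 : (64 : ℝ) ^ (j + 1) = (2 ^ (j + 1)) ^ 6 := by rw [← pow_mul, mul_comm, pow_mul]; norm_num
    have h2 : (64 : ℝ) ^ (j + 1) ≤ (N : ℝ) ^ (3 / 20 : ℝ) := by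
      rw [h1]
      calc ((2 : ℝ) ^ (j + 1)) ^ 6 ≤ ν ^ 6 := pow_le_pow_left₀ (by positivity) hsmall 6
        _ = (N : ℝ) ^ (3 / 20 : ℝ) := by
            rw [hν, ← Real.rpow_natCast, ← Real.rpow_mul hN0.le]
            norm_num
    refine lt_of_lt_of_le ?_ hPlow
    have h3 : (N : ℝ) ^ (1 / 100 : ℝ) * (N : ℝ) ^ (3 / 20 : ℝ) ≤ (N : ℝ) ^ (1 / 3 : ℝ) := by
      rw [← Real.rpow_add hN0]
      exact rpow_step _ _ _ hN1r (by norm_num)
    have h4 : 19 * L ^ (8 * A + 98) * 64 ^ (j + 1) ≤ (N : ℝ) ^ (1 / 100 : ℝ) * (N : ℝ) ^ (3 / 20 : ℝ) :=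
      mul_le_mul hL98 h2 (by positivity) (by positivity)
    have h5 : 0 < L ^ (8 * A + 98) * 64 ^ (j + 1) := by positivity
    nlinarith
  · -- the other cases
    right
    have h4big : ν ^ 2 / 4 < 4 ^ j := by
      have : ν ^ 2 < 4 * 4 ^ j := by
        rw [← h2j, pow_two]
        exact mul_lt_mul'' hbig hbig hν0.le hν0.le
      linarith
    have hdivS : ∀ s ∈ S, (s.divisors.card : ℝ) ≤ X := by
      intro s hs
      have h1 := h.hS s hs
      have h2 := hp.hQ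
      have h3 : Q ≤ N := by
        have h4 := hp.hPQ
        have h5 := hp.hP
        calc Q = 1 * Q := (one_mul _).symm
          _ ≤ P * Q := Nat.mul_le_mul_right _ h5
          _ ≤ N := h4
      exact hdiv s (by omega) (by omega)
    have hdeep : X * (Q / P + ν) ≤ (4 : ℝ) ^ j → ∃ d : ℕ, ν ≤ d ∧ (S.card : ℝ) ≤ X ^ 4 * (S.filter (fun s => d ∣ s)).card := by
      intro hj
      exact deep_step A N Q P j L X ν _ S h hX hdivS hν0.le hj
    have hXν : X * ν ≤ (4 : ℝ) ^ j / 2 := by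
      have h1 : 8 * X ≤ ν := by linarith
      nlinarith
    rcases le_or_gt ((2 : ℝ) ^ (j + 1)) ((N : ℝ) ^ (17 / 100 : ℝ)) with hK | hK
    · rcases le_or_gt (4 ^ j * X ^ 3) (P : ℝ) with hPj | hPj
      · -- large
        obtain ⟨x, hx⟩ := hx hK
        have hR0 : (4 : ℝ) ^ (j + 1) * L ^ 18 ≤ N := by
          rw [← h4j]
          have h1 : ((2 : ℝ) ^ (j + 1)) ^ 2 ≤ (N : ℝ) ^ (34 / 100 : ℝ) := by
            calc ((2 : ℝ) ^ (j + 1)) ^ 2 ≤ ((N : ℝ) ^ (17 / 100 : ℝ)) ^ 2 := pow_le_pow_left₀ (by positivity) hK 2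
              _ = (N : ℝ) ^ (34 / 100 : ℝ) := by
                  rw [← Real.rpow_natCast, ← Real.rpow_mul hN0.le]
                  norm_num
          calc ((2 : ℝ) ^ (j + 1)) ^ 2 * L ^ 18 ≤ (N : ℝ) ^ (34 / 100 : ℝ) * (N : ℝ) ^ (1 / 100 : ℝ) :=
                mul_le_mul h1 hL18 (by positivity) (by positivity)
            _ = (N : ℝ) ^ (35 / 100 : ℝ) := by rw [← Real.rpow_add hN0]; norm_num
            _ ≤ (N : ℝ) ^ (1 : ℝ) := rpow_step _ _ _ hN1r (by norm_num)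
            _ = N := Real.rpow_one _
        obtain ⟨d, hd1, hd2⟩ := large_step A N Q P j L X _ S h x hx hX (by
          intro n hn1 hn2
          apply hdiv n hn1
          rcases hn2 with hn2 | hn2
          · have h3 : Q ≤ N := by
              have h4 := hp.hPQ
              have h5 := hp.hP
              calc Q = 1 * Q := (one_mul _).symm
                _ ≤ P * Q := Nat.mul_le_mul_right _ h5
                _ ≤ N := h4
            omega
          · have h3 : (n : ℝ) ≤ N := hn2.trans hR0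
            have h4 : n ≤ N := by exact_mod_cast h3
            omega) (by
          refine le_trans ?_ hlog
          have h1 : ⌊(4 : ℝ) ^ (j + 1) * L ^ 18⌋₊ ≤ N := by
            have h2 := Nat.floor_le_floor hR0
            rwa [Nat.floor_natCast] at h2
          have h2 := Nat.log_mono_right (b := 2) h1
          have h3 : ((Nat.log 2 ⌊(4 : ℝ) ^ (j + 1) * L ^ 18⌋₊ : ℕ) : ℝ) ≤ Nat.log 2 N := by exact_mod_cast h2
          linarith) hPj
        refine ⟨d, ?_, hd2⟩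
        by_contra hc
        rw [not_le] at hc
        have h1 : X ^ 3 * (d : ℝ) ≤ X ^ 3 * ν := mul_le_mul_of_nonneg_left hc.le (by positivity)
        have h2 : 4 * X ^ 3 ≤ ν := by
          have : 0 < X ^ 4 := by positivity
          linarith
        nlinarith
      · -- deep, first case
        apply hdeep
        rw [mul_add]
        have h1 : X * (Q / P) ≤ (4 : ℝ) ^ j / 2 := by
          have h2 : X * (Q / P) * (2 * X ^ 3) ≤ 4 ^ j * X ^ 3 := by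
            refine le_trans ?_ hPj.le
            have e1 : X * (Q / P) * (2 * X ^ 3) = 2 * X ^ 4 * Q / P := by ring
            rw [e1, div_le_iff₀ hP0]
            have h3 : 8 * X ^ 4 * (Q : ℝ) ^ 3 ≤ (N : ℝ) ^ 2 := by
              have h4 : (Q : ℝ) ^ 3 ≤ (N : ℝ) ^ (2 - 3 * ρ) := by
                calc (Q : ℝ) ^ 3 ≤ ((N : ℝ) ^ (2 / 3 - ρ)) ^ 3 := pow_le_pow_left₀ hQ0.le hQN 3
                  _ = (N : ℝ) ^ (2 - 3 * ρ) := by
                      rw [← Real.rpow_natCast, ← Real.rpow_mul hN0.le]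
                      congr 1
                      push_cast
                      ring
              calc 8 * X ^ 4 * (Q : ℝ) ^ 3 ≤ ((N : ℝ) ^ ρ * (N : ℝ) ^ (2 * ρ)) * (N : ℝ) ^ (2 - 3 * ρ) := by
                    apply mul_le_mul _ h4 (by positivity) (by positivity)
                    exact mul_le_mul h8 hXρ (by positivity) (by positivity)
                _ = (N : ℝ) ^ (2 : ℝ) := by
                    rw [← Real.rpow_add hN0, ← Real.rpow_add hN0]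
                    congr 1
                    ring
                _ = (N : ℝ) ^ 2 := by norm_cast
            have h5 : (N : ℝ) ^ 2 ≤ (2 * P * Q) ^ 2 := pow_le_pow_left₀ hN0.le hNP 2
            have h6 : (2 * X ^ 4 * Q) * (4 * (Q : ℝ) ^ 2) ≤ ((P : ℝ) * P) * (4 * (Q : ℝ) ^ 2) := by
              calc (2 * X ^ 4 * Q) * (4 * (Q : ℝ) ^ 2) = 8 * X ^ 4 * (Q : ℝ) ^ 3 := by ring
                _ ≤ (N : ℝ) ^ 2 := h3
                _ ≤ (2 * P * Q) ^ 2 := h5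
                _ = _ := by ring
            exact le_of_mul_le_mul_right h6 (by positivity)
          have h3 : 0 < X ^ 3 := by positivity
          have h4 : (X * (Q / P) * 2) * X ^ 3 ≤ 4 ^ j * X ^ 3 := by
            refine le_trans (le_of_eq ?_) h2
            ring
          have h5 := le_of_mul_le_mul_right h4 h3
          linarith
        linarith
    · -- deep, second case
      apply hdeep
      rw [mul_add]
      have h1 : X * (Q / P) ≤ (4 : ℝ) ^ j / 2 := by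
        have h2 : (N : ℝ) ^ (34 / 100 : ℝ) / 4 ≤ 4 ^ j := by
          have h3 : (N : ℝ) ^ (34 / 100 : ℝ) = (N : ℝ) ^ (17 / 100 : ℝ) * (N : ℝ) ^ (17 / 100 : ℝ) := by
            rw [← Real.rpow_add hN0]; norm_num
          have h4 : (N : ℝ) ^ (17 / 100 : ℝ) * (N : ℝ) ^ (17 / 100 : ℝ) ≤ (2 : ℝ) ^ (j + 1) * 2 ^ (j + 1) :=
            mul_le_mul hK.le hK.le (by positivity) (by positivity)
          rw [← h3, h2j] at h4
          linarith
        have h3 : (Q : ℝ) / P ≤ 2 * (N : ℝ) ^ (1 / 3 : ℝ) := by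
          rw [div_le_iff₀ hP0]
          have h4 : (Q : ℝ) ≤ (N : ℝ) ^ (2 / 3 : ℝ) := hQN.trans (rpow_step _ _ _ hN1r (by linarith))
          calc (Q : ℝ) ≤ (N : ℝ) ^ (2 / 3 : ℝ) := h4
            _ = 2 * (N : ℝ) ^ (1 / 3 : ℝ) * ((N : ℝ) ^ (1 / 3 : ℝ) / 2) := by
                have : (N : ℝ) ^ (2 / 3 : ℝ) = (N : ℝ) ^ (1 / 3 : ℝ) * (N : ℝ) ^ (1 / 3 : ℝ) := by
                  rw [← Real.rpow_add hN0]; norm_num
                rw [this]; ring
            _ ≤ _ := mul_le_mul_of_nonneg_left hPlow (by positivity)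
        have h4 : X * (16 * (N : ℝ) ^ (1 / 3 : ℝ)) ≤ (N : ℝ) ^ (34 / 100 : ℝ) := by
          have hX' : X ≤ (N : ℝ) ^ (1 / 400 : ℝ) := by
            have h5 : X ^ 4 ≤ ((N : ℝ) ^ (1 / 400 : ℝ)) ^ 4 := by
              refine hX4.trans (le_of_eq ?_)
              rw [← Real.rpow_natCast, ← Real.rpow_mul hN0.le]
              norm_num
            exact le_of_pow_le_pow_left₀ (by norm_num) (by positivity) h5
          calc X * (16 * (N : ℝ) ^ (1 / 3 : ℝ)) ≤ (N : ℝ) ^ (1 / 400 : ℝ) * ((N : ℝ) ^ (1 / 1000 : ℝ) * (N : ℝ) ^ (1 / 3 : ℝ)) := by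
                apply mul_le_mul hX' _ (by positivity) (by positivity)
                exact mul_le_mul_of_nonneg_right (by linarith) (by positivity)
            _ = (N : ℝ) ^ (1 / 400 + (1 / 1000 + 1 / 3) : ℝ) := by
                rw [← Real.rpow_add hN0, ← Real.rpow_add hN0]
            _ ≤ (N : ℝ) ^ (34 / 100 : ℝ) := rpow_step _ _ _ hN1r (by norm_num)
        have h5 : X * (Q / P) ≤ X * (2 * (N : ℝ) ^ (1 / 3 : ℝ)) := mul_le_mul_of_nonneg_left h3 hX0.le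
        linarith
      linarith

theorem coreC (A C : ℕ) (η ρ : ℝ) (hη0 : 0 < η) (hη1 : η ≤ 1) (hρ0 : 0 < ρ) :
    ∃ U N₀ : ℕ, ∀ N : ℕ, N₀ ≤ N → ∀ f : ℕ → ℝ, FM f N U → ∀ Q : ℕ, 1 ≤ Q → (Q : ℝ) ≤ (N : ℝ) ^ (2 / 3 - ρ) →
      ∀ R : Finset ℕ, R.Nonempty → (∀ q ∈ R, Q ≤ q ∧ q < 2 * Q) → (∀ q ∈ R, BadC f N A q) →
      ∃ d : ℕ, Real.log N ^ C < d ∧ R.card * (d : ℝ) ^ (-η) ≤ ((R.filter (fun q => d ∣ q)).card : ℝ) := by
  classical
  obtain ⟨θ, hθ⟩ : ∃ θ : ℝ, θ = min (η / 400) (ρ / 2) := ⟨_, rfl⟩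
  have hθ0 : 0 < θ := by rw [hθ]; exact lt_min (by positivity) (by positivity)
  have hθη : θ ≤ η / 400 := by rw [hθ]; exact min_le_left _ _
  have hθρ : θ ≤ ρ / 2 := by rw [hθ]; exact min_le_right _ _
  obtain ⟨U₀, hU₀⟩ := exists_nat_ge ((8 * A + 45 : ℝ) / η)
  obtain ⟨U, hU⟩ : ∃ U, U = 8 * A + 43 + C + U₀ := ⟨_, rfl⟩
  obtain ⟨n3, h3⟩ := ev_L' 100000
  obtain ⟨n4, h4⟩ := ev_log_rpow (40 * A + 200) 1 θ hθ0
  obtain ⟨C0, hC0, hdivb⟩ := Pool.Agent.Helper112.divisor_bound (θ / 2) (by positivity)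
  obtain ⟨n5, h5⟩ := tendsto_pow_log (C0 * 4 ^ (θ / 2)) (θ / 2) (by positivity)
  obtain ⟨n6, h6⟩ := tendsto_pow_log 100 (1 / 1000) (by norm_num)
  obtain ⟨n7, h7⟩ := tendsto_pow_log 8 ρ hρ0
  obtain ⟨n8, h8⟩ := ev_log_rpow (8 * A + 98) 19 (1 / 100) (by norm_num)
  obtain ⟨n9, h9⟩ := ev_log' (2 * A + 4) 2
  obtain ⟨n10, h10⟩ := ev_log_rpow C 2 (1 / 80) (by norm_num)
  refine ⟨U, n3 + n4 + n5 + n6 + n7 + n8 + n9 + n10 + 16, fun N hN f hf Q hQ hQN R hRne hR hbad => ?_⟩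
  have a3 := h3 N (by omega)
  have a4 := h4 N (by omega)
  have a5 := h5 N (by omega)
  have a6 := h6 N (by omega)
  have a7 := h7 N (by omega)
  have a8 := h8 N (by omega)
  have a9 := h9 N (by omega)
  have a10 := h10 N (by omega)
  have hN16 : 16 ≤ N := by omega
  have hN1 : 1 ≤ N := by omega
  have hN0 : (0 : ℝ) < N := by exact_mod_cast hN1
  have hN1r : (1 : ℝ) ≤ N := by exact_mod_cast hN1
  obtain ⟨hf2, hf3, hf4⟩ := hf
  obtain ⟨L, hLd⟩ : ∃ L, L = Real.log (N : ℝ) := ⟨_, rfl⟩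
  rw [← hLd] at a3 a4 a8 a9 a10 hf2 hf3 hf4 ⊢
  rw [one_mul] at a4
  have hL0 : 0 < L := by linarith
  have hL1 : 1 ≤ L := by linarith
  obtain ⟨X, hX⟩ : ∃ X : ℝ, X = (N : ℝ) ^ θ := ⟨_, rfl⟩
  rw [← hX] at a4
  have hX1 : 1 ≤ X := (one_le_pow₀ hL1).trans a4
  have hX0 : 0 < X := by linarith
  have hXk : ∀ k : ℕ, X ^ k = (N : ℝ) ^ (k * θ) := by
    intro k
    rw [hX, ← Real.rpow_natCast, ← Real.rpow_mul hN0.le]
    congr 1
    ring
  have hsup : ∀ z, Fh f N z ≤ N / L ^ U := fun z => hf3 z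
  have hrat : ∀ K : ℝ, 1 ≤ K → K ≤ (N : ℝ) ^ (17 / 100 : ℝ) → ∀ z : ℝ, N / K < Fh f N z →
      ∃ x : ℚ, (x.den : ℝ) ≤ K ^ 2 * L ^ 18 ∧ |z - x| ≤ K ^ 2 * L ^ 18 / (x.den * N) := hf4
  -- numerical facts
  have hlog : ((Nat.log 2 N : ℕ) : ℝ) + 1 ≤ L ^ 2 := by
    have e1 : (Nat.log 2 N : ℝ) ≤ Real.logb 2 N := by
      have := Real.natLog_le_logb N 2
      exact_mod_cast this
    have e2 : Real.logb 2 N ≤ 2 * L := by
      rw [Real.logb, ← hLd, div_le_iff₀ (Real.log_pos (by norm_num))]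
      have h2 : (1 : ℝ) ≤ 2 * Real.log 2 := by linarith [Real.log_two_gt_d9]
      calc L = L * 1 := (mul_one L).symm
        _ ≤ L * (2 * Real.log 2) := mul_le_mul_of_nonneg_left h2 hL0.le
        _ = 2 * L * Real.log 2 := by ring
    have e3 : 3 * L ≤ L * L := mul_le_mul_of_nonneg_right (by linarith) hL0.le
    rw [pow_two]
    linarith
  have hQN' : Q ≤ N := by
    have : (Q : ℝ) ≤ (N : ℝ) ^ (1 : ℝ) := hQN.trans (rpow_step _ _ _ hN1r (by linarith))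
    rw [Real.rpow_one] at this
    exact_mod_cast this
  obtain ⟨P, hP⟩ : ∃ P, P = N / Q := ⟨_, rfl⟩
  have hP1 : 1 ≤ P := by rw [hP]; exact Nat.div_pos hQN' (by omega)
  have hMN : P * Q ≤ N := by rw [hP]; exact Nat.div_mul_le_self _ _
  have hNM : N < (P + 1) * Q := by
    rw [hP]
    exact Nat.lt_mul_of_div_lt (Nat.lt_succ_self _) (by omega)
  have hNM2 : N ≤ 2 * P * Q := by
    calc N ≤ (P + 1) * Q := hNM.le
      _ ≤ (2 * P) * Q := Nat.mul_le_mul_right _ (by omega)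
  have hP0 : (0 : ℝ) < P := by exact_mod_cast hP1
  have hQ0 : (0 : ℝ) < Q := by exact_mod_cast hQ
  have hPlow : (N : ℝ) ^ (1 / 3 : ℝ) / 2 ≤ P := by
    have h1 : (Q : ℝ) ≤ (N : ℝ) ^ (2 / 3 : ℝ) := hQN.trans (rpow_step _ _ _ hN1r (by linarith))
    have h2 : (N : ℝ) ^ (1 / 3 : ℝ) * (N : ℝ) ^ (2 / 3 : ℝ) = N := by
      rw [← Real.rpow_add hN0]
      norm_num
    have hNP : (N : ℝ) ≤ 2 * P * Q := by exact_mod_cast hNM2
    have h3 : (N : ℝ) ^ (1 / 3 : ℝ) * (N : ℝ) ^ (2 / 3 : ℝ) ≤ (2 * P) * (N : ℝ) ^ (2 / 3 : ℝ) := by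
      rw [h2]
      exact hNP.trans (mul_le_mul_of_nonneg_left h1 (by positivity))
    have h4 := le_of_mul_le_mul_right h3 (by positivity)
    linarith
  have hTP : 4 * L ^ (8 * A + 44) ≤ P := by
    have e1 : L ^ (8 * A + 44) ≤ L ^ (8 * A + 98) := pow_le_pow_right₀ hL1 (by omega)
    have e2 : (N : ℝ) ^ (1 / 100 : ℝ) ≤ (N : ℝ) ^ (1 / 3 : ℝ) := rpow_step _ _ _ hN1r (by norm_num)
    have e3 : 0 < L ^ (8 * A + 98) := by positivity
    linarith
  have hpar : Par (4 * N) N Q P 4 (L ^ (8 * A + 44)) :=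
    ⟨hQ, hP1, hMN, hNM2, by omega, by push_cast; exact le_rfl, one_le_pow₀ hL1, hTP⟩
  have hdiv : ∀ n : ℕ, 1 ≤ n → n ≤ 4 * N → (n.divisors.card : ℝ) ≤ X := by
    intro n hn1 hn2
    refine (hdivb n hn1).trans ?_
    have e1 : (n : ℝ) ^ (θ / 2) ≤ (4 * N : ℝ) ^ (θ / 2) := by
      apply Real.rpow_le_rpow (Nat.cast_nonneg _) (by exact_mod_cast hn2) (by positivity)
    calc C0 * (n : ℝ) ^ (θ / 2) ≤ C0 * (4 * N : ℝ) ^ (θ / 2) := mul_le_mul_of_nonneg_left e1 hC0.le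
      _ = (C0 * 4 ^ (θ / 2)) * (N : ℝ) ^ (θ / 2) := by rw [Real.mul_rpow (by norm_num) hN0.le]; ring
      _ ≤ (N : ℝ) ^ (θ / 2) * (N : ℝ) ^ (θ / 2) := mul_le_mul_of_nonneg_right a5 (by positivity)
      _ = X := by rw [hX, ← Real.rpow_add hN0]; congr 1; ring
  have hlvl : ∀ s ∈ R, ∃ j < Nat.log 2 N + 1, 16 ^ j / (6 * L ^ (8 * A + 24)) ≤
      ((clp (4 * N) P s (L ^ (8 * A + 44)) (Zc f N j)).card : ℝ) := by
    intro q hq
    have := lvlC hN1 hQ hQN' (hR q hq) f hLd hL1 (hbad q hq)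
    rw [← hP] at this
    exact this
  choose! jj hjj using hlvl
  have hSc : (0 : ℝ) < R.card := by exact_mod_cast hRne.card_pos
  have hJ0 : (0 : ℝ) < ((Nat.log 2 N + 1 : ℕ) : ℝ) := by positivity
  obtain ⟨j, hjJ, hjc⟩ := exists_le_card_fiber_of_nsmul_le_card_of_maps_to (M := ℝ)
    (b := (R.card : ℝ) / ((Nat.log 2 N + 1 : ℕ) : ℝ)) (s := R) (t := range (Nat.log 2 N + 1)) (f := jj)
    (fun s hs => mem_range.2 (hjj s hs).1) (nonempty_range_iff.2 (by omega)) (by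
      rw [card_range, nsmul_eq_mul, mul_div_cancel₀ _ hJ0.ne'])
  obtain ⟨S2, hS2⟩ : ∃ S2, S2 = R.filter (fun s => jj s = j) := ⟨_, rfl⟩
  rw [← hS2] at hjc
  have hS2c : (R.card : ℝ) ≤ L ^ 2 * S2.card := by
    rw [div_le_iff₀ hJ0] at hjc
    refine hjc.trans ?_
    rw [mul_comm]
    apply mul_le_mul_of_nonneg_right _ (Nat.cast_nonneg _)
    push_cast
    exact hlog
  have hS2ne : S2.Nonempty := by
    rw [← card_pos]
    have : 0 < (R.card : ℝ) / ((Nat.log 2 N + 1 : ℕ) : ℝ) := by positivity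
    have : (0 : ℝ) < S2.card := lt_of_lt_of_le this hjc
    exact_mod_cast this
  have hyp : Hyp A N Q P j L (Zc f N j) S2 := by
    refine ⟨hpar, a3, ?_, Zc_card N hN1 f L (by linarith) hf2 j, ?_, ?_⟩
    · intro t ht
      rw [mem_Zc] at ht
      exact ht.1
    · intro s hs
      rw [hS2, mem_filter] at hs
      have := hR s hs.1
      omega
    · intro s hs
      rw [hS2, mem_filter] at hs
      have := (hjj s hs.1).2
      rw [hs.2] at this
      exact this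
  have hX4 : X ^ 4 ≤ (N : ℝ) ^ (1 / 100 : ℝ) := by
    rw [hXk 4]
    apply rpow_step _ _ _ hN1r
    push_cast
    linarith
  have hXρ : X ^ 4 ≤ (N : ℝ) ^ (2 * ρ) := by
    rw [hXk 4]
    apply rpow_step _ _ _ hN1r
    push_cast
    linarith
  -- the transfer to `R`
  have htr : ∀ d : ℕ, ((S2.filter (fun s => d ∣ s)).card : ℝ) ≤
      ((R.filter (fun q => d ∣ q)).card : ℝ) := by
    intro d
    have h6 : S2.filter (fun s => d ∣ s) ⊆ R.filter (fun q => d ∣ q) := by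
      rw [hS2]
      exact filter_subset_filter _ (filter_subset _ _)
    exact_mod_cast card_le_card h6
  have hrc : (0 : ℝ) ≤ R.card := Nat.cast_nonneg _
  rcases level_step6 A N Q P j U L X ((N : ℝ) ^ (1 / 40 : ℝ)) ρ f S2 hyp (by omega) hN1 hρ0 hQN rfl a4 hX4 hXρ
    a6 a7 a8 hdiv hlog hsup hrat hS2ne with ⟨e, hd1, hd2⟩ | ⟨e, hd1, hd2⟩
  · have h1 := htr e
    have h3 : L ^ (U - (8 * A + 42)) < e := by
      refine lt_of_le_of_lt ?_ hd1
      exact pow_le_pow_right₀ hL1 (by omega)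
    have he0 : (0 : ℝ) < e := lt_trans (by positivity) h3
    refine ⟨e, ?_, ?_⟩
    · refine lt_of_le_of_lt ?_ h3
      exact pow_le_pow_right₀ hL1 (by omega)
    · have h4 : L ^ (8 * A + 45) ≤ (e : ℝ) ^ η := by
        calc L ^ (8 * A + 45) = L ^ ((8 * A + 45 : ℕ) : ℝ) := (Real.rpow_natCast _ _).symm
          _ ≤ L ^ (((U - (8 * A + 42) : ℕ) : ℝ) * η) := by
              apply Real.rpow_le_rpow_of_exponent_le hL1
              rw [div_le_iff₀ hη0] at hU₀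
              have : ((U₀ : ℕ) : ℝ) ≤ ((U - (8 * A + 42) : ℕ) : ℝ) := by
                have : U₀ ≤ U - (8 * A + 42) := by omega
                exact_mod_cast this
              have e9 : (U₀ : ℝ) * η ≤ ((U - (8 * A + 42) : ℕ) : ℝ) * η := mul_le_mul_of_nonneg_right this hη0.le
              push_cast at hU₀ e9 ⊢
              linarith
          _ = (L ^ (U - (8 * A + 42))) ^ η := by rw [Real.rpow_mul hL0.le, Real.rpow_natCast]
          _ ≤ (e : ℝ) ^ η := Real.rpow_le_rpow (by positivity) h3.le hη0.le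
      rw [Real.rpow_neg he0.le, ← div_eq_mul_inv, div_le_iff₀ (Real.rpow_pos_of_pos he0 _)]
      calc (R.card : ℝ) ≤ L ^ 2 * S2.card := hS2c
        _ ≤ L ^ 2 * (L ^ (8 * A + 43) * (S2.filter (fun s => e ∣ s)).card) := mul_le_mul_of_nonneg_left hd2 (by positivity)
        _ = (S2.filter (fun s => e ∣ s)).card * L ^ (8 * A + 45) := by
            rw [show 8 * A + 45 = 2 + (8 * A + 43) by ring, pow_add]; ring
        _ ≤ (R.filter (fun q => e ∣ q)).card * (e : ℝ) ^ η := mul_le_mul h1 h4 (by positivity) (Nat.cast_nonneg _)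
  · have h1 := htr e
    have h3 : (N : ℝ) ^ (1 / 80 : ℝ) ≤ e := by
      refine le_trans ?_ hd1
      exact rpow_step _ _ _ hN1r (by norm_num)
    have he0 : (0 : ℝ) < e := lt_of_lt_of_le (by positivity) h3
    refine ⟨e, ?_, ?_⟩
    · refine lt_of_lt_of_le ?_ h3
      have : 0 < L ^ C := by positivity
      linarith
    · have h4 : X ^ 5 ≤ (e : ℝ) ^ η := by
        calc X ^ 5 = (N : ℝ) ^ (((5 : ℕ) : ℝ) * θ) := hXk 5
          _ ≤ (N : ℝ) ^ ((1 / 80 : ℝ) * η) := by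
              apply rpow_step _ _ _ hN1r
              push_cast
              linarith
          _ = ((N : ℝ) ^ (1 / 80 : ℝ)) ^ η := Real.rpow_mul hN0.le _ _
          _ ≤ (e : ℝ) ^ η := Real.rpow_le_rpow (by positivity) h3 hη0.le
      have h5 : L ^ 2 ≤ X := (pow_le_pow_right₀ hL1 (by omega)).trans a4
      rw [Real.rpow_neg he0.le, ← div_eq_mul_inv, div_le_iff₀ (Real.rpow_pos_of_pos he0 _)]
      calc (R.card : ℝ) ≤ L ^ 2 * S2.card := hS2c
        _ ≤ X * (X ^ 4 * (S2.filter (fun s => e ∣ s)).card) :=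
            mul_le_mul h5 hd2 (Nat.cast_nonneg _) hX0.le
        _ = (S2.filter (fun s => e ∣ s)).card * X ^ 5 := by ring
        _ ≤ (R.filter (fun q => e ∣ q)).card * (e : ℝ) ^ η := mul_le_mul h1 h4 (by positivity) (Nat.cast_nonneg _)

end Pool.Agent.Y883.T6
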