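import Pool.Agent.Y883.T6.Baker6
import Pool.Agent.Y883.T5.Diag

set_option autoImplicit false

/-! Linear equations in three primes with three large coefficients: one set of exceptional divisors for all
exponents. -/

namespace Pool.Agent.Y883.T6

open Finset
open Pool.Agent.H373R2.T7
open Pool.Agent.Y883.T3
open Pool.Agent.Y883.T5

/-- the conditions on the absolute values of the coefficients, for one set of exceptional products -/
structure Cnd2 (T : ℕ) (D F : Set ℕ) (Δ a1 a2 a3 : ℕ) : Prop where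
  p1 : 1 ≤ a1
  p2 : 1 ≤ a2
  p3 : 1 ≤ a3
  u12 : a1 * a2 ≤ Δ
  u23 : a2 * a3 ≤ Δ
  u31 : a3 * a1 ≤ Δ
  w : Δ = a1 * a2 ∨ Δ = a2 * a3 ∨ Δ = a3 * a1
  g12 : ((Nat.gcd a1 a2 : ℕ) : ℝ) ≤ Real.log Δ ^ T
  g23 : ((Nat.gcd a2 a3 : ℕ) : ℝ) ≤ Real.log Δ ^ T
  g31 : ((Nat.gcd a3 a1 : ℕ) : ℝ) ≤ Real.log Δ ^ T
  d12 : ∀ e ∈ D, Real.log Δ ^ T < e → ¬ e ∣ a1 * a2
  d23 : ∀ e ∈ D, Real.log Δ ^ T < e → ¬ e ∣ a2 * a3
  d31 : ∀ e ∈ D, Real.log Δ ^ T < e → ¬ e ∣ a3 * a1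
  f12 : Real.log Δ ^ T < ((a1 * a2 : ℕ) : ℝ) → a1 * a2 ∉ F
  f23 : Real.log Δ ^ T < ((a2 * a3 : ℕ) : ℝ) → a2 * a3 ∉ F
  f31 : Real.log Δ ^ T < ((a3 * a1 : ℕ) : ℝ) → a3 * a1 ∉ F

/-- the number of the exceptional products of one level and one scale -/
lemma count_one {k X : ℕ} {F : Set ℕ} {θ θ' δ : ℝ} (hδ : 0 < δ) (hδ8 : δ ≤ 1 / 8) (hθ' : 1 < θ') (hθ : θ' ≤ 3 / 2)
    (hexp : 2 - θ' * (1 - δ) ≤ θ) [DecidablePred (fun q => q ∈ F)]
    (hF : ∀ X : ℕ, (((Icc 1 X).filter (fun q => q ∈ F)).card : ℝ) ≤ (X : ℝ) ^ 2 / (2 : ℝ) ^ ((k : ℝ) * (1 - δ)))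
    (hX : 1 ≤ X) [DecidablePred (fun q : ℕ => q ∈ F ∧ (q : ℝ) ^ θ' ≤ 2 ^ k)] :
    (((Icc 1 X).filter (fun q : ℕ => q ∈ F ∧ (q : ℝ) ^ θ' ≤ 2 ^ k)).card : ℝ) ≤ (X : ℝ) ^ θ := by
  obtain ⟨Y, hY⟩ : ∃ Y : ℕ, Y = min X ⌊((2 : ℝ) ^ k) ^ (1 / θ')⌋₊ := ⟨_, rfl⟩
  have hX1 : (1 : ℝ) ≤ X := by exact_mod_cast hX
  have hsub : (Icc 1 X).filter (fun q : ℕ => q ∈ F ∧ (q : ℝ) ^ θ' ≤ 2 ^ k) ⊆ (Icc 1 Y).filter (fun q => q ∈ F) := by
    intro q hq
    rw [mem_filter, mem_Icc] at hq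
    obtain ⟨⟨h1, h2⟩, h3, h4⟩ := hq
    rw [mem_filter, mem_Icc]
    refine ⟨⟨h1, ?_⟩, h3⟩
    rw [hY]
    refine le_min h2 (Nat.le_floor ?_)
    calc (q : ℝ) = ((q : ℝ) ^ θ') ^ (1 / θ') := by
          rw [← Real.rpow_mul (Nat.cast_nonneg _)]
          have : θ' * (1 / θ') = 1 := by field_simp
          rw [this, Real.rpow_one]
      _ ≤ ((2 : ℝ) ^ k) ^ (1 / θ') := Real.rpow_le_rpow (by positivity) h4 (by positivity)
  have h1 : (((Icc 1 X).filter (fun q : ℕ => q ∈ F ∧ (q : ℝ) ^ θ' ≤ 2 ^ k)).card : ℝ) ≤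
      (((Icc 1 Y).filter (fun q => q ∈ F)).card : ℝ) := by exact_mod_cast card_le_card hsub
  refine h1.trans ?_
  rcases Nat.eq_zero_or_pos Y with h0 | h0
  · rw [h0, Icc_eq_empty (by norm_num), filter_empty, card_empty, Nat.cast_zero]
    positivity
  have hY0 : (0 : ℝ) < Y := by exact_mod_cast h0
  have hY1 : (1 : ℝ) ≤ Y := by exact_mod_cast h0
  have hYX : (Y : ℝ) ≤ X := by
    have : Y ≤ X := by rw [hY]; exact min_le_left _ _
    exact_mod_cast this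
  have hY2 : (Y : ℝ) ≤ ((2 : ℝ) ^ k) ^ (1 / θ') := by
    have h2 : Y ≤ ⌊((2 : ℝ) ^ k) ^ (1 / θ')⌋₊ := by rw [hY]; exact min_le_right _ _
    exact (Nat.le_floor_iff (by positivity)).1 h2
  have h2 : (Y : ℝ) ^ (θ' * (1 - δ)) ≤ (2 : ℝ) ^ ((k : ℝ) * (1 - δ)) := by
    calc (Y : ℝ) ^ (θ' * (1 - δ)) ≤ (((2 : ℝ) ^ k) ^ (1 / θ')) ^ (θ' * (1 - δ)) :=
          Real.rpow_le_rpow hY0.le hY2 (by nlinarith)
      _ = (2 : ℝ) ^ ((k : ℝ) * (1 - δ)) := by
          rw [← Real.rpow_natCast, ← Real.rpow_mul (by norm_num), ← Real.rpow_mul (by norm_num)]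
          congr 1
          field_simp
  have hp : (0 : ℝ) < (Y : ℝ) ^ (θ' * (1 - δ)) := Real.rpow_pos_of_pos hY0 _
  calc (((Icc 1 Y).filter (fun q => q ∈ F)).card : ℝ) ≤ (Y : ℝ) ^ 2 / (2 : ℝ) ^ ((k : ℝ) * (1 - δ)) := hF Y
    _ ≤ (Y : ℝ) ^ 2 / (Y : ℝ) ^ (θ' * (1 - δ)) := div_le_div_of_nonneg_left (by positivity) hp h2
    _ = (Y : ℝ) ^ (2 - θ' * (1 - δ)) := by
        rw [Real.rpow_sub hY0]
        norm_num
    _ ≤ (Y : ℝ) ^ θ := Real.rpow_le_rpow_of_exponent_le hY1 hexp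
    _ ≤ (X : ℝ) ^ θ := by
        apply Real.rpow_le_rpow hY0.le hYX
        nlinarith

open Classical in
theorem diag6 (κ : ℕ) : ∃ D : Set ℕ, (∀ e ∈ D, κ < e) ∧
    (∀ X : ℕ, 1 ≤ X → (((Icc 1 X).filter (fun e => e ∈ D)).card : ℝ) ≤ (X : ℝ) ^ (1 / 4 : ℝ)) ∧
    (∀ ε : ℝ, 0 < ε → ∃ X₀ : ℕ, ∀ X : ℕ, X₀ ≤ X → (((Icc 1 X).filter (fun e => e ∈ D)).card : ℝ) ≤ (X : ℝ) ^ ε) ∧
    ∀ θ : ℝ, 1 < θ → ∀ η : ℝ, 0 < η → ∀ T : ℕ, ∃ (Δ₀ : ℕ) (F : Set ℕ),
      (∀ X : ℕ, Δ₀ ≤ X → (((Icc 1 X).filter (fun q => q ∈ F)).card : ℝ) ≤ (X : ℝ) ^ (2 - θ + η)) ∧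
      (3 / 2 < θ → F = ∅) ∧
      ∀ Δ a1 a2 a3 : ℕ, Δ₀ ≤ Δ → Cnd2 T D F Δ a1 a2 a3 → ∀ d : ℤ, Adm a1 a2 a3 d →
        ∃ x y z : ℕ, x.Prime ∧ y.Prime ∧ z.Prime ∧ (a1 : ℤ) * x + a2 * y = d + a3 * z ∧
          ((max (a1 * x) (max (a2 * y) (a3 * z)) : ℕ) : ℝ) ≤
            3 * |(d : ℝ)| + (min a1 (min a2 a3) : ℕ) * (Δ : ℝ) ^ θ := by
  have H := fixed6
  choose Ds Fs cs hDs using H
  obtain ⟨C, hC⟩ : ∃ C : ℕ → ℕ, C = fun j => Nat.rec (κ + 3) (fun j x => max (cs j x) ((x + 2) ^ (j + 8))) j := ⟨_, rfl⟩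
  have hC0 : C 0 = κ + 3 := congrFun hC 0
  have hCs : ∀ j, C (j + 1) = max (cs j (C j)) ((C j + 2) ^ (j + 8)) := by
    intro j
    rw [hC]
  have hC1 : ∀ j, cs j (C j) ≤ C (j + 1) := fun j => by rw [hCs]; exact le_max_left _ _
  have hC2 : ∀ j, (C j + 2) ^ (j + 8) ≤ C (j + 1) := fun j => by rw [hCs]; exact le_max_right _ _
  have hC3 : ∀ j, C j < C (j + 1) := by
    intro j
    refine lt_of_lt_of_le ?_ (hC2 j)
    calc C j < C j + 2 := by omega
      _ = (C j + 2) ^ 1 := (pow_one _).symm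
      _ ≤ (C j + 2) ^ (j + 8) := Nat.pow_le_pow_right (by omega) (by omega)
  have hmono : StrictMono C := strictMono_nat_of_lt_succ hC3
  have hCj : ∀ j, j ≤ C j := fun j => hmono.id_le j
  have hC3' : ∀ j, κ + 3 ≤ C j := fun j => by rw [← hC0]; exact hmono.monotone (Nat.zero_le j)
  have hfind : ∀ X : ℕ, C 0 ≤ X → ∃ i, C i ≤ X ∧ X < C (i + 1) := by
    intro X hX
    have hex : ∃ k, X < C k := ⟨X + 1, lt_of_lt_of_le (Nat.lt_succ_self X) (hCj (X + 1))⟩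
    obtain ⟨k, hk⟩ : ∃ k, k = Nat.find hex := ⟨_, rfl⟩
    have h1 : X < C k := by rw [hk]; exact Nat.find_spec hex
    have h2 : k ≠ 0 := by
      intro h
      rw [h] at h1
      omega
    refine ⟨k - 1, ?_, ?_⟩
    · have := Nat.find_min hex (m := k - 1) (by rw [← hk]; omega)
      exact not_lt.1 this
    · have e : k - 1 + 1 = k := by omega
      rw [e]
      exact h1
  have hC4 : ∀ j, 2 ^ j ≤ C j := by
    intro j
    induction j with
    | zero => rw [hC0]; omega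
    | succ j ih =>
      calc 2 ^ (j + 1) = 2 * 2 ^ j := by rw [pow_succ]; ring
        _ ≤ (C j + 2) * (C j + 2) := Nat.mul_le_mul (by omega) (by omega)
        _ = (C j + 2) ^ 2 := by ring
        _ ≤ (C j + 2) ^ (j + 8) := Nat.pow_le_pow_right (by omega) (by omega)
        _ ≤ C (j + 1) := hC2 j
  obtain ⟨D, hD⟩ : ∃ D : Set ℕ, D = {e | ∃ j, e ∈ Ds j (C j) ∧ e ≤ C (j + 2)} := ⟨_, rfl⟩
  refine ⟨D, ?_, ?_, ?_, ?_⟩
  · intro e he
    rw [hD] at he
    obtain ⟨j, h1, _⟩ := he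
    have h2 := (hDs j (C j)).1 e h1
    have h3 := hC3' j
    omega
  · intro X hX1n
    have hX0 : (0 : ℝ) < X := by exact_mod_cast hX1n
    have hX1 : (1 : ℝ) ≤ X := by exact_mod_cast hX1n
    rcases ((Icc 1 X).filter (fun e => e ∈ D)).eq_empty_or_nonempty with h0 | ⟨e₀, he₀⟩
    · rw [h0, card_empty, Nat.cast_zero]
      positivity
    have hXC : C 0 ≤ X := by
      rw [mem_filter, mem_Icc, hD] at he₀
      obtain ⟨⟨_, h2⟩, j, h3, _⟩ := he₀
      have h5 := (hDs j (C j)).1 e₀ h3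
      have h6 : C 0 ≤ C j := hmono.monotone (Nat.zero_le j)
      omega
    obtain ⟨i, hi1, hi2⟩ := hfind X hXC
    have hsub : (Icc 1 X).filter (fun e => e ∈ D) ⊆ (range (i + 1)).biUnion
        (fun j => (Icc 1 X).filter (fun e => e ∈ Ds j (C j))) := by
      intro e he
      rw [mem_filter, mem_Icc, hD] at he
      obtain ⟨⟨h1, h2⟩, j, h3, h4⟩ := he
      have h5 := (hDs j (C j)).1 e h3
      rw [mem_biUnion]
      refine ⟨j, ?_, ?_⟩
      · rw [mem_range]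
        by_contra hcon
        have : C (i + 1) ≤ C j := hmono.monotone (by omega)
        omega
      · rw [mem_filter, mem_Icc]
        exact ⟨⟨h1, h2⟩, h3⟩
    have hi8 : ((i + 1 : ℕ) : ℝ) ≤ (X : ℝ) ^ (1 / 8 : ℝ) := by
      have h1 : (i + 1) ^ 8 ≤ X := by
        rcases Nat.eq_zero_or_pos i with h | h
        · rw [h]
          omega
        · obtain ⟨m, rfl⟩ : ∃ m, i = m + 1 := ⟨i - 1, by omega⟩
          calc (m + 1 + 1) ^ 8 ≤ (C m + 2) ^ 8 := Nat.pow_le_pow_left (by have := hCj m; omega) _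
            _ ≤ (C m + 2) ^ (m + 8) := Nat.pow_le_pow_right (by omega) (by omega)
            _ ≤ C (m + 1) := hC2 m
            _ ≤ X := hi1
      have h2 : (((i + 1 : ℕ) : ℝ)) ^ 8 ≤ X := by exact_mod_cast h1
      calc ((i + 1 : ℕ) : ℝ) = ((((i + 1 : ℕ) : ℝ)) ^ 8) ^ (1 / 8 : ℝ) := by
            rw [← Real.rpow_natCast, ← Real.rpow_mul (Nat.cast_nonneg _)]
            norm_num
        _ ≤ (X : ℝ) ^ (1 / 8 : ℝ) := Real.rpow_le_rpow (by positivity) h2 (by norm_num)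
    have h1 := (card_le_card hsub).trans card_biUnion_le
    have h2 : (((Icc 1 X).filter (fun e => e ∈ D)).card : ℝ) ≤
        ∑ j ∈ range (i + 1), (((Icc 1 X).filter (fun e => e ∈ Ds j (C j))).card : ℝ) := by
      exact_mod_cast h1
    refine h2.trans ?_
    calc _ ≤ ∑ _j ∈ range (i + 1), (X : ℝ) ^ (1 / 8 : ℝ) := by
          apply sum_le_sum
          intro j _
          refine ((hDs j (C j)).2.1 X hX1n).trans (Real.rpow_le_rpow_of_exponent_le hX1 ?_)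
          apply one_div_le_one_div_of_le (by norm_num)
          have : (0 : ℝ) ≤ j := Nat.cast_nonneg _
          linarith
      _ = ((i + 1 : ℕ) : ℝ) * (X : ℝ) ^ (1 / 8 : ℝ) := by rw [sum_const, card_range, nsmul_eq_mul]
      _ ≤ (X : ℝ) ^ (1 / 8 : ℝ) * (X : ℝ) ^ (1 / 8 : ℝ) := mul_le_mul_of_nonneg_right hi8 (by positivity)
      _ = (X : ℝ) ^ (1 / 4 : ℝ) := by rw [← Real.rpow_add hX0]; norm_num
  · intro ε hε
    obtain ⟨i₁, hi₁⟩ := exists_nat_ge (2 / ε)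
    obtain ⟨X₁, hX₁⟩ := exists_nat_ge ((4 : ℝ) ^ (2 / ε))
    refine ⟨C (i₁ + 2) + X₁ + 1, fun X hX => ?_⟩
    obtain ⟨i, hi1, hi2⟩ := hfind X ((hmono.monotone (Nat.zero_le _)).trans (by omega : C (i₁ + 2) ≤ X))
    have hii : i₁ + 2 ≤ i := by
      by_contra hcon
      have : C (i + 1) ≤ C (i₁ + 2) := hmono.monotone (by omega)
      omega
    have hX1n : 1 ≤ X := by omega
    have hX0 : (0 : ℝ) < X := by exact_mod_cast hX1n
    have hX1 : (1 : ℝ) ≤ X := by exact_mod_cast hX1n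
    obtain ⟨m, rfl⟩ : ∃ m, i = m + 2 := ⟨i - 2, by omega⟩
    have hm : (2 / ε : ℝ) ≤ (m : ℝ) + 1 := by
      have : (i₁ : ℝ) ≤ m := by exact_mod_cast (by omega : i₁ ≤ m)
      linarith
    have hexp : 1 / ((m : ℝ) + 1) ≤ ε / 2 := by
      rw [div_le_iff₀ (by positivity)]
      rw [div_le_iff₀ hε] at hm
      linarith
    have hexp' : ∀ k : ℕ, m ≤ k → (X : ℝ) ^ (1 / ((k : ℝ) + 8)) ≤ (X : ℝ) ^ (ε / 2) := by
      intro k hk
      apply Real.rpow_le_rpow_of_exponent_le hX1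
      refine le_trans ?_ hexp
      apply one_div_le_one_div_of_le (by positivity)
      have : (m : ℝ) ≤ k := by exact_mod_cast hk
      linarith
    -- the cover
    obtain ⟨W, hW⟩ : ∃ W : ℕ → Finset ℕ, W = fun k => (Icc 1 X).filter (fun e => e ∈ Ds k (C k)) := ⟨_, rfl⟩
    have hsub : (Icc 1 X).filter (fun e => e ∈ D) ⊆ Icc 1 (C (m + 1)) ∪ (W m ∪ (W (m + 1) ∪ W (m + 2))) := by
      intro e he
      rw [mem_filter, mem_Icc, hD] at he
      obtain ⟨⟨h1, h2⟩, j, h3, h4⟩ := he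
      have h5 := (hDs j (C j)).1 e h3
      have h6 : j ≤ m + 2 := by
        by_contra hcon
        have : C (m + 2 + 1) ≤ C j := hmono.monotone (by omega)
        omega
      rw [mem_union, mem_union, mem_union, hW, mem_Icc]
      simp only [mem_filter, mem_Icc]
      rcases Nat.lt_or_ge j m with h7 | h7
      · left
        exact ⟨h1, h4.trans (hmono.monotone (by omega))⟩
      · right
        have h8 : j = m ∨ j = m + 1 ∨ j = m + 2 := by omega
        rcases h8 with rfl | rfl | rfl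
        · exact Or.inl ⟨⟨h1, h2⟩, h3⟩
        · exact Or.inr (Or.inl ⟨⟨h1, h2⟩, h3⟩)
        · exact Or.inr (Or.inr ⟨⟨h1, h2⟩, h3⟩)
    have hWc : ∀ k, m ≤ k → ((W k).card : ℝ) ≤ (X : ℝ) ^ (ε / 2) := by
      intro k hk
      rw [hW]
      exact ((hDs k (C k)).2.1 X hX1n).trans (hexp' k hk)
    have hCc : (C (m + 1) : ℝ) ≤ (X : ℝ) ^ (ε / 2) := by
      have h1 : (C (m + 1)) ^ (m + 1) ≤ X := by
        calc (C (m + 1)) ^ (m + 1) ≤ (C (m + 1) + 2) ^ (m + 1 + 8) :=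
              (Nat.pow_le_pow_left (by omega) _).trans (Nat.pow_le_pow_right (by omega) (by omega))
          _ ≤ C (m + 1 + 1) := hC2 (m + 1)
          _ ≤ X := hi1
      have h2 : ((C (m + 1) : ℝ)) ^ (m + 1) ≤ X := by exact_mod_cast h1
      refine le_trans ?_ (Real.rpow_le_rpow_of_exponent_le hX1 hexp)
      calc (C (m + 1) : ℝ) = (((C (m + 1) : ℝ)) ^ (m + 1)) ^ (1 / ((m : ℝ) + 1)) := by
            rw [← Real.rpow_natCast, ← Real.rpow_mul (Nat.cast_nonneg _)]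
            have : ((m + 1 : ℕ) : ℝ) * (1 / ((m : ℝ) + 1)) = 1 := by push_cast; field_simp
            rw [this, Real.rpow_one]
        _ ≤ (X : ℝ) ^ (1 / ((m : ℝ) + 1)) := Real.rpow_le_rpow (by positivity) h2 (by positivity)
    have hcard : ((Icc 1 X).filter (fun e => e ∈ D)).card ≤ C (m + 1) + ((W m).card + ((W (m + 1)).card + (W (m + 2)).card)) := by
      refine (card_le_card hsub).trans ((card_union_le _ _).trans ?_)
      rw [Nat.card_Icc, Nat.add_sub_cancel]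
      apply Nat.add_le_add_left
      refine (card_union_le _ _).trans ?_
      apply Nat.add_le_add_left
      exact card_union_le _ _
    have h4 : (4 : ℝ) ≤ (X : ℝ) ^ (ε / 2) := by
      have h5 : (4 : ℝ) ^ (2 / ε) ≤ X := hX₁.trans (by exact_mod_cast (by omega : X₁ ≤ X))
      calc (4 : ℝ) = ((4 : ℝ) ^ (2 / ε)) ^ (ε / 2) := by
            rw [← Real.rpow_mul (by norm_num)]
            have : 2 / ε * (ε / 2) = 1 := by field_simp
            rw [this, Real.rpow_one]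
        _ ≤ (X : ℝ) ^ (ε / 2) := Real.rpow_le_rpow (by positivity) h5 (by positivity)
    have e1 := hWc m le_rfl
    have e2 := hWc (m + 1) (by omega)
    have e3 := hWc (m + 2) (by omega)
    have e4 : (((Icc 1 X).filter (fun e => e ∈ D)).card : ℝ) ≤ C (m + 1) + ((W m).card + ((W (m + 1)).card + (W (m + 2)).card)) := by
      exact_mod_cast hcard
    calc (((Icc 1 X).filter (fun e => e ∈ D)).card : ℝ) ≤ 4 * (X : ℝ) ^ (ε / 2) := by linarith
      _ ≤ (X : ℝ) ^ (ε / 2) * (X : ℝ) ^ (ε / 2) := mul_le_mul_of_nonneg_right h4 (by positivity)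
      _ = (X : ℝ) ^ ε := by rw [← Real.rpow_add hX0]; ring_nf
  · intro θ hθ η hη T
    obtain ⟨δ, hδ⟩ : ∃ δ : ℕ → ℝ, δ = fun (j : ℕ) => 1 / ((j : ℝ) + 8) := ⟨_, rfl⟩
    have hδj : ∀ j, δ j = 1 / ((j : ℝ) + 8) := fun j => by rw [hδ]
    have hδ0 : ∀ j, 0 < δ j := by
      intro j
      rw [hδj]
      positivity
    have hδ8 : ∀ j, δ j ≤ 1 / 8 := by
      intro j
      rw [hδj]
      apply one_div_le_one_div_of_le (by norm_num)
      have : (0 : ℝ) ≤ j := Nat.cast_nonneg _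
      linarith
    have hδm : ∀ i j, i ≤ j → δ j ≤ δ i := by
      intro i j hij
      rw [hδj, hδj]
      apply one_div_le_one_div_of_le (by positivity)
      have : (i : ℝ) ≤ j := by exact_mod_cast hij
      linarith
    have hlev : ∀ ρ : ℝ, 0 < ρ → ∃ i : ℕ, δ i ≤ ρ := by
      intro ρ hρ
      obtain ⟨i, hi⟩ := exists_nat_ge (1 / ρ)
      refine ⟨i, ?_⟩
      rw [hδj, div_le_iff₀ (by positivity)]
      rw [div_le_iff₀ hρ] at hi
      nlinarith
    obtain ⟨i₁, h1⟩ := hlev (θ - 1) (by linarith)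
    obtain ⟨i₂, h2⟩ := hlev (η / 4) (by positivity)
    obtain ⟨i₃, h3⟩ : ∃ i : ℕ, 3 / 2 < θ → δ i ≤ 2 / 3 * (θ - 3 / 2) / (θ + 1 / 3) := by
      by_cases h : 3 / 2 < θ
      · obtain ⟨i, hi⟩ := hlev (2 / 3 * (θ - 3 / 2) / (θ + 1 / 3)) (div_pos (by linarith) (by linarith))
        exact ⟨i, fun _ => hi⟩
      · exact ⟨0, fun h' => absurd h' h⟩
    obtain ⟨j₁, hj₁⟩ : ∃ j₁ : ℕ, j₁ = i₁ + i₂ + i₃ + T := ⟨_, rfl⟩
    have hθj : ∀ j, j₁ ≤ j → 1 + δ j ≤ θ := by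
      intro j hj
      have := hδm i₁ j (by omega)
      linarith
    have hηj : ∀ j, j₁ ≤ j → δ j ≤ η / 4 := fun j hj => (hδm i₂ j (by omega)).trans h2
    have h3j : ∀ j, j₁ ≤ j → 3 / 2 < θ → 1 ≤ (2 / 3 - δ j) * (θ - δ j / 2) := by
      intro j hj h
      have h4 := (hδm i₃ j (by omega)).trans (h3 h)
      rw [le_div_iff₀ (by linarith)] at h4
      nlinarith [hδ0 j]
    obtain ⟨F, hF⟩ : ∃ F : Set ℕ, F = {q | ∃ j, j₁ ≤ j ∧ ∃ k : ℕ, q ∈ Fs j (C j) k ∧ (q : ℝ) ^ (θ - δ j / 2) ≤ 2 ^ k} :=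
      ⟨_, rfl⟩
    have hFe : 3 / 2 < θ → F = ∅ := by
      intro h
      rw [hF, Set.eq_empty_iff_forall_notMem]
      rintro q ⟨j, hj, k, hq1, hq2⟩
      obtain ⟨g1, g2⟩ := (hDs j (C j)).2.2.1 k q hq1
      rw [← hδj] at g2
      have h5 := h3j j hj h
      have h6 : (0 : ℝ) < θ - δ j / 2 := by linarith [hδ8 j]
      have h7 : ((2 : ℝ) ^ ((k : ℝ) * (2 / 3 - δ j))) ^ (θ - δ j / 2) < (q : ℝ) ^ (θ - δ j / 2) :=
        Real.rpow_lt_rpow (by positivity) g2 h6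
      rw [← Real.rpow_mul (by norm_num)] at h7
      have h8 : (2 : ℝ) ^ (k : ℝ) ≤ (2 : ℝ) ^ ((k : ℝ) * (2 / 3 - δ j) * (θ - δ j / 2)) := by
        apply Real.rpow_le_rpow_of_exponent_le (by norm_num)
        rw [mul_assoc]
        exact le_mul_of_one_le_right (Nat.cast_nonneg _) h5
      rw [Real.rpow_natCast] at h8
      linarith
    obtain ⟨X₁, hX₁⟩ := ev_log_rpow 2 18 (η / 2) (by positivity)
    refine ⟨C (j₁ + 1) + X₁, F, ?_, hFe, ?_⟩
    · intro X hX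
      by_cases h : 3 / 2 < θ
      · rw [hFe h]
        simp only [Set.mem_empty_iff_false, filter_false, card_empty, Nat.cast_zero]
        positivity
      push Not at h
      have hX3 : 3 ≤ X := by
        have := hC3' (j₁ + 1)
        omega
      have hX0 : (0 : ℝ) < X := by exact_mod_cast (by omega : 0 < X)
      have hX1 : (1 : ℝ) ≤ X := by exact_mod_cast (by omega : 1 ≤ X)
      have hlogX : 1 ≤ Real.log X := by
        rw [Real.le_log_iff_exp_le hX0]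
        have h5 := Real.exp_one_lt_d9
        have : (3 : ℝ) ≤ X := by exact_mod_cast hX3
        linarith
      obtain ⟨L, hL⟩ : ∃ L : ℕ, L = Nat.log 2 X + 1 := ⟨_, rfl⟩
      have hXL : X < 2 ^ L := by rw [hL]; exact Nat.lt_pow_succ_log_self (by norm_num) X
      have hLlog : (L : ℝ) ≤ 3 * Real.log X := by
        have h5 : 2 ^ (Nat.log 2 X) ≤ X := Nat.pow_log_le_self 2 (by omega)
        have h6 : ((2 : ℝ)) ^ (Nat.log 2 X) ≤ X := by exact_mod_cast h5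
        have h7 := Real.log_le_log (by positivity) h6
        rw [Real.log_pow] at h7
        have h8 := Real.log_two_gt_d9
        have h9 : (0 : ℝ) ≤ (Nat.log 2 X : ℕ) := Nat.cast_nonneg _
        rw [hL]
        push_cast
        nlinarith
      have hsub : (Icc 1 X).filter (fun q => q ∈ F) ⊆ ((range L).filter (fun j => j₁ ≤ j)).biUnion
          (fun j => (range (2 * L)).biUnion
            (fun k => (Icc 1 X).filter (fun q : ℕ => q ∈ Fs j (C j) k ∧ (q : ℝ) ^ (θ - δ j / 2) ≤ 2 ^ k))) := by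
        intro q hq
        rw [mem_filter, mem_Icc, hF] at hq
        obtain ⟨⟨g1, g2⟩, j, hj, k, hq1, hq2⟩ := hq
        obtain ⟨g3, g4⟩ := (hDs j (C j)).2.2.1 k q hq1
        rw [mem_biUnion]
        refine ⟨j, ?_, ?_⟩
        · rw [mem_filter, mem_range]
          refine ⟨?_, hj⟩
          by_contra hcon
          have g5 : 2 ^ L ≤ 2 ^ j := Nat.pow_le_pow_right (by norm_num) (by omega)
          have g6 := hC4 j
          omega
        rw [mem_biUnion]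
        refine ⟨k, ?_, ?_⟩
        · rw [mem_range]
          by_contra hcon
          rw [← hδj] at g4
          have g5 : (2 : ℝ) ^ (L : ℝ) ≤ (2 : ℝ) ^ ((k : ℝ) * (2 / 3 - δ j)) := by
            apply Real.rpow_le_rpow_of_exponent_le (by norm_num)
            have g6 : ((2 * L : ℕ) : ℝ) ≤ k := by exact_mod_cast (by omega : 2 * L ≤ k)
            push_cast at g6
            have g7 := hδ8 j
            have g8 : (0 : ℝ) ≤ L := Nat.cast_nonneg _
            nlinarith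
          rw [Real.rpow_natCast] at g5
          have g6 : (X : ℝ) < (2 : ℝ) ^ L := by exact_mod_cast hXL
          have g7 : (q : ℝ) ≤ X := by exact_mod_cast g2
          linarith
        · rw [mem_filter, mem_Icc]
          exact ⟨⟨g1, g2⟩, hq1, hq2⟩
      have hone : ∀ j ∈ (range L).filter (fun j => j₁ ≤ j), ∀ k ∈ range (2 * L),
          (((Icc 1 X).filter (fun q : ℕ => q ∈ Fs j (C j) k ∧ (q : ℝ) ^ (θ - δ j / 2) ≤ 2 ^ k)).card : ℝ) ≤
            (X : ℝ) ^ (2 - θ + η / 2) := by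
        intro j hj k _
        rw [mem_filter] at hj
        have g1 := hθj j hj.2
        have g2 := hηj j hj.2
        have g3 := hδ0 j
        have g4 := hδ8 j
        apply count_one (δ := δ j) g3 g4 (by linarith) (by linarith) _ _ (by omega)
        · nlinarith
        · intro Y
          have g5 := (hDs j (C j)).2.2.2.1 k Y
          rwa [← hδj] at g5
      have hcard : (((Icc 1 X).filter (fun q => q ∈ F)).card : ℝ) ≤ L * (2 * L * (X : ℝ) ^ (2 - θ + η / 2)) := by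
        have g1 := (card_le_card hsub).trans card_biUnion_le
        have g2 : (((Icc 1 X).filter (fun q => q ∈ F)).card : ℝ) ≤ ∑ j ∈ (range L).filter (fun j => j₁ ≤ j),
            ((((range (2 * L)).biUnion
            (fun k => (Icc 1 X).filter (fun q : ℕ => q ∈ Fs j (C j) k ∧ (q : ℝ) ^ (θ - δ j / 2) ≤ 2 ^ k)))).card : ℝ) := by
          exact_mod_cast g1
        refine g2.trans ?_
        have g3 : ∀ j ∈ (range L).filter (fun j => j₁ ≤ j), ((((range (2 * L)).biUnion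
            (fun k => (Icc 1 X).filter (fun q : ℕ => q ∈ Fs j (C j) k ∧ (q : ℝ) ^ (θ - δ j / 2) ≤ 2 ^ k)))).card : ℝ) ≤
            2 * L * (X : ℝ) ^ (2 - θ + η / 2) := by
          intro j hj
          have g4 : ((((range (2 * L)).biUnion
            (fun k => (Icc 1 X).filter (fun q : ℕ => q ∈ Fs j (C j) k ∧ (q : ℝ) ^ (θ - δ j / 2) ≤ 2 ^ k)))).card : ℝ) ≤
            ∑ k ∈ range (2 * L),
              (((Icc 1 X).filter (fun q : ℕ => q ∈ Fs j (C j) k ∧ (q : ℝ) ^ (θ - δ j / 2) ≤ 2 ^ k)).card : ℝ) := by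
            exact_mod_cast card_biUnion_le
          refine g4.trans ((sum_le_sum (hone j hj)).trans ?_)
          rw [sum_const, card_range, nsmul_eq_mul]
          push_cast
          exact le_rfl
        refine (sum_le_sum g3).trans ?_
        rw [sum_const, nsmul_eq_mul]
        apply mul_le_mul_of_nonneg_right _ (by positivity)
        have := card_filter_le (range L) (fun j => j₁ ≤ j)
        rw [card_range] at this
        exact_mod_cast this
      refine hcard.trans ?_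
      have g1 := hX₁ X (by omega)
      have g2 : (0 : ℝ) ≤ L := Nat.cast_nonneg _
      calc (L : ℝ) * (2 * L * (X : ℝ) ^ (2 - θ + η / 2)) = (2 * (L * L)) * (X : ℝ) ^ (2 - θ + η / 2) := by ring
        _ ≤ (X : ℝ) ^ (η / 2) * (X : ℝ) ^ (2 - θ + η / 2) := by
            apply mul_le_mul_of_nonneg_right _ (by positivity)
            refine le_trans ?_ g1
            nlinarith
        _ = (X : ℝ) ^ (2 - θ + η) := by
            rw [← Real.rpow_add hX0]
            ring_nf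
    · intro Δ a1 a2 a3 hΔ hcnd d hadm
      have hΔC : C (j₁ + 1) ≤ Δ := by omega
      obtain ⟨i, hi1, hi2⟩ := hfind Δ ((hmono.monotone (Nat.zero_le _)).trans hΔC)
      have hii : j₁ + 1 ≤ i := by
        by_contra hcon
        have : C (i + 1) ≤ C (j₁ + 1) := hmono.monotone (by omega)
        omega
      obtain ⟨j, rfl⟩ : ∃ j, i = j + 1 := ⟨i - 1, by omega⟩
      have hj : j₁ ≤ j := by omega
      have hΔ3 : 3 ≤ Δ := by
        have := hC3' (j₁ + 1)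
        omega
      have hlog : 1 ≤ Real.log Δ := by
        have h5 := Real.exp_one_lt_d9
        have h6 : (3 : ℝ) ≤ Δ := by exact_mod_cast hΔ3
        rw [Real.le_log_iff_exp_le (by linarith)]
        linarith
      have hpow : Real.log Δ ^ T ≤ Real.log Δ ^ j := pow_le_pow_right₀ hlog (by omega)
      obtain ⟨p1, p2, p3, u12, u23, u31, w, g12, g23, g31, d12, d23, d31, f12, f23, f31⟩ := hcnd
      have hDf : ∀ q : ℕ, 1 ≤ q → q ≤ Δ → (∀ e ∈ D, Real.log Δ ^ T < e → ¬ e ∣ q) →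
          ∀ e ∈ Ds j (C j), Real.log Δ ^ j < e → ¬ e ∣ q := by
        intro q hq1 hqΔ hq e he hej hcon
        apply hq e _ (hpow.trans_lt hej) hcon
        rw [hD]
        exact ⟨j, he, (Nat.le_of_dvd hq1 hcon).trans (hqΔ.trans hi2.le)⟩
      have hFf : ∀ q : ℕ, (Real.log Δ ^ T < (q : ℝ) → q ∉ F) → Real.log Δ ^ j < (q : ℝ) →
          ∀ k : ℕ, q ∈ Fs j (C j) k → (2 : ℝ) ^ k < ((q : ℕ) : ℝ) ^ (θ - δ j / 2) := by
        intro q hq hqj k hk
        by_contra hcon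
        push Not at hcon
        apply hq (hpow.trans_lt hqj)
        rw [hF]
        exact ⟨j, hj, k, hk, hcon⟩
      refine (hDs j (C j)).2.2.2.2 θ (by rw [← hδj]; exact hθj j hj) Δ a1 a2 a3 ((hC1 j).trans hi1) ?_ d hadm
      rw [← hδj]
      exact ⟨p1, p2, p3, u12, u23, u31, w, g12.trans hpow, g23.trans hpow, g31.trans hpow,
        hDf _ (Nat.mul_pos p1 p2) u12 d12, hDf _ (Nat.mul_pos p2 p3) u23 d23, hDf _ (Nat.mul_pos p3 p1) u31 d31,
        hFf _ f12, hFf _ f23, hFf _ f31⟩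

end Pool.Agent.Y883.T6
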