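import Pool.Agent.Y883.T6.Loc6

set_option autoImplicit false

/-! The number of rough integers in a progression for which a linear form has no factor in a given set of primes. -/

namespace Pool.Agent.Y883.T6

open Finset
open Pool.Agent.H373R2.T7
open Pool.Agent.Y883.T3
open Pool.Agent.Y883.T5

lemma class_card {p K : ℕ} (hp : p.Prime) (x y : ℤ) (h : ¬ ((p : ℤ) ∣ x ∧ (p : ℤ) ∣ y)) :
    ((Icc 1 K).filter (fun n : ℕ => (p : ℤ) ∣ x + y * (n : ℕ))).card ≤ K / p + 1 := by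
  rw [← card_range (K / p + 1)]
  apply card_le_card_of_injOn (fun n => n / p)
  · intro n hn
    rw [mem_coe, mem_filter, mem_Icc] at hn
    rw [mem_coe, mem_range, Nat.lt_succ_iff]
    exact Nat.div_le_div_right hn.1.2
  · intro n hn n' hn' hnn
    rw [mem_coe, mem_filter] at hn hn'
    simp only at hnn
    have h1 : (p : ℤ) ∣ y * ((n : ℤ) - n') := by
      have := dvd_sub hn.2 hn'.2
      have e : x + y * (n : ℕ) - (x + y * (n' : ℕ)) = y * ((n : ℤ) - n') := by ring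
      rwa [e] at this
    rcases (Nat.prime_iff_prime_int.1 hp).dvd_or_dvd h1 with h2 | h2
    · exact absurd ⟨(Int.dvd_add_left (h2.mul_right _)).1 hn.2, h2⟩ h
    · have h3 : n' % p = n % p := Nat.modEq_iff_dvd.2 h2
      rw [← Nat.div_add_mod n p, ← Nat.div_add_mod n' p, hnn, h3]

open Classical in
theorem good_count (E : ℕ) (σ : ℝ) (hσ : 0 < σ) : ∃ N₀ : ℕ, ∀ N : ℕ, N₀ ≤ N → ∀ z : ℕ, Real.log N ^ 5 ≤ (z : ℝ) →
    (z : ℝ) ≤ Real.log N ^ E → ∀ K : ℕ, (N : ℝ) ^ σ ≤ K → ∀ M R : ℕ, R.Coprime M →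
    ∀ (a d : ℤ) (B : Finset ℕ), (∀ p ∈ B, p.Prime ∧ p ≠ 2 ∧ ¬ p ∣ M ∧ ¬ ((p : ℤ) ∣ d ∧ (p : ℤ) ∣ a)) →
    (B.card : ℝ) ≤ 2 * Real.log N →
    K / (2 * Real.log N ^ 3) ≤ (((Icc 1 K).filter (fun n : ℕ => (∀ p ∈ pz z, ¬ p ∣ R + M * n) ∧
      ∀ p ∈ B, ¬ (p : ℤ) ∣ d + a * ((R + M * n : ℕ) : ℤ))).card : ℝ) := by
  obtain ⟨N₁, h1⟩ := sys_count 2 (E + 1) 5 (by norm_num)
  obtain ⟨N₂, h2⟩ := Vz_inv_small E
  obtain ⟨C₀, hC₀⟩ := exists_nat_ge (1 / σ)
  have hC0 : (0 : ℝ) < C₀ := lt_of_lt_of_le (by positivity) hC₀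
  have hCσ : 1 / (C₀ : ℝ) ≤ σ := by
    rw [div_le_iff₀ hC0]
    rw [div_le_iff₀ hσ] at hC₀
    linarith
  have hC1 : (1 : ℝ) ≤ C₀ := by
    have : 0 < C₀ := by exact_mod_cast hC0
    exact_mod_cast this
  obtain ⟨N₃, h3⟩ := ev_L' (128 + C₀ * C₀ ^ E + 8 * C₀ ^ 5)
  obtain ⟨N₄, h4⟩ := tendsto_pow_log (N₁ + 2 : ℝ) σ hσ
  obtain ⟨N₅, h5⟩ := ev_log_rpow 4 32 σ hσ
  refine ⟨N₂ + N₃ + N₄ + N₅ + 2, fun N hN z hz1 hz2 K hK M R hRM a d B hB hBc => ?_⟩
  have c5 := h5 N (by omega)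
  have c4 := h4 N (by omega)
  have hL := h3 N (by omega)
  have hN0 : (0 : ℝ) < N := by exact_mod_cast (by omega : 0 < N)
  obtain ⟨L, hLd⟩ : ∃ L, L = Real.log (N : ℝ) := ⟨_, rfl⟩
  rw [← hLd] at hL hz1 hz2 hBc c5 ⊢
  have h4E : (0 : ℝ) ≤ C₀ * C₀ ^ E := by positivity
  have h5E : (0 : ℝ) ≤ 8 * C₀ ^ 5 := by positivity
  have hL8 : 128 ≤ L := by linarith
  have hL0 : 0 < L := by linarith
  have hL1 : 1 ≤ L := by linarith
  have hz1' : (1 : ℝ) ≤ z := (one_le_pow₀ hL1).trans hz1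
  have hz1n : 1 ≤ z := by exact_mod_cast hz1'
  have hz0 : (0 : ℝ) < z := by linarith
  have c2 := h2 N (by omega) z hz1n (by rw [← hLd]; exact hz2)
  rw [← hLd] at c2
  have hKN1 : (N₁ : ℝ) + 2 ≤ K := c4.trans hK
  have hK1 : N₁ ≤ K := by
    have : (N₁ : ℝ) ≤ K := by linarith
    exact_mod_cast this
  have hN10 : (0 : ℝ) ≤ N₁ := Nat.cast_nonneg _
  have hK0 : (0 : ℝ) < K := by linarith
  have hlK : L / C₀ ≤ Real.log K := by
    have e : Real.log ((N : ℝ) ^ σ) = σ * L := by rw [Real.log_rpow hN0, ← hLd]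
    calc L / C₀ = (1 / C₀) * L := by ring
      _ ≤ σ * L := mul_le_mul_of_nonneg_right hCσ hL0.le
      _ = Real.log ((N : ℝ) ^ σ) := e.symm
      _ ≤ Real.log K := Real.log_le_log (by positivity) hK
  have hlK' : L ≤ C₀ * Real.log K := by
    rw [div_le_iff₀ hC0] at hlK
    linarith
  have hlKE : (C₀ : ℝ) ^ E ≤ Real.log K := by
    refine le_trans ?_ hlK
    rw [le_div_iff₀ hC0]
    linarith
  have hzK : (z : ℝ) ≤ Real.log K ^ (E + 1) := by
    calc (z : ℝ) ≤ L ^ E := hz2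
      _ ≤ (C₀ * Real.log K) ^ E := pow_le_pow_left₀ hL0.le hlK' _
      _ = C₀ ^ E * Real.log K ^ E := mul_pow _ _ _
      _ ≤ Real.log K * Real.log K ^ E := mul_le_mul_of_nonneg_right hlKE (by
          have : 0 < L / C₀ := by positivity
          have : 0 ≤ Real.log K := by linarith
          positivity)
      _ = Real.log K ^ (E + 1) := by ring
  -- the conditions
  obtain ⟨x', hx'⟩ : ∃ x' : ℕ → ℤ, x' = fun p => if p ∈ B then d + a * R else 1 := ⟨_, rfl⟩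
  obtain ⟨y', hy'⟩ : ∃ y' : ℕ → ℤ, y' = fun p => if p ∈ B then a * M else 0 := ⟨_, rfl⟩
  have hA : ∀ p : ℕ, p.Prime → ¬ ((p : ℤ) ∣ (R : ℤ) ∧ (p : ℤ) ∣ (M : ℤ)) := by
    intro p hp ⟨d1, d2⟩
    have := Nat.dvd_gcd (int_dvd.1 d1) (int_dvd.1 d2)
    rw [hRM] at this
    exact hp.one_lt.ne' (Nat.dvd_one.1 this)
  have hB0 : ∀ p ∈ B, ¬ ((p : ℤ) ∣ d + a * R ∧ (p : ℤ) ∣ a * M) := by
    intro p hp ⟨d1, d2⟩
    obtain ⟨p1, p2, p3, p4⟩ := hB p hp
    have d3 : (p : ℤ) ∣ a := by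
      rcases (Nat.prime_iff_prime_int.1 p1).dvd_or_dvd d2 with h | h
      · exact h
      · exact absurd (int_dvd.1 h) p3
    exact p4 ⟨(Int.dvd_add_left (d3.mul_right _)).1 d1, d3⟩
  have hB' : ∀ p : ℕ, p.Prime → ¬ ((p : ℤ) ∣ x' p ∧ (p : ℤ) ∣ y' p) := by
    intro p hp
    rw [hx', hy']
    simp only
    by_cases hpB : p ∈ B
    · rw [if_pos hpB, if_pos hpB]
      exact hB0 p hpB
    · rw [if_neg hpB, if_neg hpB]
      intro ⟨d1, _⟩
      exact (Nat.prime_iff_prime_int.1 hp).not_isUnit (isUnit_of_dvd_one d1)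
  obtain ⟨Q, hQ⟩ : ∃ Q : ℕ → ℕ → Prop, Q = fun p n => QQ (R : ℤ) M (x' p) (y' p) p n := ⟨_, rfl⟩
  have hnu : ∀ p, nuB Q p = nuB (QQ (R : ℤ) M (x' p) (y' p)) p := by
    intro p
    rw [hQ]
    rfl
  have hQ2 : nuB Q 2 ≤ 1 := by
    rw [hnu]
    apply QQ_two (hA 2 Nat.prime_two) (hB' 2 Nat.prime_two)
    right; left
    rw [hy']
    simp only
    have h2B : 2 ∉ B := fun h => (hB 2 h).2.1 rfl
    rw [if_neg h2B]
    exact dvd_zero _
  have hper : PerB Q 2 := by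
    refine ⟨fun p n => by rw [hQ]; exact QQ_per _ _ _ _ p n, fun p hp => ?_⟩
    rw [hnu]
    exact QQ_few hp (hA p hp) (hB' p hp)
  have c1 := h1 K hK1 z hz1n hzK Q hper
  have hprod : Vz z ^ 3 ≤ ∏ p ∈ pz z, (1 - (nuB Q p : ℝ) / p) := by
    unfold Vz
    rw [← prod_pow]
    apply prod_le_prod
    · intro p hp
      have hp2 : (2 : ℝ) ≤ p := by exact_mod_cast (mem_pz.1 hp).2.two_le
      have : 1 / (p : ℝ) ≤ 1 := by rw [div_le_one (by linarith)]; linarith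
      have : 0 ≤ 1 - 1 / (p : ℝ) := by linarith
      positivity
    · intro p hp
      have hpp := (mem_pz.1 hp).2
      have hp2 : (2 : ℝ) ≤ p := by exact_mod_cast hpp.two_le
      have hp0 : (0 : ℝ) < p := by linarith
      obtain ⟨t, ht⟩ : ∃ t, t = 1 / (p : ℝ) := ⟨_, rfl⟩
      have ht0 : 0 < t := by rw [ht]; positivity
      have e : (nuB Q p : ℝ) / p = nuB Q p * t := by rw [ht]; ring
      rw [← ht, e]
      rcases eq_or_ne p 2 with h2' | h2'
      · have h5 : (nuB Q p : ℝ) ≤ 1 := by rw [h2']; exact_mod_cast hQ2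
        have ht2 : t = 1 / 2 := by rw [ht, h2']; norm_num
        rw [ht2]
        nlinarith
      · have h5 : (nuB Q p : ℝ) ≤ 2 := by exact_mod_cast hper.few p hpp
        have hp3 : (3 : ℝ) ≤ p := by
          have := hpp.two_le
          exact_mod_cast (by omega : 3 ≤ p)
        have ht3 : t ≤ 1 / 3 := by rw [ht]; exact one_div_le_one_div_of_le (by norm_num) hp3
        nlinarith [mul_nonneg ht0.le (by linarith : 0 ≤ 1 / 3 - t), mul_nonneg (mul_nonneg ht0.le ht0.le) (by linarith : 0 ≤ 1 / 3 - t),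
          mul_nonneg ht0.le (by linarith : 0 ≤ 2 - (nuB Q p : ℝ))]
  have hVpos := Vz_pos z
  obtain ⟨V, hV⟩ : ∃ V, V = Vz z := ⟨_, rfl⟩
  rw [← hV] at c2 hprod hVpos
  have hVL : 1 / L ≤ V := by
    rw [div_le_iff₀ hL0]
    rw [inv_le_iff_one_le_mul₀ hVpos] at c2
    linarith
  obtain ⟨Cn, hCn⟩ : ∃ Cn, Cn = ((Icc 1 K).filter (fun n : ℕ => ∀ p ∈ pz z, ¬ Q p n)) := ⟨_, rfl⟩
  rw [← hCn] at c1
  obtain ⟨Gd, hGd⟩ : ∃ Gd, Gd = (Icc 1 K).filter (fun n : ℕ => (∀ p ∈ pz z, ¬ p ∣ R + M * n) ∧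
      ∀ p ∈ B, ¬ (p : ℤ) ∣ d + a * ((R + M * n : ℕ) : ℤ)) := ⟨_, rfl⟩
  have hform : ∀ n : ℕ, d + a * ((R + M * n : ℕ) : ℤ) = (d + a * R) + (a * M) * (n : ℕ) := by
    intro n
    push_cast
    ring
  have hsub : Cn ⊆ Gd ∪ (B.filter (fun p => z < p)).biUnion
      (fun p => (Icc 1 K).filter (fun n : ℕ => (p : ℤ) ∣ (d + a * R) + (a * M) * (n : ℕ))) := by
    intro n hn
    rw [hCn, mem_filter, hQ] at hn
    have hr : ∀ p ∈ pz z, ¬ p ∣ R + M * n := by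
      intro p hp hd
      apply hn.2 p hp
      left
      have := int_dvd.2 hd
      push_cast at this
      exact this
    rw [mem_union, hGd, mem_filter]
    by_cases hg : ∀ p ∈ B, ¬ (p : ℤ) ∣ d + a * ((R + M * n : ℕ) : ℤ)
    · left
      exact ⟨hn.1, hr, hg⟩
    · right
      push Not at hg
      obtain ⟨p, hp, hd⟩ := hg
      rw [hform] at hd
      rw [mem_biUnion]
      refine ⟨p, ?_, mem_filter.2 ⟨hn.1, hd⟩⟩
      rw [mem_filter]
      refine ⟨hp, ?_⟩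
      by_contra hcon
      push Not at hcon
      apply hn.2 p (mem_pz.2 ⟨hcon, (hB p hp).1⟩)
      right
      rw [hx', hy']
      simp only
      rw [if_pos hp, if_pos hp]
      exact hd
  have hrem : (((B.filter (fun p => z < p)).biUnion
      (fun p => (Icc 1 K).filter (fun n : ℕ => (p : ℤ) ∣ (d + a * R) + (a * M) * (n : ℕ)))).card : ℝ) ≤
      2 * L * (K / z + 1) := by
    have e1 : (((B.filter (fun p => z < p)).biUnion
      (fun p => (Icc 1 K).filter (fun n : ℕ => (p : ℤ) ∣ (d + a * R) + (a * M) * (n : ℕ)))).card : ℝ) ≤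
      ∑ p ∈ B.filter (fun p => z < p), (((Icc 1 K).filter (fun n : ℕ => (p : ℤ) ∣ (d + a * R) + (a * M) * (n : ℕ))).card : ℝ) := by
      exact_mod_cast card_biUnion_le
    refine e1.trans ?_
    have e2 : ∀ p ∈ B.filter (fun p => z < p), (((Icc 1 K).filter (fun n : ℕ => (p : ℤ) ∣ (d + a * R) + (a * M) * (n : ℕ))).card : ℝ) ≤
        (K : ℝ) / z + 1 := by
      intro p hp
      rw [mem_filter] at hp
      have e3 := class_card (K := K) (hB p hp.1).1 _ _ (hB0 p hp.1)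
      have e4 : ((((Icc 1 K).filter (fun n : ℕ => (p : ℤ) ∣ (d + a * R) + (a * M) * (n : ℕ))).card : ℕ) : ℝ) ≤ ((K / p + 1 : ℕ) : ℝ) := by
        exact_mod_cast e3
      refine e4.trans ?_
      push_cast
      have e5 : ((K / p : ℕ) : ℝ) ≤ (K : ℝ) / p := Nat.cast_div_le
      have e6 : (K : ℝ) / p ≤ K / z := by
        apply div_le_div_of_nonneg_left hK0.le hz0
        exact_mod_cast hp.2.le
      linarith
    refine (sum_le_sum e2).trans ?_
    rw [sum_const, nsmul_eq_mul]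
    apply mul_le_mul_of_nonneg_right _ (by positivity)
    refine le_trans ?_ hBc
    exact_mod_cast card_filter_le _ _
  have hcard : (Cn.card : ℝ) ≤ Gd.card + 2 * L * (K / z + 1) := by
    have e1 : (Cn.card : ℝ) ≤ (Gd.card : ℝ) + (((B.filter (fun p => z < p)).biUnion
      (fun p => (Icc 1 K).filter (fun n : ℕ => (p : ℤ) ∣ (d + a * R) + (a * M) * (n : ℕ)))).card : ℝ) := by
      exact_mod_cast (card_le_card hsub).trans (card_union_le _ _)
    linarith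
  rw [← hGd]
  -- numerics
  have hV3 : 1 / L ^ 3 ≤ V ^ 3 := by
    have := pow_le_pow_left₀ (by positivity) hVL 3
    rwa [div_pow, one_pow] at this
  have e1 := (abs_le.1 c1).1
  have e2 : (K : ℝ) * (1 / L ^ 3) ≤ K * ∏ p ∈ pz z, (1 - (nuB Q p : ℝ) / p) :=
    mul_le_mul_of_nonneg_left (hV3.trans hprod) hK0.le
  have e3 : (K : ℝ) / Real.log K ^ 5 ≤ K * (1 / (8 * L ^ 3)) := by
    rw [div_eq_mul_one_div]
    apply mul_le_mul_of_nonneg_left _ hK0.le
    have hlK0 : 0 < Real.log K := by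
      have : 0 < L / C₀ := by positivity
      linarith
    rw [div_le_div_iff₀ (pow_pos hlK0 5) (by positivity)]
    have h6 : 8 * (C₀ : ℝ) ^ 5 ≤ L ^ 2 := by nlinarith
    calc 1 * (8 * L ^ 3) = 8 * L ^ 3 := by ring
      _ ≤ (L ^ 2 / C₀ ^ 5) * L ^ 3 := by
          apply mul_le_mul_of_nonneg_right _ (by positivity)
          rw [le_div_iff₀ (by positivity)]
          exact h6
      _ = (L / C₀) ^ 5 := by rw [div_pow]; ring
      _ ≤ Real.log K ^ 5 := pow_le_pow_left₀ (by positivity) hlK _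
      _ = 1 * Real.log K ^ 5 := by ring
  have e4 : 2 * L * (K / z) ≤ K * (1 / (8 * L ^ 3)) := by
    have h6 : (K : ℝ) / z ≤ K / L ^ 5 := div_le_div_of_nonneg_left hK0.le (by positivity) hz1
    calc 2 * L * (K / z) ≤ 2 * L * (K / L ^ 5) := mul_le_mul_of_nonneg_left h6 (by positivity)
      _ = K * (2 / L ^ 4) := by field_simp
      _ ≤ K * (1 / (8 * L ^ 3)) := by
          apply mul_le_mul_of_nonneg_left _ hK0.le
          rw [div_le_div_iff₀ (by positivity) (by positivity)]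
          have : 16 * L ^ 3 ≤ L * L ^ 3 := mul_le_mul_of_nonneg_right (by linarith) (by positivity)
          nlinarith
  have e5 : 2 * L ≤ K * (1 / (8 * L ^ 3)) := by
    rw [mul_one_div, le_div_iff₀ (by positivity)]
    have h6 := c5.trans hK
    nlinarith [(by ring : 2 * L * (8 * L ^ 3) = 16 * L ^ 4), pow_pos hL0 4]
  have e6 : (K : ℝ) / (2 * L ^ 3) = K * (1 / L ^ 3) - 4 * (K * (1 / (8 * L ^ 3))) := by
    field_simp
    norm_num
  rw [e6]
  have e7 : 0 ≤ K * (1 / (8 * L ^ 3)) := by positivity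
  linarith [(by ring : 2 * L * (K / z + 1) = 2 * L * (K / z) + 2 * L)]

end Pool.Agent.Y883.T6
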