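import Pool.Agent.Y883.T5.Solve

set_option autoImplicit false

/-! The local conditions of a linear equation in three primes with common factors of the coefficients. -/

namespace Pool.Agent.Y883.T6

open Finset
open Pool.Agent.Y883.T5

theorem loc_class6 (g : ℕ) (hg : 1 ≤ g) (a b q d : ℤ) (ha : a ≠ 0) (hb : b ≠ 0) (hab : IsCoprime a b)
    (h1 : ∀ p : ℕ, p.Prime → ¬ ((p : ℤ) ∣ g * a ∧ (p : ℤ) ∣ g * b ∧ (p : ℤ) ∣ q))
    (h2 : ∀ p : ℕ, p.Prime → ¬ ((p : ℤ) ∣ d ∧ (p : ℤ) ∣ g * a ∧ (p : ℤ) ∣ g * b))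
    (h3 : ∀ p : ℕ, p.Prime → ¬ ((p : ℤ) ∣ d ∧ (p : ℤ) ∣ g * a ∧ (p : ℤ) ∣ q))
    (h4 : ∀ p : ℕ, p.Prime → ¬ ((p : ℤ) ∣ d ∧ (p : ℤ) ∣ g * b ∧ (p : ℤ) ∣ q))
    (hpar : (2 : ℤ) ∣ g * a + g * b - q - d) :
    ∃ M R : ℕ, 1 ≤ M ∧ M ≤ 2 * (g * a.natAbs * b.natAbs) ^ 2 ∧
      (∀ p : ℕ, p.Prime → p ∣ M → p ∣ 2 * (g * a.natAbs * b.natAbs)) ∧ R.Coprime M ∧
      ∀ r : ℕ, r ≡ R [MOD M] → ∃ h : ℤ, d + q * r = g * h ∧ IsCoprime h a ∧ IsCoprime h b ∧
        (¬ (2 : ℤ) ∣ a * b → (2 : ℤ) ∣ h) := by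
  classical
  obtain ⟨W, hW⟩ : ∃ W, W = g * a.natAbs * b.natAbs := ⟨_, rfl⟩
  have ha1 : 1 ≤ a.natAbs := Int.natAbs_pos.2 ha
  have hb1 : 1 ≤ b.natAbs := Int.natAbs_pos.2 hb
  have hW1 : 1 ≤ W := by rw [hW]; exact Nat.mul_pos (Nat.mul_pos hg ha1) hb1
  obtain ⟨P, hP⟩ : ∃ P, P = (2 * W).primeFactors := ⟨_, rfl⟩
  have hPp : ∀ p ∈ P, p.Prime := fun p hp => by rw [hP] at hp; exact Nat.prime_of_mem_primeFactors hp
  have hPmem : ∀ p : ℕ, p.Prime → p ∣ 2 * W → p ∈ P := by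
    intro p hp hd
    rw [hP, Nat.mem_primeFactors]
    exact ⟨hp, hd, by omega⟩
  have hex : ∀ p : ℕ, ∃ r : ℤ, p.Prime → ¬ (p : ℤ) ∣ r ∧ (p : ℤ) ^ (padicValNat p g) ∣ d + q * r ∧
      ((p : ℤ) ∣ a * b → ¬ (p : ℤ) ^ (padicValNat p g + 1) ∣ d + q * r) ∧
      (p = 2 → ¬ (p : ℤ) ∣ a * b → (p : ℤ) ^ (padicValNat p g + 1) ∣ d + q * r) := by
    intro p
    by_cases hp : p.Prime
    · have := Fact.mk hp
      have e1 : (p : ℤ) ^ (padicValNat p g) ∣ (g : ℤ) := by exact_mod_cast pow_padicValNat_dvd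
      have e2 : ¬ (p : ℤ) ^ (padicValNat p g + 1) ∣ (g : ℤ) := by
        intro hcon
        have : p ^ (padicValNat p g + 1) ∣ g := by exact_mod_cast hcon
        exact pow_succ_padicValNat_not_dvd (by omega) this
      obtain ⟨r, hr⟩ := loc_p p hp (padicValNat p g) g a b q d e1 e2 hab (h1 p hp) (h2 p hp) (h3 p hp) (h4 p hp) hpar
      exact ⟨r, fun _ => hr⟩
    · exact ⟨0, fun h => absurd h hp⟩
  choose rp hrp using hex
  have hpos : ∀ p ∈ P, (p ^ (padicValNat p g + 1) : ℕ) ≠ 0 := fun p hp => (pow_pos (hPp p hp).pos _).ne'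
  have hpw : Set.Pairwise (P : Set ℕ) (Function.onFun Nat.Coprime (fun p => p ^ (padicValNat p g + 1))) := by
    intro x hx y hy hxy
    exact Nat.Coprime.pow _ _ ((Nat.coprime_primes (hPp x hx) (hPp y hy)).2 hxy)
  obtain ⟨R, hR⟩ := Nat.chineseRemainderOfFinset (fun p => (rp p % (p ^ (padicValNat p g + 1) : ℕ)).toNat)
    (fun p => p ^ (padicValNat p g + 1)) P hpos hpw
  have hPprod : ∏ p ∈ P, p ∣ 2 * W := by rw [hP]; exact Nat.prod_primeFactors_dvd _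
  have hPpos : 0 < ∏ p ∈ P, p := prod_pos fun p hp => (hPp p hp).pos
  obtain ⟨M, hM⟩ : ∃ M, M = W * ∏ p ∈ P, p := ⟨_, rfl⟩
  have hgW : g ∣ W := by rw [hW]; exact (dvd_mul_right _ _).mul_right _
  have hMprime : ∀ p : ℕ, p.Prime → p ∣ M → p ∈ P := by
    intro p hp hd
    rw [hM] at hd
    rcases (Nat.Prime.dvd_mul hp).1 hd with h | h
    · exact hPmem p hp (h.mul_left _)
    · exact hPmem p hp (h.trans hPprod)
  have hdvdM : ∀ p ∈ P, p ^ (padicValNat p g + 1) ∣ M := by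
    intro p hp
    have := Fact.mk (hPp p hp)
    rw [hM, pow_succ]
    exact mul_dvd_mul (pow_padicValNat_dvd.trans hgW) (dvd_prod_of_mem _ hp)
  -- the congruences
  have hcong : ∀ r : ℕ, r ≡ R [MOD M] → ∀ p ∈ P, ((p : ℤ) ^ (padicValNat p g + 1)) ∣ (r : ℤ) - rp p := by
    intro r hr p hp
    have e1 := (Nat.ModEq.of_dvd (hdvdM p hp) hr).trans (hR p hp)
    have hpp : (0 : ℤ) < ((p ^ (padicValNat p g + 1) : ℕ) : ℤ) := by exact_mod_cast Nat.pos_of_ne_zero (hpos p hp)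
    have e2 : ((rp p % ((p ^ (padicValNat p g + 1) : ℕ) : ℤ)).toNat : ℤ) = rp p % ((p ^ (padicValNat p g + 1) : ℕ) : ℤ) :=
      Int.toNat_of_nonneg (Int.emod_nonneg _ hpp.ne')
    have e3 := (Int.natCast_modEq_iff.2 e1)
    rw [e2] at e3
    have e4 : (r : ℤ) ≡ rp p [ZMOD ((p ^ (padicValNat p g + 1) : ℕ) : ℤ)] := e3.trans (Int.mod_modEq _ _)
    have e5 := e4.symm.dvd
    push_cast at e5
    exact e5
  have hdiff : ∀ r : ℕ, r ≡ R [MOD M] → ∀ p ∈ P, ∀ k ≤ padicValNat p g + 1,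
      ((p : ℤ) ^ k ∣ d + q * r ↔ (p : ℤ) ^ k ∣ d + q * rp p) := by
    intro r hr p hp k hk
    have e1 := (pow_dvd_pow (p : ℤ) hk).trans (hcong r hr p hp)
    have e2 : d + q * r = (d + q * rp p) + q * ((r : ℤ) - rp p) := by ring
    rw [e2]
    exact Int.dvd_add_left (e1.mul_left _)
  have hunit : ∀ r : ℕ, r ≡ R [MOD M] → ∀ p ∈ P, ¬ (p : ℤ) ∣ (r : ℤ) := by
    intro r hr p hp hcon
    have e1 : (p : ℤ) ∣ (r : ℤ) - rp p := (dvd_pow_self (p : ℤ) (by omega)).trans (hcong r hr p hp)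
    have e2 : (p : ℤ) ∣ rp p := by
      have := dvd_sub hcon e1
      rwa [sub_sub_cancel] at this
    exact (hrp p (hPp p hp)).1 e2
  refine ⟨M, R, ?_, ?_, ?_, ?_, ?_⟩
  · rw [hM]; exact Nat.mul_pos hW1 hPpos
  · rw [hM, ← hW]
    calc W * ∏ p ∈ P, p ≤ W * (2 * W) := Nat.mul_le_mul_left _ (Nat.le_of_dvd (by omega) hPprod)
      _ = 2 * W ^ 2 := by ring
  · intro p hp hd
    have h1 := hMprime p hp hd
    rw [hP, Nat.mem_primeFactors] at h1
    rw [← hW]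
    exact h1.2.1
  · apply Nat.coprime_of_dvd
    intro p hp hd1 hd2
    exact hunit R rfl p (hMprime p hp hd2) (by exact_mod_cast hd1)
  · intro r hr
    have hgd : (g : ℤ) ∣ d + q * r := by
      rw [Int.natCast_dvd, Nat.dvd_iff_prime_pow_dvd_dvd]
      intro p k hp hk
      rcases Nat.eq_zero_or_pos k with h0 | h0
      · rw [h0, pow_zero]; exact one_dvd _
      have := Fact.mk hp
      have hpg : p ∣ g := (dvd_pow_self _ (by omega)).trans hk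
      have hpP := hPmem p hp ((hpg.trans hgW).mul_left _)
      have hkv : k ≤ padicValNat p g := (padicValNat_dvd_iff_le (by omega)).1 hk
      have e1 : (p : ℤ) ^ k ∣ d + q * rp p := (pow_dvd_pow _ hkv).trans (hrp p hp).2.1
      have e2 := (hdiff r hr p hpP k (by omega)).2 e1
      rw [← Int.natCast_dvd]
      exact_mod_cast e2
    obtain ⟨h, hh⟩ := hgd
    have hpowg : ∀ p : ℕ, (p : ℤ) ^ (padicValNat p g) ∣ (g : ℤ) := fun p => by exact_mod_cast pow_padicValNat_dvd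
    have key : ∀ p : ℕ, p.Prime → (p : ℤ) ∣ h → ¬ (p : ℤ) ∣ a * b := by
      intro p hp hph hpab
      have hpW : p ∣ W := by
        have : p ∣ (a * b).natAbs := Int.natCast_dvd.1 hpab
        rw [Int.natAbs_mul] at this
        rw [hW, mul_assoc]
        exact this.mul_left _
      have hpP := hPmem p hp (hpW.mul_left _)
      have e1 : (p : ℤ) ^ (padicValNat p g + 1) ∣ d + q * r := by
        rw [hh, pow_succ]
        exact mul_dvd_mul (hpowg p) hph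
      exact (hrp p hp).2.2.1 hpab ((hdiff r hr p hpP _ le_rfl).1 e1)
    refine ⟨h, hh, ?_, ?_, ?_⟩
    · rw [Int.isCoprime_iff_gcd_eq_one]
      apply Nat.coprime_of_dvd
      intro p hp hd1 hd2
      exact key p hp (Int.natCast_dvd.2 hd1) ((Int.natCast_dvd.2 hd2).mul_right _)
    · rw [Int.isCoprime_iff_gcd_eq_one]
      apply Nat.coprime_of_dvd
      intro p hp hd1 hd2
      exact key p hp (Int.natCast_dvd.2 hd1) ((Int.natCast_dvd.2 hd2).mul_left _)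
    · intro h2ab
      have hpP := hPmem 2 Nat.prime_two (dvd_mul_right _ _)
      have e1 := (hrp 2 Nat.prime_two).2.2.2 rfl (by exact_mod_cast h2ab)
      have e2 := (hdiff r hr 2 hpP _ le_rfl).2 e1
      obtain ⟨g', hg'⟩ := hpowg 2
      have e3 : ¬ (2 : ℤ) ∣ g' := by
        intro hcon
        have := Fact.mk Nat.prime_two
        have e4 : ((2 : ℕ) : ℤ) ^ (padicValNat 2 g + 1) ∣ (g : ℤ) := by
          conv_rhs => rw [hg']
          rw [pow_succ]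
          exact mul_dvd_mul_left _ (by exact_mod_cast hcon)
        have e5 : 2 ^ (padicValNat 2 g + 1) ∣ g := by exact_mod_cast e4
        exact pow_succ_padicValNat_not_dvd (by omega) e5
      rw [hh] at e2
      have e6 : ((2 : ℕ) : ℤ) ^ (padicValNat 2 g) * 2 ∣ ((2 : ℕ) : ℤ) ^ (padicValNat 2 g) * (g' * h) := by
        have e7 : (g : ℤ) * h = ((2 : ℕ) : ℤ) ^ (padicValNat 2 g) * (g' * h) := by
          conv_lhs => rw [hg']
          ring
        rw [e7, pow_succ] at e2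
        exact_mod_cast e2
      have e8 : (2 : ℤ) ∣ g' * h := (mul_dvd_mul_iff_left (by positivity)).1 e6
      exact (Int.prime_two.dvd_or_dvd e8).resolve_left e3



/-- the product of the common prime factors of `a` and `2 g` -/
def rad2 (a g : ℕ) : ℕ := ∏ p ∈ (Nat.gcd a (2 * g)).primeFactors, p

lemma rad2_pos (a g : ℕ) : 1 ≤ rad2 a g := by
  unfold rad2
  exact prod_pos fun p hp => (Nat.prime_of_mem_primeFactors hp).pos

lemma rad2_le {a g : ℕ} (hg : 1 ≤ g) : rad2 a g ≤ 2 * g := by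
  have h1 : rad2 a g ∣ Nat.gcd a (2 * g) := Nat.prod_primeFactors_dvd _
  exact Nat.le_of_dvd (by omega) (h1.trans (Nat.gcd_dvd_right _ _))

lemma dvd_rad2 {a g p : ℕ} (hg : 1 ≤ g) (hp : p.Prime) : p ∣ rad2 a g ↔ p ∣ a ∧ p ∣ 2 * g := by
  unfold rad2
  constructor
  · intro h
    have h1 : p ∣ Nat.gcd a (2 * g) := h.trans (Nat.prod_primeFactors_dvd _)
    exact ⟨h1.trans (Nat.gcd_dvd_left _ _), h1.trans (Nat.gcd_dvd_right _ _)⟩
  · rintro ⟨h1, h2⟩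
    apply dvd_prod_of_mem (fun p => p)
    rw [Nat.mem_primeFactors]
    exact ⟨hp, Nat.dvd_gcd h1 h2, (Nat.gcd_pos_of_pos_right _ (by omega)).ne'⟩

lemma int_dvd {p : ℕ} {a : ℕ} : (p : ℤ) ∣ (a : ℤ) ↔ p ∣ a := Int.natCast_dvd_natCast

theorem class6 (g α1 α2 : ℕ) (hg : 1 ≤ g) (hcop : α1.Coprime α2) (a3 d : ℤ)
    (hadm : Adm (g * α1 : ℕ) (g * α2 : ℕ) a3 d) :
    ∃ M R : ℕ, 1 ≤ M ∧ M ≤ 32 * g ^ 6 ∧ R.Coprime M ∧ (∀ p : ℕ, p.Prime → p ∣ M → p ∣ 2 * g) ∧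
      ∀ r : ℕ, r ≡ R [MOD M] → ∃ h : ℤ, d + a3 * r = g * h ∧
        (∀ p : ℕ, p.Prime → p ∣ 2 * g → p ∣ α1 * α2 → ¬ (p : ℤ) ∣ h) ∧ (¬ 2 ∣ α1 * α2 → (2 : ℤ) ∣ h) := by
  obtain ⟨a', ha'⟩ : ∃ a', a' = rad2 α1 g := ⟨_, rfl⟩
  obtain ⟨b', hb'⟩ : ∃ b', b' = rad2 α2 g := ⟨_, rfl⟩
  have ha1 : 1 ≤ a' := by rw [ha']; exact rad2_pos _ _
  have hb1 : 1 ≤ b' := by rw [hb']; exact rad2_pos _ _
  have ha2 : a' ≤ 2 * g := by rw [ha']; exact rad2_le hg
  have hb2 : b' ≤ 2 * g := by rw [hb']; exact rad2_le hg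
  have hda : ∀ p : ℕ, p.Prime → (p ∣ a' ↔ p ∣ α1 ∧ p ∣ 2 * g) := fun p hp => by rw [ha']; exact dvd_rad2 hg hp
  have hdb : ∀ p : ℕ, p.Prime → (p ∣ b' ↔ p ∣ α2 ∧ p ∣ 2 * g) := fun p hp => by rw [hb']; exact dvd_rad2 hg hp
  have hco : IsCoprime (a' : ℤ) (b' : ℤ) := by
    rw [Nat.isCoprime_iff_coprime]
    apply Nat.coprime_of_dvd
    intro p hp h1 h2
    have h3 := Nat.dvd_gcd ((hda p hp).1 h1).1 ((hdb p hp).1 h2).1
    rw [hcop] at h3
    exact hp.one_lt.ne' (Nat.dvd_one.1 h3)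
  have ta : ∀ p : ℕ, p.Prime → (p : ℤ) ∣ (g : ℤ) * (a' : ℤ) → (p : ℤ) ∣ ((g * α1 : ℕ) : ℤ) := by
    intro p hp h
    rw [← Nat.cast_mul, int_dvd] at h
    rw [int_dvd]
    rcases (Nat.Prime.dvd_mul hp).1 h with h1 | h1
    · exact h1.mul_right _
    · exact ((hda p hp).1 h1).1.mul_left _
  have tb : ∀ p : ℕ, p.Prime → (p : ℤ) ∣ (g : ℤ) * (b' : ℤ) → (p : ℤ) ∣ ((g * α2 : ℕ) : ℤ) := by
    intro p hp h
    rw [← Nat.cast_mul, int_dvd] at h
    rw [int_dvd]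
    rcases (Nat.Prime.dvd_mul hp).1 h with h1 | h1
    · exact h1.mul_right _
    · exact ((hdb p hp).1 h1).1.mul_left _
  have hpara : (g * a') % 2 = (g * α1) % 2 := by
    rcases Nat.even_or_odd g with h | h
    · obtain ⟨k, hk⟩ := h
      have e1 : 2 ∣ g * a' := ⟨k * a', by rw [hk]; ring⟩
      have e2 : 2 ∣ g * α1 := ⟨k * α1, by rw [hk]; ring⟩
      omega
    · have e1 : 2 ∣ a' ↔ 2 ∣ α1 := by
        rw [hda 2 Nat.prime_two]
        exact ⟨fun h => h.1, fun h => ⟨h, dvd_mul_right _ _⟩⟩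
      obtain ⟨k, hk⟩ := h
      rw [hk]
      have e2 : ((2 * k + 1) * a') % 2 = a' % 2 := by
        have : (2 * k + 1) * a' = a' + 2 * (k * a') := by ring
        rw [this]
        omega
      have e3 : ((2 * k + 1) * α1) % 2 = α1 % 2 := by
        have : (2 * k + 1) * α1 = α1 + 2 * (k * α1) := by ring
        rw [this]
        omega
      rw [e2, e3]
      omega
  have hparb : (g * b') % 2 = (g * α2) % 2 := by
    rcases Nat.even_or_odd g with h | h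
    · obtain ⟨k, hk⟩ := h
      have e1 : 2 ∣ g * b' := ⟨k * b', by rw [hk]; ring⟩
      have e2 : 2 ∣ g * α2 := ⟨k * α2, by rw [hk]; ring⟩
      omega
    · have e1 : 2 ∣ b' ↔ 2 ∣ α2 := by
        rw [hdb 2 Nat.prime_two]
        exact ⟨fun h => h.1, fun h => ⟨h, dvd_mul_right _ _⟩⟩
      obtain ⟨k, hk⟩ := h
      rw [hk]
      have e2 : ((2 * k + 1) * b') % 2 = b' % 2 := by
        have : (2 * k + 1) * b' = b' + 2 * (k * b') := by ring
        rw [this]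
        omega
      have e3 : ((2 * k + 1) * α2) % 2 = α2 % 2 := by
        have : (2 * k + 1) * α2 = α2 + 2 * (k * α2) := by ring
        rw [this]
        omega
      rw [e2, e3]
      omega
  have hpar : (2 : ℤ) ∣ (g : ℤ) * (a' : ℤ) + (g : ℤ) * (b' : ℤ) - a3 - d := by
    have h1 := hadm.par
    have e1 : ((g * a' : ℕ) : ℤ) % 2 = ((g * α1 : ℕ) : ℤ) % 2 := by omega
    have e2 : ((g * b' : ℕ) : ℤ) % 2 = ((g * α2 : ℕ) : ℤ) % 2 := by omega
    rw [← Nat.cast_mul, ← Nat.cast_mul]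
    omega
  obtain ⟨M, R, hM1, hM2, hM3, hRM, hloc⟩ := loc_class6 g hg (a' : ℤ) (b' : ℤ) a3 d (by exact_mod_cast (by omega : a' ≠ 0))
    (by exact_mod_cast (by omega : b' ≠ 0)) hco
    (fun p hp h => hadm.h1 p hp ⟨ta p hp h.1, tb p hp h.2.1, h.2.2⟩)
    (fun p hp h => hadm.h2 p hp ⟨h.1, ta p hp h.2.1, tb p hp h.2.2⟩)
    (fun p hp h => hadm.h3 p hp ⟨h.1, ta p hp h.2.1, h.2.2⟩)
    (fun p hp h => hadm.h4 p hp ⟨h.1, tb p hp h.2.1, h.2.2⟩) hpar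
  rw [Int.natAbs_natCast, Int.natAbs_natCast] at hM2 hM3
  refine ⟨M, R, hM1, ?_, hRM, ?_, ?_⟩
  · refine hM2.trans ?_
    calc 2 * (g * a' * b') ^ 2 ≤ 2 * (g * (2 * g) * (2 * g)) ^ 2 := by gcongr
      _ = 32 * g ^ 6 := by ring
  · intro p hp hd
    have h1 := hM3 p hp hd
    rcases (Nat.Prime.dvd_mul hp).1 h1 with h | h
    · exact h.mul_right _
    · rcases (Nat.Prime.dvd_mul hp).1 h with h | h
      · rcases (Nat.Prime.dvd_mul hp).1 h with h | h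
        · exact h.mul_left _
        · exact ((hda p hp).1 h).2
      · exact ((hdb p hp).1 h).2
  · intro r hr
    obtain ⟨h, h1, h2, h3, h4⟩ := hloc r hr
    refine ⟨h, h1, ?_, ?_⟩
    · intro p hp hpg hpα hph
      have hpi := Nat.prime_iff_prime_int.1 hp
      rcases (Nat.Prime.dvd_mul hp).1 hpα with h5 | h5
      · have h6 : (p : ℤ) ∣ (a' : ℤ) := int_dvd.2 ((hda p hp).2 ⟨h5, hpg⟩)
        exact hpi.not_isUnit (h2.isUnit_of_dvd' hph h6)
      · have h6 : (p : ℤ) ∣ (b' : ℤ) := int_dvd.2 ((hdb p hp).2 ⟨h5, hpg⟩)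
        exact hpi.not_isUnit (h3.isUnit_of_dvd' hph h6)
    · intro h5
      apply h4
      intro h6
      apply h5
      rcases Int.prime_two.dvd_or_dvd h6 with h7 | h7
      · have h8 : 2 ∣ a' := by exact_mod_cast h7
        exact ((hda 2 Nat.prime_two).1 h8).1.mul_right _
      · have h8 : 2 ∣ b' := by exact_mod_cast h7
        exact ((hdb 2 Nat.prime_two).1 h8).1.mul_left _

end Pool.Agent.Y883.T6
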