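import Pool.Agent.Y883.T6.Tern

set_option autoImplicit false

/-! Elementary properties of the sum over the solutions of a linear equation. -/

namespace Pool.Agent.Y883.T6

open Finset

lemma S3_swap (c1 c2 c3 d : ℤ) (P1 P2 P3 : ℕ) (g1 g2 g3 : ℕ → ℝ) :
    S3 c1 c2 c3 d P1 P2 P3 g1 g2 g3 = S3 c2 c1 c3 d P2 P1 P3 g2 g1 g3 := by
  unfold S3
  rw [sum_comm]
  apply sum_congr rfl
  intro y _
  apply sum_congr rfl
  intro x _
  apply sum_congr rfl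
  intro z _
  rw [add_comm (c1 * (x : ℕ)), mul_comm (g1 x)]

lemma S3_rot (c1 c2 c3 d : ℤ) (P1 P2 P3 : ℕ) (g1 g2 g3 : ℕ → ℝ) :
    S3 c1 c2 c3 d P1 P2 P3 g1 g2 g3 = S3 c2 c3 c1 d P2 P3 P1 g2 g3 g1 := by
  unfold S3
  rw [sum_comm]
  apply sum_congr rfl
  intro y _
  rw [sum_comm]
  apply sum_congr rfl
  intro z _
  apply sum_congr rfl
  intro x _
  have e : c1 * (x : ℕ) + c2 * (y : ℕ) + c3 * (z : ℕ) = c2 * (y : ℕ) + c3 * (z : ℕ) + c1 * (x : ℕ) := by ring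
  have e' : g1 x * g2 y * g3 z = g2 y * g3 z * g1 x := by ring
  rw [e, e']

lemma S3_neg (c1 c2 c3 d : ℤ) (P1 P2 P3 : ℕ) (g1 g2 g3 : ℕ → ℝ) :
    S3 (-c1) (-c2) (-c3) (-d) P1 P2 P3 g1 g2 g3 = S3 c1 c2 c3 d P1 P2 P3 g1 g2 g3 := by
  unfold S3
  apply sum_congr rfl
  intro x _
  apply sum_congr rfl
  intro y _
  apply sum_congr rfl
  intro z _
  have e : (-c1 * (x : ℕ) + -c2 * (y : ℕ) + -c3 * (z : ℕ) = -d) ↔ (c1 * (x : ℕ) + c2 * (y : ℕ) + c3 * (z : ℕ) = d) := by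
    constructor <;> intro h <;> linarith
  simp only [e]

lemma S3_sub1 (c1 c2 c3 d : ℤ) (P1 P2 P3 : ℕ) (g1 g1' g2 g3 : ℕ → ℝ) :
    S3 c1 c2 c3 d P1 P2 P3 (fun n => g1 n - g1' n) g2 g3 =
      S3 c1 c2 c3 d P1 P2 P3 g1 g2 g3 - S3 c1 c2 c3 d P1 P2 P3 g1' g2 g3 := by
  unfold S3
  rw [← sum_sub_distrib]
  apply sum_congr rfl
  intro x _
  rw [← sum_sub_distrib]
  apply sum_congr rfl
  intro y _
  rw [← sum_sub_distrib]
  apply sum_congr rfl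
  intro z _
  split_ifs <;> ring

/-- the solutions of a linear equation in two unknowns -/
lemma two_count {c2 c3 h : ℤ} {P2 P3 : ℕ} (hc3 : c3 ≠ 0) :
    ∑ y ∈ Icc 1 P2, ∑ z ∈ Icc 1 P3, (if c2 * (y : ℕ) + c3 * (z : ℕ) = h then (1 : ℝ) else 0) ≤
      P2 * (Nat.gcd c2.natAbs c3.natAbs : ℕ) / c3.natAbs + 1 := by
  classical
  obtain ⟨a3, ha3⟩ : ∃ a3, a3 = c3.natAbs := ⟨_, rfl⟩
  have ha31 : 1 ≤ a3 := by rw [ha3]; exact Int.natAbs_pos.2 hc3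
  have ha30 : (0 : ℝ) < a3 := by exact_mod_cast ha31
  obtain ⟨g, hg⟩ : ∃ g, g = Nat.gcd c2.natAbs a3 := ⟨_, rfl⟩
  have hg1 : 1 ≤ g := by rw [hg]; exact Nat.gcd_pos_of_pos_right _ ha31
  obtain ⟨w, b, hwb, e1, e2⟩ := Nat.exists_coprime c2.natAbs a3
  rw [← hg] at e1 e2
  have hb1 : 1 ≤ b := by
    rcases Nat.eq_zero_or_pos b with h0 | h0
    · rw [h0, zero_mul] at e2; omega
    · exact h0
  rw [← ha3, ← hg]
  obtain ⟨I, hI⟩ : ∃ I, I = (Icc 1 P2).filter (fun y : ℕ => c3 ∣ h - c2 * (y : ℕ)) := ⟨_, rfl⟩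
  have h1 : ∀ y ∈ Icc 1 P2, ∑ z ∈ Icc 1 P3, (if c2 * (y : ℕ) + c3 * (z : ℕ) = h then (1 : ℝ) else 0) ≤
      if c3 ∣ h - c2 * (y : ℕ) then 1 else 0 := by
    intro y _
    have hcf : ∑ z ∈ Icc 1 P3, (if c2 * (y : ℕ) + c3 * (z : ℕ) = h then (1 : ℝ) else 0) =
        (((Icc 1 P3).filter (fun z : ℕ => c2 * (y : ℕ) + c3 * (z : ℕ) = h)).card : ℝ) := by
      rw [card_filter, Nat.cast_sum]
      simp only [Nat.cast_ite, Nat.cast_one, Nat.cast_zero]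
    rw [hcf]
    · split_ifs with hd
      · have : ((Icc 1 P3).filter (fun z : ℕ => c2 * (y : ℕ) + c3 * (z : ℕ) = h)).card ≤ 1 := by
          rw [card_le_one]
          intro z hz z' hz'
          rw [mem_filter] at hz hz'
          have e : c3 * (z : ℕ) = c3 * (z' : ℕ) := by linarith [hz.2, hz'.2]
          have := mul_left_cancel₀ hc3 e
          exact_mod_cast this
        exact_mod_cast this
      · have : (Icc 1 P3).filter (fun z : ℕ => c2 * (y : ℕ) + c3 * (z : ℕ) = h) = ∅ := by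
          rw [filter_eq_empty_iff]
          intro z _ hz
          apply hd
          exact ⟨z, by linarith⟩
        rw [this]
        simp
  refine (sum_le_sum h1).trans ?_
  have h2 : ∑ y ∈ Icc 1 P2, (if c3 ∣ h - c2 * (y : ℕ) then (1 : ℝ) else 0) = (I.card : ℝ) := by
    rw [hI, card_filter]
    push_cast
    rfl
  rw [h2]
  have h3 : I.card ≤ (range (P2 / b + 1)).card := by
    apply card_le_card_of_injOn (fun y => y / b)
    · intro y hy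
      rw [mem_coe, hI, mem_filter, mem_Icc] at hy
      rw [mem_coe, mem_range, Nat.lt_succ_iff]
      exact Nat.div_le_div_right hy.1.2
    · intro y hy y' hy' hyy
      rw [mem_coe, hI, mem_filter] at hy hy'
      simp only at hyy
      have d1 : c3 ∣ c2 * ((y : ℤ) - y') := by
        have := dvd_sub hy'.2 hy.2
        have e : h - c2 * (y' : ℕ) - (h - c2 * (y : ℕ)) = c2 * ((y : ℤ) - y') := by ring
        rwa [e] at this
      have d2 : a3 ∣ c2.natAbs * ((y : ℤ) - y').natAbs := by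
        have := Int.natAbs_dvd_natAbs.2 d1
        rw [Int.natAbs_mul, ← ha3] at this
        exact this
      rw [e1, e2] at d2
      have d3 : b ∣ w * ((y : ℤ) - y').natAbs := by
        have e : w * g * ((y : ℤ) - y').natAbs = (w * ((y : ℤ) - y').natAbs) * g := by ring
        rw [e] at d2
        exact Nat.dvd_of_mul_dvd_mul_right hg1 d2
      have d4 : b ∣ ((y : ℤ) - y').natAbs := hwb.symm.dvd_of_dvd_mul_left d3
      have d5 : (b : ℤ) ∣ (y : ℤ) - y' := Int.natCast_dvd.2 d4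
      have d6 : y' % b = y % b := Nat.modEq_iff_dvd.2 d5
      rw [← Nat.div_add_mod y b, ← Nat.div_add_mod y' b, hyy, d6]
  rw [card_range] at h3
  have h4 : ((P2 / b : ℕ) : ℝ) ≤ P2 * g / a3 := by
    have e3 : ((P2 / b : ℕ) : ℝ) ≤ (P2 : ℝ) / b := Nat.cast_div_le
    refine e3.trans (le_of_eq ?_)
    have hb0 : (b : ℝ) ≠ 0 := by exact_mod_cast (by omega : b ≠ 0)
    have hg0 : (g : ℝ) ≠ 0 := by exact_mod_cast (by omega : g ≠ 0)
    have e4 : (a3 : ℝ) = b * g := by exact_mod_cast congrArg (fun x : ℕ => (x : ℝ)) e2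
    rw [e4]
    field_simp
  have h5 : (I.card : ℝ) ≤ ((P2 / b : ℕ) : ℝ) + 1 := by exact_mod_cast h3
  linarith

/-- the trivial bound -/
theorem triv {c1 c2 c3 d : ℤ} {P1 P2 P3 : ℕ} (hc3 : c3 ≠ 0) {e g2 g3 : ℕ → ℝ} {V E : ℝ} (hV : 0 ≤ V)
    (h2 : ∀ n ∈ Icc 1 P2, |g2 n| ≤ V) (h3 : ∀ n ∈ Icc 1 P3, |g3 n| ≤ V) (hE : ∑ n ∈ Icc 1 P1, |e n| ≤ E) :
    |S3 c1 c2 c3 d P1 P2 P3 e g2 g3| ≤ E * (V ^ 2 * (P2 * (Nat.gcd c2.natAbs c3.natAbs : ℕ) / c3.natAbs + 1)) := by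
  classical
  obtain ⟨B, hB⟩ : ∃ B : ℝ, B = P2 * (Nat.gcd c2.natAbs c3.natAbs : ℕ) / c3.natAbs + 1 := ⟨_, rfl⟩
  have hB0 : 0 ≤ B := by rw [hB]; positivity
  rw [← hB]
  unfold S3
  refine (abs_sum_le_sum_abs _ _).trans ?_
  have h4 : ∀ x ∈ Icc 1 P1, |∑ y ∈ Icc 1 P2, ∑ z ∈ Icc 1 P3,
      (if c1 * (x : ℕ) + c2 * (y : ℕ) + c3 * (z : ℕ) = d then e x * g2 y * g3 z else 0)| ≤ |e x| * (V ^ 2 * B) := by
    intro x _
    refine (abs_sum_le_sum_abs _ _).trans ?_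
    have h5 : ∀ y ∈ Icc 1 P2, |∑ z ∈ Icc 1 P3,
        (if c1 * (x : ℕ) + c2 * (y : ℕ) + c3 * (z : ℕ) = d then e x * g2 y * g3 z else 0)| ≤
        ∑ z ∈ Icc 1 P3, (|e x| * V ^ 2) * (if c2 * (y : ℕ) + c3 * (z : ℕ) = d - c1 * (x : ℕ) then (1 : ℝ) else 0) := by
      intro y hy
      refine (abs_sum_le_sum_abs _ _).trans (sum_le_sum fun z hz => ?_)
      by_cases hc : c1 * (x : ℕ) + c2 * (y : ℕ) + c3 * (z : ℕ) = d
      · rw [if_pos hc, if_pos (by linarith), mul_one, abs_mul, abs_mul, mul_assoc, pow_two]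
        apply mul_le_mul_of_nonneg_left _ (abs_nonneg _)
        exact mul_le_mul (h2 y hy) (h3 z hz) (abs_nonneg _) hV
      · rw [if_neg hc, if_neg (fun h => hc (by linarith)), abs_zero, mul_zero]
    refine (sum_le_sum h5).trans ?_
    simp_rw [← mul_sum]
    have h6 := two_count (c2 := c2) (c3 := c3) (h := d - c1 * (x : ℕ)) (P2 := P2) (P3 := P3) hc3
    rw [← hB] at h6
    calc |e x| * V ^ 2 * ∑ y ∈ Icc 1 P2, ∑ z ∈ Icc 1 P3, (if c2 * (y : ℕ) + c3 * (z : ℕ) = d - c1 * (x : ℕ) then (1 : ℝ) else 0)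
        ≤ |e x| * V ^ 2 * B := mul_le_mul_of_nonneg_left h6 (by positivity)
      _ = _ := by ring
  refine (sum_le_sum h4).trans ?_
  rw [← sum_mul]
  exact mul_le_mul_of_nonneg_right hE (by positivity)

end Pool.Agent.Y883.T6
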