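import Pool.Agent.Y883.T6.Good6
import Pool.Agent.Y883.T6.Triv

set_option autoImplicit false

/-! The main term of a linear equation in three unknowns is large. -/

namespace Pool.Agent.Y883.T6

open Finset
open Pool.Agent.H373R2.T7
open Pool.Agent.Y883.T3
open Pool.Agent.Y883.T5

lemma class_ge (M R r0 : ℕ) (hM : 1 ≤ M) : ∃ R', r0 ≤ R' ∧ R' < r0 + M ∧ R' ≡ R [MOD M] := by
  refine ⟨r0 + (R + (M - 1) * r0) % M, by omega, ?_, ?_⟩
  · have := Nat.mod_lt (R + (M - 1) * r0) (by omega : M > 0)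
    omega
  · have h1 : r0 + (R + (M - 1) * r0) % M ≡ r0 + (R + (M - 1) * r0) [MOD M] :=
      Nat.ModEq.add_left _ (Nat.mod_modEq _ _)
    refine h1.trans ?_
    obtain ⟨k, rfl⟩ : ∃ k, M = k + 1 := ⟨M - 1, by omega⟩
    have e : r0 + (R + (k + 1 - 1) * r0) = R + (k + 1) * r0 := by
      rw [Nat.add_sub_cancel]; ring
    rw [e]
    exact (Nat.modEq_iff_dvd' (by omega)).2 ⟨r0, by omega⟩ |>.symm

open Classical in
lemma PS_le {z : ℕ} {L : ℝ} (hL : 0 ≤ L) (hV : (Vz z)⁻¹ ≤ L) {g α1 α2 Y P1 P2 : ℕ} {h : ℤ} (hg : 1 ≤ g) (hα1 : 1 ≤ α1)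
    (hYP : Y ≤ P2) {m1 m2 : ℕ → ℝ} (hm1 : ∀ n, 0 ≤ m1 n) (hm2 : ∀ n, 0 ≤ m2 n)
    (hm1' : ∀ n, (∀ p ∈ pz z, ¬ p ∣ n) → 1 ≤ m1 n) (hm2' : ∀ n, (∀ p ∈ pz z, ¬ p ∣ n) → 1 ≤ m2 n)
    (hH : (g : ℤ) * h ≤ (g * α1 * P1 : ℕ)) :
    PS (lamzI z) (lamzI z) α1 (-(α2 : ℤ)) h Y ≤ L ^ 2 * ∑ y ∈ Icc 1 P2, ∑ x ∈ Icc 1 P1,
      (if ((g * α1 : ℕ) : ℤ) * (x : ℕ) + ((g * α2 : ℕ) : ℤ) * (y : ℕ) = g * h then m1 x * m2 y else 0) := by
  have hα0 : (0 : ℤ) < α1 := by exact_mod_cast hα1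
  have hg0 : (0 : ℤ) < g := by exact_mod_cast hg
  have hlz : ∀ (m : ℕ → ℝ) (hm : ∀ n, 0 ≤ m n) (hm' : ∀ n, (∀ p ∈ pz z, ¬ p ∣ n) → 1 ≤ m n) (n : ℕ),
      lamz z n ≤ L * m n := by
    intro m hm hm' n
    unfold lamz
    split_ifs with hc
    · calc (Vz z)⁻¹ ≤ L := hV
        _ = L * 1 := (mul_one L).symm
        _ ≤ L * m n := mul_le_mul_of_nonneg_left (hm' n hc) hL
    · exact mul_nonneg hL (hm n)
  have hlz0 : ∀ n, 0 ≤ lamz z n := by
    intro n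
    unfold lamz
    have := Vz_pos z
    split_ifs
    · exact (inv_pos.2 this).le
    · exact le_rfl
  have hinn : ∀ y, 0 ≤ ∑ x ∈ Icc 1 P1,
      (if ((g * α1 : ℕ) : ℤ) * (x : ℕ) + ((g * α2 : ℕ) : ℤ) * (y : ℕ) = g * h then m1 x * m2 y else 0) := by
    intro y
    apply sum_nonneg
    intro x _
    split_ifs
    · exact mul_nonneg (hm1 x) (hm2 y)
    · exact le_rfl
  have h1 : ∀ y ∈ Icc 1 Y, (if (α1 : ℤ) ∣ h + -(α2 : ℤ) * (y : ℕ) then
      lamzI z (y : ℕ) * lamzI z ((h + -(α2 : ℤ) * (y : ℕ)) / α1) else 0) ≤ L ^ 2 * ∑ x ∈ Icc 1 P1,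
      (if ((g * α1 : ℕ) : ℤ) * (x : ℕ) + ((g * α2 : ℕ) : ℤ) * (y : ℕ) = g * h then m1 x * m2 y else 0) := by
    intro y hy
    rw [mem_Icc] at hy
    have hnn : 0 ≤ L ^ 2 * ∑ x ∈ Icc 1 P1,
      (if ((g * α1 : ℕ) : ℤ) * (x : ℕ) + ((g * α2 : ℕ) : ℤ) * (y : ℕ) = g * h then m1 x * m2 y else 0) :=
      mul_nonneg (by positivity) (hinn y)
    split_ifs with hd
    · obtain ⟨x0, hx0⟩ := hd
      rw [hx0, Int.mul_ediv_cancel_left _ hα0.ne']
      by_cases hx1 : 1 ≤ x0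
      · obtain ⟨x, hx⟩ : ∃ x : ℕ, (x : ℤ) = x0 := ⟨x0.toNat, Int.toNat_of_nonneg (by omega)⟩
        rw [← hx] at hx0 hx1 ⊢
        have hxx : 1 ≤ x := by exact_mod_cast hx1
        have heq : ((g * α1 : ℕ) : ℤ) * (x : ℕ) + ((g * α2 : ℕ) : ℤ) * (y : ℕ) = g * h := by
          push_cast
          have : h = α1 * x + α2 * y := by linarith
          rw [this]
          ring
        have hxP : x ≤ P1 := by
          have h3 : ((g * α1 : ℕ) : ℤ) * (x : ℕ) ≤ ((g * α1 * P1 : ℕ) : ℤ) := by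
            refine le_trans ?_ hH
            rw [← heq]
            have : (0 : ℤ) ≤ ((g * α2 : ℕ) : ℤ) * (y : ℕ) := by positivity
            linarith
          have h4 : (g * α1) * x ≤ (g * α1) * P1 := by exact_mod_cast h3
          exact Nat.le_of_mul_le_mul_left h4 (Nat.mul_pos hg hα1)
        have e1 : lamzI z (y : ℕ) ≤ L * m2 y := by
          unfold lamzI
          rw [if_pos (by omega), Int.toNat_natCast]
          exact hlz m2 hm2 hm2' y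
        have e2 : lamzI z (x : ℕ) ≤ L * m1 x := by
          unfold lamzI
          rw [if_pos (by omega), Int.toNat_natCast]
          exact hlz m1 hm1 hm1' x
        have e3 : 0 ≤ lamzI z (x : ℕ) := by
          unfold lamzI
          rw [if_pos (by omega)]
          exact hlz0 _
        have e4 := single_le_sum (f := fun x : ℕ =>
          (if ((g * α1 : ℕ) : ℤ) * (x : ℕ) + ((g * α2 : ℕ) : ℤ) * (y : ℕ) = g * h then m1 x * m2 y else 0))
          (s := Icc 1 P1) (fun x _ => by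
            split_ifs
            · exact mul_nonneg (hm1 x) (hm2 y)
            · exact le_rfl) (mem_Icc.2 ⟨hxx, hxP⟩)
        rw [if_pos heq] at e4
        calc lamzI z (y : ℕ) * lamzI z (x : ℕ) ≤ (L * m2 y) * (L * m1 x) :=
              mul_le_mul e1 e2 e3 (mul_nonneg hL (hm2 y))
          _ = L ^ 2 * (m1 x * m2 y) := by ring
          _ ≤ _ := mul_le_mul_of_nonneg_left e4 (by positivity)
      · have e1 : lamzI z x0 = 0 := by
          unfold lamzI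
          rw [if_neg hx1]
        rw [e1, mul_zero]
        exact hnn
    · exact hnn
  unfold PS
  refine (sum_le_sum h1).trans ?_
  rw [← mul_sum]
  apply mul_le_mul_of_nonneg_left _ (by positivity)
  exact sum_le_sum_of_subset_of_nonneg (Icc_subset_Icc le_rfl hYP) (fun y _ _ => hinn y)

lemma card_primes (n : ℕ) (hn : 1 ≤ n) : (n.primeFactors.card : ℝ) ≤ 2 * Real.log n := by
  have h1 : 2 ^ n.primeFactors.card ≤ n := by
    calc 2 ^ n.primeFactors.card = ∏ _p ∈ n.primeFactors, 2 := by rw [prod_const]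
      _ ≤ ∏ p ∈ n.primeFactors, p := prod_le_prod (fun _ _ => by norm_num)
          (fun p hp => (Nat.prime_of_mem_primeFactors hp).two_le)
      _ ≤ n := Nat.le_of_dvd hn (Nat.prod_primeFactors_dvd n)
  have h2 : ((2 : ℝ)) ^ n.primeFactors.card ≤ n := by exact_mod_cast h1
  have h3 := Real.log_le_log (by positivity) h2
  rw [Real.log_pow] at h3
  have h4 : (1 / 2 : ℝ) < Real.log 2 := by have := Real.log_two_gt_d9; linarith
  have h5 : (0 : ℝ) ≤ n.primeFactors.card := Nat.cast_nonneg _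
  nlinarith

open Classical in
/-- the lower bound of the main term from the unknown with the negative coefficient -/
lemma low_sum {a1 a2 a3 : ℕ} {d : ℤ} {P1 P2 P3 : ℕ} {m1 m2 m3 : ℕ → ℝ} (hm1 : ∀ n, 0 ≤ m1 n) (hm2 : ∀ n, 0 ≤ m2 n)
    (hm3 : ∀ n, 0 ≤ m3 n) {M R : ℕ} (hM : 1 ≤ M) (Gd : Finset ℕ) (X : ℝ)
    (hGd : ∀ n ∈ Gd, 1 ≤ R + M * n ∧ R + M * n ≤ P3 ∧ 1 ≤ m3 (R + M * n) ∧
      X ≤ ∑ y ∈ Icc 1 P2, ∑ x ∈ Icc 1 P1,
        (if (a1 : ℤ) * (x : ℕ) + (a2 : ℤ) * (y : ℕ) = d + a3 * ((R + M * n : ℕ) : ℤ) then m1 x * m2 y else 0)) :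
    (Gd.card : ℝ) * X ≤ S3 a1 a2 (-(a3 : ℤ)) d P1 P2 P3 m1 m2 m3 := by
  rw [← S3_rot (-(a3 : ℤ)) a1 a2 d P3 P1 P2 m3 m1 m2]
  unfold S3
  obtain ⟨F, hF⟩ : ∃ F : ℕ → ℝ, F = fun r => ∑ x ∈ Icc 1 P1, ∑ y ∈ Icc 1 P2,
    (if -(a3 : ℤ) * (r : ℕ) + a1 * (x : ℕ) + a2 * (y : ℕ) = d then m3 r * m1 x * m2 y else 0) := ⟨_, rfl⟩
  have hF0 : ∀ r, 0 ≤ F r := by
    intro r
    rw [hF]
    apply sum_nonneg
    intro x _
    apply sum_nonneg
    intro y _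
    split_ifs
    · exact mul_nonneg (mul_nonneg (hm3 r) (hm1 x)) (hm2 y)
    · exact le_rfl
  have hFn : ∀ n ∈ Gd, X ≤ F (R + M * n) := by
    intro n hn
    obtain ⟨h1, h2, h3, h4⟩ := hGd n hn
    rw [sum_comm] at h4
    refine h4.trans ?_
    rw [hF]
    apply sum_le_sum
    intro x _
    apply sum_le_sum
    intro y _
    by_cases hc : (a1 : ℤ) * (x : ℕ) + (a2 : ℤ) * (y : ℕ) = d + a3 * ((R + M * n : ℕ) : ℤ)
    · rw [if_pos hc, if_pos (by linarith), mul_assoc]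
      exact le_mul_of_one_le_left (mul_nonneg (hm1 x) (hm2 y)) h3
    · rw [if_neg hc, if_neg (fun h => hc (by linarith))]
  have hinj : Set.InjOn (fun n : ℕ => R + M * n) (Gd : Set ℕ) := by
    intro x _ y _ hxy
    simp only at hxy
    exact Nat.eq_of_mul_eq_mul_left hM (Nat.add_left_cancel hxy)
  have hsub : Gd.image (fun n : ℕ => R + M * n) ⊆ Icc 1 P3 := by
    intro r hr
    rw [mem_image] at hr
    obtain ⟨n, hn, rfl⟩ := hr
    obtain ⟨h1, h2, _⟩ := hGd n hn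
    exact mem_Icc.2 ⟨h1, h2⟩
  calc (Gd.card : ℝ) * X = ∑ _n ∈ Gd, X := by rw [sum_const, nsmul_eq_mul]
    _ ≤ ∑ n ∈ Gd, F (R + M * n) := sum_le_sum hFn
    _ = ∑ r ∈ Gd.image (fun n : ℕ => R + M * n), F r := by rw [sum_image hinj]
    _ ≤ ∑ r ∈ Icc 1 P3, F r := sum_le_sum_of_subset_of_nonneg hsub (fun r _ _ => hF0 r)
    _ = _ := by rw [hF]

end Pool.Agent.Y883.T6
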