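import Pool.Agent.Y883.T6.Fin6

set_option autoImplicit false

/-! Linear equations in three primes with one large coefficient: the exceptional coefficients. -/

namespace Pool.Agent.Y883.T6

open Finset
open Pool.Agent.Y883.T3 (ev_log_rpow)
open Pool.Agent.Y883.T5 (Admissible)

/-- the quotients larger than `κ` of the members of `D` by smaller numbers -/
def Dq (D : Set ℕ) (κ : ℕ) : Set ℕ := {e | κ < e ∧ ∃ g, 1 ≤ g ∧ g ≤ e ∧ g * e ∈ D}

open Classical in
lemma Dq_card {D : Set ℕ} (κ : ℕ)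
    (hD : ∀ ε : ℝ, 0 < ε → ∃ X₀ : ℕ, ∀ X : ℕ, X₀ ≤ X → (((Icc 1 X).filter (fun e => e ∈ D)).card : ℝ) ≤ (X : ℝ) ^ ε)
    (ε : ℝ) (hε : 0 < ε) : ∃ X₀ : ℕ, ∀ X : ℕ, X₀ ≤ X →
      (((Icc 1 X).filter (fun e => e ∈ Dq D κ)).card : ℝ) ≤ (X : ℝ) ^ ε := by
  obtain ⟨C, hC0, hC⟩ := Pool.Agent.Helper112.divisor_bound (ε / 8) (by positivity)
  obtain ⟨X₁, h1⟩ := hD (ε / 8) (by positivity)
  obtain ⟨X₂, h2⟩ := ev_log_rpow 0 C (ε / 2) (by positivity)
  refine ⟨X₁ + X₂ + 1, fun X hX => ?_⟩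
  have hX0 : (0 : ℝ) < X := by exact_mod_cast (by omega : 0 < X)
  have hsub : (Icc 1 X).filter (fun e => e ∈ Dq D κ) ⊆
      ((Icc 1 (X * X)).filter (fun e => e ∈ D)).biUnion (fun e => e.divisors) := by
    intro e he
    rw [mem_filter, mem_Icc] at he
    obtain ⟨⟨e1, e2⟩, e3, g, g1, g2, g3⟩ := he
    rw [mem_biUnion]
    refine ⟨g * e, ?_, ?_⟩
    · rw [mem_filter, mem_Icc]
      exact ⟨⟨Nat.mul_pos g1 e1, Nat.mul_le_mul (g2.trans e2) e2⟩, g3⟩
    · rw [Nat.mem_divisors]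
      exact ⟨Dvd.intro_left g rfl, (Nat.mul_pos g1 e1).ne'⟩
  have h3 := (card_le_card hsub).trans card_biUnion_le
  have h4 : (((Icc 1 X).filter (fun e => e ∈ Dq D κ)).card : ℝ) ≤
      ∑ e ∈ (Icc 1 (X * X)).filter (fun e => e ∈ D), (e.divisors.card : ℝ) := by
    exact_mod_cast h3
  refine h4.trans ?_
  have hXX : ((X * X : ℕ) : ℝ) ^ (ε / 8) = (X : ℝ) ^ (ε / 4) := by
    have : ((X * X : ℕ) : ℝ) = (X : ℝ) ^ (2 : ℝ) := by
      push_cast
      rw [Real.rpow_two, sq]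
    rw [this, ← Real.rpow_mul hX0.le]
    congr 1
    ring
  have h5 : ∀ e ∈ (Icc 1 (X * X)).filter (fun e => e ∈ D), (e.divisors.card : ℝ) ≤ C * (X : ℝ) ^ (ε / 4) := by
    intro e he
    rw [mem_filter, mem_Icc] at he
    refine (hC e he.1.1).trans (mul_le_mul_of_nonneg_left ?_ hC0.le)
    rw [← hXX]
    exact Real.rpow_le_rpow (Nat.cast_nonneg _) (by exact_mod_cast he.1.2) (by positivity)
  refine (sum_le_sum h5).trans ?_
  rw [sum_const, nsmul_eq_mul]
  have h6 := h1 (X * X) (by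
    have : X ≤ X * X := Nat.le_mul_of_pos_left X (by omega)
    omega)
  rw [hXX] at h6
  have h7 := h2 X (by omega)
  rw [pow_zero, mul_one] at h7
  calc _ ≤ (X : ℝ) ^ (ε / 4) * (C * (X : ℝ) ^ (ε / 4)) := mul_le_mul_of_nonneg_right h6 (by positivity)
    _ = C * (X : ℝ) ^ (ε / 2) := by
        rw [mul_left_comm, ← Real.rpow_add hX0]
        ring_nf
    _ ≤ (X : ℝ) ^ (ε / 2) * (X : ℝ) ^ (ε / 2) := mul_le_mul_of_nonneg_right h7 (by positivity)
    _ = (X : ℝ) ^ ε := by rw [← Real.rpow_add hX0]; ring_nf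

/-- a divisor of a product with a small factor -/
lemma quot_dvd {e b c : ℕ} (hb : 1 ≤ b) (h : e ∣ b * c) :
    ∃ g e' : ℕ, 1 ≤ g ∧ g ≤ b ∧ g * e' = e ∧ e' ∣ c := by
  obtain ⟨k1, k2, g1, g2, g3⟩ := (Nat.dvd_mul).1 h
  exact ⟨k1, k2, Nat.pos_of_dvd_of_pos g1 hb, Nat.le_of_dvd hb g1, g3, g2⟩

open Classical in
theorem one6 : ∃ D : Set ℕ,
    (∀ X : ℕ, 1 ≤ X → (((Icc 1 X).filter (fun e => e ∈ D)).card : ℝ) ≤ (X : ℝ) ^ (1 / 4 : ℝ)) ∧
    (∀ ε : ℝ, 0 < ε → ∃ X₀ : ℕ, ∀ X : ℕ, X₀ ≤ X → (((Icc 1 X).filter (fun e => e ∈ D)).card : ℝ) ≤ (X : ℝ) ^ ε) ∧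
    ∀ θ : ℝ, 1 < θ → ∀ η : ℝ, 0 < η → ∀ T : ℕ, ∃ (c₀ : ℕ) (F : Set ℕ),
      (∀ X : ℕ, c₀ ≤ X → (((Icc 1 X).filter (fun n => n ∈ F)).card : ℝ) ≤ (X : ℝ) ^ (2 - θ + η)) ∧
      (3 / 2 < θ → F = ∅) ∧
      ∀ a b c d : ℤ, Admissible a b c d → c₀ ≤ c.natAbs → c.natAbs ∉ F →
        (∀ e ∈ D, Real.log |(c : ℝ)| ^ T < (e : ℝ) → ¬ (e : ℤ) ∣ c) →
        |(a : ℝ)| ≤ Real.log |(c : ℝ)| ^ T → |(b : ℝ)| ≤ Real.log |(c : ℝ)| ^ T →
        ∃ p q r : ℕ, p.Prime ∧ q.Prime ∧ r.Prime ∧ a * p + b * q + c * r = d ∧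
          ((max p (max q r) : ℕ) : ℝ) ≤ 3 * |(d : ℝ)| + |(c : ℝ)| ^ θ := by
  obtain ⟨D, hD4, hDε, hmain⟩ := main6
  obtain ⟨κ, hκ⟩ := Dq_card (D := D) 0 hDε (1 / 4) (by norm_num)
  refine ⟨Dq D κ, ?_, Dq_card κ hDε, ?_⟩
  · intro X hX
    rcases lt_or_ge X κ with h | h
    · have h0 : (Icc 1 X).filter (fun e => e ∈ Dq D κ) = ∅ := by
        rw [filter_eq_empty_iff]
        intro e he he'
        rw [mem_Icc] at he
        have := he'.1
        omega
      rw [h0, card_empty, Nat.cast_zero]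
      positivity
    · refine le_trans ?_ (hκ X h)
      exact_mod_cast card_le_card (by
        intro e he
        rw [mem_filter, mem_Icc] at he
        rw [mem_filter, mem_Icc]
        exact ⟨he.1, by omega, he.2.2⟩)
  · intro θ hθ η hη T
    -- the parameters
    obtain ⟨ρ, hρ0, hρ1, hρ2, hρ3⟩ : ∃ ρ : ℝ, 0 < ρ ∧ ρ ≤ (θ - 1) / 2 ∧ ρ ≤ min η 1 / 4 ∧ (3 / 2 < θ → ρ < θ - 3 / 2) := by
      by_cases h : 3 / 2 < θ
      · refine ⟨min ((θ - 1) / 2) (min (min η 1 / 4) ((θ - 3 / 2) / 2)), ?_, min_le_left _ _,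
          (min_le_right _ _).trans (min_le_left _ _), fun _ => ?_⟩
        · exact lt_min (by linarith) (lt_min (by positivity) (by linarith))
        · exact lt_of_le_of_lt ((min_le_right _ _).trans (min_le_right _ _)) (by linarith)
      · refine ⟨min ((θ - 1) / 2) (min η 1 / 4), lt_min (by linarith) (by positivity), min_le_left _ _,
          min_le_right _ _, fun h' => absurd h' h⟩
    have hη1 : min η 1 ≤ 1 := min_le_right _ _
    have hηη : min η 1 ≤ η := min_le_left _ _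
    obtain ⟨Δ₀, F, hF1, hF2, hF3⟩ := hmain (θ - ρ) (by linarith) (min η 1 / 4) (by positivity) (2 * T + 1)
    obtain ⟨N₁, h1⟩ := ev_log_rpow T 1 (ρ / θ) (by positivity)
    obtain ⟨N₂, h2⟩ := ev_log_rpow (3 * T) 1 (min η 1 / 4) (by positivity)
    obtain ⟨N₃, h3⟩ := exists_nat_ge (Real.exp (κ + 1))
    obtain ⟨N₄, h4⟩ := ev_log_rpow T 1 1 (by norm_num)
    obtain ⟨F', hF'⟩ : ∃ F' : Set ℕ, F' = {n : ℕ | ∃ b : ℕ, 1 ≤ b ∧ (b : ℝ) ≤ Real.log n ^ T ∧ n * b ∈ F} := ⟨_, rfl⟩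
    have hlogn : ∀ n : ℕ, N₃ ≤ n → 1 ≤ n → (κ : ℝ) + 1 ≤ Real.log n := by
      intro n hn hn1
      rw [Real.le_log_iff_exp_le (by exact_mod_cast hn1)]
      exact h3.trans (by exact_mod_cast hn)
    refine ⟨Δ₀ + N₁ + N₂ + N₃ + N₄ + 1, F', ?_, ?_, ?_⟩
    · intro X hX
      by_cases h : 3 / 2 < θ
      · have hFe : F = ∅ := hF2 (by have := hρ3 h; linarith)
        have h0 : (Icc 1 X).filter (fun n => n ∈ F') = ∅ := by
          rw [filter_eq_empty_iff]
          intro n _ hn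
          rw [hF', hFe] at hn
          obtain ⟨b, _, _, hb⟩ := hn
          exact hb
        rw [h0, card_empty, Nat.cast_zero]
        positivity
      push Not at h
      have hX1 : 1 ≤ X := by omega
      have hX0 : (0 : ℝ) < X := by exact_mod_cast hX1
      obtain ⟨L, hL⟩ : ∃ L, L = Real.log X := ⟨_, rfl⟩
      have hL1 : 1 ≤ L := by
        have := hlogn X (by omega) hX1
        have h0 : (0 : ℝ) ≤ κ := Nat.cast_nonneg _
        rw [hL]
        linarith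
      obtain ⟨K, hK⟩ : ∃ K, K = ⌊L ^ T⌋₊ := ⟨_, rfl⟩
      have hKr : (K : ℝ) ≤ L ^ T := by rw [hK]; exact Nat.floor_le (by positivity)
      have hK1 : 1 ≤ K := by rw [hK]; exact Nat.le_floor (by rw [Nat.cast_one]; exact one_le_pow₀ hL1)
      have hsub : (Icc 1 X).filter (fun n => n ∈ F') ⊆ (Icc 1 K).biUnion
          (fun b => (Icc 1 X).filter (fun n => n * b ∈ F)) := by
        intro n hn
        rw [mem_filter, mem_Icc, hF'] at hn
        obtain ⟨⟨n1, n2⟩, b, b1, b2, b3⟩ := hn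
        rw [mem_biUnion]
        refine ⟨b, ?_, ?_⟩
        · rw [mem_Icc, hK]
          refine ⟨b1, Nat.le_floor (b2.trans ?_)⟩
          apply pow_le_pow_left₀ (Real.log_nonneg (by exact_mod_cast n1))
          rw [hL]
          exact Real.log_le_log (by exact_mod_cast n1) (by exact_mod_cast n2)
        · rw [mem_filter, mem_Icc]
          exact ⟨⟨n1, n2⟩, b3⟩
      have h5 := (card_le_card hsub).trans card_biUnion_le
      have h6 : (((Icc 1 X).filter (fun n => n ∈ F')).card : ℝ) ≤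
          ∑ b ∈ Icc 1 K, (((Icc 1 X).filter (fun n => n * b ∈ F)).card : ℝ) := by exact_mod_cast h5
      refine h6.trans ?_
      have hσ0 : 0 ≤ 2 - (θ - ρ) + min η 1 / 4 := by
        have : 0 ≤ min η 1 / 4 := by positivity
        linarith
      have hσ2 : 2 - (θ - ρ) + min η 1 / 4 ≤ 2 := by linarith
      have h7 : ∀ b ∈ Icc 1 K, (((Icc 1 X).filter (fun n => n * b ∈ F)).card : ℝ) ≤
          (L ^ T) ^ 2 * (X : ℝ) ^ (2 - (θ - ρ) + min η 1 / 4) := by
        intro b hb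
        rw [mem_Icc] at hb
        have e1 : ((Icc 1 X).filter (fun n => n * b ∈ F)).card ≤ ((Icc 1 (X * K)).filter (fun q => q ∈ F)).card := by
          apply card_le_card_of_injOn (fun n => n * b)
          · intro n hn
            rw [mem_coe, mem_filter, mem_Icc] at hn
            rw [mem_coe, mem_filter, mem_Icc]
            exact ⟨⟨Nat.mul_pos hn.1.1 hb.1, Nat.mul_le_mul hn.1.2 hb.2⟩, hn.2⟩
          · intro n _ n' _ hnn
            exact Nat.eq_of_mul_eq_mul_right hb.1 hnn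
        have e2 : X ≤ X * K := Nat.le_mul_of_pos_right _ hK1
        have e3 := hF1 (X * K) (by omega)
        have e4 : (((Icc 1 X).filter (fun n => n * b ∈ F)).card : ℝ) ≤
            (((Icc 1 (X * K)).filter (fun q => q ∈ F)).card : ℝ) := by exact_mod_cast e1
        refine e4.trans (e3.trans ?_)
        push_cast
        rw [Real.mul_rpow hX0.le (Nat.cast_nonneg _), mul_comm]
        apply mul_le_mul_of_nonneg_right _ (by positivity)
        have hLT : 1 ≤ L ^ T := one_le_pow₀ hL1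
        calc (K : ℝ) ^ (2 - (θ - ρ) + min η 1 / 4) ≤ (L ^ T) ^ (2 - (θ - ρ) + min η 1 / 4) :=
              Real.rpow_le_rpow (Nat.cast_nonneg _) hKr hσ0
          _ ≤ (L ^ T) ^ (2 : ℝ) := Real.rpow_le_rpow_of_exponent_le hLT hσ2
          _ = (L ^ T) ^ 2 := by rw [Real.rpow_two]
      refine (sum_le_sum h7).trans ?_
      rw [sum_const, Nat.card_Icc, Nat.add_sub_cancel, nsmul_eq_mul]
      have e5 := h2 X (by omega)
      rw [← hL, one_mul] at e5
      calc (K : ℝ) * ((L ^ T) ^ 2 * (X : ℝ) ^ (2 - (θ - ρ) + min η 1 / 4)) ≤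
            L ^ T * ((L ^ T) ^ 2 * (X : ℝ) ^ (2 - (θ - ρ) + min η 1 / 4)) :=
            mul_le_mul_of_nonneg_right hKr (by positivity)
        _ = L ^ (3 * T) * (X : ℝ) ^ (2 - (θ - ρ) + min η 1 / 4) := by
            rw [mul_comm 3 T, pow_mul]
            ring
        _ ≤ (X : ℝ) ^ (min η 1 / 4) * (X : ℝ) ^ (2 - (θ - ρ) + min η 1 / 4) :=
            mul_le_mul_of_nonneg_right e5 (by positivity)
        _ = (X : ℝ) ^ (min η 1 / 4 + (2 - (θ - ρ) + min η 1 / 4)) := (Real.rpow_add hX0 _ _).symm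
        _ ≤ (X : ℝ) ^ (2 - θ + η) := by
            apply Real.rpow_le_rpow_of_exponent_le (by exact_mod_cast hX1)
            have : 0 < min η 1 := by positivity
            linarith
    · intro h
      have hFe : F = ∅ := hF2 (by have := hρ3 h; linarith)
      rw [hF', Set.eq_empty_iff_forall_notMem]
      rintro n ⟨b, _, _, hb⟩
      rw [hFe] at hb
      exact hb
    · intro a b c d hadm hc hcF hcD ha hb
      obtain ⟨n, hn⟩ : ∃ n, n = c.natAbs := ⟨_, rfl⟩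
      have hnr : |(c : ℝ)| = (n : ℝ) := by
        rw [hn, Nat.cast_natAbs]
        push_cast
        rfl
      rw [hnr] at hcD ha hb ⊢
      rw [← hn] at hc hcF
      have hn1 : 1 ≤ n := by omega
      have hn0 : (0 : ℝ) < n := by exact_mod_cast hn1
      obtain ⟨L, hL⟩ : ∃ L, L = Real.log n := ⟨_, rfl⟩
      have hLκ := hlogn n (by omega) hn1
      rw [← hL] at hLκ ha hb hcD
      have hL1 : 1 ≤ L := by
        have h0 : (0 : ℝ) ≤ κ := Nat.cast_nonneg _
        linarith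
      have hL0 : 0 < L := by linarith
      obtain ⟨Δ, hΔ⟩ : ∃ Δ, Δ = max (a * b).natAbs (max (b * c).natAbs (c * a).natAbs) := ⟨_, rfl⟩
      have ha1 : 1 ≤ a.natAbs := Int.natAbs_pos.2 hadm.a_ne
      have hb1 : 1 ≤ b.natAbs := Int.natAbs_pos.2 hadm.b_ne
      have har : ((a.natAbs : ℕ) : ℝ) ≤ L ^ T := by
        rw [Nat.cast_natAbs]
        push_cast
        exact ha
      have hbr : ((b.natAbs : ℕ) : ℝ) ≤ L ^ T := by
        rw [Nat.cast_natAbs]
        push_cast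
        exact hb
      have hnΔ : n ≤ Δ := by
        have e1 : n ≤ (b * c).natAbs := by
          rw [Int.natAbs_mul, ← hn]
          exact Nat.le_mul_of_pos_left _ hb1
        rw [hΔ]
        exact e1.trans ((le_max_left _ _).trans (le_max_right _ _))
      have hΔ0 : (0 : ℝ) < Δ := by exact_mod_cast (by omega : 0 < Δ)
      have hLΔ : L ≤ Real.log Δ := by
        rw [hL]
        exact Real.log_le_log hn0 (by exact_mod_cast hnΔ)
      have hLT : L ^ (2 * T + 1) ≤ Real.log Δ ^ (2 * T + 1) := pow_le_pow_left₀ hL0.le hLΔ _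
      have hLTT : L ^ T ≤ L ^ (2 * T + 1) := pow_le_pow_right₀ hL1 (by omega)
      have hLn : L ^ T ≤ n := by
        have := h4 n (by omega)
        rwa [one_mul, Real.rpow_one, ← hL] at this
      have hΔle : (Δ : ℝ) ≤ n * L ^ T := by
        have e1 : (((a * b).natAbs : ℕ) : ℝ) ≤ n * L ^ T := by
          rw [Int.natAbs_mul]
          push_cast
          exact mul_le_mul (har.trans hLn) hbr (Nat.cast_nonneg _) hn0.le
        have e2 : (((b * c).natAbs : ℕ) : ℝ) ≤ n * L ^ T := by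
          rw [Int.natAbs_mul, ← hn]
          push_cast
          rw [mul_comm]
          exact mul_le_mul_of_nonneg_left hbr hn0.le
        have e3 : (((c * a).natAbs : ℕ) : ℝ) ≤ n * L ^ T := by
          rw [Int.natAbs_mul, ← hn]
          push_cast
          exact mul_le_mul_of_nonneg_left har hn0.le
        rw [hΔ, Nat.cast_max, Nat.cast_max]
        exact max_le e1 (max_le e2 e3)
      -- a small factor and the large coefficient
      have hspar : ∀ u : ℕ, 1 ≤ u → (u : ℝ) ≤ L ^ T → ∀ e ∈ D, Real.log Δ ^ (2 * T + 1) < (e : ℝ) → ¬ e ∣ u * n := by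
        intro u hu huL e he heL hdvd
        have he1 : (1 : ℝ) ≤ e := by
          have : (1 : ℝ) ≤ L ^ (2 * T + 1) := one_le_pow₀ hL1
          linarith
        obtain ⟨g, e', g1, g2, g3, g4⟩ := quot_dvd hu hdvd
        have hgr : (g : ℝ) ≤ L ^ T := (by exact_mod_cast g2 : (g : ℝ) ≤ u).trans huL
        have heq : (e : ℝ) = g * e' := by rw [← g3]; push_cast; ring
        have he0 : (0 : ℝ) ≤ e' := Nat.cast_nonneg _
        have h5 : L ^ T * L ^ (T + 1) < L ^ T * e' := by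
          calc L ^ T * L ^ (T + 1) = L ^ (2 * T + 1) := by rw [← pow_add]; congr 1; ring
            _ ≤ Real.log Δ ^ (2 * T + 1) := hLT
            _ < e := heL
            _ = g * e' := heq
            _ ≤ L ^ T * e' := mul_le_mul_of_nonneg_right hgr he0
        have h6 : L ^ (T + 1) < e' := lt_of_mul_lt_mul_left h5 (by positivity)
        have h7 : L ^ T ≤ L ^ (T + 1) := pow_le_pow_right₀ hL1 (by omega)
        have h8 : L ≤ L ^ (T + 1) := le_self_pow₀ hL1 (by omega)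
        apply hcD e' _ (by linarith)
        · rw [Int.natCast_dvd, ← hn]
          exact g4
        · refine ⟨?_, g, g1, ?_, by rw [g3]; exact he⟩
          · have : (κ : ℝ) < e' := by linarith
            exact_mod_cast this
          · have : (g : ℝ) ≤ e' := by linarith
            exact_mod_cast this
      have hmem : ∀ u : ℕ, 1 ≤ u → (u : ℝ) ≤ L ^ T → n * u ∉ F := by
        intro u hu huL hcon
        apply hcF
        rw [hF']
        exact ⟨u, hu, by rw [← hL]; exact huL, hcon⟩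
      have hab : GoodPair (2 * T + 1) D F Δ a b := by
        have hle : (((a * b).natAbs : ℕ) : ℝ) ≤ Real.log Δ ^ (2 * T + 1) := by
          rw [Int.natAbs_mul]
          push_cast
          calc ((a.natAbs : ℕ) : ℝ) * ((b.natAbs : ℕ) : ℝ) ≤ L ^ T * L ^ T :=
                mul_le_mul har hbr (Nat.cast_nonneg _) (by positivity)
            _ = L ^ (2 * T) := by rw [← pow_add]; congr 1; ring
            _ ≤ L ^ (2 * T + 1) := pow_le_pow_right₀ hL1 (by omega)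
            _ ≤ _ := hLT
        refine ⟨?_, ?_, fun h5 => absurd h5 (not_lt.2 hle)⟩
        · have e1 : Int.gcd a b ≤ a.natAbs := Nat.gcd_le_left _ ha1
          have e2 : ((Int.gcd a b : ℕ) : ℝ) ≤ L ^ T := (by exact_mod_cast e1 : ((Int.gcd a b : ℕ) : ℝ) ≤ a.natAbs).trans har
          exact e2.trans (hLTT.trans hLT)
        · intro e he heL hdvd
          rw [Int.natCast_dvd] at hdvd
          have e1 : e ≤ (a * b).natAbs := by
            apply Nat.le_of_dvd _ hdvd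
            rw [Int.natAbs_mul]
            exact Nat.mul_pos ha1 hb1
          have e2 : (e : ℝ) ≤ ((a * b).natAbs : ℕ) := by exact_mod_cast e1
          linarith
      have hbc : GoodPair (2 * T + 1) D F Δ b c := by
        refine ⟨?_, ?_, fun _ => ?_⟩
        · have e1 : Int.gcd b c ≤ b.natAbs := Nat.gcd_le_left _ hb1
          have e2 : ((Int.gcd b c : ℕ) : ℝ) ≤ L ^ T := (by exact_mod_cast e1 : ((Int.gcd b c : ℕ) : ℝ) ≤ b.natAbs).trans hbr
          exact e2.trans (hLTT.trans hLT)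
        · intro e he heL hdvd
          rw [Int.natCast_dvd, Int.natAbs_mul, ← hn] at hdvd
          exact hspar _ hb1 hbr e he heL hdvd
        · rw [Int.natAbs_mul, ← hn, mul_comm]
          exact hmem _ hb1 hbr
      have hca : GoodPair (2 * T + 1) D F Δ c a := by
        refine ⟨?_, ?_, fun _ => ?_⟩
        · have e1 : Int.gcd c a ≤ a.natAbs := by
            rw [Int.gcd_comm]
            exact Nat.gcd_le_left _ ha1
          have e2 : ((Int.gcd c a : ℕ) : ℝ) ≤ L ^ T := (by exact_mod_cast e1 : ((Int.gcd c a : ℕ) : ℝ) ≤ a.natAbs).trans har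
          exact e2.trans (hLTT.trans hLT)
        · intro e he heL hdvd
          rw [Int.natCast_dvd, Int.natAbs_mul, ← hn, mul_comm] at hdvd
          exact hspar _ ha1 har e he heL hdvd
        · rw [Int.natAbs_mul, ← hn]
          exact hmem _ ha1 har
      have hsol := hF3 a b c d hadm Δ hΔ (by omega) hab hbc hca
      apply hsol.bound hadm.a_ne hadm.b_ne hadm.c_ne
      have hθρ : 0 < θ - ρ := by linarith
      have h5 := h1 n (by omega)
      rw [one_mul, ← hL] at h5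
      calc (Δ : ℝ) ^ (θ - ρ) ≤ (n * L ^ T) ^ (θ - ρ) := Real.rpow_le_rpow hΔ0.le hΔle hθρ.le
        _ ≤ (n * (n : ℝ) ^ (ρ / θ)) ^ (θ - ρ) := by
            apply Real.rpow_le_rpow (by positivity) _ hθρ.le
            exact mul_le_mul_of_nonneg_left h5 hn0.le
        _ = (n : ℝ) ^ ((1 + ρ / θ) * (θ - ρ)) := by
            rw [Real.rpow_mul hn0.le, Real.rpow_add hn0, Real.rpow_one]
        _ ≤ (n : ℝ) ^ θ := by
            apply Real.rpow_le_rpow_of_exponent_le (by exact_mod_cast hn1)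
            have e1 : (1 + ρ / θ) * (θ - ρ) = θ - ρ ^ 2 / θ := by
              field_simp
              ring
            rw [e1]
            have : 0 ≤ ρ ^ 2 / θ := by positivity
            linarith

open Classical in
/-- few integers have a large divisor in a sparse set -/
lemma mult_sparse {D : Set ℕ}
    (hc : ∀ X : ℕ, 1 ≤ X → (((Icc 1 X).filter (fun e => e ∈ D)).card : ℝ) ≤ (X : ℝ) ^ (1 / 4 : ℝ)) (X : ℕ) (G : ℝ)
    (hG : 0 < G) : (((Icc 1 X).filter (fun n : ℕ => ∃ e ∈ D, G < (e : ℝ) ∧ e ∣ n)).card : ℝ) ≤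
      13 * (X / G ^ (1 / 2 : ℝ)) := by
  obtain ⟨S, hS⟩ : ∃ S, S = (Icc 1 X).filter (fun e => e ∈ D ∧ G < (e : ℝ)) := ⟨_, rfl⟩
  have hsub : (Icc 1 X).filter (fun n : ℕ => ∃ e ∈ D, G < (e : ℝ) ∧ e ∣ n) ⊆
      S.biUnion (fun e => (Icc 1 X).filter (fun n => e ∣ n)) := by
    intro n h
    rw [mem_filter, mem_Icc] at h
    obtain ⟨⟨h1, h2⟩, e, h5, h6, h7⟩ := h
    rw [mem_biUnion]
    refine ⟨e, ?_, ?_⟩
    · rw [hS, mem_filter, mem_Icc]
      exact ⟨⟨Nat.pos_of_dvd_of_pos h7 h1, (Nat.le_of_dvd h1 h7).trans h2⟩, h5, h6⟩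
    · rw [mem_filter, mem_Icc]
      exact ⟨⟨h1, h2⟩, h7⟩
  have h1 := (card_le_card hsub).trans card_biUnion_le
  have h2 : (((Icc 1 X).filter (fun n : ℕ => ∃ e ∈ D, G < (e : ℝ) ∧ e ∣ n)).card : ℝ) ≤
      ∑ e ∈ S, (((Icc 1 X).filter (fun n => e ∣ n)).card : ℝ) := by
    exact_mod_cast h1
  have hS' : ∀ e ∈ S, e ∈ D ∧ 1 ≤ e := by
    intro e he
    rw [hS, mem_filter, mem_Icc] at he
    exact ⟨he.2.1, he.1.1⟩
  refine h2.trans ?_
  have hGp : (0 : ℝ) < G ^ (1 / 2 : ℝ) := Real.rpow_pos_of_pos hG _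
  calc _ ≤ ∑ e ∈ S, (X / G ^ (1 / 2 : ℝ)) * (e : ℝ) ^ (-(1 / 2) : ℝ) := by
        apply sum_le_sum
        intro e he
        have he1 := (hS' e he).2
        have he0 : (0 : ℝ) < e := by exact_mod_cast he1
        have heG : G < (e : ℝ) := by
          rw [hS, mem_filter] at he
          exact he.2.2
        have h5 : G ^ (1 / 2 : ℝ) ≤ (e : ℝ) ^ (1 / 2 : ℝ) := Real.rpow_le_rpow hG.le heG.le (by norm_num)
        have h6 : (e : ℝ) = (e : ℝ) ^ (1 / 2 : ℝ) * (e : ℝ) ^ (1 / 2 : ℝ) := by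
          rw [← Real.rpow_add he0]
          norm_num
        have h8 : (0 : ℝ) < (e : ℝ) ^ (1 / 2 : ℝ) := Real.rpow_pos_of_pos he0 _
        calc _ ≤ (X : ℝ) / e := multc_card X e
          _ = (X / (e : ℝ) ^ (1 / 2 : ℝ)) * (e : ℝ) ^ (-(1 / 2) : ℝ) := by
              rw [Real.rpow_neg he0.le]
              nth_rewrite 1 [h6]
              field_simp
          _ ≤ (X / G ^ (1 / 2 : ℝ)) * (e : ℝ) ^ (-(1 / 2) : ℝ) := by
              apply mul_le_mul_of_nonneg_right _ (by positivity)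
              exact div_le_div_of_nonneg_left (Nat.cast_nonneg _) hGp h5
    _ = (X / G ^ (1 / 2 : ℝ)) * ∑ e ∈ S, (e : ℝ) ^ (-(1 / 2) : ℝ) := by rw [mul_sum]
    _ ≤ (X / G ^ (1 / 2 : ℝ)) * 13 := by
        apply mul_le_mul_of_nonneg_left (sum_sparse hc S hS')
        positivity
    _ = 13 * (X / G ^ (1 / 2 : ℝ)) := by ring

open Classical in
theorem one_dens6 {D : Set ℕ}
    (hD : ∀ X : ℕ, 1 ≤ X → (((Icc 1 X).filter (fun e => e ∈ D)).card : ℝ) ≤ (X : ℝ) ^ (1 / 4 : ℝ))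
    (hmain : ∀ θ : ℝ, 1 < θ → ∀ η : ℝ, 0 < η → ∀ T : ℕ, ∃ (c₀ : ℕ) (F : Set ℕ),
      (∀ X : ℕ, c₀ ≤ X → (((Icc 1 X).filter (fun n => n ∈ F)).card : ℝ) ≤ (X : ℝ) ^ (2 - θ + η)) ∧
      (3 / 2 < θ → F = ∅) ∧
      ∀ a b c d : ℤ, Admissible a b c d → c₀ ≤ c.natAbs → c.natAbs ∉ F →
        (∀ e ∈ D, Real.log |(c : ℝ)| ^ T < (e : ℝ) → ¬ (e : ℤ) ∣ c) →
        |(a : ℝ)| ≤ Real.log |(c : ℝ)| ^ T → |(b : ℝ)| ≤ Real.log |(c : ℝ)| ^ T →
        ∃ p q r : ℕ, p.Prime ∧ q.Prime ∧ r.Prime ∧ a * p + b * q + c * r = d ∧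
          ((max p (max q r) : ℕ) : ℝ) ≤ 3 * |(d : ℝ)| + |(c : ℝ)| ^ θ)
    (ε : ℝ) (hε : 0 < ε) (A T : ℕ) : ∃ X₀ : ℕ, ∀ X : ℕ, X₀ ≤ X →
      (((Icc 1 X).filter (fun n : ℕ => ¬ ∀ a b c d : ℤ, Admissible a b c d → c.natAbs = n →
        |(a : ℝ)| ≤ Real.log |(c : ℝ)| ^ T → |(b : ℝ)| ≤ Real.log |(c : ℝ)| ^ T →
        SmallSolution (1 + ε) a b c d)).card : ℝ) ≤ (X : ℝ) / Real.log X ^ A := by
  obtain ⟨c₀, F, hF1, -, hF3⟩ := hmain (1 + ε) (by linarith) (ε / 2) (by positivity) (T + 2 * A + 4)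
  obtain ⟨N₁, h1⟩ := ev_log_rpow (A + 1) 1 (1 / 2) (by norm_num)
  obtain ⟨N₂, h2⟩ := ev_log_rpow (A + 1) 1 (ε / 2) (by positivity)
  obtain ⟨N₃, h3⟩ := exists_nat_ge (Real.exp (13 * 2 ^ (A + 2) + 2))
  refine ⟨c₀ ^ 2 + c₀ + N₁ + N₂ + N₃ + 1, fun X hX => ?_⟩
  have hX1 : 1 ≤ X := by omega
  have hX0 : (0 : ℝ) < X := by exact_mod_cast hX1
  obtain ⟨L, hL⟩ : ∃ L, L = Real.log X := ⟨_, rfl⟩
  have hLb : 13 * 2 ^ (A + 2) + 2 ≤ L := by
    rw [hL, Real.le_log_iff_exp_le hX0]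
    exact h3.trans (by exact_mod_cast (by omega : N₃ ≤ X))
  have h2A : (0 : ℝ) < 13 * 2 ^ (A + 2) := by positivity
  have hL2 : 2 ≤ L := by linarith
  have hL0 : 0 < L := by linarith
  rw [← hL]
  obtain ⟨Z, hZ⟩ : ∃ Z : ℝ, Z = X / L ^ (A + 1) := ⟨_, rfl⟩
  have hZ0 : 0 ≤ Z := by rw [hZ]; positivity
  obtain ⟨G, hG⟩ : ∃ G : ℝ, G = (L / 2) ^ (2 * A + 4) := ⟨_, rfl⟩
  have hG0 : 0 < G := by rw [hG]; positivity
  obtain ⟨Q, hQ⟩ : ∃ Q : ℕ, Q = ⌊(X : ℝ) ^ (1 / 2 : ℝ)⌋₊ := ⟨_, rfl⟩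
  have hQr : (Q : ℝ) ≤ (X : ℝ) ^ (1 / 2 : ℝ) := by rw [hQ]; exact Nat.floor_le (by positivity)
  obtain ⟨S2, hS2⟩ : ∃ S2, S2 = (Icc 1 X).filter (fun n : ℕ => ∃ e ∈ D, G < (e : ℝ) ∧ e ∣ n) := ⟨_, rfl⟩
  obtain ⟨S3, hS3⟩ : ∃ S3, S3 = (Icc 1 X).filter (fun n => n ∈ F) := ⟨_, rfl⟩
  obtain ⟨S0, hS0⟩ : ∃ S0 : Finset ℕ, S0 = (Icc 1 X).filter (fun n : ℕ => ¬ ∀ a b c d : ℤ, Admissible a b c d → c.natAbs = n →
        |(a : ℝ)| ≤ Real.log |(c : ℝ)| ^ T → |(b : ℝ)| ≤ Real.log |(c : ℝ)| ^ T →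
        SmallSolution (1 + ε) a b c d) := ⟨_, rfl⟩
  rw [← hS0]
  have hsub : S0 ⊆ Icc 1 Q ∪ (S2 ∪ S3) := by
    intro n hn0
    rw [hS0, mem_filter, mem_Icc] at hn0
    obtain ⟨⟨n1, n2⟩, hn⟩ := hn0
    rw [mem_union, mem_union, hS2, hS3, mem_Icc, mem_filter, mem_filter, mem_Icc]
    by_contra hcon
    push Not at hcon
    obtain ⟨g1, g2, g3⟩ := hcon
    have g1' := g1 n1
    have g2' := g2 ⟨n1, n2⟩
    have g3' := g3 ⟨n1, n2⟩
    have hn0 : (0 : ℝ) < n := by exact_mod_cast n1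
    have hXn : (X : ℝ) ^ (1 / 2 : ℝ) ≤ n := by
      have := Nat.lt_of_floor_lt (a := (X : ℝ) ^ (1 / 2 : ℝ)) (n := n) (by rw [← hQ]; exact g1')
      exact this.le
    have hlog : L / 2 ≤ Real.log n := by
      have h5 := Real.log_le_log (by positivity) hXn
      rw [Real.log_rpow hX0, ← hL] at h5
      linarith
    have hlog1 : 1 ≤ Real.log n := by linarith
    have hcn : c₀ ≤ n := by
      have h5 : ((c₀ : ℝ)) ≤ (X : ℝ) ^ (1 / 2 : ℝ) := by
        have h6 : ((c₀ : ℝ)) ^ 2 ≤ X := by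
          have : c₀ ^ 2 ≤ X := by omega
          exact_mod_cast this
        calc (c₀ : ℝ) = (((c₀ : ℝ)) ^ 2) ^ (1 / 2 : ℝ) := by
              rw [← Real.rpow_natCast, ← Real.rpow_mul (Nat.cast_nonneg _)]
              norm_num
          _ ≤ (X : ℝ) ^ (1 / 2 : ℝ) := Real.rpow_le_rpow (by positivity) h6 (by norm_num)
      exact_mod_cast h5.trans hXn
    apply hn
    intro a b c d hadm hcn' ha hb
    have hnr : |(c : ℝ)| = (n : ℝ) := by
      rw [← hcn', Nat.cast_natAbs]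
      push_cast
      rfl
    have hTT : Real.log |(c : ℝ)| ^ T ≤ Real.log |(c : ℝ)| ^ (T + 2 * A + 4) := by
      rw [hnr]
      exact pow_le_pow_right₀ hlog1 (by omega)
    obtain ⟨p, q, r, s1, s2, s3, s4, s5⟩ := hF3 a b c d hadm (by rw [hcn']; exact hcn) (by rw [hcn']; exact g3') (by
      intro e he heL hdvd
      rw [Int.natCast_dvd, hcn'] at hdvd
      refine g2' e he ?_ hdvd
      refine lt_of_le_of_lt ?_ heL
      rw [hnr, hG]
      calc (L / 2) ^ (2 * A + 4) ≤ Real.log n ^ (2 * A + 4) := pow_le_pow_left₀ (by positivity) hlog _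
        _ ≤ Real.log n ^ (T + 2 * A + 4) := pow_le_pow_right₀ hlog1 (by omega)) (ha.trans hTT) (hb.trans hTT)
    refine ⟨p, q, r, s1, s2, s3, s4, s5.trans ?_⟩
    have h6 : |(c : ℝ)| ≤ ((max 3 (max |a| (max |b| |c|)) : ℤ) : ℝ) := by
      rw [← Int.cast_abs]
      exact_mod_cast ((le_max_right _ _).trans (le_max_right _ _)).trans (le_max_right _ _)
    have h7 := Real.rpow_le_rpow (abs_nonneg _) h6 (by linarith : 0 ≤ 1 + ε)
    linarith
  have hcard := (card_le_card hsub).trans ((card_union_le _ _).trans (Nat.add_le_add_left (card_union_le _ _) _))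
  rw [Nat.card_Icc, Nat.add_sub_cancel] at hcard
  have hcardr : (S0.card : ℝ) ≤ Q + (S2.card + S3.card) := by exact_mod_cast hcard
  have hLA : 0 < L ^ (A + 1) := by positivity
  have b1 : (Q : ℝ) ≤ Z := by
    refine hQr.trans ?_
    rw [hZ, le_div_iff₀ hLA]
    have h5 := h1 X (by omega)
    rw [one_mul, ← hL] at h5
    calc (X : ℝ) ^ (1 / 2 : ℝ) * L ^ (A + 1) ≤ (X : ℝ) ^ (1 / 2 : ℝ) * (X : ℝ) ^ (1 / 2 : ℝ) :=
          mul_le_mul_of_nonneg_left h5 (by positivity)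
      _ = X := by
          rw [← Real.rpow_add hX0]
          norm_num
  have b2 : (S2.card : ℝ) ≤ Z := by
    have h5 := mult_sparse hD X G hG0
    rw [← hS2] at h5
    have h6 : G ^ (1 / 2 : ℝ) = (L / 2) ^ (A + 2) := by
      rw [hG, ← Real.rpow_natCast, ← Real.rpow_natCast, ← Real.rpow_mul (by positivity)]
      congr 1
      push_cast
      ring
    rw [h6] at h5
    refine h5.trans ?_
    have h7 : 13 * ((X : ℝ) / (L / 2) ^ (A + 2)) = (13 * 2 ^ (A + 2)) * (X / L ^ (A + 2)) := by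
      rw [div_pow]
      field_simp
    rw [h7, hZ]
    calc (13 * 2 ^ (A + 2)) * ((X : ℝ) / L ^ (A + 2)) ≤ L * (X / L ^ (A + 2)) :=
          mul_le_mul_of_nonneg_right (by linarith) (by positivity)
      _ = X / L ^ (A + 1) := by
          rw [pow_succ L (A + 1)]
          field_simp
  have b3 : (S3.card : ℝ) ≤ Z := by
    have h5 := hF1 X (by omega)
    rw [← hS3] at h5
    refine h5.trans ?_
    rw [hZ, le_div_iff₀ hLA]
    have h6 := h2 X (by omega)
    rw [one_mul, ← hL] at h6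
    calc (X : ℝ) ^ (2 - (1 + ε) + ε / 2) * L ^ (A + 1) ≤ (X : ℝ) ^ (2 - (1 + ε) + ε / 2) * (X : ℝ) ^ (ε / 2) :=
          mul_le_mul_of_nonneg_left h6 (by positivity)
      _ = (X : ℝ) ^ (1 : ℝ) := by
          rw [← Real.rpow_add hX0]
          ring_nf
      _ = X := Real.rpow_one _
  have hfin : 3 * Z ≤ (X : ℝ) / L ^ A := by
    have e1 : (X : ℝ) / L ^ A = L * Z := by
      rw [hZ, pow_succ L A]
      field_simp
    rw [e1]
    have h22 : (4 : ℝ) ≤ 2 ^ (A + 2) := by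
      have : (1 : ℝ) ≤ 2 ^ A := one_le_pow₀ (by norm_num)
      rw [pow_add]
      linarith
    exact mul_le_mul_of_nonneg_right (by linarith) hZ0
  linarith

end Pool.Agent.Y883.T6
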