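import Pool.Agent.Y883.T6.Solve6

set_option autoImplicit false

/-! Linear equations in three primes with three large coefficients: the exceptional moduli of one scale. -/

namespace Pool.Agent.Y883.T6

open Finset
open Pool.Agent.H373R2.T7
open Pool.Agent.Y883.T3
open Pool.Agent.Y883.T4
open Pool.Agent.Y883.T5

theorem scale6 (A A' B₀ : ℕ) (ρ : ℝ) (hρ : 0 < ρ) : ∃ B c N₀ : ℕ, B₀ ≤ B ∧ ∀ P : ℕ, N₀ ≤ P → ∃ D F : Finset ℕ,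
    (∀ e ∈ D, Real.log P ^ A < (e : ℝ)) ∧
    (∀ X : ℝ, 1 ≤ X → ((D.filter (fun e : ℕ => (e : ℝ) ≤ X)).card : ℝ) ≤ X ^ ρ) ∧
    (∀ q ∈ F, (P : ℝ) ^ (2 / 3 - ρ) < (q : ℝ) ∧ q ≤ P) ∧
    (∀ X : ℕ, X ≤ P → ((F.filter (fun q => q ≤ X)).card : ℝ) * P ≤ (X : ℝ) ^ 2 * Real.log P ^ c) ∧
    SD A A' B P (fun q => q ≤ P ∧ (∀ e ∈ D, ¬ e ∣ q) ∧ q ∉ F) := by
  classical
  obtain ⟨c₁, U₁, N₁, h1⟩ := mainD ρ hρ A
  obtain ⟨U', hU'⟩ : ∃ U', U' = max U₁ A' := ⟨_, rfl⟩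
  obtain ⟨B₁, hB₁⟩ := model U'
  obtain ⟨B, hB⟩ : ∃ B, B = max B₀ B₁ := ⟨_, rfl⟩
  obtain ⟨N₃, h3⟩ := hB₁ (B + 1)
  obtain ⟨N₅, h5⟩ := ev_L' 2
  refine ⟨B, c₁, N₁ + N₃ + N₅ + 1, by rw [hB]; exact le_max_left _ _, fun P hP => ?_⟩
  have hL := h5 P (by omega)
  have hP0 : (0 : ℝ) < P := by exact_mod_cast (by omega : 0 < P)
  have f3 := h3 P (by omega)
  obtain ⟨L, hLd⟩ : ∃ L, L = Real.log (P : ℝ) := ⟨_, rfl⟩
  rw [← hLd] at hL f3 ⊢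
  have hL0 : 0 < L := by linarith
  have hL1 : 1 ≤ L := by linarith
  have hz : zP B P = ⌈L ^ B⌉₊ := by rw [hLd]; rfl
  have hzlo : L ^ B ≤ (zP B P : ℝ) := by rw [hz]; exact Nat.le_ceil _
  have hL1E : 1 ≤ L ^ B := one_le_pow₀ hL1
  have hzlo' : L ^ B₁ ≤ (zP B P : ℝ) := (pow_le_pow_right₀ hL1 (by rw [hB]; exact le_max_right _ _)).trans hzlo
  have hzhi : (zP B P : ℝ) ≤ L ^ (B + 1) := by
    have := Nat.ceil_lt_add_one (show 0 ≤ L ^ B by positivity)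
    rw [← hz] at this
    calc (zP B P : ℝ) ≤ L ^ B + 1 := this.le
      _ ≤ L ^ B + L ^ B := by linarith
      _ = 2 * L ^ B := by ring
      _ ≤ L * L ^ B := mul_le_mul_of_nonneg_right hL (by positivity)
      _ = L ^ (B + 1) := by ring
  obtain ⟨f, hf1, hf2, hf3, hf4⟩ := f3 (zP B P) hzlo' hzhi
  have hU1 : L ^ U₁ ≤ L ^ U' := pow_le_pow_right₀ hL1 (by rw [hU']; exact le_max_left _ _)
  have hU2 : L ^ A' ≤ L ^ U' := pow_le_pow_right₀ hL1 (by rw [hU']; exact le_max_right _ _)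
  have hFM : FM f P U₁ := by
    refine ⟨by rw [← hLd]; exact hf2, ?_, by rw [← hLd]; exact hf4⟩
    intro α
    rw [← hLd]
    exact (hf3 α).trans (div_le_div_of_nonneg_left hP0.le (by positivity) hU1)
  obtain ⟨D, hD1, hD2, hD3, hD4⟩ := h1 P (by omega) f hFM
  rw [← hLd] at hD1
  obtain ⟨F, hF⟩ : ∃ F, F = (Icc 1 P).filter (fun q => (∀ e ∈ D, ¬ e ∣ q) ∧ BadC f P A q) := ⟨_, rfl⟩
  have hFm : ∀ q, q ∈ F ↔ (1 ≤ q ∧ q ≤ P) ∧ (∀ e ∈ D, ¬ e ∣ q) ∧ BadC f P A q := by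
    intro q
    rw [hF, mem_filter, mem_Icc]
  refine ⟨D, F, hD1, hD2, ?_, ?_, f, ?_, ?_, ?_⟩
  · intro q hq
    rw [hFm] at hq
    refine ⟨?_, hq.1.2⟩
    by_contra hcon
    rw [not_lt] at hcon
    exact hD3 q hq.1.1 hcon hq.2.1 hq.2.2
  · intro X hX
    have h6 := hD4 X hX (F.filter (fun q => q ≤ X)) (by
      intro q hq
      rw [mem_filter, hFm] at hq
      exact ⟨hq.1.1.1, hq.2, hq.1.2.1, hq.1.2.2⟩)
    rw [← hLd] at h6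
    exact h6
  · intro x
    have e1 := hf3 x
    have e2 : (P : ℝ) / L ^ U' ≤ P := div_le_self hP0.le (one_le_pow₀ hL1)
    exact e1.trans e2
  · rw [← hLd]
    exact hf1.trans (div_le_div_of_nonneg_left hP0.le (by positivity) hU2)
  · intro q hq1 hq hbad
    obtain ⟨g1, g2, g3⟩ := hq
    exact g3 ((hFm q).2 ⟨⟨hq1, g1⟩, g2, hbad⟩)

end Pool.Agent.Y883.T6
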