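import Pool.Agent.Y883.T6.Circ

set_option autoImplicit false

/-! The number of solutions of a linear equation in three unknowns weighted by a function with small
exponential sums. -/

namespace Pool.Agent.Y883.T6

open Finset
open Pool.Agent.H807R2.Dav

lemma fiber_dvd {c1 : ℤ} {a2 a3 b w k k' : ℕ} {l l' : ℤ} (ha2 : 1 ≤ a2) (hb : b.Coprime w)
    (h1 : a2 = b * Nat.gcd a2 (c1.natAbs * a3)) (h2 : c1.natAbs * a3 = w * Nat.gcd a2 (c1.natAbs * a3))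
    (h : ((a2 : ℤ)) ∣ c1 * (l * a2 + k * a3) - c1 * (l' * a2 + k' * a3)) : k % b = k' % b := by
  have h3 : (a2 : ℤ) ∣ (c1 * a3) * ((k : ℤ) - k') := by
    have e : (c1 * a3) * ((k : ℤ) - k') = (c1 * (l * a2 + k * a3) - c1 * (l' * a2 + k' * a3)) - a2 * (c1 * (l - l')) := by ring
    rw [e]
    exact dvd_sub h (dvd_mul_right _ _)
  have h4 : a2 ∣ (c1.natAbs * a3) * ((k : ℤ) - k').natAbs := by
    have := Int.natAbs_dvd_natAbs.2 h3
    rw [Int.natAbs_mul, Int.natAbs_mul, Int.natAbs_natCast, Int.natAbs_natCast] at this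
    exact this
  obtain ⟨e, he⟩ : ∃ e, e = Nat.gcd a2 (c1.natAbs * a3) := ⟨_, rfl⟩
  rw [← he] at h1 h2
  have he0 : 0 < e := by
    rcases Nat.eq_zero_or_pos e with h0 | h0
    · rw [h0, mul_zero] at h1; omega
    · exact h0
  rw [h2, h1] at h4
  have h5 : b ∣ w * ((k : ℤ) - k').natAbs := by
    have e1 : w * e * ((k : ℤ) - k').natAbs = (w * ((k : ℤ) - k').natAbs) * e := by ring
    rw [e1] at h4
    exact Nat.dvd_of_mul_dvd_mul_right he0 h4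
  have h6 : b ∣ ((k : ℤ) - k').natAbs := hb.dvd_of_dvd_mul_left h5
  have h7 : (b : ℤ) ∣ (k : ℤ) - k' := Int.natCast_dvd.2 h6
  exact ((Nat.modEq_iff_dvd.2 h7).symm)

lemma mult_card (c1 : ℤ) (a2 a3 : ℕ) (h2 : 1 ≤ a2) (h3 : 1 ≤ a3) (n : ℤ) :
    ((range a3 ×ˢ range a2).filter (fun p : ℕ × ℕ => (c1 * ((p.1 : ℤ) * a2 + (p.2 : ℤ) * a3)) % ((a2 : ℤ) * a3) = n)).card ≤
      Nat.gcd a3 (c1.natAbs * a2) * Nat.gcd a2 (c1.natAbs * a3) := by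
  obtain ⟨b2, w2, hb2, e2, f2⟩ := Nat.exists_coprime a2 (c1.natAbs * a3)
  obtain ⟨b3, w3, hb3, e3, f3⟩ := Nat.exists_coprime a3 (c1.natAbs * a2)
  have hb2' : 0 < b2 := by
    rcases Nat.eq_zero_or_pos b2 with h0 | h0
    · rw [h0, zero_mul] at e2; omega
    · exact h0
  have hb3' : 0 < b3 := by
    rcases Nat.eq_zero_or_pos b3 with h0 | h0
    · rw [h0, zero_mul] at e3; omega
    · exact h0
  rw [← card_range (Nat.gcd a3 (c1.natAbs * a2)), ← card_range (Nat.gcd a2 (c1.natAbs * a3)), ← card_product]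
  apply card_le_card_of_injOn (fun p : ℕ × ℕ => (p.1 / b3, p.2 / b2))
  · intro p hp
    rw [mem_coe, mem_filter, mem_product, mem_range, mem_range] at hp
    rw [mem_coe, mem_product, mem_range, mem_range]
    constructor
    · simp only
      rw [Nat.div_lt_iff_lt_mul hb3', mul_comm, ← e3]
      exact hp.1.1
    · simp only
      rw [Nat.div_lt_iff_lt_mul hb2', mul_comm, ← e2]
      exact hp.1.2
  · intro p hp p' hp' h
    rw [mem_coe, mem_filter, mem_product, mem_range, mem_range] at hp hp'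
    have hq1 := congrArg Prod.fst h
    have hq2 := congrArg Prod.snd h
    simp only at hq1 hq2
    have hd : ((a2 : ℤ) * a3) ∣ c1 * ((p.1 : ℤ) * a2 + (p.2 : ℤ) * a3) - c1 * ((p'.1 : ℤ) * a2 + (p'.2 : ℤ) * a3) := by
      apply Int.ModEq.dvd
      exact hp'.2.trans hp.2.symm
    have k1 : p.2 % b2 = p'.2 % b2 := fiber_dvd h2 hb2 e2 f2 ((dvd_mul_right _ _).trans hd)
    have k2 : p.1 % b3 = p'.1 % b3 := by
      apply fiber_dvd (c1 := c1) (l := (p.2 : ℤ)) (l' := (p'.2 : ℤ)) h3 hb3 e3 f3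
      have := (dvd_mul_left (a3 : ℤ) (a2 : ℤ)).trans hd
      rw [add_comm ((p.1 : ℤ) * a2), add_comm ((p'.1 : ℤ) * a2)] at this
      exact this
    have m1 := Nat.div_add_mod p.1 b3
    have m1' := Nat.div_add_mod p'.1 b3
    have m2 := Nat.div_add_mod p.2 b2
    have m2' := Nat.div_add_mod p'.2 b2
    apply Prod.ext
    · rw [← m1, ← m1', hq1, k2]
    · rw [← m2, ← m2', hq2, k1]

lemma cell_shift (N M m a2 a3 l k : ℕ) [NeZero M] (hM : M = a2 * a3 * m) (c1 : ℤ) (t : ZMod M) :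
    cell N ((c1 : ℝ) * (((t + l • ((a2 * m : ℕ) : ZMod M) + k • ((a3 * m : ℕ) : ZMod M)).val : ℝ) / M)) =
      cell N ((c1 : ℝ) * ((t.val : ℝ) / M) +
        ((((c1 * ((l : ℤ) * a2 + (k : ℤ) * a3)) % ((a2 : ℤ) * a3)).toNat : ℕ) : ℝ) / ((a2 * a3 : ℕ) : ℝ)) := by
  have hM0 : M ≠ 0 := NeZero.ne M
  have hM1 : 0 < M := Nat.pos_of_ne_zero hM0
  have hq0 : a2 * a3 ≠ 0 := by
    intro h
    rw [h, zero_mul] at hM
    exact hM0 hM
  have hm0 : m ≠ 0 := by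
    intro h
    rw [h, mul_zero] at hM
    exact hM0 hM
  have hMr : (M : ℝ) = ((a2 * a3 : ℕ) : ℝ) * m := by rw [hM]; push_cast; ring
  have hMr0 : (M : ℝ) ≠ 0 := by exact_mod_cast hM0
  have hqr0 : ((a2 * a3 : ℕ) : ℝ) ≠ 0 := by exact_mod_cast hq0
  have hmr0 : (m : ℝ) ≠ 0 := by exact_mod_cast hm0
  obtain ⟨v, hv⟩ : ∃ v, v = (t + l • ((a2 * m : ℕ) : ZMod M) + k • ((a3 * m : ℕ) : ZMod M)).val := ⟨_, rfl⟩
  rw [← hv]
  have h1 : ((v : ℕ) : ZMod M) = ((t.val + l * (a2 * m) + k * (a3 * m) : ℕ) : ZMod M) := by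
    rw [hv, ZMod.natCast_zmod_val]
    push_cast
    rw [ZMod.natCast_zmod_val, nsmul_eq_mul, nsmul_eq_mul]
  have h2 : (M : ℤ) ∣ (v : ℤ) - ((t.val + l * (a2 * m) + k * (a3 * m) : ℕ) : ℤ) := by
    have := (ZMod.natCast_eq_natCast_iff _ _ _).1 h1
    exact (Nat.modEq_iff_dvd.1 this.symm)
  obtain ⟨κ, hκ⟩ := h2
  have hq : (0 : ℤ) < (a2 : ℤ) * a3 := by exact_mod_cast Nat.pos_of_ne_zero hq0
  obtain ⟨n, hn⟩ : ∃ n : ℕ, n = ((c1 * ((l : ℤ) * a2 + (k : ℤ) * a3)) % ((a2 : ℤ) * a3)).toNat := ⟨_, rfl⟩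
  have hn' : (n : ℤ) = (c1 * ((l : ℤ) * a2 + (k : ℤ) * a3)) % ((a2 : ℤ) * a3) := by
    rw [hn]
    exact Int.toNat_of_nonneg (Int.emod_nonneg _ hq.ne')
  rw [← hn]
  obtain ⟨κ', hκ'⟩ : ∃ κ' : ℤ, c1 * ((l : ℤ) * a2 + (k : ℤ) * a3) = n + (a2 * a3) * κ' :=
    ⟨(c1 * ((l : ℤ) * a2 + (k : ℤ) * a3)) / ((a2 : ℤ) * a3), by rw [hn']; exact (Int.emod_add_mul_ediv _ _).symm⟩
  have e1 : (c1 : ℝ) * ((v : ℝ) / M) = ((c1 : ℝ) * ((t.val : ℝ) / M) + (n : ℝ) / ((a2 * a3 : ℕ) : ℝ)) + ((κ' + c1 * κ : ℤ) : ℝ) := by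
    have e2 : (v : ℝ) = t.val + l * (a2 * m) + k * (a3 * m) + M * κ := by
      have e3 : (v : ℤ) = ((t.val + l * (a2 * m) + k * (a3 * m) : ℕ) : ℤ) + M * κ := by linarith
      have e4 := congrArg (fun x : ℤ => (x : ℝ)) e3
      push_cast at e4
      exact e4
    have e5 : (c1 : ℝ) * ((l : ℝ) * a2 + k * a3) = n + (a2 * a3) * κ' := by exact_mod_cast congrArg (fun x : ℤ => (x : ℝ)) hκ'
    have e6 : (c1 : ℝ) * ((v : ℝ) / M) = c1 * (t.val / M) + (c1 * ((l : ℝ) * a2 + k * a3)) * (m / M) + c1 * κ := by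
      rw [e2]
      field_simp
      ring
    have e7 : (m : ℝ) / M = 1 / ((a2 * a3 : ℕ) : ℝ) := by
      rw [hMr]
      field_simp
    have e8 : (a2 : ℝ) * a3 = ((a2 * a3 : ℕ) : ℝ) := by push_cast; rfl
    rw [e6, e5, e7, e8]
    obtain ⟨qr, hqr⟩ : ∃ qr : ℝ, qr = ((a2 * a3 : ℕ) : ℝ) := ⟨_, rfl⟩
    rw [← hqr] at hqr0 ⊢
    push_cast
    field_simp
    ring
  rw [e1, cell_add_int]

theorem tern {f g2 g3 : ℕ → ℝ} {P1 P2 P3 A N : ℕ} (hP1 : 1 ≤ P1) (c1 c2 c3 d : ℤ) (hc2 : c2 ≠ 0) (hc3 : c3 ≠ 0)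
    (h1 : c1.natAbs * P1 ≤ N) (h2 : c2.natAbs * P2 ≤ N) (h3 : c3.natAbs * P3 ≤ N) (hd : d.natAbs ≤ N)
    (hf : ∀ z, Fh f P1 z ≤ P1) (hbad : ¬ BadC f P1 A (c2.natAbs * c3.natAbs)) (E2 E3 : ℝ)
    (hE2 : ∑ n ∈ Icc 1 P2, g2 n ^ 2 ≤ E2) (hE3 : ∑ n ∈ Icc 1 P3, g3 n ^ 2 ≤ E3) (hL : 0 < Real.log P1) :
    |S3 c1 c2 c3 d P1 P2 P3 f g2 g3| ≤ 2 * √(E2 * E3) + ((Nat.log 2 P1 : ℝ) + 1) * (2 * P1 *
      √((Nat.gcd c3.natAbs (c1.natAbs * c2.natAbs) * Nat.gcd c2.natAbs (c1.natAbs * c3.natAbs) : ℕ) * (E2 * E3) /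
        (c2.natAbs * c3.natAbs : ℕ)) / Real.log P1 ^ (2 * A + 6)) := by
  classical
  obtain ⟨a2, ha2⟩ : ∃ a2, a2 = c2.natAbs := ⟨_, rfl⟩
  obtain ⟨a3, ha3⟩ : ∃ a3, a3 = c3.natAbs := ⟨_, rfl⟩
  have ha21 : 1 ≤ a2 := by rw [ha2]; exact Int.natAbs_pos.2 hc2
  have ha31 : 1 ≤ a3 := by rw [ha3]; exact Int.natAbs_pos.2 hc3
  obtain ⟨L, hLd⟩ : ∃ L, L = Real.log (P1 : ℝ) := ⟨_, rfl⟩
  rw [← ha2] at h2 hbad ⊢
  rw [← ha3] at h3 hbad ⊢
  rw [← hLd] at hL ⊢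
  have hP0 : (0 : ℝ) < P1 := by exact_mod_cast hP1
  obtain ⟨m, hm⟩ : ∃ m, m = 5 * N + 1 := ⟨_, rfl⟩
  obtain ⟨M, hM⟩ : ∃ M, M = a2 * a3 * m := ⟨_, rfl⟩
  have hq1 : 1 ≤ a2 * a3 := Nat.mul_pos ha21 ha31
  have hMm : m ≤ M := by rw [hM]; exact Nat.le_mul_of_pos_left _ hq1
  have hM1 : 0 < M := by omega
  have : NeZero M := ⟨hM1.ne'⟩
  have hM0 : (0 : ℝ) < M := by exact_mod_cast hM1
  have hq0 : (0 : ℝ) < ((a2 * a3 : ℕ) : ℝ) := by exact_mod_cast hq1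
  have hE20 : 0 ≤ E2 := (sum_nonneg fun n _ => sq_nonneg (g2 n)).trans hE2
  have hE30 : 0 ≤ E3 := (sum_nonneg fun n _ => sq_nonneg (g3 n)).trans hE3
  obtain ⟨mult, hmult⟩ : ∃ mult : ℕ, mult = Nat.gcd a3 (c1.natAbs * a2) * Nat.gcd a2 (c1.natAbs * a3) := ⟨_, rfl⟩
  rw [← hmult]
  -- the circle method
  have hcond : ∀ x ∈ Icc 1 P1, ∀ y ∈ Icc 1 P2, ∀ z ∈ Icc 1 P3,
      |c1 * (x : ℕ) + c2 * (y : ℕ) + c3 * (z : ℕ) - d| < M := by
    intro x hx y hy z hz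
    rw [mem_Icc] at hx hy hz
    have b : ∀ (c : ℤ) (x P : ℕ), x ≤ P → c.natAbs * P ≤ N → |c * (x : ℕ)| ≤ N := by
      intro c x P hx hP
      rw [abs_mul, Int.abs_eq_natAbs, abs_of_nonneg (Int.natCast_nonneg x)]
      exact_mod_cast (Nat.mul_le_mul_left _ hx).trans hP
    have b1 := abs_le.1 (b c1 x P1 hx.2 h1)
    have b2 := abs_le.1 (b c2 y P2 hy.2 (by rw [← ha2]; exact h2))
    have b3 := abs_le.1 (b c3 z P3 hz.2 (by rw [← ha3]; exact h3))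
    rw [abs_lt]
    constructor <;> omega
  have hcirc := circ M c1 c2 c3 d P1 P2 P3 f g2 g3 hcond
  have hN5 : ∀ (a P : ℕ), a * P ≤ N → a * P < M := fun a P h => by omega
  have hu2 := parseval_GG M g2 P2 c2 hc2 (by rw [← ha2]; exact hN5 _ _ h2)
  have hv2 := parseval_GG M g3 P3 c3 hc3 (by rw [← ha3]; exact hN5 _ _ h3)
  obtain ⟨u, hu⟩ : ∃ u : ZMod M → ℝ, u = fun t => ‖GG M g2 P2 c2 t‖ := ⟨_, rfl⟩
  obtain ⟨v, hv⟩ : ∃ v : ZMod M → ℝ, v = fun t => ‖GG M g3 P3 c3 t‖ := ⟨_, rfl⟩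
  have hu0 : ∀ t, 0 ≤ u t := fun t => by rw [hu]; exact norm_nonneg _
  have hv0 : ∀ t, 0 ≤ v t := fun t => by rw [hv]; exact norm_nonneg _
  have hSu : ∑ t, u t ^ 2 ≤ M * E2 := by
    rw [hu]
    simp only
    rw [hu2]
    exact mul_le_mul_of_nonneg_left hE2 hM0.le
  have hSv : ∑ t, v t ^ 2 ≤ M * E3 := by
    rw [hv]
    simp only
    rw [hv2]
    exact mul_le_mul_of_nonneg_left hE3 hM0.le
  have hper : ∀ (c : ℤ) (a b : ℕ), a = c.natAbs → M = a * (b * m) → (((b * m : ℕ) : ZMod M)) * (c : ZMod M) = 0 := by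
    intro c a b ha hMab
    have e : (((b * m : ℕ) : ZMod M)) * (c : ZMod M) = ((((b * m : ℕ) : ℤ) * c : ℤ) : ZMod M) := by push_cast; ring
    rw [e, ZMod.intCast_zmod_eq_zero_iff_dvd, hMab, Int.natCast_dvd, Int.natAbs_mul, Int.natAbs_natCast, ← ha, mul_comm]
  have hper2 : ∀ t, u (t + ((a3 * m : ℕ) : ZMod M)) = u t := by
    intro t
    rw [hu]
    simp only
    rw [GG_add]
    exact hper c2 a2 a3 ha2 (by rw [hM]; ring)
  have hper3 : ∀ t, v (t + ((a2 * m : ℕ) : ZMod M)) = v t := by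
    intro t
    rw [hv]
    simp only
    rw [GG_add]
    exact hper c3 a3 a2 ha3 (by rw [hM]; ring)
  obtain ⟨Φ, hΦ⟩ : ∃ Φ : ℕ → ZMod M → ℝ, Φ = fun j t =>
    if cell P1 ((c1 : ℝ) * ((t.val : ℝ) / M)) ∈ Zc f P1 j then 1 else 0 := ⟨_, rfl⟩
  obtain ⟨R, hR⟩ : ∃ R, R = √((mult : ℕ) * (E2 * E3) / (a2 * a3 : ℕ)) := ⟨_, rfl⟩
  rw [← hR]
  have hR0 : 0 ≤ R := by rw [hR]; exact Real.sqrt_nonneg _
  have hR2 : R ^ 2 = (mult : ℕ) * (E2 * E3) / (a2 * a3 : ℕ) := by rw [hR]; exact Real.sq_sqrt (by positivity)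
  have hlev : ∀ j ∈ range (Nat.log 2 P1 + 1), ∑ t, Φ j t * u t * v t ≤ M * (2 ^ j * R / L ^ (2 * A + 6)) := by
    intro j hj
    rw [mem_range] at hj
    have hW : ∀ t, ∑ l ∈ range a3, ∑ k ∈ range a2, Φ j (t + l • ((a2 * m : ℕ) : ZMod M) + k • ((a3 * m : ℕ) : ZMod M)) ≤
        (mult : ℝ) * (4 ^ j / L ^ (4 * A + 12)) := by
      intro t
      obtain ⟨θ, hθ⟩ : ∃ θ : ℝ, θ = (c1 : ℝ) * ((t.val : ℝ) / M) := ⟨_, rfl⟩
      obtain ⟨I, hI⟩ : ∃ I, I = (range (a2 * a3)).filter (fun n : ℕ => cell P1 (θ + (n : ℝ) / ((a2 * a3 : ℕ) : ℝ)) ∈ Zc f P1 j) := ⟨_, rfl⟩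
      have hIc : (I.card : ℝ) ≤ 4 ^ j / L ^ (4 * A + 12) := by
        by_contra hcon
        push Not at hcon
        apply hbad
        refine ⟨θ, j, hj, ?_⟩
        rw [← hLd]
        refine hcon.le.trans (le_of_eq ?_)
        rw [hI]
        rfl
      have e1 : ∑ l ∈ range a3, ∑ k ∈ range a2, Φ j (t + l • ((a2 * m : ℕ) : ZMod M) + k • ((a3 * m : ℕ) : ZMod M)) =
          (((range a3 ×ˢ range a2).filter (fun p : ℕ × ℕ =>
            ((c1 * ((p.1 : ℤ) * a2 + (p.2 : ℤ) * a3)) % ((a2 : ℤ) * a3)).toNat ∈ I)).card : ℝ) := by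
        rw [← sum_product', card_filter, Nat.cast_sum]
        simp only [Nat.cast_ite, Nat.cast_one, Nat.cast_zero]
        apply sum_congr rfl
        intro p _
        rw [hΦ]
        simp only
        rw [cell_shift P1 M m a2 a3 p.1 p.2 hM c1 t, ← hθ]
        have e3 : ((((c1 * ((p.1 : ℤ) * a2 + (p.2 : ℤ) * a3)) % ((a2 : ℤ) * a3)).toNat : ℕ)) < a2 * a3 := by
          have hq : (0 : ℤ) < (a2 : ℤ) * a3 := by exact_mod_cast hq1
          have e4 := Int.emod_lt_of_pos (c1 * ((p.1 : ℤ) * a2 + (p.2 : ℤ) * a3)) hq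
          have e5 := Int.emod_nonneg (c1 * ((p.1 : ℤ) * a2 + (p.2 : ℤ) * a3)) hq.ne'
          have e6 : ((((c1 * ((p.1 : ℤ) * a2 + (p.2 : ℤ) * a3)) % ((a2 : ℤ) * a3)).toNat : ℕ) : ℤ) < ((a2 * a3 : ℕ) : ℤ) := by
            rw [Int.toNat_of_nonneg e5]
            push_cast
            exact e4
          exact_mod_cast e6
        have e2 : (((c1 * ((p.1 : ℤ) * a2 + (p.2 : ℤ) * a3)) % ((a2 : ℤ) * a3)).toNat ∈ I) ↔
            cell P1 (θ + ((((c1 * ((p.1 : ℤ) * a2 + (p.2 : ℤ) * a3)) % ((a2 : ℤ) * a3)).toNat : ℕ) : ℝ) /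
              ((a2 * a3 : ℕ) : ℝ)) ∈ Zc f P1 j := by
          rw [hI, mem_filter, mem_range]
          exact ⟨fun h => h.2, fun h => ⟨e3, h⟩⟩
        by_cases h : (((c1 * ((p.1 : ℤ) * a2 + (p.2 : ℤ) * a3)) % ((a2 : ℤ) * a3)).toNat ∈ I)
        · rw [if_pos h, if_pos (e2.1 h)]
        · rw [if_neg h, if_neg (fun h' => h (e2.2 h'))]
      rw [e1]
      have hmaps : ∀ p ∈ (range a3 ×ˢ range a2).filter (fun p : ℕ × ℕ =>
            ((c1 * ((p.1 : ℤ) * a2 + (p.2 : ℤ) * a3)) % ((a2 : ℤ) * a3)).toNat ∈ I),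
          ((c1 * ((p.1 : ℤ) * a2 + (p.2 : ℤ) * a3)) % ((a2 : ℤ) * a3)).toNat ∈ I := by
        intro p hp
        exact (mem_filter.1 hp).2
      have e2 := card_eq_sum_card_fiberwise hmaps
      have e3 : ∀ n ∈ I, (((range a3 ×ˢ range a2).filter (fun p : ℕ × ℕ =>
            ((c1 * ((p.1 : ℤ) * a2 + (p.2 : ℤ) * a3)) % ((a2 : ℤ) * a3)).toNat ∈ I)).filter (fun p : ℕ × ℕ =>
            ((c1 * ((p.1 : ℤ) * a2 + (p.2 : ℤ) * a3)) % ((a2 : ℤ) * a3)).toNat = n)).card ≤ mult := by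
        intro n _
        rw [hmult]
        refine (card_le_card ?_).trans (mult_card c1 a2 a3 ha21 ha31 (n : ℤ))
        intro p hp
        rw [mem_filter, mem_filter] at hp
        rw [mem_filter]
        refine ⟨hp.1.1, ?_⟩
        have hq : (0 : ℤ) < (a2 : ℤ) * a3 := by exact_mod_cast hq1
        have e5 := Int.emod_nonneg (c1 * ((p.1 : ℤ) * a2 + (p.2 : ℤ) * a3)) hq.ne'
        rw [← hp.2, Int.toNat_of_nonneg e5]
      rw [e2]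
      have e4 : ∑ n ∈ I, (((range a3 ×ˢ range a2).filter (fun p : ℕ × ℕ =>
            ((c1 * ((p.1 : ℤ) * a2 + (p.2 : ℤ) * a3)) % ((a2 : ℤ) * a3)).toNat ∈ I)).filter (fun p : ℕ × ℕ =>
            ((c1 * ((p.1 : ℤ) * a2 + (p.2 : ℤ) * a3)) % ((a2 : ℤ) * a3)).toNat = n)).card ≤ ∑ _n ∈ I, mult :=
        sum_le_sum e3
      rw [sum_const, smul_eq_mul] at e4
      have e5 : ((I.card * mult : ℕ) : ℝ) ≤ (mult : ℝ) * (4 ^ j / L ^ (4 * A + 12)) := by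
        push_cast
        rw [mul_comm]
        exact mul_le_mul_of_nonneg_left hIc (Nat.cast_nonneg _)
      refine le_trans ?_ e5
      exact_mod_cast e4
    have hk := key_ineq (Φ j) u v ((a3 * m : ℕ) : ZMod M) ((a2 * m : ℕ) : ZMod M) a2 a3 _ ha21 ha31
      (fun t => by rw [hΦ]; simp only; split_ifs <;> simp)
      (by
        rw [nsmul_eq_mul]
        have e : ((a2 : ℕ) : ZMod M) * ((a3 * m : ℕ) : ZMod M) = ((a2 * a3 * m : ℕ) : ZMod M) := by push_cast; ring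
        rw [e, ← hM]
        exact ZMod.natCast_self M) hper2 hper3 hW
    have hk2 : (∑ t, Φ j t * u t * v t) ^ 2 * (a2 * a3) ≤ (mult : ℝ) * (4 ^ j / L ^ (4 * A + 12)) * (M * E2) * (M * E3) := by
      refine hk.trans ?_
      have e0 : 0 ≤ ∑ t, u t ^ 2 := sum_nonneg fun t _ => sq_nonneg _
      have e0' : 0 ≤ ∑ t, v t ^ 2 := sum_nonneg fun t _ => sq_nonneg _
      apply mul_le_mul _ hSv e0' (by positivity)
      exact mul_le_mul_of_nonneg_left hSu (by positivity)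
    have hk3 : (∑ t, Φ j t * u t * v t) ^ 2 ≤ (M * (2 ^ j * R / L ^ (2 * A + 6))) ^ 2 := by
      have e1 : (M * (2 ^ j * R / L ^ (2 * A + 6))) ^ 2 = (mult : ℝ) * (4 ^ j / L ^ (4 * A + 12)) * (M * E2) * (M * E3) / ((a2 * a3 : ℕ) : ℝ) := by
        rw [mul_pow, div_pow, mul_pow, hR2, ← pow_mul, ← pow_mul, mul_comm j 2, pow_mul 2 2 j,
          show (2 * A + 6) * 2 = 4 * A + 12 by ring]
        norm_num
        ring
      rw [e1, le_div_iff₀ hq0]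
      refine le_trans (le_of_eq ?_) hk2
      push_cast
      ring
    exact le_of_pow_le_pow_left₀ (by norm_num) (by positivity) hk3
  have huv : ∑ t, u t * v t ≤ M * √(E2 * E3) := by
    have e1 := sum_mul_sq_le_sq_mul_sq (univ : Finset (ZMod M)) u v
    have e0 : 0 ≤ ∑ t, u t ^ 2 := sum_nonneg fun t _ => sq_nonneg _
    have e2 : (∑ t, u t * v t) ^ 2 ≤ (M * √(E2 * E3)) ^ 2 := by
      rw [mul_pow, Real.sq_sqrt (by positivity)]
      calc (∑ t, u t * v t) ^ 2 ≤ (∑ t, u t ^ 2) * ∑ t, v t ^ 2 := e1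
        _ ≤ (M * E2) * (M * E3) := mul_le_mul hSu hSv (sum_nonneg fun t _ => sq_nonneg _) (by positivity)
        _ = _ := by ring
    exact le_of_pow_le_pow_left₀ (by norm_num) (by positivity) e2
  have hfin : (M : ℝ) * |S3 c1 c2 c3 d P1 P2 P3 f g2 g3| ≤
      M * (2 * √(E2 * E3) + ((Nat.log 2 P1 : ℝ) + 1) * (2 * P1 * R / L ^ (2 * A + 6))) := by
    refine hcirc.trans ?_
    have e1 : ∀ t : ZMod M, ‖GG M f P1 c1 t‖ * ‖GG M g2 P2 c2 t‖ * ‖GG M g3 P3 c3 t‖ ≤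
        2 * (u t * v t) + ∑ j ∈ range (Nat.log 2 P1 + 1), 2 * (P1 : ℝ) / 2 ^ j * (Φ j t * u t * v t) := by
      intro t
      have e2 := Fh_le (f := f) hP1 ((c1 : ℝ) * ((t.val : ℝ) / M)) (hf _)
      rw [← GG_norm] at e2
      have e3 : ‖GG M f P1 c1 t‖ * ‖GG M g2 P2 c2 t‖ * ‖GG M g3 P3 c3 t‖ = ‖GG M f P1 c1 t‖ * (u t * v t) := by
        rw [hu, hv]; ring
      rw [e3]
      refine (mul_le_mul_of_nonneg_right e2 (mul_nonneg (hu0 t) (hv0 t))).trans (le_of_eq ?_)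
      rw [add_mul, sum_mul]
      congr 1
      apply sum_congr rfl
      intro j _
      rw [hΦ]
      ring
    refine (sum_le_sum fun t _ => e1 t).trans ?_
    rw [sum_add_distrib, ← mul_sum, sum_comm]
    have e2 : ∑ j ∈ range (Nat.log 2 P1 + 1), ∑ t, 2 * (P1 : ℝ) / 2 ^ j * (Φ j t * u t * v t) ≤
        ∑ _j ∈ range (Nat.log 2 P1 + 1), M * (2 * P1 * R / L ^ (2 * A + 6)) := by
      apply sum_le_sum
      intro j hj
      rw [← mul_sum]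
      refine (mul_le_mul_of_nonneg_left (hlev j hj) (by positivity)).trans (le_of_eq ?_)
      field_simp
    rw [sum_const, card_range, nsmul_eq_mul] at e2
    push_cast at e2
    linarith
  exact le_of_mul_le_mul_left hfin hM0

end Pool.Agent.Y883.T6
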